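import Mathlib

/-!
# Project GS2 (helper52), MP_20ddb5_an: definitions

`Γ` is a group of increasing homeomorphisms of the line (all lifts of a group of circle
homeomorphisms); `TT` is the translation by `2 pi`.
-/

set_option autoImplicit false
open Set Filter Topology MeasureTheory Metric

namespace Pool.Agent.H52.GS

/-- translation by the period -/
noncomputable def TT : ℝ ≃o ℝ := OrderIso.addRight (2 * Real.pi)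

/-- `F` is holomorphic on the disc `D(x,r)` and extends `f` -/
def Ext (f : ℝ → ℝ) (F : ℂ → ℂ) (x r : ℝ) : Prop :=
  DifferentiableOn ℂ F (ball (x : ℂ) r) ∧ ∀ y : ℝ, |y - x| < r → F (y : ℂ) = ((f y : ℝ) : ℂ)

/-- `f` extends to a univalent function on the disc `D(x,r)` -/
def Uni (f : ℝ → ℝ) (x r : ℝ) : Prop :=
  ∃ F : ℂ → ℂ, Ext f F x r ∧ InjOn F (ball (x : ℂ) r)

/-- `f` and its inverse extend to `D(x,r)` and are `a`-close to the identity there -/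
def NI (f : ℝ ≃o ℝ) (x r a : ℝ) : Prop :=
  ∃ F F' : ℂ → ℂ, Ext f F x r ∧ Ext ((f⁻¹ : ℝ ≃o ℝ) : ℝ → ℝ) F' x r ∧
    ∀ z ∈ ball (x : ℂ) r, ‖F z - z‖ ≤ a ∧ ‖F' z - z‖ ≤ a

/-- `f` and its inverse move `y` by at most `d` -/
def Mv (f : ℝ ≃o ℝ) (y d : ℝ) : Prop := |f y - y| ≤ d ∧ |(f⁻¹ : ℝ ≃o ℝ) y - y| ≤ d

/-- `f` moves all points of `[x - r/8, x + r/8]` by at most `η r` -/
def LL (f : ℝ ≃o ℝ) (x r η : ℝ) : Prop := ∀ y : ℝ, |y - x| ≤ r / 8 → Mv f y (η * r)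

/-- `f` is a quotient of two elements which are univalent on `D(x,r/2)` -/
def Rel (Γ : Subgroup (ℝ ≃o ℝ)) (f : ℝ ≃o ℝ) (x r : ℝ) : Prop :=
  ∃ w ∈ Γ, ∃ W ∈ Γ, f = W⁻¹ * w ∧ Uni w x (r / 2) ∧ Uni W x (r / 2)

/-- `f y` lies between `g y` and `g⁻¹ y` for all `y` -/
def Le (f g : ℝ ≃o ℝ) : Prop :=
  (∀ y : ℝ, y ≤ g y → (g⁻¹ : ℝ ≃o ℝ) y ≤ f y ∧ f y ≤ g y) ∧
  (∀ y : ℝ, g y ≤ y → g y ≤ f y ∧ f y ≤ (g⁻¹ : ℝ ≃o ℝ) y)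

/-- the standing facts about the group of lifts of a minimal, non ergodic group of real-analytic
circle diffeomorphisms -/
structure Gp (Γ : Subgroup (ℝ ≃o ℝ)) : Prop where
  T_mem : TT ∈ Γ
  comm : ∀ f ∈ Γ, ∀ x : ℝ, f (x + 2 * Real.pi) = f x + 2 * Real.pi
  cnt : (Γ : Set (ℝ ≃o ℝ)).Countable
  ext : ∀ f ∈ Γ, ∃ σ > 0, ∃ F : ℂ → ℂ, DifferentiableOn ℂ F {z : ℂ | |z.im| < σ} ∧
    InjOn F {z : ℂ | |z.im| < σ} ∧ ∀ x : ℝ, F (x : ℂ) = ((f x : ℝ) : ℂ)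
  stab : ∀ z : ℝ, ∃ s ∈ Γ, s z = z ∧ ∀ f ∈ Γ, f z = z → ∃ k : ℤ, f = s ^ k
  rat : ∀ f ∈ Γ, ∃ q : ℕ, 0 < q ∧ ∃ k : ℤ, ∃ z : ℝ, (f ^ q) z = z + k * (2 * Real.pi)
  ld : ∀ x R : ℝ, 0 < R → ∃ ε > 0, ∀ f ∈ Γ, NI f x R ε → f = 1
  expd : ∃ c0 : ℝ, 0 < c0 ∧ ∀ x y : ℝ, x < y → ∃ g ∈ Γ, c0 ≤ g y - g x
  thin : ∀ᵐ x : ℝ, ∀ ε > 0, ∃ r0 > 0, ∀ r : ℝ, 0 < r → r ≤ r0 → ∀ w ∈ Γ, Uni w x r →
    deriv (w : ℝ → ℝ) x * r ≤ ε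

/-- the set of uniformly thin points -/
def XX (Γ : Subgroup (ℝ ≃o ℝ)) (ε re : ℝ) : Set ℝ :=
  {z | ∀ r : ℝ, 0 < r → r ≤ re → ∀ w ∈ Γ, Uni w z r → deriv (w : ℝ → ℝ) z * r ≤ ε}

/-- `y` is on the `a`-side of `x` -/
def Side (a x y : ℝ) : Prop := (a < x → y ≤ x) ∧ (x < a → x ≤ y)

/-- some element of `Γ`, univalent on `D(x,r/2)`, sends a point near `x` into `X` without
expanding the scale `r` beyond `re` -/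
def SS (Γ : Subgroup (ℝ ≃o ℝ)) (X : Set ℝ) (c re a x r : ℝ) : Prop :=
  ∃ g ∈ Γ, ∃ y : ℝ, Side a x y ∧ |y - x| ≤ 2 * c * r ∧ Uni g x (r / 2) ∧ g y ∈ X ∧
    deriv (g : ℝ → ℝ) y * r ≤ re

/-- the cone function on `(α, β)` -/
noncomputable def ph0 (α β x : ℝ) : ℝ := max 0 (min (x - α) (β - x)) / 10000

/-- the component of `a` in `{φ > 0}` -/
def JJ (φ : ℝ → ℝ) (a : ℝ) : Set ℝ := {x | ∀ y ∈ uIcc a x, 0 < φ y}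

/-- words of length at most `n` in `S`, modulo `TT` (for `1 ∈ S`) -/
def BB (S : Set (ℝ ≃o ℝ)) : ℕ → Set (ℝ ≃o ℝ)
  | 0 => {w | ∃ k : ℤ, w = TT ^ k}
  | n + 1 => {w | ∃ s ∈ S, ∃ b ∈ BB S n, w = s * b}

/-- quotients of two words -/
def FF (S : Set (ℝ ≃o ℝ)) (n : ℕ) : Set (ℝ ≃o ℝ) :=
  {f | ∃ w ∈ BB S n, ∃ W ∈ BB S n, f = W⁻¹ * w}

end Pool.Agent.H52.GS
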