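import Mathlib
import Pool.Agent.H52.GS.Def

/-!
# GS-O1: basic facts about increasing homeomorphisms of the line (group `ℝ ≃o ℝ`)

In the group `ℝ ≃o ℝ` the product is the composition: `(f * g) x = f (g x)`
(`RelIso.mul_apply`, `RelIso.coe_mul`, `RelIso.inv_apply_self`, `RelIso.apply_inv_self`,
`zpow_add`, `zpow_one`).

PROOFS.
* `zpow_lt`: if `y < s y` then `(s^k) y < (s^(k+1)) y = (s^k) (s y)` by strict monotonicity of
  `s^k`; `strictMono_int_of_lt_succ`.
* `zpow_gt`: the same for `s y < y` (strictly decreasing), `strictAnti_int_of_succ_lt`.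
* `zpow_fixed`: if `s y ≠ y` use `zpow_lt` or `zpow_gt`: the map `k ↦ (s^k) y` is injective and
  `(s^0) y = y`.
* `fixed_zpow`: induction (`s y = y` gives `s⁻¹ y = y`); e.g. the stabiliser is a subgroup
  (`MulAction.stabilizer` or a direct integer induction).
* `zpow_eq_one`: apply `zpow_fixed` to every `y`, `RelIso.ext`/`OrderIso.ext`.
* `arch`: the sequence `n ↦ (g^n) z` (`n : ℕ`) is strictly increasing. If it were bounded above it
  would converge to its supremum `L` (`tendsto_atTop_ciSup`), and by continuity of `g`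
  (`OrderIso.continuous`) `g L = L`, against `L < g L`.  In the same way `(g^(-n)) z` is not bounded
  below.  So the set of integers `k` with `(g^k) z ≤ x` is nonempty and bounded above; take the
  largest one (`Int.exists_greatest_of_bdd`).
* `TT_zpow`: integer induction (`TT x = x + 2 pi` by definition, `TT⁻¹ x = x - 2 pi`).
* `TT_comm`: by `h.comm` we have `f * TT = TT * f`; `Commute.zpow_right`.
* `per_int`: `f (x + k 2 pi) = f x + k 2 pi` from `TT_comm`, `TT_zpow`.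
* `disp_bdd`: `y ↦ |f y - y|` is continuous, `2 pi`-periodic (`h.comm`), so bounded by its maximum
  on `[0, 2 pi]`; any `y` is `y0 + k 2 pi` with `y0 ∈ [0, 2 pi)` (`toIcoMod` or `Int.floor`).
* `equiv_near`: if `x ≤ y ≤ x + m 2 pi` then `f x ≤ f y ≤ f x + m 2 pi` (`per_int`).
-/

set_option autoImplicit false
open Set Filter Topology MeasureTheory Metric

namespace Pool.Agent.H52.GS

theorem zpow_lt {s : ℝ ≃o ℝ} {y : ℝ} (h : y < s y) : StrictMono (fun k : ℤ => (s ^ k) y) := by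
  apply strictMono_int_of_lt_succ
  intro k
  change (s ^ k) y < (s ^ (k + 1)) y
  rw [zpow_add_one, RelIso.mul_apply]
  exact (s ^ k).strictMono h

theorem zpow_gt {s : ℝ ≃o ℝ} {y : ℝ} (h : s y < y) : StrictAnti (fun k : ℤ => (s ^ k) y) := by
  apply strictAnti_int_of_succ_lt
  intro k
  change (s ^ (k + 1)) y < (s ^ k) y
  rw [zpow_add_one, RelIso.mul_apply]
  exact (s ^ k).strictMono h

theorem zpow_fixed {s : ℝ ≃o ℝ} {y : ℝ} {k : ℤ} (hk : k ≠ 0) (h : (s ^ k) y = y) : s y = y := by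
  by_contra hne
  have h0 : (s ^ (0 : ℤ)) y = y := by rw [zpow_zero]; rfl
  rcases lt_or_gt_of_ne hne with h1 | h1
  · exact hk ((zpow_gt h1).injective (h.trans h0.symm))
  · exact hk ((zpow_lt h1).injective (h.trans h0.symm))

theorem fixed_zpow {s : ℝ ≃o ℝ} {y : ℝ} (k : ℤ) (h : s y = y) : (s ^ k) y = y := by
  have hinv : s⁻¹ y = y := by
    conv_lhs => rw [← h]
    exact RelIso.inv_apply_self s y
  induction k using Int.induction_on with
  | zero => rw [zpow_zero]; rfl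
  | succ n ih => rw [zpow_add_one, RelIso.mul_apply, h, ih]
  | pred n ih => rw [zpow_sub_one, RelIso.mul_apply, hinv, ih]

theorem zpow_eq_one {s : ℝ ≃o ℝ} {k : ℤ} (hk : k ≠ 0) (h : s ^ k = 1) : s = 1 := by
  apply RelIso.ext
  intro y
  have h1 : (s ^ k) y = y := by rw [h]; rfl
  exact zpow_fixed hk h1

theorem O1_up {g : ℝ ≃o ℝ} (h : ∀ y, y < g y) (z x : ℝ) : ∃ n : ℕ, x < (g ^ n) z := by
  by_contra hcon
  push Not at hcon
  have hmono : Monotone fun n : ℕ => (g ^ n) z := by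
    apply monotone_nat_of_le_succ
    intro n
    rw [pow_succ', RelIso.mul_apply]
    exact (h _).le
  have hb : BddAbove (Set.range fun n : ℕ => (g ^ n) z) := by
    refine ⟨x, ?_⟩
    rintro _ ⟨n, rfl⟩
    exact hcon n
  have ht := tendsto_atTop_ciSup hmono hb
  set L := ⨆ n : ℕ, (g ^ n) z with hL
  have ht1 : Tendsto (fun n : ℕ => (g ^ (n + 1)) z) atTop (𝓝 L) :=
    (tendsto_add_atTop_iff_nat 1).mpr ht
  have ht2 : Tendsto (fun n : ℕ => g ((g ^ n) z)) atTop (𝓝 (g L)) :=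
    (g.continuous.tendsto L).comp ht
  have he : (fun n : ℕ => (g ^ (n + 1)) z) = fun n : ℕ => g ((g ^ n) z) := by
    funext n
    rw [pow_succ', RelIso.mul_apply]
  rw [he] at ht1
  have := tendsto_nhds_unique ht1 ht2
  exact absurd this (h L).ne

theorem O1_down {g : ℝ ≃o ℝ} (h : ∀ y, y < g y) (z x : ℝ) : ∃ n : ℕ, (g⁻¹ ^ n) z ≤ x := by
  by_contra hcon
  push Not at hcon
  have hlt : ∀ y, g⁻¹ y < y := by
    intro y
    have h1 := h (g⁻¹ y)
    rwa [RelIso.apply_inv_self] at h1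
  have hanti : Antitone fun n : ℕ => (g⁻¹ ^ n) z := by
    apply antitone_nat_of_succ_le
    intro n
    rw [pow_succ', RelIso.mul_apply]
    exact (hlt _).le
  have hb : BddBelow (Set.range fun n : ℕ => (g⁻¹ ^ n) z) := by
    refine ⟨x, ?_⟩
    rintro _ ⟨n, rfl⟩
    exact (hcon n).le
  have ht := tendsto_atTop_ciInf hanti hb
  set L := ⨅ n : ℕ, (g⁻¹ ^ n) z with hL
  have ht1 : Tendsto (fun n : ℕ => (g⁻¹ ^ (n + 1)) z) atTop (𝓝 L) :=
    (tendsto_add_atTop_iff_nat 1).mpr ht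
  have ht2 : Tendsto (fun n : ℕ => g⁻¹ ((g⁻¹ ^ n) z)) atTop (𝓝 (g⁻¹ L)) :=
    ((g⁻¹ : ℝ ≃o ℝ).continuous.tendsto L).comp ht
  have he : (fun n : ℕ => (g⁻¹ ^ (n + 1)) z) = fun n : ℕ => g⁻¹ ((g⁻¹ ^ n) z) := by
    funext n
    rw [pow_succ', RelIso.mul_apply]
  rw [he] at ht1
  have := tendsto_nhds_unique ht1 ht2
  exact absurd this (hlt L).ne'

theorem arch {g : ℝ ≃o ℝ} (h : ∀ y, y < g y) (z x : ℝ) :
    ∃ k : ℤ, (g ^ k) z ≤ x ∧ x < (g ^ (k + 1)) z := by
  obtain ⟨n, hn⟩ := O1_up h z x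
  obtain ⟨m, hm⟩ := O1_down h z x
  obtain ⟨k, hk, hmax⟩ := Int.exists_greatest_of_bdd (P := fun k : ℤ => (g ^ k) z ≤ x)
    ⟨(n : ℤ), by
      intro k hk
      by_contra hlt
      push Not at hlt
      have h1 := (zpow_lt (h z)) hlt
      simp only [zpow_natCast] at h1
      linarith⟩
    ⟨-(m : ℤ), by
      rw [zpow_neg, zpow_natCast, ← inv_pow]
      exact hm⟩
  refine ⟨k, hk, ?_⟩
  by_contra hlt
  push Not at hlt
  have h2 := hmax (k + 1) hlt
  omega

theorem TT_apply (x : ℝ) : TT x = x + 2 * Real.pi := rfl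

theorem O1_TT_inv (x : ℝ) : TT⁻¹ x = x - 2 * Real.pi := by
  apply TT.injective
  rw [RelIso.apply_inv_self, TT_apply]
  ring

theorem TT_zpow (k : ℤ) (x : ℝ) : (TT ^ k) x = x + k * (2 * Real.pi) := by
  induction k using Int.induction_on generalizing x with
  | zero => rw [zpow_zero]; simp
  | succ n ih =>
    rw [zpow_add_one, RelIso.mul_apply, ih, TT_apply]
    push_cast
    ring
  | pred n ih =>
    rw [zpow_sub_one, RelIso.mul_apply, ih, O1_TT_inv]
    push_cast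
    ring

theorem TT_comm {Γ : Subgroup (ℝ ≃o ℝ)} (h : Gp Γ) {f : ℝ ≃o ℝ} (hf : f ∈ Γ) (k : ℤ) :
    TT ^ k * f = f * TT ^ k := by
  have hc : Commute TT f := by
    apply RelIso.ext
    intro x
    rw [RelIso.mul_apply, RelIso.mul_apply, TT_apply, TT_apply]
    exact (h.comm f hf x).symm
  exact (hc.zpow_left k).eq

theorem per_int {Γ : Subgroup (ℝ ≃o ℝ)} (h : Gp Γ) {f : ℝ ≃o ℝ} (hf : f ∈ Γ) (k : ℤ) (x : ℝ) :
    f (x + k * (2 * Real.pi)) = f x + k * (2 * Real.pi) := by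
  have h1 := congrArg (fun e : ℝ ≃o ℝ => e x) (TT_comm h hf k)
  simp only [RelIso.mul_apply, TT_zpow] at h1
  exact h1.symm

theorem disp_bdd {Γ : Subgroup (ℝ ≃o ℝ)} (h : Gp Γ) {f : ℝ ≃o ℝ} (hf : f ∈ Γ) :
    ∃ D : ℝ, 0 < D ∧ ∀ y, |f y - y| ≤ D := by
  have hcont : ContinuousOn (fun y : ℝ => f y - y) (Set.Icc 0 (2 * Real.pi)) :=
    (f.continuous.sub continuous_id).continuousOn
  obtain ⟨C, hC⟩ := isCompact_Icc.exists_bound_of_continuousOn hcont
  refine ⟨max C 1, lt_of_lt_of_le one_pos (le_max_right _ _), ?_⟩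
  intro y
  have hp : 0 < 2 * Real.pi := Real.two_pi_pos
  set k : ℤ := ⌊y / (2 * Real.pi)⌋ with hk
  have h1 : (k : ℝ) ≤ y / (2 * Real.pi) := Int.floor_le _
  have h2 : y / (2 * Real.pi) < (k : ℝ) + 1 := Int.lt_floor_add_one _
  rw [le_div_iff₀ hp] at h1
  rw [div_lt_iff₀ hp] at h2
  have h3 := hC (y - k * (2 * Real.pi)) ⟨by linarith, by linarith⟩
  have h4 := per_int h hf k (y - k * (2 * Real.pi))
  rw [sub_add_cancel] at h4
  rw [Real.norm_eq_abs] at h3
  have h5 : f y - y = f (y - k * (2 * Real.pi)) - (y - k * (2 * Real.pi)) := by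
    rw [h4]; ring
  rw [h5]
  exact h3.trans (le_max_left _ _)

theorem O1_near {Γ : Subgroup (ℝ ≃o ℝ)} (h : Gp Γ) {f : ℝ ≃o ℝ} (hf : f ∈ Γ) (m : ℕ)
    {x y : ℝ} (hle : x ≤ y) (hxy : y - x ≤ m * (2 * Real.pi)) :
    f x ≤ f y ∧ f y ≤ f x + m * (2 * Real.pi) := by
  refine ⟨f.monotone hle, ?_⟩
  have h1 := per_int h hf (m : ℤ) x
  rw [Int.cast_natCast] at h1
  rw [← h1]
  exact f.monotone (by linarith)

theorem equiv_near {Γ : Subgroup (ℝ ≃o ℝ)} (h : Gp Γ) {f : ℝ ≃o ℝ} (hf : f ∈ Γ) (m : ℕ)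
    {x y : ℝ} (hxy : |x - y| ≤ m * (2 * Real.pi)) : |f x - f y| ≤ m * (2 * Real.pi) := by
  rw [abs_le] at hxy ⊢
  rcases le_total x y with hle | hle
  · obtain ⟨h1, h2⟩ := O1_near h hf m hle (by linarith [hxy.1])
    have h3 : (0 : ℝ) ≤ m * (2 * Real.pi) := by positivity
    constructor <;> linarith
  · obtain ⟨h1, h2⟩ := O1_near h hf m hle (by linarith [hxy.2])
    have h3 : (0 : ℝ) ≤ m * (2 * Real.pi) := by positivity
    constructor <;> linarith

end Pool.Agent.H52.GS
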