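import Mathlib
import Pool.Agent.H52.GS.O1

/-!
# GS-O2: the relations `Le` and `Mv`

`Le f g`: `f y` is between `g⁻¹ y` and `g y` for all `y`.  `Mv f y d`: `f` and `f⁻¹` move `y` by at
most `d`.

PROOFS. (`RelIso.inv_apply_self`, `RelIso.apply_inv_self`; note `y ≤ g y ↔ g⁻¹ y ≤ y`.)
* `Le.invl` (`f⁻¹`): let `y ≤ g y`.  Then `g y ≤ g (g y)`, so the first part of `Le f g` at `g y`
  gives `y = g⁻¹ (g y) ≤ f (g y)`, hence `f⁻¹ y ≤ g y`.  And `g⁻¹ y ≤ y = g (g⁻¹ y)`, so the first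
  part at `g⁻¹ y` gives `f (g⁻¹ y) ≤ g (g⁻¹ y) = y`, hence `g⁻¹ y ≤ f⁻¹ y`.  The case `g y ≤ y` is
  symmetric.
* `Le.invr` (`g⁻¹`): `y ≤ g⁻¹ y ↔ g y ≤ y` and `(g⁻¹)⁻¹ = g`.
* `Le.mv`: `f y` and `f⁻¹ y` (by `Le.invl`) lie between `g⁻¹ y` and `g y`, and both of these are
  within `d` of `y`.
* `le_zpow`: let `0 ≤ i ≤ j`.  If `s y = y` everything is equal to `y` (`fixed_zpow`).  If
  `y < s y`: `zpow_lt` gives `(s^(-j)) y ≤ (s^i) y ≤ (s^j) y` and `y ≤ (s^j) y`; if `s y < y` the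
  same with `zpow_gt`.  (`(s^j)⁻¹ = s^(-j)`.)
* `Le.pow_le`: `Le (f^N) g`, `1 ≤ N` imply `Le f g`: for fixed `y`, `f y` lies between `y` and
  `(f^N) y` (if `f y ≥ y` then `(f^n) y` is increasing in `n`), and `y` lies between `g⁻¹ y` and
  `g y`.
* `mv_pow`: let `d ≥ 0` and `Mv f y d` for all `y` with `|y - x| ≤ r`.  By induction on `n`: if
  `|y - x| ≤ r - n d` then `|(f^n) y - y| ≤ n d` and `|((f^n)⁻¹) y - y| ≤ n d`: indeed
  `f^(n+1) y = f (f^n y)` and `f^n y` is within `n d + (r - (n+1) d) ≤ r` of `x`.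
-/

set_option autoImplicit false
open Set Filter Topology MeasureTheory Metric

namespace Pool.Agent.H52.GS

theorem o2_le_inv {f : ℝ ≃o ℝ} {z y : ℝ} : z ≤ (f⁻¹ : ℝ ≃o ℝ) y ↔ f z ≤ y :=
  f.le_symm_apply

theorem o2_inv_le {f : ℝ ≃o ℝ} {z y : ℝ} : (f⁻¹ : ℝ ≃o ℝ) y ≤ z ↔ y ≤ f z :=
  f.symm_apply_le

theorem Le.invl {f g : ℝ ≃o ℝ} (h : Le f g) : Le f⁻¹ g := by
  refine ⟨fun y hy => ⟨?_, ?_⟩, fun y hy => ⟨?_, ?_⟩⟩
  · rw [o2_le_inv]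
    have h1 : (g⁻¹ : ℝ ≃o ℝ) y ≤ g ((g⁻¹ : ℝ ≃o ℝ) y) := by
      rw [RelIso.apply_inv_self]
      exact o2_inv_le.2 hy
    have h2 := (h.1 _ h1).2
    rwa [RelIso.apply_inv_self] at h2
  · rw [o2_inv_le]
    have h1 : g y ≤ g (g y) := g.monotone hy
    have h2 := (h.1 _ h1).1
    rwa [RelIso.inv_apply_self] at h2
  · rw [o2_le_inv]
    have h1 : g (g y) ≤ g y := g.monotone hy
    have h2 := (h.2 _ h1).2
    rwa [RelIso.inv_apply_self] at h2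
  · rw [o2_inv_le]
    have h1 : g ((g⁻¹ : ℝ ≃o ℝ) y) ≤ (g⁻¹ : ℝ ≃o ℝ) y := by
      rw [RelIso.apply_inv_self]
      exact o2_le_inv.2 hy
    have h2 := (h.2 _ h1).1
    rwa [RelIso.apply_inv_self] at h2

theorem Le.invr {f g : ℝ ≃o ℝ} (h : Le f g) : Le f g⁻¹ := by
  refine ⟨fun y hy => ?_, fun y hy => ?_⟩
  · rw [inv_inv]
    exact h.2 y (o2_le_inv.1 hy)
  · rw [inv_inv]
    exact h.1 y (o2_inv_le.1 hy)

theorem Le.mv {f g : ℝ ≃o ℝ} (h : Le f g) {y d : ℝ} (hg : Mv g y d) : Mv f y d := by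
  obtain ⟨h1, h2⟩ := hg
  rw [abs_le] at h1 h2
  have h3 := h.invl
  rcases le_total y (g y) with hy | hy
  · have a := h.1 y hy
    have b := h3.1 y hy
    exact ⟨abs_le.2 ⟨by linarith, by linarith⟩, abs_le.2 ⟨by linarith, by linarith⟩⟩
  · have a := h.2 y hy
    have b := h3.2 y hy
    exact ⟨abs_le.2 ⟨by linarith, by linarith⟩, abs_le.2 ⟨by linarith, by linarith⟩⟩

theorem le_zpow {s : ℝ ≃o ℝ} {i j : ℤ} (hi : 0 ≤ i) (hij : i ≤ j) : Le (s ^ i) (s ^ j) := by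
  have e0 : ∀ y : ℝ, (s ^ (0 : ℤ)) y = y := fun y => by rw [zpow_zero]; rfl
  refine ⟨fun y hy => ?_, fun y hy => ?_⟩
  · rw [← zpow_neg]
    rcases lt_trichotomy (s y) y with h | h | h
    · have hs := zpow_gt h
      have h1 : (s ^ (0 : ℤ)) y ≤ (s ^ j) y := by rw [e0]; exact hy
      have h2 : j ≤ 0 := hs.le_iff_ge.1 h1
      have h3 : i = 0 := by omega
      have h4 : j = 0 := by omega
      rw [h3, h4, neg_zero]
      exact ⟨le_rfl, le_rfl⟩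
    · rw [fixed_zpow (-j) h, fixed_zpow i h, fixed_zpow j h]
      exact ⟨le_rfl, le_rfl⟩
    · have hs := (zpow_lt h).monotone
      exact ⟨hs (show -j ≤ i by omega), hs hij⟩
  · rw [← zpow_neg]
    rcases lt_trichotomy (s y) y with h | h | h
    · have hs := (zpow_gt h).antitone
      exact ⟨hs hij, hs (show -j ≤ i by omega)⟩
    · rw [fixed_zpow (-j) h, fixed_zpow i h, fixed_zpow j h]
      exact ⟨le_rfl, le_rfl⟩
    · have hs := zpow_lt h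
      have h1 : (s ^ j) y ≤ (s ^ (0 : ℤ)) y := by rw [e0]; exact hy
      have h2 : j ≤ 0 := hs.le_iff_le.1 h1
      have h3 : i = 0 := by omega
      have h4 : j = 0 := by omega
      rw [h3, h4, neg_zero]
      exact ⟨le_rfl, le_rfl⟩

theorem o2_pow_succ (f : ℝ ≃o ℝ) (n : ℕ) (y : ℝ) : (f ^ (n + 1)) y = f ((f ^ n) y) := by
  rw [pow_succ', RelIso.mul_apply]

theorem o2_up {f : ℝ ≃o ℝ} {y : ℝ} (h : y ≤ f y) (n : ℕ) : y ≤ (f ^ n) y := by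
  induction n with
  | zero => rw [pow_zero]; exact le_rfl
  | succ n ih =>
    rw [o2_pow_succ]
    exact h.trans (f.monotone ih)

theorem o2_down {f : ℝ ≃o ℝ} {y : ℝ} (h : f y ≤ y) (n : ℕ) : (f ^ n) y ≤ y := by
  induction n with
  | zero => rw [pow_zero]; exact le_rfl
  | succ n ih =>
    rw [o2_pow_succ]
    exact (f.monotone ih).trans h

theorem Le.pow_le {f g : ℝ ≃o ℝ} {N : ℕ} (hN : 1 ≤ N) (h : Le (f ^ N) g) : Le f g := by
  obtain ⟨n, rfl⟩ : ∃ n, N = n + 1 := ⟨N - 1, by omega⟩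
  have hup : ∀ y : ℝ, y ≤ f y → f y ≤ (f ^ (n + 1)) y := fun y hy => by
    rw [o2_pow_succ]
    exact f.monotone (o2_up hy n)
  have hdn : ∀ y : ℝ, f y ≤ y → (f ^ (n + 1)) y ≤ f y := fun y hy => by
    rw [o2_pow_succ]
    exact f.monotone (o2_down hy n)
  refine ⟨fun y hy => ?_, fun y hy => ?_⟩
  · obtain ⟨h1, h2⟩ := h.1 y hy
    have h3 : (g⁻¹ : ℝ ≃o ℝ) y ≤ y := o2_inv_le.2 hy
    rcases le_total y (f y) with h4 | h4
    · exact ⟨h3.trans h4, (hup y h4).trans h2⟩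
    · exact ⟨h1.trans (hdn y h4), h4.trans hy⟩
  · obtain ⟨h1, h2⟩ := h.2 y hy
    have h3 : y ≤ (g⁻¹ : ℝ ≃o ℝ) y := o2_le_inv.2 hy
    rcases le_total y (f y) with h4 | h4
    · exact ⟨hy.trans h4, (hup y h4).trans h2⟩
    · exact ⟨h1.trans (hdn y h4), h4.trans h3⟩

theorem Mv.inv {f : ℝ ≃o ℝ} {y d : ℝ} (h : Mv f y d) : Mv f⁻¹ y d := by
  refine ⟨h.2, ?_⟩
  rw [inv_inv]
  exact h.1

theorem Mv.mono {f : ℝ ≃o ℝ} {y d e : ℝ} (h : Mv f y d) (hde : d ≤ e) : Mv f y e :=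
  ⟨h.1.trans hde, h.2.trans hde⟩

theorem mv_pow {f : ℝ ≃o ℝ} {x r d : ℝ} (hd : 0 ≤ d) (h : ∀ y, |y - x| ≤ r → Mv f y d) (n : ℕ)
    {y : ℝ} (hy : |y - x| ≤ r - n * d) : Mv (f ^ n) y (n * d) := by
  induction n with
  | zero =>
    rw [pow_zero]
    refine ⟨?_, ?_⟩
    · show |y - y| ≤ _
      simp
    · rw [inv_one]
      show |y - y| ≤ _
      simp
  | succ n ih =>
    push_cast at hy
    obtain ⟨h1, h2⟩ := ih (by linarith)
    have h3 : |(f ^ n) y - x| ≤ r := by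
      rw [abs_le] at h1 hy ⊢
      constructor <;> linarith
    have h4 : |((f ^ n)⁻¹ : ℝ ≃o ℝ) y - x| ≤ r := by
      rw [abs_le] at h2 hy ⊢
      constructor <;> linarith
    obtain ⟨h5, -⟩ := h _ h3
    obtain ⟨-, h6⟩ := h _ h4
    refine ⟨?_, ?_⟩
    · rw [o2_pow_succ]
      push_cast
      rw [abs_le] at h1 h5 ⊢
      constructor <;> linarith
    · have e : ((f ^ (n + 1))⁻¹ : ℝ ≃o ℝ) y = (f⁻¹ : ℝ ≃o ℝ) (((f ^ n)⁻¹ : ℝ ≃o ℝ) y) := by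
        rw [pow_succ, mul_inv_rev, RelIso.mul_apply]
      rw [e]
      push_cast
      rw [abs_le] at h2 h6 ⊢
      constructor <;> linarith

theorem LL.mono {f : ℝ ≃o ℝ} {x r η η' : ℝ} (hr : 0 ≤ r) (h : LL f x r η) (hη : η ≤ η') :
    LL f x r η' := fun y hy => (h y hy).mono (mul_le_mul_of_nonneg_right hη hr)

theorem LL.inv {f : ℝ ≃o ℝ} {x r η : ℝ} (h : LL f x r η) : LL f⁻¹ x r η :=
  fun y hy => (h y hy).inv

end Pool.Agent.H52.GS
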