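import Mathlib
import Pool.Agent.H52.GS.O2

/-!
# GS-C3: stabilisers, conjugation of the generator

PROOF of `stab_facts`.  Take `σ` from `h.stab z`: `σ z = z` and `c = σ^a`; `a ≠ 0` since `c ≠ 1`.
`σ y = y ↔ c y = y` by `fixed_zpow`, `zpow_fixed`.  Let `c z' = z'` and `f ∈ Γ`, `f z' = z'`.  Take
`σ'` from `h.stab z'`: `f = σ'^k`, `σ = σ'^b` (as `σ z' = z'`), `c = σ'^a'` with `a' ≠ 0`, so `σ'`
fixes `z` too (`zpow_fixed` and `c z = z`), and `σ' = σ^b'` by the choice of `σ`.  So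
`σ = σ^(b' b)`, `σ^(b' b - 1) = 1`, and `σ ≠ 1` (else `c = 1`), so `b' b = 1` (`zpow_eq_one`),
`b' = 1` or `b' = -1` (`Int.isUnit_iff`), `f = σ'^k = σ^(b' k)`.

PROOF of `conj_gen`.  `t σ t⁻¹` fixes `t z`, and `c (t z) = t z`, so `t σ t⁻¹ = σ^e` (`hst`).
`t⁻¹ σ t` fixes `t⁻¹ z` and `c (t⁻¹ z) = t⁻¹ z`, so `t⁻¹ σ t = σ^e'`.  Then
`σ = t (t⁻¹ σ t) t⁻¹ = t σ^e' t⁻¹ = (t σ t⁻¹)^e' = σ^(e e')` (`conj_zpow`), and `σ ≠ 1`, so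
`e e' = 1`, `e = 1` or `e = -1`.  (`σ z = z` since `c = σ^a`, `a ≠ 0`: `zpow_fixed`.)
-/

set_option autoImplicit false
open Set Filter Topology MeasureTheory Metric

namespace Pool.Agent.H52.GS

theorem c3_unit {s : ℝ ≃o ℝ} (hs : s ≠ 1) {i j : ℤ} (h : s = s ^ (i * j)) :
    i = 1 ∨ i = -1 := by
  have h1 : s ^ (i * j - 1) = 1 := by
    rw [zpow_sub, zpow_one, ← h, mul_inv_cancel]
  have h2 : i * j - 1 = 0 := by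
    by_contra hne
    exact hs (zpow_eq_one hne h1)
  have h3 : i * j = 1 := by omega
  exact Int.isUnit_iff.1 (IsUnit.of_mul_eq_one j h3)

theorem c3_fix {s : ℝ ≃o ℝ} {a : ℤ} (ha : a ≠ 0) (y : ℝ) : s y = y ↔ (s ^ a) y = y :=
  ⟨fixed_zpow a, zpow_fixed ha⟩

theorem stab_facts {Γ : Subgroup (ℝ ≃o ℝ)} (h : Gp Γ) {c : ℝ ≃o ℝ} (hc : c ∈ Γ) (hc1 : c ≠ 1)
    {z : ℝ} (hz : c z = z) :
    ∃ σ ∈ Γ, ∃ a : ℤ, a ≠ 0 ∧ c = σ ^ a ∧ (∀ y, σ y = y ↔ c y = y) ∧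
      ∀ z' : ℝ, c z' = z' → ∀ f ∈ Γ, f z' = z' → ∃ k : ℤ, f = σ ^ k := by
  obtain ⟨σ, hσ, hσz, hσs⟩ := h.stab z
  obtain ⟨a, ha⟩ := hσs c hc hz
  have ha0 : a ≠ 0 := by
    rintro rfl
    rw [zpow_zero] at ha
    exact hc1 ha
  have hσ1 : σ ≠ 1 := by
    rintro rfl
    rw [one_zpow] at ha
    exact hc1 ha
  have hfix : ∀ y, σ y = y ↔ c y = y := fun y => by rw [ha]; exact c3_fix ha0 y
  refine ⟨σ, hσ, a, ha0, ha, hfix, ?_⟩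
  intro z' hz' f hf hfz
  obtain ⟨σ', hσ', hσz', hσs'⟩ := h.stab z'
  obtain ⟨k, hk⟩ := hσs' f hf hfz
  obtain ⟨b, hb⟩ := hσs' σ hσ ((hfix z').2 hz')
  obtain ⟨a', ha'⟩ := hσs' c hc hz'
  have ha0' : a' ≠ 0 := by
    rintro rfl
    rw [zpow_zero] at ha'
    exact hc1 ha'
  have h1 : σ' z = z := (c3_fix ha0' z).2 (by rw [← ha']; exact hz)
  obtain ⟨b', hb'⟩ := hσs σ' hσ' h1
  have h2 : σ = σ ^ (b' * b) := by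
    rw [zpow_mul, ← hb', ← hb]
  exact ⟨b' * k, by rw [zpow_mul, ← hb', ← hk]⟩

theorem conj_gen {Γ : Subgroup (ℝ ≃o ℝ)} {c σ t : ℝ ≃o ℝ} {a : ℤ}
    (hσ : σ ∈ Γ) (ht : t ∈ Γ) (ha : a ≠ 0) (hc : c = σ ^ a) (hc1 : c ≠ 1) {z : ℝ} (hz : c z = z)
    (hst : ∀ z' : ℝ, c z' = z' → ∀ f ∈ Γ, f z' = z' → ∃ k : ℤ, f = σ ^ k)
    (hK : ∀ y, c y = y → c (t y) = t y)
    (hK' : ∀ y, c y = y → c ((t⁻¹ : ℝ ≃o ℝ) y) = (t⁻¹ : ℝ ≃o ℝ) y) :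
    t * σ * t⁻¹ = σ ∨ t * σ * t⁻¹ = σ⁻¹ := by
  have hσ1 : σ ≠ 1 := by
    rintro rfl
    rw [one_zpow] at hc
    exact hc1 hc
  have hσz : σ z = z := (c3_fix ha z).2 (by rw [← hc]; exact hz)
  obtain ⟨e, he⟩ := hst (t z) (hK z hz) (t * σ * t⁻¹)
    (Γ.mul_mem (Γ.mul_mem ht hσ) (Γ.inv_mem ht)) (by
      rw [RelIso.mul_apply, RelIso.mul_apply, RelIso.inv_apply_self, hσz])
  obtain ⟨e', he'⟩ := hst ((t⁻¹ : ℝ ≃o ℝ) z) (hK' z hz) (t⁻¹ * σ * t)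
    (Γ.mul_mem (Γ.mul_mem (Γ.inv_mem ht) hσ) ht) (by
      rw [RelIso.mul_apply, RelIso.mul_apply, RelIso.apply_inv_self, hσz])
  have h1 : σ = σ ^ (e * e') := by
    have e1 : σ = t * (t⁻¹ * σ * t) * t⁻¹ := by group
    have e2 : t * (t⁻¹ * σ * t) * t⁻¹ = t * σ ^ e' * t⁻¹ := by rw [he']
    have e3 : t * σ ^ e' * t⁻¹ = (t * σ * t⁻¹) ^ e' := (conj_zpow).symm
    have e4 : (t * σ * t⁻¹) ^ e' = σ ^ (e * e') := by rw [he, zpow_mul]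
    exact e1.trans (e2.trans (e3.trans e4))
  rcases c3_unit hσ1 h1 with h2 | h2
  · left
    rw [he, h2, zpow_one]
  · right
    rw [he, h2, zpow_neg, zpow_one]

end Pool.Agent.H52.GS
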