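import Mathlib
import Pool.Agent.H52.GS.O1

/-!
# GS-O3: fixed points are locally finite

PROOF.  Let `σ, F` be as in `h.ext c`.  The strip `U = {z : ℂ | |z.im| < σ}` is open and convex
(so preconnected), `F z - z` is holomorphic (analytic) on `U`.  Suppose
`K = {y ∈ [p,q] | c y = y}` is infinite.  By compactness of `[p, q]` it has an accumulation point
`y0` (`Set.Infinite.exists_accPt_of_subset_isCompact` or
`IsCompact.exists_accPt...`); then `F z - z = 0` frequently in `𝓝[≠] (y0 : ℂ)`, so by the identity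
theorem (`AnalyticOnNhd.eqOn_zero_of_preconnected_of_frequently_eq_zero`) `F z = z` on `U`; in
particular `c y = y` for all real `y`, so `c = 1` (`RelIso.ext`), a contradiction.
-/

set_option autoImplicit false
open Set Filter Topology MeasureTheory Metric

namespace Pool.Agent.H52.GS

theorem o3_strip_convex (σ : ℝ) : Convex ℝ {z : ℂ | |z.im| < σ} := by
  have h : {z : ℂ | |z.im| < σ} = Complex.imLm ⁻¹' (Ioo (-σ) σ) := by
    ext z
    simp [abs_lt]
  rw [h]
  exact (convex_Ioo (-σ) σ).linear_preimage Complex.imLm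

theorem o3_strip_open (σ : ℝ) : IsOpen {z : ℂ | |z.im| < σ} :=
  isOpen_lt (continuous_abs.comp Complex.continuous_im) continuous_const

theorem o3_tendsto (y0 : ℝ) : Tendsto (fun y : ℝ => (y : ℂ)) (𝓝[≠] y0) (𝓝[≠] (y0 : ℂ)) := by
  rw [tendsto_nhdsWithin_iff]
  refine ⟨(Complex.continuous_ofReal.tendsto y0).mono_left nhdsWithin_le_nhds, ?_⟩
  filter_upwards [self_mem_nhdsWithin] with y hy
  intro h
  exact hy (Complex.ofReal_injective h)

theorem fix_fin {Γ : Subgroup (ℝ ≃o ℝ)} (h : Gp Γ) {c : ℝ ≃o ℝ} (hc : c ∈ Γ) (hc1 : c ≠ 1)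
    (p q : ℝ) : {y : ℝ | y ∈ Icc p q ∧ c y = y}.Finite := by
  by_contra hinf
  apply hc1
  obtain ⟨σ, hσ, F, hF, -, hFc⟩ := h.ext c hc
  have hK : {y : ℝ | y ∈ Icc p q ∧ c y = y}.Infinite := hinf
  obtain ⟨y0, -, hy0⟩ := hK.exists_accPt_of_subset_isCompact (isCompact_Icc (a := p) (b := q))
    (fun y hy => hy.1)
  rw [accPt_iff_frequently_nhdsNE] at hy0
  have hU : IsPreconnected {z : ℂ | |z.im| < σ} := (o3_strip_convex σ).isPreconnected
  have hr : ∀ y : ℝ, (y : ℂ) ∈ {z : ℂ | |z.im| < σ} := by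
    intro y
    simp [hσ]
  have hG : DifferentiableOn ℂ (fun z => F z - z) {z : ℂ | |z.im| < σ} :=
    hF.sub differentiableOn_id
  have hA : AnalyticOnNhd ℂ (fun z => F z - z) {z : ℂ | |z.im| < σ} :=
    hG.analyticOnNhd (o3_strip_open σ)
  have hfr : ∃ᶠ z in 𝓝[≠] (y0 : ℂ), (fun z => F z - z) z = 0 := by
    refine (o3_tendsto y0).frequently (hy0.mono ?_)
    intro y hy
    have h1 : F (y : ℂ) = ((c y : ℝ) : ℂ) := hFc y
    change F (y : ℂ) - (y : ℂ) = 0
    rw [h1, hy.2, sub_self]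
  have hE := hA.eqOn_zero_of_preconnected_of_frequently_eq_zero hU (hr y0) hfr
  refine RelIso.ext fun y => ?_
  have h2 : F (y : ℂ) - (y : ℂ) = 0 := hE (hr y)
  rw [hFc y, sub_eq_zero] at h2
  exact Complex.ofReal_injective h2

end Pool.Agent.H52.GS
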