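import Mathlib
import Pool.Agent.H52.GS.O3

/-!
# GS-C4: pigeonhole on the fixed points modulo the period

PROOF.  `K = {y | c y = y}` is invariant under `TT` (`TT_comm`).  For `n : ℕ` the point
`(t^n) z` lies in `K` (`hK`), so its residue `r n = (t^n) z - k_n 2 pi ∈ [0, 2 pi)`
(`k_n = ⌊(t^n) z / (2 pi)⌋`) lies in the finite set `{y ∈ [0, 2 pi] | c y = y}` (`fix_fin`).  So
there are `i < j` with `r i = r j` (`Finite.exists_ne_map_eq_of_infinite` or
`Set.Finite...`): `(t^j) z = (TT^k) ((t^i) z)` with `k = k_j - k_i`.  The element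
`(t^i)⁻¹ * TT^(-k) * t^j ∈ Γ` fixes `z`, so it equals `σ^b` (`hst`), and since `TT^k` commutes with
`t^i` (`TT_comm`): `t^(j-i) = TT^k * σ^b`.
-/

set_option autoImplicit false
open Set Filter Topology MeasureTheory Metric

namespace Pool.Agent.H52.GS

theorem pigeon {Γ : Subgroup (ℝ ≃o ℝ)} (h : Gp Γ) {c σ t : ℝ ≃o ℝ} (hc : c ∈ Γ) (hc1 : c ≠ 1)
    (ht : t ∈ Γ) {z : ℝ} (hz : c z = z)
    (hst : ∀ f ∈ Γ, f z = z → ∃ k : ℤ, f = σ ^ k)
    (hK : ∀ y, c y = y → c (t y) = t y) :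
    ∃ q : ℕ, 0 < q ∧ ∃ k b : ℤ, t ^ q = TT ^ k * σ ^ b := by
  have hp : 0 < 2 * Real.pi := Real.two_pi_pos
  have horb : ∀ n : ℕ, c ((t ^ n) z) = (t ^ n) z := by
    intro n
    induction n with
    | zero => rw [pow_zero]; exact hz
    | succ n ih => rw [pow_succ', RelIso.mul_apply]; exact hK _ ih
  let K : ℕ → ℤ := fun n => ⌊((t ^ n) z) / (2 * Real.pi)⌋
  let r : ℕ → ℝ := fun n => (t ^ n) z - (K n : ℝ) * (2 * Real.pi)
  have hr : ∀ n, r n ∈ {y : ℝ | y ∈ Icc 0 (2 * Real.pi) ∧ c y = y} := by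
    intro n
    have h1 : (K n : ℝ) * (2 * Real.pi) ≤ (t ^ n) z := by
      have := Int.floor_le (((t ^ n) z) / (2 * Real.pi))
      rwa [le_div_iff₀ hp] at this
    have h2 : (t ^ n) z < ((K n : ℝ) + 1) * (2 * Real.pi) := by
      have := Int.lt_floor_add_one (((t ^ n) z) / (2 * Real.pi))
      rwa [div_lt_iff₀ hp] at this
    refine ⟨⟨?_, ?_⟩, ?_⟩
    · change 0 ≤ (t ^ n) z - (K n : ℝ) * (2 * Real.pi)
      linarith
    · change (t ^ n) z - (K n : ℝ) * (2 * Real.pi) ≤ 2 * Real.pi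
      linarith
    · change c ((t ^ n) z - (K n : ℝ) * (2 * Real.pi)) = (t ^ n) z - (K n : ℝ) * (2 * Real.pi)
      have h3 := per_int h hc (-K n) ((t ^ n) z)
      rw [horb n] at h3
      push_cast at h3
      have h4 : (t ^ n) z - (K n : ℝ) * (2 * Real.pi) = (t ^ n) z + -(K n : ℝ) * (2 * Real.pi) := by
        ring
      rw [h4]
      exact h3
  have hfin := fix_fin h hc hc1 0 (2 * Real.pi)
  obtain ⟨i, j, hij, hrij⟩ : ∃ i j : ℕ, i < j ∧ r i = r j := by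
    by_contra hcon
    push Not at hcon
    have hinj : Function.Injective r := by
      intro a b hab
      rcases lt_trichotomy a b with h1 | h1 | h1
      · exact absurd hab (hcon a b h1)
      · exact h1
      · exact absurd hab.symm (hcon b a h1)
    exact (Set.infinite_range_of_injective hinj) (hfin.subset (Set.range_subset_iff.2 hr))
  refine ⟨j - i, Nat.sub_pos_of_lt hij, K j - K i, ?_⟩
  have htj : (t ^ j) z = (t ^ i) z + ((K j - K i : ℤ) : ℝ) * (2 * Real.pi) := by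
    have h1 : (t ^ i) z - (K i : ℝ) * (2 * Real.pi) = (t ^ j) z - (K j : ℝ) * (2 * Real.pi) := hrij
    push_cast
    linarith
  have hg : ((t ^ i)⁻¹ * TT ^ (-(K j - K i)) * t ^ j) ∈ Γ :=
    Γ.mul_mem (Γ.mul_mem (Γ.inv_mem (Γ.pow_mem ht i)) (Γ.zpow_mem h.T_mem _)) (Γ.pow_mem ht j)
  have hgz : ((t ^ i)⁻¹ * TT ^ (-(K j - K i)) * t ^ j) z = z := by
    rw [RelIso.mul_apply, RelIso.mul_apply, TT_zpow, htj]
    have h2 : (t ^ i) z + ((K j - K i : ℤ) : ℝ) * (2 * Real.pi) +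
        ((-(K j - K i) : ℤ) : ℝ) * (2 * Real.pi) = (t ^ i) z := by
      push_cast
      ring
    rw [h2]
    exact RelIso.inv_apply_self (t ^ i) z
  obtain ⟨b, hb⟩ := hst _ hg hgz
  refine ⟨b, ?_⟩
  have hcomm := TT_comm h (Γ.pow_mem ht i) (K j - K i)
  rw [← hb]
  have h5 : t ^ (j - i) = (t ^ i)⁻¹ * t ^ j := by
    rw [eq_inv_mul_iff_mul_eq, ← pow_add, Nat.add_sub_cancel' hij.le]
  rw [h5, zpow_neg]
  have h6 : TT ^ (K j - K i) * (t ^ i)⁻¹ = (t ^ i)⁻¹ * TT ^ (K j - K i) := by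
    rw [eq_inv_mul_iff_mul_eq, ← mul_assoc, ← hcomm, mul_assoc, mul_inv_cancel, mul_one]
  rw [← mul_assoc, ← mul_assoc, h6, mul_assoc (t ^ i)⁻¹, mul_inv_cancel, mul_one]

end Pool.Agent.H52.GS
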