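import Mathlib
import Pool.Agent.H52.GS.O1

/-!
# GS-C5: a Heisenberg relation gives a fixed point of the commutator

PROOF.  Suppose `c` has no fixed point.  By continuity and the IVT either `y < c y` for all `y`, or
`c y < y` for all `y`.  `y ↦ c y - y` is continuous, `2 pi` periodic and never zero, so
`|c y - y| ≥ d > 0` for all `y`, with a constant sign.  By induction
`|(c^n) y - y| ≥ n d` for all `n : ℕ` and `y` (all steps have the same sign), and the same for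
`c⁻ⁿ` (apply at `y' = c⁻ⁿ y`).
From `t s t⁻¹ = c⁻¹ s` and `c s = s c` we get `t (s^n) t⁻¹ = (c⁻¹ s)^n = (c⁻¹)^n s^n`
(`Commute.mul_pow`, `conj_pow`).
Let `D` bound the displacement of `t` (`disp_bdd`), and let `m` be a natural number with
`D ≤ m 2 pi`.  Fix `y = 0` and put `y' = t⁻¹ y`; `|y' - y| = |y' - t y'| ≤ D ≤ m 2 pi`, so
`|(s^n) y' - (s^n) y| ≤ m 2 pi` (`equiv_near` for `s^n ∈ Γ`), and
`|t ((s^n) y') - (s^n) y'| ≤ D`.  Hence `|(t s^n t⁻¹) y - (s^n) y| ≤ D + m 2 pi` for all `n`.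
But `(t s^n t⁻¹) y = (c⁻ⁿ) ((s^n) y)`, which is at distance `≥ n d` from `(s^n) y`.  For large `n`
this is a contradiction.
-/

set_option autoImplicit false
open Set Filter Topology MeasureTheory Metric

namespace Pool.Agent.H52.GS

theorem C5_up {Γ : Subgroup (ℝ ≃o ℝ)} (h : Gp Γ) {c : ℝ ≃o ℝ} (hc : c ∈ Γ)
    (hlt : ∀ y, y < c y) : ∃ δ : ℝ, 0 < δ ∧ ∀ (n : ℕ) (y : ℝ), y + n * δ ≤ (c ^ n) y := by
  have hcont : ContinuousOn (fun y : ℝ => c y - y) (Set.Icc 0 (2 * Real.pi)) :=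
    (c.continuous.sub continuous_id).continuousOn
  have hp : 0 < 2 * Real.pi := Real.two_pi_pos
  obtain ⟨y₀, hy₀, hmin⟩ := isCompact_Icc.exists_isMinOn ⟨0, by constructor <;> linarith⟩ hcont
  have hδ : 0 < c y₀ - y₀ := sub_pos.2 (hlt y₀)
  have hall : ∀ y, y + (c y₀ - y₀) ≤ c y := by
    intro y
    set k : ℤ := ⌊y / (2 * Real.pi)⌋ with hk
    have h1 : (k : ℝ) ≤ y / (2 * Real.pi) := Int.floor_le _
    have h2 : y / (2 * Real.pi) < (k : ℝ) + 1 := Int.lt_floor_add_one _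
    rw [le_div_iff₀ hp] at h1
    rw [div_lt_iff₀ hp] at h2
    have h3 := isMinOn_iff.1 hmin (y - k * (2 * Real.pi)) ⟨by linarith, by linarith⟩
    have h4 := per_int h hc k (y - k * (2 * Real.pi))
    rw [sub_add_cancel] at h4
    linarith
  refine ⟨c y₀ - y₀, hδ, ?_⟩
  intro n
  induction n with
  | zero =>
    intro y
    rw [pow_zero]
    simp
  | succ n ih =>
    intro y
    rw [pow_succ', RelIso.mul_apply]
    have h1 := ih y
    have h2 := hall ((c ^ n) y)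
    push_cast
    linarith

theorem C5_inv {Γ : Subgroup (ℝ ≃o ℝ)} (h : Gp Γ) {c : ℝ ≃o ℝ} (hc : c ∈ Γ)
    (hne : ∀ z, c z ≠ z) :
    ∃ δ : ℝ, 0 < δ ∧ ∀ (n : ℕ) (y : ℝ), n * δ ≤ |(c⁻¹ ^ n) y - y| := by
  have hsign : (∀ y, y < c y) ∨ (∀ y, c y < y) := by
    by_contra hcon
    push Not at hcon
    obtain ⟨⟨a, ha⟩, b, hb⟩ := hcon
    have hcont : Continuous fun y : ℝ => c y - y := c.continuous.sub continuous_id
    obtain ⟨z, hz⟩ := mem_range_of_exists_le_of_exists_ge (c := (0 : ℝ)) hcont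
      ⟨a, by linarith⟩ ⟨b, by linarith⟩
    exact hne z (sub_eq_zero.1 hz)
  rcases hsign with h1 | h1
  · obtain ⟨δ, hδ, h2⟩ := C5_up h hc h1
    refine ⟨δ, hδ, fun n y => ?_⟩
    have h3 := h2 n ((c⁻¹ ^ n) y)
    have h4 : (c ^ n) ((c⁻¹ ^ n) y) = y := by
      rw [inv_pow]
      exact RelIso.apply_inv_self _ _
    rw [h4] at h3
    rw [abs_sub_comm]
    exact le_trans (by linarith) (le_abs_self _)
  · have h1' : ∀ y, y < c⁻¹ y := by
      intro y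
      have h3 := h1 (c⁻¹ y)
      rwa [RelIso.apply_inv_self] at h3
    obtain ⟨δ, hδ, h2⟩ := C5_up h (Γ.inv_mem hc) h1'
    refine ⟨δ, hδ, fun n y => ?_⟩
    have h3 := h2 n y
    exact le_trans (by linarith) (le_abs_self _)

theorem heis_fix {Γ : Subgroup (ℝ ≃o ℝ)} (h : Gp Γ) {s t c : ℝ ≃o ℝ} (hs : s ∈ Γ) (ht : t ∈ Γ)
    (hc : c ∈ Γ) (hcs : c * s = s * c) (hts : t * s * t⁻¹ = c⁻¹ * s) : ∃ z, c z = z := by
  by_contra hcon
  push Not at hcon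
  obtain ⟨δ, hδ, hfar⟩ := C5_inv h hc hcon
  obtain ⟨D, hD, hdisp⟩ := disp_bdd h ht
  obtain ⟨m, hm⟩ := exists_nat_ge (D / (2 * Real.pi))
  have hp : 0 < 2 * Real.pi := Real.two_pi_pos
  rw [div_le_iff₀ hp] at hm
  obtain ⟨n, hn⟩ := exists_nat_gt ((D + m * (2 * Real.pi)) / δ)
  rw [div_lt_iff₀ hδ] at hn
  have hcomm : Commute c⁻¹ s := Commute.inv_left hcs
  have hpow : t * s ^ n * t⁻¹ = c⁻¹ ^ n * s ^ n := by
    rw [← conj_pow, hts, hcomm.mul_pow]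
  have hev : t ((s ^ n) (t⁻¹ 0)) = (c⁻¹ ^ n) ((s ^ n) 0) := by
    have h1 := congrArg (fun e : ℝ ≃o ℝ => e 0) hpow
    simp only [RelIso.mul_apply] at h1
    exact h1
  have h1 : |(0 : ℝ) - t⁻¹ 0| ≤ D := by
    have h2 := hdisp (t⁻¹ 0)
    rwa [RelIso.apply_inv_self] at h2
  have h2 : |(s ^ n) (t⁻¹ 0) - (s ^ n) 0| ≤ m * (2 * Real.pi) := by
    refine equiv_near h (Γ.pow_mem hs n) m ?_
    rw [abs_sub_comm]
    exact h1.trans hm
  have h3 := hdisp ((s ^ n) (t⁻¹ 0))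
  have h4 := hfar n ((s ^ n) 0)
  rw [← hev] at h4
  have h5 : |t ((s ^ n) (t⁻¹ 0)) - (s ^ n) 0| ≤
      |t ((s ^ n) (t⁻¹ 0)) - (s ^ n) (t⁻¹ 0)| + |(s ^ n) (t⁻¹ 0) - (s ^ n) 0| :=
    abs_sub_le _ _ _
  linarith

end Pool.Agent.H52.GS
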