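import Mathlib
import Pool.Agent.H52.GS.C3
import Pool.Agent.H52.GS.O3

/-!
# GS-C7: centralisers of non-torsion elements

PROOF of `hyp_data`.  By `h.rat` there are `q > 0`, `k`, `z` with `(g^q) z = z + k 2 pi`.  Put
`c = TT^(-k) * g^q ∈ Γ`; `c z = z` (`TT_zpow`) and `c ≠ 1` by `hnt`.  Any `f ∈ Γ` commuting with `g`
commutes with `c` (`TT_comm`).

PROOF of `cent_gen`.  `c ∈ Γ`, `c ≠ 1`, `c z = z`; `σ, a` as in `stab_facts`.  Let
`Z = {f ∈ Γ | f c = c f}`.  Each `f ∈ Z` maps `K = Fix c` onto itself.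
The set `A = {f z | f ∈ Z, z < f z, f z ≤ z + 2 pi}` contains `TT z` and is contained in the finite
set `{y ∈ [z, z + 2 pi] | c y = y}` (`fix_fin`), so it has a least element `f1 z`, `f1 ∈ Z`; then
every `f ∈ Z` with `z < f z` has `f1 z ≤ f z` (`hmin`).
Let `f ∈ Z`.  The points `(f1^n) z`, `n : ℤ`, are strictly increasing (`zpow_lt`) and lie in `K`.
They are unbounded above and below: `K ∩ [p,q]` is finite.  So there is `i : ℤ` with
`(f1^i) z ≤ f z < (f1^(i+1)) z`.  Then `f' = f1^(-i) f ∈ Z` has `z ≤ f' z < f1 z`, so `f' z = z` by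
`hmin`, and `f' = σ^j` (`stab_facts`).  So `f = f1^i σ^j`.
`f1 σ f1⁻¹ = σ^e`, `e = ±1` (`conj_gen`), and `f1 c = c f1` gives `σ^(e a) = σ^a`, `e = 1`.

PROOF of `cent_comm`.  `f, f' ` commute with `g`, hence with `c`; `f = f1^i σ^j`,
`f' = f1^i' σ^j'` and `f1 σ = σ f1`, so `f f' = f' f`.
-/

set_option autoImplicit false
open Set Filter Topology MeasureTheory Metric

namespace Pool.Agent.H52.GS

theorem c7_comm_apply {f c : ℝ ≃o ℝ} (h : f * c = c * f) {y : ℝ} (hy : c y = y) :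
    c (f y) = f y := by
  have h1 : (f * c) y = (c * f) y := by rw [h]
  simp only [RelIso.mul_apply] at h1
  rw [hy] at h1
  exact h1.symm

theorem hyp_data {Γ : Subgroup (ℝ ≃o ℝ)} (h : Gp Γ) {g : ℝ ≃o ℝ} (hg : g ∈ Γ)
    (hnt : ∀ q : ℕ, 0 < q → ∀ k : ℤ, g ^ q ≠ TT ^ k) :
    ∃ c ∈ Γ, c ≠ 1 ∧ (∃ z, c z = z) ∧ ∀ f ∈ Γ, f * g = g * f → f * c = c * f := by
  obtain ⟨q, hq, k, z, hz⟩ := h.rat g hg
  refine ⟨TT ^ (-k) * g ^ q, Γ.mul_mem (Γ.zpow_mem h.T_mem _) (Γ.pow_mem hg _), ?_, ⟨z, ?_⟩, ?_⟩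
  · intro h1
    apply hnt q hq k
    have h2 : TT ^ k * (TT ^ (-k) * g ^ q) = TT ^ k * 1 := by rw [h1]
    rw [← mul_assoc, ← zpow_add, add_neg_cancel, zpow_zero, one_mul, mul_one] at h2
    exact h2
  · rw [RelIso.mul_apply, hz, TT_zpow]
    push_cast
    ring
  · intro f hf hfg
    have h1 : Commute f (g ^ q) := Commute.pow_right hfg q
    have h2 : Commute f (TT ^ (-k)) := (TT_comm h hf (-k)).symm
    exact h2.mul_right h1

/-- the powers of an element with `z < f1 z` which maps `Fix c` to itself are unbounded -/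
theorem c7_unb {Γ : Subgroup (ℝ ≃o ℝ)} (h : Gp Γ) {c : ℝ ≃o ℝ} (hc : c ∈ Γ) (hc1 : c ≠ 1)
    {z : ℝ} (hz : c z = z) {f1 : ℝ ≃o ℝ} (h1c : f1 * c = c * f1) (h1z : z < f1 z) (M : ℝ) :
    (∃ n : ℤ, M < (f1 ^ n) z) ∧ (∃ n : ℤ, (f1 ^ n) z < M) := by
  have hmono := zpow_lt h1z
  have hK : ∀ n : ℤ, c ((f1 ^ n) z) = (f1 ^ n) z := by
    intro n
    have h2 : Commute (f1 ^ n) c := Commute.zpow_left h1c n
    exact c7_comm_apply h2 hz
  constructor
  · by_contra hcon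
    push Not at hcon
    have hfin := fix_fin h hc hc1 z M
    refine Set.infinite_of_injective_forall_mem (f := fun n : ℕ => (f1 ^ (n : ℤ)) z) ?_ ?_ hfin
    · intro a b hab
      have := hmono.injective hab
      exact_mod_cast this
    · intro n
      refine ⟨⟨?_, hcon _⟩, hK _⟩
      have := hmono.monotone (show (0 : ℤ) ≤ (n : ℤ) by positivity)
      simpa using this
  · by_contra hcon
    push Not at hcon
    have hfin := fix_fin h hc hc1 M z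
    refine Set.infinite_of_injective_forall_mem (f := fun n : ℕ => (f1 ^ (-(n : ℤ))) z) ?_ ?_ hfin
    · intro a b hab
      have := hmono.injective hab
      simpa using this
    · intro n
      refine ⟨⟨hcon _, ?_⟩, hK _⟩
      have := hmono.monotone (show (-(n : ℤ)) ≤ 0 by simp)
      simpa using this

theorem cent_gen {Γ : Subgroup (ℝ ≃o ℝ)} (h : Gp Γ) {c : ℝ ≃o ℝ} (hc : c ∈ Γ) (hc1 : c ≠ 1)
    {z : ℝ} (hz : c z = z) :
    ∃ σ ∈ Γ, ∃ f1 ∈ Γ, σ ≠ 1 ∧ (∀ y, σ y = y ↔ c y = y) ∧ f1 * σ = σ * f1 ∧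
      ∀ f ∈ Γ, f * c = c * f → ∃ i j : ℤ, f = f1 ^ i * σ ^ j := by
  obtain ⟨σ, hσ, a, ha, hca, hfix, hst⟩ := stab_facts h hc hc1 hz
  have hσ1 : σ ≠ 1 := by
    rintro rfl
    exact hc1 (by rw [hca, one_zpow])
  -- the set of images of `z` in `(z, z + 2 pi]`
  let A : Set ℝ := {y | ∃ f ∈ Γ, f * c = c * f ∧ y = f z ∧ z < f z ∧ f z ≤ z + 2 * Real.pi}
  have hAfin : A.Finite := by
    refine (fix_fin h hc hc1 z (z + 2 * Real.pi)).subset ?_
    rintro y ⟨f, hf, hfc, rfl, h1, h2⟩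
    exact ⟨⟨h1.le, h2⟩, c7_comm_apply hfc hz⟩
  have hAne : A.Nonempty := by
    refine ⟨TT z, TT, h.T_mem, ?_, rfl, ?_, ?_⟩
    · have := TT_comm h hc 1
      simpa using this
    · rw [TT_apply]
      linarith [Real.pi_pos]
    · rw [TT_apply]
  obtain ⟨y1, hy1, hy1min⟩ := Set.exists_min_image A id hAfin hAne
  obtain ⟨f1, hf1, h1c, rfl, h1z, h1le⟩ := hy1
  have hmin : ∀ f ∈ Γ, f * c = c * f → z < f z → f1 z ≤ f z := by
    intro f hf hfc hfz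
    rcases le_or_gt (f z) (z + 2 * Real.pi) with h2 | h2
    · exact hy1min _ ⟨f, hf, hfc, rfl, hfz, h2⟩
    · exact h1le.trans h2.le
  have h1cinv : f1⁻¹ * c = c * f1⁻¹ := (Commute.inv_left (show Commute f1 c from h1c))
  have hconj := conj_gen (Γ := Γ) hσ hf1 ha hca hc1 hz hst
    (fun y hy => c7_comm_apply h1c hy) (fun y hy => c7_comm_apply h1cinv hy)
  have hcomm : f1 * σ = σ * f1 := by
    rcases hconj with hcj | hcj
    · rw [mul_inv_eq_iff_eq_mul] at hcj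
      exact hcj
    · exfalso
      have e1 : (f1 * σ * f1⁻¹) ^ a = f1 * σ ^ a * f1⁻¹ := conj_zpow
      rw [hcj, ← hca, h1c, mul_inv_cancel_right] at e1
      rw [inv_zpow, ← hca] at e1
      have e2 : c ^ (2 : ℤ) = 1 := by
        rw [zpow_two]
        nth_rewrite 1 [← e1]
        exact inv_mul_cancel c
      exact hc1 (zpow_eq_one (by norm_num) e2)
  refine ⟨σ, hσ, f1, hf1, hσ1, hfix, hcomm, ?_⟩
  intro f hf hfc
  have hmono := zpow_lt h1z
  obtain ⟨⟨nu, hnu⟩, ⟨nl, hnl⟩⟩ := c7_unb h hc hc1 hz h1c h1z (f z)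
  obtain ⟨i, hi, himax⟩ := Int.exists_greatest_of_bdd (P := fun i : ℤ => (f1 ^ i) z ≤ f z)
    ⟨nu, fun m hm => by
      by_contra hcon
      push Not at hcon
      exact absurd (hnu.trans (hmono hcon)) (not_lt.2 hm)⟩ ⟨nl, hnl.le⟩
  have hi2 : f z < (f1 ^ (i + 1)) z := by
    by_contra hcon
    push Not at hcon
    have := himax (i + 1) hcon
    omega
  set f' : ℝ ≃o ℝ := f1 ^ (-i) * f with hf'
  have hf'Γ : f' ∈ Γ := Γ.mul_mem (Γ.zpow_mem hf1 _) hf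
  have hf'c : f' * c = c * f' := by
    have k1 : Commute (f1 ^ (-i)) c := Commute.zpow_left h1c (-i)
    have k2 : Commute f c := hfc
    exact k1.mul_left k2
  have e1 : z ≤ f' z := by
    have k1 : (f1 ^ (-i)) ((f1 ^ i) z) ≤ (f1 ^ (-i)) (f z) := (f1 ^ (-i)).monotone hi
    rw [← RelIso.mul_apply, ← RelIso.mul_apply, ← zpow_add, neg_add_cancel, zpow_zero] at k1
    exact k1
  have e2 : f' z < f1 z := by
    have k1 : (f1 ^ (-i)) (f z) < (f1 ^ (-i)) ((f1 ^ (i + 1)) z) := (f1 ^ (-i)).strictMono hi2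
    rw [← RelIso.mul_apply, ← RelIso.mul_apply, ← zpow_add, neg_add_cancel_left, zpow_one] at k1
    exact k1
  have e3 : f' z = z := by
    rcases e1.lt_or_eq with h3 | h3
    · exact absurd (hmin f' hf'Γ hf'c h3) (not_le.2 e2)
    · exact h3.symm
  obtain ⟨j, hj⟩ := hst z hz f' hf'Γ e3
  refine ⟨i, j, ?_⟩
  rw [← hj, hf', ← mul_assoc, ← zpow_add, add_neg_cancel, zpow_zero, one_mul]

theorem cent_comm {Γ : Subgroup (ℝ ≃o ℝ)} (h : Gp Γ) {f f' g : ℝ ≃o ℝ} (hf : f ∈ Γ)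
    (hf' : f' ∈ Γ) (hg : g ∈ Γ) (hnt : ∀ q : ℕ, 0 < q → ∀ k : ℤ, g ^ q ≠ TT ^ k)
    (h1 : f * g = g * f) (h2 : f' * g = g * f') : f * f' = f' * f := by
  obtain ⟨c, hc, hc1, ⟨z, hz⟩, hcc⟩ := hyp_data h hg hnt
  obtain ⟨σ, hσ, f1, hf1, hσ1, hfix, hcomm, hgen⟩ := cent_gen h hc hc1 hz
  obtain ⟨i, j, rfl⟩ := hgen f hf (hcc f hf h1)
  obtain ⟨i', j', rfl⟩ := hgen f' hf' (hcc f' hf' h2)
  have k0 : Commute f1 σ := hcomm
  have k1 : Commute (f1 ^ i) (f1 ^ i') := (Commute.refl f1).zpow_zpow i i'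
  have k2 : Commute (f1 ^ i) (σ ^ j') := k0.zpow_zpow i j'
  have k3 : Commute (σ ^ j) (f1 ^ i') := k0.symm.zpow_zpow j i'
  have k4 : Commute (σ ^ j) (σ ^ j') := (Commute.refl σ).zpow_zpow j j'
  exact (k1.mul_right k2).mul_left (k3.mul_right k4)

end Pool.Agent.H52.GS
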