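import Mathlib
import Pool.Agent.H52.GS.O2

/-!
# GS-M1: composition and commutators of near-identity maps

`Ext f F x r`: `F` is holomorphic on `D(x,r)` and `F = f` on the real points of `D(x,r)`.
`NI f x r a`: `f`, `f⁻¹` have extensions `F`, `F'` to `D(x,r)` with `‖F z - z‖ ≤ a`,
`‖F' z - z‖ ≤ a`.

PROOFS.
* `ident`: two holomorphic functions on `D(x,r)` which agree at the real points of `D(x,r)` are
  equal (identity theorem; the real points accumulate at `x`: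
  `AnalyticOnNhd.eqOn_of_preconnected_of_frequently_eq`).
* `NI.mono`, `NI.inv`, `NI.one`: trivial.
* `NI.comp`: extensions `F ∘ G` and `G' ∘ F'` on `D(x, r - ρ)`: `‖G z - z‖ ≤ b ≤ ρ` so
  `G z ∈ D(x, r)`; `‖F (G z) - z‖ ≤ a + b`; at real points `G y = g y` is real and
  `|g y - x| < r`.  `(f * g)⁻¹ = g⁻¹ * f⁻¹`.
* `NI.comm`: let `0 < ρ < r`, `a, b ≤ ρ/8`.  Let `F, F', G, G'` be the extensions of
  `f, f⁻¹, g, g⁻¹`.  On `D(x, r - ρ)` put `E z = F (G (F' (G' z)))`: all intermediate points are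
  within `2a + 2b ≤ ρ/2` of `z`, so `E` is a holomorphic extension of `[f,g] = f g f⁻¹ g⁻¹`
  (at real points use that all values are real).  Put `ζ = F' (G' z)`, `‖ζ - z‖ ≤ ρ/4`.
  `G (F ζ) = z`: `z ↦ G (F (F' (G' z)))` is holomorphic on `D(x, r - ρ)` and is the identity at real
  points (`g (f (f⁻¹ (g⁻¹ y))) = y`), so `ident`.  Hence
  `E z - z = F (G ζ) - G (F ζ)`.  With `u = F - id`, `v = G - id`:
  `F (G ζ) - G (F ζ) = [u (ζ + v ζ) - u ζ] - [v (ζ + u ζ) - v ζ]`.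
  The points `ζ`, `ζ + v ζ`, `ζ + u ζ` lie in `D(x, r - ρ/2)` (distance from `z` is at most
  `ρ/4 + ρ/8`), a convex set on which `‖u'‖ ≤ a / (ρ/2)`, `‖v'‖ ≤ b / (ρ/2)` (Cauchy estimate
  `Complex.norm_deriv_le_of_forall_mem_sphere_norm_le`).  So
  `‖E z - z‖ ≤ 2 a b/ρ + 2 a b/ρ = 4ab/ρ`.
  `[f,g]⁻¹ = [g,f]`, so the same argument with `f, g` exchanged bounds the inverse.
-/

set_option autoImplicit false
open Set Filter Topology MeasureTheory Metric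

namespace Pool.Agent.H52.GS

theorem ident {x r : ℝ} (hr : 0 < r) {F G : ℂ → ℂ} (hF : DifferentiableOn ℂ F (ball (x : ℂ) r))
    (hG : DifferentiableOn ℂ G (ball (x : ℂ) r))
    (h : ∀ y : ℝ, |y - x| < r → F (y : ℂ) = G (y : ℂ)) : EqOn F G (ball (x : ℂ) r) := by
  have hFa : AnalyticOnNhd ℂ F (ball (x : ℂ) r) := hF.analyticOnNhd isOpen_ball
  have hGa : AnalyticOnNhd ℂ G (ball (x : ℂ) r) := hG.analyticOnNhd isOpen_ball
  refine hFa.eqOn_of_preconnected_of_frequently_eq hGa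
    (convex_ball (x : ℂ) r).isPreconnected (mem_ball_self hr) ?_
  have ht : Tendsto (fun y : ℝ => (y : ℂ)) (𝓝[≠] x) (𝓝[≠] (x : ℂ)) := by
    refine tendsto_nhdsWithin_of_tendsto_nhds_of_eventually_within _
      ((Complex.continuous_ofReal.tendsto x).mono_left nhdsWithin_le_nhds) ?_
    filter_upwards [self_mem_nhdsWithin] with y hy
    intro h'
    exact hy (by simpa using h')
  refine ht.frequently (Eventually.frequently ?_)
  have hev : ∀ᶠ y in 𝓝 x, |y - x| < r := by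
    have := Metric.ball_mem_nhds x hr
    filter_upwards [this] with y hy
    rwa [Metric.mem_ball, Real.dist_eq] at hy
  filter_upwards [nhdsWithin_le_nhds hev] with y hy
  exact h y hy

theorem M1_mem {x y r : ℝ} (h : |y - x| < r) : (y : ℂ) ∈ ball (x : ℂ) r := by
  rw [mem_ball, dist_eq_norm, ← Complex.ofReal_sub, Complex.norm_real, Real.norm_eq_abs]
  exact h

theorem M1_mem' {x y r : ℝ} (h : (y : ℂ) ∈ ball (x : ℂ) r) : |y - x| < r := by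
  rw [mem_ball, dist_eq_norm, ← Complex.ofReal_sub, Complex.norm_real, Real.norm_eq_abs] at h
  exact h

theorem M1_step {x s t : ℝ} {p q : ℂ} {d : ℝ} (hp : p ∈ ball (x : ℂ) s) (hd : ‖q - p‖ ≤ d)
    (h : s + d ≤ t) : q ∈ ball (x : ℂ) t := by
  rw [mem_ball, dist_eq_norm] at hp ⊢
  have : q - x = (q - p) + (p - x) := by ring
  rw [this]
  have := norm_add_le (q - p) (p - x)
  linarith

theorem Ext.mono {f : ℝ → ℝ} {F : ℂ → ℂ} {x r x' r' : ℝ} (h : Ext f F x r)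
    (hx : |x' - x| + r' ≤ r) : Ext f F x' r' := by
  refine ⟨h.1.mono ?_, fun y hy => h.2 y ?_⟩
  · refine ball_subset_ball' ?_
    rw [dist_eq_norm, ← Complex.ofReal_sub, Complex.norm_real, Real.norm_eq_abs]
    linarith
  · have := abs_sub_le y x' x
    linarith

theorem M1_sub {x r x' r' : ℝ} (hx : |x' - x| + r' ≤ r) :
    ball (x' : ℂ) r' ⊆ ball (x : ℂ) r := by
  refine ball_subset_ball' ?_
  rw [dist_eq_norm, ← Complex.ofReal_sub, Complex.norm_real, Real.norm_eq_abs]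
  linarith

theorem NI.mono {f : ℝ ≃o ℝ} {x r a x' r' a' : ℝ} (h : NI f x r a) (hx : |x' - x| + r' ≤ r)
    (ha : a ≤ a') : NI f x' r' a' := by
  obtain ⟨F, F', hF, hF', hb⟩ := h
  refine ⟨F, F', hF.mono hx, hF'.mono hx, fun z hz => ?_⟩
  obtain ⟨h1, h2⟩ := hb z (M1_sub hx hz)
  exact ⟨h1.trans ha, h2.trans ha⟩

theorem NI.inv {f : ℝ ≃o ℝ} {x r a : ℝ} (h : NI f x r a) : NI f⁻¹ x r a := by
  obtain ⟨F, F', hF, hF', hb⟩ := h
  refine ⟨F', F, hF', ?_, fun z hz => ⟨(hb z hz).2, (hb z hz).1⟩⟩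
  rw [inv_inv]
  exact hF

theorem NI.one (x r : ℝ) {a : ℝ} (ha : 0 ≤ a) : NI 1 x r a := by
  refine ⟨id, id, ⟨differentiableOn_id, fun y _ => rfl⟩, ⟨differentiableOn_id, fun y _ => ?_⟩,
    fun z _ => ?_⟩
  · rw [inv_one]
    rfl
  · simpa using ha

/-- composition of extensions -/
theorem Ext.comp {f g : ℝ → ℝ} {F G : ℂ → ℂ} {x r r' : ℝ} (hF : Ext f F x r)
    (hG : Ext g G x r') (hmaps : ∀ z ∈ ball (x : ℂ) r', G z ∈ ball (x : ℂ) r) :
    Ext (fun y => f (g y)) (fun z => F (G z)) x r' := by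
  refine ⟨hF.1.comp hG.1 hmaps, fun y hy => ?_⟩
  have h1 := hmaps y (M1_mem hy)
  have h2 := hG.2 y hy
  rw [h2] at h1
  show F (G y) = _
  rw [h2]
  exact hF.2 _ (M1_mem' h1)

theorem NI.comp {f g : ℝ ≃o ℝ} {x r a b ρ : ℝ} (hρ : 0 ≤ ρ) (hf : NI f x r a) (hg : NI g x r b)
    (ha : a ≤ ρ) (hb : b ≤ ρ) : NI (f * g) x (r - ρ) (a + b) := by
  obtain ⟨F, F', hF, hF', hFb⟩ := hf
  obtain ⟨G, G', hG, hG', hGb⟩ := hg
  have hsub : ball (x : ℂ) (r - ρ) ⊆ ball (x : ℂ) r := ball_subset_ball (by linarith)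
  have hmono : |x - x| + (r - ρ) ≤ r := by
    rw [sub_self, abs_zero]
    linarith
  have m1 : ∀ z ∈ ball (x : ℂ) (r - ρ), G z ∈ ball (x : ℂ) r := fun z hz =>
    M1_step hz (hGb z (hsub hz)).1 (by linarith)
  have m2 : ∀ z ∈ ball (x : ℂ) (r - ρ), F' z ∈ ball (x : ℂ) r := fun z hz =>
    M1_step hz (hFb z (hsub hz)).2 (by linarith)
  refine ⟨fun z => F (G z), fun z => G' (F' z), hF.comp (hG.mono hmono) m1, ?_, fun z hz => ?_⟩
  · have := hG'.comp (hF'.mono hmono) m2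
    rw [mul_inv_rev]
    exact this
  · constructor
    · have e : F (G z) - z = (F (G z) - G z) + (G z - z) := by ring
      rw [e]
      exact (norm_add_le _ _).trans
        (add_le_add (hFb _ (m1 z hz)).1 (hGb z (hsub hz)).1)
    · have e : G' (F' z) - z = (F' z - z) + (G' (F' z) - F' z) := by ring
      show ‖G' (F' z) - z‖ ≤ a + b
      rw [e]
      exact (norm_add_le _ _).trans
        (add_le_add (hFb z (hsub hz)).2 (hGb _ (m2 z hz)).2)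

/-- Cauchy estimate and mean value inequality for `F - id` -/
theorem M1_lip {F : ℂ → ℂ} {x r a ρ : ℝ} (hρ : 0 < ρ) (hF : DifferentiableOn ℂ F (ball (x : ℂ) r))
    (hb : ∀ z ∈ ball (x : ℂ) r, ‖F z - z‖ ≤ a) {p q : ℂ} (hp : p ∈ ball (x : ℂ) (r - ρ / 2))
    (hq : q ∈ ball (x : ℂ) (r - ρ / 2)) :
    ‖(F q - q) - (F p - p)‖ ≤ a / (ρ / 2) * ‖q - p‖ := by
  have hρ2 : 0 < ρ / 2 := by linarith
  have hsub : ∀ z ∈ ball (x : ℂ) (r - ρ / 2), closedBall z (ρ / 2) ⊆ ball (x : ℂ) r := by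
    intro z hz y hy
    rw [mem_ball] at hz ⊢
    rw [mem_closedBall] at hy
    have := dist_triangle y z (x : ℂ)
    linarith
  have hFu : DifferentiableOn ℂ (fun z => F z - z) (ball (x : ℂ) r) :=
    hF.sub differentiableOn_id
  refine Convex.norm_image_sub_le_of_norm_deriv_le (f := fun z => F z - z) (𝕜 := ℂ)
    (s := ball (x : ℂ) (r - ρ / 2)) ?_ ?_ (convex_ball _ _) hp hq
  · intro z hz
    exact (hFu z (hsub z hz (mem_closedBall_self hρ2.le))).differentiableAt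
      (isOpen_ball.mem_nhds (hsub z hz (mem_closedBall_self hρ2.le)))
  · intro z hz
    refine Complex.norm_deriv_le_of_forall_mem_sphere_norm_le hρ2
      (hFu.diffContOnCl_ball (hsub z hz)) fun w hw => ?_
    exact hb w (hsub z hz (sphere_subset_closedBall hw))

theorem M1_aux {f g : ℝ ≃o ℝ} {x r a b ρ : ℝ} (hρ : 0 < ρ) (hρr : ρ < r)
    (hf : NI f x r a) (hg : NI g x r b) (ha0 : 0 ≤ a) (hb0 : 0 ≤ b)
    (ha : a ≤ ρ / 8) (hb : b ≤ ρ / 8) :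
    ∃ E : ℂ → ℂ, Ext ((f * g * f⁻¹ * g⁻¹ : ℝ ≃o ℝ) : ℝ → ℝ) E x (r - ρ) ∧
      ∀ z ∈ ball (x : ℂ) (r - ρ), ‖E z - z‖ ≤ 4 * a * b / ρ := by
  obtain ⟨F, F', hF, hF', hFb⟩ := hf
  obtain ⟨G, G', hG, hG', hGb⟩ := hg
  have hsub : ∀ {s : ℝ}, s ≤ r → ball (x : ℂ) s ⊆ ball (x : ℂ) r := fun h => ball_subset_ball h
  have hmono : |x - x| + (r - ρ) ≤ r := by
    rw [sub_self, abs_zero]
    linarith
  have m1 : ∀ z ∈ ball (x : ℂ) (r - ρ), G' z ∈ ball (x : ℂ) (r - 7 * ρ / 8) := fun z hz =>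
    M1_step hz (hGb z (hsub (by linarith) hz)).2 (by linarith)
  have m2 : ∀ z ∈ ball (x : ℂ) (r - ρ), F' (G' z) ∈ ball (x : ℂ) (r - 3 * ρ / 4) := fun z hz =>
    M1_step (m1 z hz) (hFb _ (hsub (by linarith) (m1 z hz))).2 (by linarith)
  have m3 : ∀ z ∈ ball (x : ℂ) (r - ρ), G (F' (G' z)) ∈ ball (x : ℂ) (r - ρ / 2) := fun z hz =>
    M1_step (m2 z hz) (hGb _ (hsub (by linarith) (m2 z hz))).1 (by linarith)
  have m4 : ∀ z ∈ ball (x : ℂ) (r - ρ), F (F' (G' z)) ∈ ball (x : ℂ) (r - ρ / 2) := fun z hz =>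
    M1_step (m2 z hz) (hFb _ (hsub (by linarith) (m2 z hz))).1 (by linarith)
  have e1 : Ext (fun y => (f⁻¹ : ℝ ≃o ℝ) ((g⁻¹ : ℝ ≃o ℝ) y)) (fun z => F' (G' z)) x (r - ρ) :=
    hF'.comp (hG'.mono hmono) fun z hz => hsub (by linarith) (m1 z hz)
  have e2 : Ext (fun y => g ((f⁻¹ : ℝ ≃o ℝ) ((g⁻¹ : ℝ ≃o ℝ) y))) (fun z => G (F' (G' z)))
      x (r - ρ) := hG.comp e1 fun z hz => hsub (by linarith) (m2 z hz)
  have e3 : Ext (fun y => f ((f⁻¹ : ℝ ≃o ℝ) ((g⁻¹ : ℝ ≃o ℝ) y))) (fun z => F (F' (G' z)))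
      x (r - ρ) := hF.comp e1 fun z hz => hsub (by linarith) (m2 z hz)
  have e4 : Ext (fun y => f (g ((f⁻¹ : ℝ ≃o ℝ) ((g⁻¹ : ℝ ≃o ℝ) y))))
      (fun z => F (G (F' (G' z)))) x (r - ρ) :=
    hF.comp e2 fun z hz => hsub (by linarith) (m3 z hz)
  have e5 : Ext (fun y => g (f ((f⁻¹ : ℝ ≃o ℝ) ((g⁻¹ : ℝ ≃o ℝ) y))))
      (fun z => G (F (F' (G' z)))) x (r - ρ) :=
    hG.comp e3 fun z hz => hsub (by linarith) (m4 z hz)
  have hid : EqOn (fun z => G (F (F' (G' z)))) id (ball (x : ℂ) (r - ρ)) := by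
    refine ident (by linarith) e5.1 differentiableOn_id fun y hy => ?_
    have h1 : f ((f⁻¹ : ℝ ≃o ℝ) ((g⁻¹ : ℝ ≃o ℝ) y)) = (g⁻¹ : ℝ ≃o ℝ) y :=
      f.apply_symm_apply _
    have h2 : g ((g⁻¹ : ℝ ≃o ℝ) y) = y := g.apply_symm_apply _
    have h3 : g (f ((f⁻¹ : ℝ ≃o ℝ) ((g⁻¹ : ℝ ≃o ℝ) y))) = y := by rw [h1, h2]
    exact (e5.2 y hy).trans (congrArg (fun t : ℝ => (t : ℂ)) h3)
  refine ⟨fun z => F (G (F' (G' z))), e4, fun z hz => ?_⟩
  have hz2 : F' (G' z) ∈ ball (x : ℂ) (r - ρ / 2) :=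
    ball_subset_ball (by linarith) (m2 z hz)
  have l1 := M1_lip hρ hF.1 (fun w hw => (hFb w hw).1) hz2 (m3 z hz)
  have l2 := M1_lip hρ hG.1 (fun w hw => (hGb w hw).1) hz2 (m4 z hz)
  have n1 : ‖G (F' (G' z)) - F' (G' z)‖ ≤ b := (hGb _ (hsub (by linarith) (m2 z hz))).1
  have n2 : ‖F (F' (G' z)) - F' (G' z)‖ ≤ a := (hFb _ (hsub (by linarith) (m2 z hz))).1
  have hz' : G (F (F' (G' z))) = z := hid hz
  have e : F (G (F' (G' z))) - z =
      ((F (G (F' (G' z))) - G (F' (G' z))) - (F (F' (G' z)) - F' (G' z))) -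
      ((G (F (F' (G' z))) - F (F' (G' z))) - (G (F' (G' z)) - F' (G' z))) := by
    rw [hz']
    ring
  show ‖F (G (F' (G' z))) - z‖ ≤ 4 * a * b / ρ
  rw [e]
  have k1 : a / (ρ / 2) * ‖G (F' (G' z)) - F' (G' z)‖ ≤ a / (ρ / 2) * b :=
    mul_le_mul_of_nonneg_left n1 (by positivity)
  have k2 : b / (ρ / 2) * ‖F (F' (G' z)) - F' (G' z)‖ ≤ b / (ρ / 2) * a :=
    mul_le_mul_of_nonneg_left n2 (by positivity)
  have k3 : a / (ρ / 2) * b + b / (ρ / 2) * a = 4 * a * b / ρ := by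
    field_simp
    ring
  calc _ ≤ _ := norm_sub_le _ _
    _ ≤ a / (ρ / 2) * b + b / (ρ / 2) * a := add_le_add (l1.trans k1) (l2.trans k2)
    _ = 4 * a * b / ρ := k3

theorem NI.comm {f g : ℝ ≃o ℝ} {x r a b ρ : ℝ} (hρ : 0 < ρ) (hρr : ρ < r) (ha0 : 0 ≤ a)
    (hb0 : 0 ≤ b) (hf : NI f x r a) (hg : NI g x r b) (ha : a ≤ ρ / 8) (hb : b ≤ ρ / 8) :
    NI (f * g * f⁻¹ * g⁻¹) x (r - ρ) (4 * a * b / ρ) := by
  obtain ⟨E, hE, hEb⟩ := M1_aux hρ hρr hf hg ha0 hb0 ha hb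
  obtain ⟨E', hE', hEb'⟩ := M1_aux hρ hρr hg hf hb0 ha0 hb ha
  refine ⟨E, E', hE, ?_, fun z hz => ⟨hEb z hz, ?_⟩⟩
  · have : (f * g * f⁻¹ * g⁻¹)⁻¹ = g * f * g⁻¹ * f⁻¹ := by group
    rw [this]
    exact hE'
  · have := hEb' z hz
    have e : 4 * b * a / ρ = 4 * a * b / ρ := by ring
    rwa [e] at this

end Pool.Agent.H52.GS
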