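import Mathlib
import Pool.Agent.H52.GS.C3
import Pool.Agent.H52.GS.C4
import Pool.Agent.H52.GS.C5

/-!
# GS-C6: no Heisenberg relations

PROOF.  Put `c = s t s⁻¹ t⁻¹ ∈ Γ`; `c s = s c`.  We show `c = 1`, i.e. `s t = t s`
(`commutatorElement_eq_one_iff_mul_comm` or by hand).  Suppose `c ≠ 1`.  Then
`t s t⁻¹ = c⁻¹ s`, and `t (s^n) t⁻¹ = (c⁻¹ s)^n = c^(-n) s^n`.
`c` has a fixed point `z` (`heis_fix`).  Let `σ, a` be as in `stab_facts`: `c = σ^a`, `a ≠ 0`,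
`K = Fix c = Fix σ`.
`s` commutes with `c`, so `s K ⊆ K`, `s⁻¹ K ⊆ K`, and `s σ s⁻¹ = σ^e`, `e = ±1` (`conj_gen`);
`σ^a = c = s c s⁻¹ = σ^(e a)` and `a ≠ 0`, `σ ≠ 1`, so `e = 1`: `s σ = σ s`.
`pigeon` for `s`: `s^q = TT^k σ^b`, `q > 0`.
`b ≠ 0`: otherwise `s^q = TT^k` commutes with `t` (`TT_comm`), so `c^(-q) s^q = t s^q t⁻¹ = s^q`,
`c^q = 1`, `c = 1` (`zpow_eq_one`), contradiction.
Conjugate `s^q = TT^k σ^b` by `t`: `c^(-q) TT^k σ^b = TT^k t σ^b t⁻¹`, so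
`t σ^b t⁻¹ = σ^(b - a q)`.  Here `b - a q ≠ 0` (otherwise `σ^b = 1`, `σ = 1`).  So `y ∈ K` iff
`σ^b y = y`, and `t` maps `Fix (σ^b) = K` to `Fix (t σ^b t⁻¹) = Fix (σ^(b - a q)) = K`; the same for
`t⁻¹` (if `σ^(b - aq) y = y` then `t⁻¹ y` is fixed by `σ^b`).  By `conj_gen` `t σ t⁻¹ = σ^e` with
`e = ±1`.  Then `σ^(e b) = σ^(b - a q)`, `e b = b - a q`; `e = 1` gives `a q = 0`, impossible.  So
`t σ t⁻¹ = σ⁻¹`.
`pigeon` for `t`: `t^q' = TT^k' σ^d`, `q' > 0`.  Conjugating by `t`: `TT^k' σ^d = TT^k' σ^(-d)`, so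
`σ^(2 d) = 1`, `d = 0`, `t^q' = TT^k'`, which contradicts `hnt`.
-/

set_option autoImplicit false
open Set Filter Topology MeasureTheory Metric

namespace Pool.Agent.H52.GS

theorem noHeis {Γ : Subgroup (ℝ ≃o ℝ)} (h : Gp Γ) {s t : ℝ ≃o ℝ} (hs : s ∈ Γ) (ht : t ∈ Γ)
    (hnt : ∀ q : ℕ, 0 < q → ∀ k : ℤ, t ^ q ≠ TT ^ k)
    (hc : (s * t * s⁻¹ * t⁻¹) * s = s * (s * t * s⁻¹ * t⁻¹)) : s * t = t * s := by
  by_contra hne
  obtain ⟨c, hcdef⟩ : ∃ c : ℝ ≃o ℝ, c = s * t * s⁻¹ * t⁻¹ := ⟨_, rfl⟩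
  rw [← hcdef] at hc
  have hcΓ : c ∈ Γ := by
    rw [hcdef]
    exact Γ.mul_mem (Γ.mul_mem (Γ.mul_mem hs ht) (Γ.inv_mem hs)) (Γ.inv_mem ht)
  have hc1 : c ≠ 1 := by
    intro h1
    apply hne
    rw [h1] at hcdef
    have h2 : s * t * s⁻¹ = t := by
      calc s * t * s⁻¹ = (s * t * s⁻¹ * t⁻¹) * t := by group
        _ = t := by rw [← hcdef, one_mul]
    calc s * t = (s * t * s⁻¹) * s := by group
      _ = t * s := by rw [h2]
  have hts : t * s * t⁻¹ = c⁻¹ * s := by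
    rw [hcdef]; group
  obtain ⟨z, hz⟩ := heis_fix h hs ht hcΓ hc hts
  obtain ⟨σ, hσΓ, a, ha, hca, hfix, hst⟩ := stab_facts h hcΓ hc1 hz
  have hσ1 : ∀ j : ℤ, j ≠ 0 → σ ^ j ≠ 1 := by
    intro j hj h1
    have h2 := zpow_eq_one hj h1
    apply hc1
    rw [hca, h2, one_zpow]
  have hKs : ∀ y, c y = y → c (s y) = s y := by
    intro y hy
    have h1 : (c * s) y = (s * c) y := by rw [hc]
    rw [RelIso.mul_apply, RelIso.mul_apply, hy] at h1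
    exact h1
  obtain ⟨q, hq, k, b, hsq⟩ := pigeon h hcΓ hc1 hs hz (hst z hz) hKs
  have hqz : (q : ℤ) ≠ 0 := by exact_mod_cast hq.ne'
  have haq : a * (q : ℤ) ≠ 0 := mul_ne_zero ha hqz
  -- the key relation
  have hcomm : Commute c⁻¹ s := by
    have : Commute c s := hc
    exact this.inv_left
  have e1 : t * s ^ q * t⁻¹ = c⁻¹ ^ q * s ^ q := by
    rw [← conj_pow, hts, hcomm.mul_pow]
  have e2 : c⁻¹ ^ q = σ ^ (-(a * (q : ℤ))) := by
    rw [hca, ← zpow_neg, ← zpow_natCast, ← zpow_mul]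
    congr 1
    ring
  have hTt : ∀ k : ℤ, TT ^ k * t = t * TT ^ k := fun k => TT_comm h ht k
  have hTσ : TT ^ k * σ ^ (-(a * (q : ℤ))) = σ ^ (-(a * (q : ℤ))) * TT ^ k :=
    TT_comm h (Γ.zpow_mem hσΓ _) k
  have key : t * σ ^ b * t⁻¹ = σ ^ (b - a * (q : ℤ)) := by
    have h1 : TT ^ k * (t * σ ^ b * t⁻¹) = TT ^ k * σ ^ (b - a * (q : ℤ)) := by
      calc TT ^ k * (t * σ ^ b * t⁻¹) = (TT ^ k * t) * σ ^ b * t⁻¹ := by group
        _ = (t * TT ^ k) * σ ^ b * t⁻¹ := by rw [hTt]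
        _ = t * (TT ^ k * σ ^ b) * t⁻¹ := by group
        _ = t * s ^ q * t⁻¹ := by rw [← hsq]
        _ = c⁻¹ ^ q * s ^ q := e1
        _ = σ ^ (-(a * (q : ℤ))) * (TT ^ k * σ ^ b) := by rw [e2, hsq]
        _ = (σ ^ (-(a * (q : ℤ))) * TT ^ k) * σ ^ b := by group
        _ = (TT ^ k * σ ^ (-(a * (q : ℤ)))) * σ ^ b := by rw [hTσ]
        _ = TT ^ k * (σ ^ (-(a * (q : ℤ))) * σ ^ b) := by group
        _ = TT ^ k * σ ^ (b - a * (q : ℤ)) := by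
          rw [← zpow_add]
          congr 2
          ring
    exact mul_left_cancel h1
  have hb : b ≠ 0 := by
    intro h0
    rw [h0, zpow_zero, mul_one, mul_inv_cancel, zero_sub] at key
    exact hσ1 _ (neg_ne_zero.mpr haq) key.symm
  have hb2 : b - a * (q : ℤ) ≠ 0 := by
    intro h0
    rw [h0, zpow_zero] at key
    apply hσ1 b hb
    calc σ ^ b = t⁻¹ * (t * σ ^ b * t⁻¹) * t := by group
      _ = 1 := by rw [key]; group
  have hKt : ∀ y, c y = y → c (t y) = t y := by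
    intro y hy
    have h1 : (σ ^ b) y = y := fixed_zpow b ((hfix y).mpr hy)
    have h2 : (t * σ ^ b * t⁻¹) (t y) = t y := by
      rw [RelIso.mul_apply, RelIso.mul_apply, RelIso.inv_apply_self, h1]
    rw [key] at h2
    exact (hfix _).mp (zpow_fixed hb2 h2)
  have hKt' : ∀ y, c y = y → c ((t⁻¹ : ℝ ≃o ℝ) y) = (t⁻¹ : ℝ ≃o ℝ) y := by
    intro y hy
    have h1 : (σ ^ (b - a * (q : ℤ))) y = y := fixed_zpow _ ((hfix y).mpr hy)
    rw [← key, RelIso.mul_apply, RelIso.mul_apply] at h1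
    have h2 : (σ ^ b) ((t⁻¹ : ℝ ≃o ℝ) y) = (t⁻¹ : ℝ ≃o ℝ) y := by
      have h3 := congrArg (fun w => (t⁻¹ : ℝ ≃o ℝ) w) h1
      simp only [RelIso.inv_apply_self] at h3
      exact h3
    exact (hfix _).mp (zpow_fixed hb h2)
  obtain ⟨q', hq', k', d, htq⟩ := pigeon h hcΓ hc1 ht hz (hst z hz) hKt
  rcases conj_gen hσΓ ht ha hca hc1 hz hst hKt hKt' with hA | hB
  · have h1 : t * σ ^ b * t⁻¹ = σ ^ b := by rw [← conj_zpow, hA]
    rw [h1] at key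
    have h2 : σ ^ (a * (q : ℤ)) = 1 := by
      have h3 : σ ^ (a * (q : ℤ)) = σ ^ b * (σ ^ (b - a * (q : ℤ)))⁻¹ := by
        rw [← zpow_neg, ← zpow_add]
        congr 1
        ring
      rw [h3, ← key, mul_inv_cancel]
    exact hσ1 _ haq h2
  · have h1 : t * σ ^ d * t⁻¹ = σ ^ (-d) := by
      rw [← conj_zpow, hB, inv_zpow, zpow_neg]
    have h2 : TT ^ k' * σ ^ (-d) = TT ^ k' * σ ^ d := by
      calc TT ^ k' * σ ^ (-d) = TT ^ k' * (t * σ ^ d * t⁻¹) := by rw [h1]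
        _ = (TT ^ k' * t) * σ ^ d * t⁻¹ := by group
        _ = (t * TT ^ k') * σ ^ d * t⁻¹ := by rw [hTt]
        _ = t * (TT ^ k' * σ ^ d) * t⁻¹ := by group
        _ = t * t ^ q' * t⁻¹ := by rw [← htq]
        _ = t ^ q' := by
          have h3 : t * t ^ q' = t ^ q' * t := (Commute.refl t).pow_right q'
          rw [h3, mul_assoc, mul_inv_cancel, mul_one]
        _ = TT ^ k' * σ ^ d := htq
    have h3 : σ ^ (-d) = σ ^ d := mul_left_cancel h2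
    by_cases hd : d = 0
    · rw [hd, zpow_zero, mul_one] at htq
      exact hnt q' hq' k' htq
    · apply hσ1 (2 * d) (by omega)
      have h4 : σ ^ (2 * d) = σ ^ d * (σ ^ (-d))⁻¹ := by
        rw [← zpow_neg, ← zpow_add]
        congr 1
        ring
      rw [h4, h3, mul_inv_cancel]

end Pool.Agent.H52.GS
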