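import Mathlib
import Pool.Agent.H52.GS.M1
import Pool.Agent.H52.GS.C6

/-!
# GS-M2: the Margulis lemma

PROOF of `ni_nontor`.  Let `Q > 0` be as in `htor`.  `η0 = 1 / (8 Q)`.  Let `0 < R ≤ 1`,
`NI f x R (η0 R)` and suppose `f^q = TT^k` with `q > 0`.  By `htor` `f^Q = TT^k'`.  All real `y`
with `|y - x| < R` satisfy `|f y - y| ≤ η0 R` (real points of the disc), so by induction
`|(f^i) x - x| ≤ i η0 R < R` for `i ≤ Q`; so `|(f^Q) x - x| ≤ R/8 < 2 pi`.  But
`(f^Q) x - x = k' 2 pi` (`TT_zpow`), so `k' = 0`, `f^Q = 1` and `f = 1` (`zpow_eq_one`).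

PROOF of `margulis`.  `ηM = min (2^(-16)) (1/(8Q))` (so `ni_nontor` holds with `ηM` too).
Let `0 < R ≤ 1`, `NI f x R (ηM R)`, `NI g x R (ηM R)`.  Define sets `S k`, `k : ℕ`, by
`S 0 = {f, g}`, `S' 0 = ∅`, `S (k+1) = {s t s⁻¹ t⁻¹ | s ∈ S k, t ∈ S k ∪ S' k}`, `S' (k+1) = S k`
(recursion on pairs of sets).  Put `r k = R/2 + R/2^(k+1)`, `a k = ηM R / 64^k`.
Claim: every `s ∈ S k` is in `Γ` and has `NI s x (r k) (a k)`.  Induction: for `s ∈ S k` and
`t ∈ S k` or `t ∈ S (k-1)` (`k ≥ 1`) we have `NI s x (r k) (a k)` and `NI t x (r k) (a (k-1))`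
(for `k = 0` with `a 0`); apply `NI.comm` with `ρ = r k - r (k+1) = R/2^(k+2)`:
`a (k-1) ≤ ρ/8` since `ηM ≤ 2^(-16)` and `64^(k-1) 2^16 ≥ 2^(k+5)`; and
`4 a k a (k-1) / ρ = 4 ηM^2 R^2 64^(1-2k) 2^(k+2)/R ≤ ηM R 64^(-k-1)` because
`ηM 2^(16 - 5k) ≤ 1` (for `k = 0` the bound `4 a0 a0/ρ = 16 ηM^2 R ≤ ηM R/64` holds too).
So all `s ∈ S k` have `NI s x (R/2) (ηM R/64^k)`.
By `h.ld x (R/2)` there is `ε > 0` with `NI f' x (R/2) ε → f' = 1` for `f' ∈ Γ`.  For large `k`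
`ηM R / 64^k ≤ ε`, so `S k ⊆ {1}`.  Let `k` be the least index with `S k ⊆ {1}` (`Nat.find`).
`k = 0`: `f = 1`, done.  `k = 1`: `f g f⁻¹ g⁻¹ = 1`, done.
`k = l + 2`: there is `c ∈ S (l+1)`, `c ≠ 1`, `c = s t s⁻¹ t⁻¹`, `s ∈ S l`, `t ∈ S l ∪ S' l`.
Since `c ∈ S (l+1)` and `s ∈ S l = S' (l+1)`, `c s c⁻¹ s⁻¹ ∈ S (l+2)`, so it is `1` and `c s = s c`.
`t ≠ 1` (as `c ≠ 1`), and `t` has `NI t x (R/2) (ηM R)`, i.e. `NI t x (R/2) (2 ηM (R/2))`; to apply
`ni_nontor` take `ηM` with `2 ηM ≤ η0`; so `t^q ≠ TT^k` for all `q > 0`.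
`noHeis` gives `s t = t s`, `c = 1`: contradiction.
(So take `ηM = min (2^(-16)) (η0/2)`.)
-/

set_option autoImplicit false
open Set Filter Topology MeasureTheory Metric

namespace Pool.Agent.H52.GS

/-- the real displacement of a near-identity map -/
theorem M2_real {f : ℝ ≃o ℝ} {x R a : ℝ} (h : NI f x R a) {y : ℝ} (hy : |y - x| < R) :
    |f y - y| ≤ a := by
  obtain ⟨F, F', hF, _, hb⟩ := h
  have h1 := (hb (y : ℂ) (M1_mem hy)).1
  rw [hF.2 y hy, ← Complex.ofReal_sub, Complex.norm_real, Real.norm_eq_abs] at h1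
  exact h1

theorem ni_nontor {Γ : Subgroup (ℝ ≃o ℝ)} (h : Gp Γ)
    (htor : ∃ Q : ℕ, 0 < Q ∧ ∀ f ∈ Γ, (∃ q : ℕ, 0 < q ∧ ∃ k : ℤ, f ^ q = TT ^ k) →
      ∃ k : ℤ, f ^ Q = TT ^ k) :
    ∃ η0 > 0, ∀ x R : ℝ, 0 < R → R ≤ 1 → ∀ f ∈ Γ, NI f x R (η0 * R) → f ≠ 1 →
      ∀ q : ℕ, 0 < q → ∀ k : ℤ, f ^ q ≠ TT ^ k := by
  obtain ⟨Q, hQ, htor⟩ := htor
  have hQ' : (0 : ℝ) < Q := by exact_mod_cast hQ
  refine ⟨1 / (8 * Q), by positivity, ?_⟩
  intro x R hR hR1 f hf hNI hf1 q hq k hqk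
  obtain ⟨k', hk'⟩ := htor f hf ⟨q, hq, k, hqk⟩
  have hind : ∀ i : ℕ, i ≤ Q → |(f ^ i) x - x| ≤ i * (1 / (8 * Q) * R) := by
    intro i
    induction i with
    | zero =>
      intro _
      simp
    | succ i ih =>
      intro hi
      have ih' := ih (by omega)
      have hiQ : (i : ℝ) ≤ Q := by exact_mod_cast (by omega : i ≤ Q)
      have hle : (i : ℝ) * (1 / (8 * Q) * R) ≤ R / 8 := by
        have : (i : ℝ) * (1 / (8 * Q) * R) = (i / Q) * (R / 8) := by
          field_simp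
        rw [this]
        have h1 : (i : ℝ) / Q ≤ 1 := (div_le_one hQ').2 hiQ
        nlinarith
      have hlt : |(f ^ i) x - x| < R := by linarith
      have h2 := M2_real hNI hlt
      have e : (f ^ (i + 1)) x = f ((f ^ i) x) := by
        rw [pow_succ']
        rfl
      rw [e]
      have h3 : f ((f ^ i) x) - x = (f ((f ^ i) x) - (f ^ i) x) + ((f ^ i) x - x) := by ring
      rw [h3]
      refine (abs_add_le _ _).trans ?_
      push_cast
      linarith
  have hQQ := hind Q le_rfl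
  have e1 : (Q : ℝ) * (1 / (8 * Q) * R) = R / 8 := by
    field_simp
  rw [e1, hk', TT_zpow] at hQQ
  have hpi := Real.pi_gt_three
  have hk0 : k' = 0 := by
    by_contra hne
    have h1 : (1 : ℝ) ≤ |(k' : ℝ)| := by
      have := Int.one_le_abs hne
      exact_mod_cast this
    have h2 : x + k' * (2 * Real.pi) - x = k' * (2 * Real.pi) := by ring
    rw [h2, abs_mul, abs_of_pos (by positivity : (0 : ℝ) < 2 * Real.pi)] at hQQ
    nlinarith
  rw [hk0, zpow_zero] at hk'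
  refine hf1 (zpow_eq_one (s := f) (k := (Q : ℤ)) (by exact_mod_cast hQ.ne') ?_)
  rw [zpow_natCast]
  exact hk'

/-- the pair `(S k, S (k-1))` of sets of iterated commutators -/
def M2_S (f g : ℝ ≃o ℝ) : ℕ → Set (ℝ ≃o ℝ) × Set (ℝ ≃o ℝ)
  | 0 => ({f, g}, ∅)
  | k + 1 => ({c | ∃ s ∈ (M2_S f g k).1, ∃ t ∈ (M2_S f g k).1 ∪ (M2_S f g k).2,
      c = s * t * s⁻¹ * t⁻¹}, (M2_S f g k).1)

theorem M2_ind {Γ : Subgroup (ℝ ≃o ℝ)} {f g : ℝ ≃o ℝ} (hf : f ∈ Γ) (hg : g ∈ Γ)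
    {x R η : ℝ} (hR : 0 < R) (hη : 0 < η) (hη' : η ≤ 1 / 2 ^ 16)
    (hNf : NI f x R (η * R)) (hNg : NI g x R (η * R)) (k : ℕ) :
    (∀ s ∈ (M2_S f g k).1, s ∈ Γ ∧ NI s x (R / 2 + R / 2 ^ (k + 1)) (η * R / 64 ^ k)) ∧
    (∀ t ∈ (M2_S f g k).2, t ∈ Γ ∧
      NI t x (R / 2 + R / 2 ^ (k + 1)) (64 * (η * R / 64 ^ k)) ∧ NI t x (R / 2) (η * R)) := by
  induction k with
  | zero =>
    constructor
    · intro s hs
      have hs' : s = f ∨ s = g := by simpa [M2_S] using hs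
      have e : |x - x| + (R / 2 + R / 2 ^ (0 + 1)) ≤ R := by
        rw [sub_self, abs_zero]
        norm_num
      have e2 : η * R ≤ η * R / 64 ^ 0 := by norm_num
      rcases hs' with rfl | rfl
      · exact ⟨hf, hNf.mono e e2⟩
      · exact ⟨hg, hNg.mono e e2⟩
    · intro t ht
      simp [M2_S] at ht
  | succ k ih =>
    obtain ⟨ih1, ih2⟩ := ih
    have h2 : (0 : ℝ) < 2 ^ (k + 1) := by positivity
    have h64 : (0 : ℝ) < 64 ^ k := by positivity
    have hηR : 0 < η * R := by positivity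
    have e2 : (2 : ℝ) ^ (k + 1 + 1) = 2 * 2 ^ (k + 1) := by rw [pow_succ]; ring
    have hrr : R / 2 ^ (k + 1 + 1) = R / 2 ^ (k + 1) / 2 := by
      rw [e2]
      field_simp
    have hrp : 0 < R / 2 ^ (k + 1) := by positivity
    constructor
    · rintro c ⟨s, hs, t, ht, rfl⟩
      obtain ⟨hsΓ, hsN⟩ := ih1 s hs
      have htN : t ∈ Γ ∧ NI t x (R / 2 + R / 2 ^ (k + 1)) (64 * (η * R / 64 ^ k)) := by
        rcases ht with ht | ht
        · refine ⟨(ih1 t ht).1, (ih1 t ht).2.mono ?_ ?_⟩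
          · rw [sub_self, abs_zero, zero_add]
          · have : 0 < η * R / 64 ^ k := by positivity
            linarith
        · exact ⟨(ih2 t ht).1, (ih2 t ht).2.1⟩
      obtain ⟨htΓ, htN⟩ := htN
      refine ⟨?_, ?_⟩
      · exact Γ.mul_mem (Γ.mul_mem (Γ.mul_mem hsΓ htΓ) (Γ.inv_mem hsΓ)) (Γ.inv_mem htΓ)
      · have hρ : 0 < R / 2 ^ (k + 1) / 2 := by positivity
        have h264 : (2 : ℝ) ^ (k + 1) ≤ 2 * 64 ^ k := by
          rw [pow_succ]
          have : (2 : ℝ) ^ k ≤ 64 ^ k := pow_le_pow_left₀ (by norm_num) (by norm_num) k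
          linarith
        have key : 64 * (η * R / 64 ^ k) ≤ R / 2 ^ (k + 1) / 2 / 8 := by
          have h1 : 64 * (η * R / 64 ^ k) ≤ 64 * (1 / 2 ^ 16 * R / 64 ^ k) := by gcongr
          have h3 : R / 64 ^ k ≤ 2 * (R / 2 ^ (k + 1)) := by
            rw [div_le_iff₀ h64]
            have : 2 * (R / 2 ^ (k + 1)) * 64 ^ k = R * (2 * 64 ^ k / 2 ^ (k + 1)) := by
              field_simp
            rw [this]
            have h4 : 1 ≤ 2 * (64 : ℝ) ^ k / 2 ^ (k + 1) := (one_le_div h2).2 h264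
            nlinarith
          have h5 : 64 * (1 / 2 ^ 16 * R / 64 ^ k) = 64 / 2 ^ 16 * (R / 64 ^ k) := by ring
          rw [h5] at h1
          nlinarith
        have key1 : η * R / 64 ^ k ≤ R / 2 ^ (k + 1) / 2 / 8 := by
          have : 0 < η * R / 64 ^ k := by positivity
          linarith
        have hc := NI.comm hρ (by linarith) (by positivity) (by positivity) hsN htN key1 key
        refine hc.mono ?_ ?_
        · rw [sub_self, abs_zero, zero_add, hrr]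
          linarith
        · rw [div_le_iff₀ hρ]
          have h6 : 4 * (η * R / 64 ^ k) * (64 * (η * R / 64 ^ k)) =
              η * R / 64 ^ (k + 1) * (η * R * 64 ^ 2 * 4 / 64 ^ k) := by
            rw [pow_succ]
            field_simp
          rw [h6]
          refine mul_le_mul_of_nonneg_left ?_ (by positivity)
          have h7 : η * R * 64 ^ 2 * 4 / 64 ^ k ≤ 1 / 2 ^ 16 * R * 64 ^ 2 * 4 / 64 ^ k := by
            gcongr
          have h3 : R / 64 ^ k ≤ 2 * (R / 2 ^ (k + 1)) := by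
            rw [div_le_iff₀ h64]
            have : 2 * (R / 2 ^ (k + 1)) * 64 ^ k = R * (2 * 64 ^ k / 2 ^ (k + 1)) := by
              field_simp
            rw [this]
            have h4 : 1 ≤ 2 * (64 : ℝ) ^ k / 2 ^ (k + 1) := (one_le_div h2).2 h264
            nlinarith
          have h8 : 1 / 2 ^ 16 * R * 64 ^ 2 * 4 / 64 ^ k = 64 ^ 2 * 4 / 2 ^ 16 * (R / 64 ^ k) := by
            ring
          rw [h8] at h7
          nlinarith
    · intro t ht
      obtain ⟨htΓ, htN⟩ := ih1 t ht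
      refine ⟨htΓ, htN.mono ?_ ?_, htN.mono ?_ ?_⟩
      · rw [sub_self, abs_zero, zero_add, hrr]
        linarith
      · have : 64 * (η * R / 64 ^ (k + 1)) = η * R / 64 ^ k := by
          rw [pow_succ]
          field_simp
        rw [this]
      · rw [sub_self, abs_zero, zero_add]
        linarith
      · exact div_le_self hηR.le (one_le_pow₀ (by norm_num))

theorem margulis {Γ : Subgroup (ℝ ≃o ℝ)} (h : Gp Γ)
    (htor : ∃ Q : ℕ, 0 < Q ∧ ∀ f ∈ Γ, (∃ q : ℕ, 0 < q ∧ ∃ k : ℤ, f ^ q = TT ^ k) →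
      ∃ k : ℤ, f ^ Q = TT ^ k) :
    ∃ ηM > 0, (∀ x R : ℝ, 0 < R → R ≤ 1 → ∀ f ∈ Γ, NI f x R (ηM * R) → f ≠ 1 →
        ∀ q : ℕ, 0 < q → ∀ k : ℤ, f ^ q ≠ TT ^ k) ∧
      ∀ x R : ℝ, 0 < R → R ≤ 1 → ∀ f ∈ Γ, ∀ g ∈ Γ, NI f x R (ηM * R) → NI g x R (ηM * R) →
        f * g = g * f := by
  obtain ⟨η0, hη0, hnt⟩ := ni_nontor h htor
  refine ⟨min (1 / 2 ^ 16) (η0 / 2), by positivity, ?_, ?_⟩
  · intro x R hR hR1 f hf hN
    refine hnt x R hR hR1 f hf (hN.mono ?_ ?_)
    · rw [sub_self, abs_zero, zero_add]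
    · have : min (1 / 2 ^ 16) (η0 / 2) ≤ η0 := (min_le_right _ _).trans (by linarith)
      exact mul_le_mul_of_nonneg_right this hR.le
  · intro x R hR hR1 f hf g hg hNf hNg
    set η : ℝ := min (1 / 2 ^ 16) (η0 / 2) with hηdef
    have hη : 0 < η := by positivity
    have hη1 : η ≤ 1 / 2 ^ 16 := min_le_left _ _
    have hη2 : η ≤ η0 / 2 := min_le_right _ _
    have hind := M2_ind hf hg hR hη hη1 hNf hNg
    have hhalf : ∀ k, ∀ s ∈ (M2_S f g k).1, NI s x (R / 2) (η * R / 64 ^ k) := by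
      intro k s hs
      refine ((hind k).1 s hs).2.mono ?_ le_rfl
      rw [sub_self, abs_zero, zero_add]
      have : 0 < R / 2 ^ (k + 1) := by positivity
      linarith
    obtain ⟨ε, hε, hld⟩ := h.ld x (R / 2) (by linarith)
    have hex : ∃ k, ∀ s ∈ (M2_S f g k).1, s = 1 := by
      have htend : Tendsto (fun k : ℕ => η * R * (1 / 64 : ℝ) ^ k) atTop (𝓝 (η * R * 0)) :=
        (tendsto_pow_atTop_nhds_zero_of_lt_one (by norm_num) (by norm_num)).const_mul _
      rw [mul_zero] at htend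
      obtain ⟨k, hk⟩ := (htend.eventually (eventually_lt_nhds hε)).exists
      refine ⟨k, fun s hs => hld s ((hind k).1 s hs).1 ((hhalf k s hs).mono ?_ ?_)⟩
      · rw [sub_self, abs_zero, zero_add]
      · have : η * R / 64 ^ k = η * R * (1 / 64 : ℝ) ^ k := by
          rw [one_div, inv_pow]
          rfl
        rw [this]
        exact hk.le
    classical
    have hfind := Nat.find_spec hex
    have hmin := fun m => Nat.find_min hex (m := m)
    generalize Nat.find hex = k at hfind hmin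
    rcases k with _ | _ | l
    · have : f = 1 := hfind f (by simp [M2_S])
      rw [this, one_mul, mul_one]
    · have : f * g * f⁻¹ * g⁻¹ = 1 := hfind _ ⟨f, by simp [M2_S], g, by simp [M2_S], rfl⟩
      calc f * g = (f * g * f⁻¹ * g⁻¹) * (g * f) := by group
        _ = g * f := by rw [this, one_mul]
    · exfalso
      have hl := hmin (l + 1) (by omega)
      push Not at hl
      obtain ⟨c, hc, hc1⟩ := hl
      have hc' := hc
      obtain ⟨s, hs, t, ht, hcst⟩ := hc'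
      have hcs : c * s * c⁻¹ * s⁻¹ = 1 := hfind _ ⟨c, hc, s, Or.inr hs, rfl⟩
      have hcomm : c * s = s * c := by
        calc c * s = (c * s * c⁻¹ * s⁻¹) * (s * c) := by group
          _ = s * c := by rw [hcs, one_mul]
      have hsΓ : s ∈ Γ := ((hind l).1 s hs).1
      have htΓN : t ∈ Γ ∧ NI t x (R / 2) (η * R) := by
        rcases ht with ht | ht
        · refine ⟨((hind l).1 t ht).1, (hhalf l t ht).mono ?_ ?_⟩
          · rw [sub_self, abs_zero, zero_add]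
          · exact div_le_self (by positivity) (one_le_pow₀ (by norm_num))
        · exact ⟨((hind l).2 t ht).1, ((hind l).2 t ht).2.2⟩
      obtain ⟨htΓ, htN⟩ := htΓN
      have ht1 : t ≠ 1 := by
        rintro rfl
        apply hc1
        rw [hcst]
        group
      have hnt' := hnt x (R / 2) (by linarith) (by linarith) t htΓ (htN.mono (by
        rw [sub_self, abs_zero, zero_add]) (by nlinarith)) ht1
      have hst := noHeis h hsΓ htΓ hnt' (by rw [← hcst]; exact hcomm)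
      apply hc1
      rw [hcst, hst]
      group

end Pool.Agent.H52.GS
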