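import Mathlib
import Pool.Agent.H52.GS.M1

/-!
# GS-A14: the sweep: iterates of a near-identity map on a complex disc

PROOF.  `H z = F z - z`, `‖H‖ ≤ c R/10^6` on `ball x (R/128)`.  Cauchy: `‖H'‖ ≤ 256 c/10^6 ≤ 1/4` on
`ball x (R/256)`, and `‖H''‖ ≤ e := 512 * 256 c/(10^6 R) ≤ 0.14 c/R` on `ball x (R/512)` (apply the
Cauchy estimate to `H'`; or use the Cauchy estimate for second derivatives; any `e ≤ c/R` is enough
below).  `F` is injective on `ball x (R/256)` (convex, `‖F' - 1‖ ≤ 1/4`).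
Let `x_j = (G^j) x` (real), `u_j = x_(j+1) - x_j`.  All `u_j` have the same sign as `u_0 = G x - x`
(monotone orbit), so `∑_{i<j} |u_i| = |x_j - x| ≤ |x_n - x| ≤ 2 c R` for `j ≤ n`, and
`|u_j| = |H x_j| ≤ c R/10^6` for `j ≤ n`.  From `c r (9/10) ≤ |u_0| ≤ c R/10^6`: `r ≤ R/900000`.
Let `z ∈ ball x (r/2)`, `ζ_j = F^[j] z`, `D_j = ζ_j - x_j`, `q0 = ‖z - x‖/|u_0| ≤ 5/(9 c)`.
CLAIM (induction on `j ≤ n`): `‖D_j‖ ≤ q0 exp ((8 e/c) |x_j - x|) |u_j|`.
Since `(8 e/c) |x_j - x| ≤ (8 e/c) 2 c R ≤ 16 c < log 2` (with `e ≤ c/R`), this gives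
`‖D_j‖ ≤ 2 q0 |u_j| ≤ (10/(9c)) c R/10^6`, and `‖ζ_j - x‖ ≤ ‖D_j‖ + 2 c R < R/512`.
Step: with `p = ‖1 + H'(x_j)‖ ≥ 1/2`:
`‖D_(j+1)‖ = ‖F ζ_j - F x_j‖ ≤ ‖D_j‖ (p + e ‖D_j‖)`,
`|u_(j+1)| = ‖F x_(j+1) - F x_j‖ ≥ |u_j| (p - e |u_j|)` (Taylor with second derivative `≤ e`), and
`p + e‖D_j‖ ≤ (p - e|u_j|) (1 + 4 e (‖D_j‖ + |u_j|))` because `p ≥ 1/2`, `4 e |u_j| ≤ 1`.
`‖D_j‖ + |u_j| ≤ (10/(9c) + 1) |u_j| ≤ (2/c) |u_j|`, so
`‖D_(j+1)‖/|u_(j+1)| ≤ (‖D_j‖/|u_j|) exp ((8 e/c) |u_j|)`.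
So all `F^[j]`, `j ≤ n`, are defined on `ball x (r/2)` with values in `ball x (R/512)`; the
composition is holomorphic and injective there, and at real points it equals `(G^n) y`.
-/

set_option autoImplicit false
open Set Filter Topology MeasureTheory Metric

namespace Pool.Agent.H52.GS

/-- the orbit of a point moves monotonically -/
theorem a14_orbit {G : ℝ ≃o ℝ} {x : ℝ} (h : G x ≠ x) (j : ℕ) :
    0 < |(G ^ (j + 1)) x - (G ^ j) x| ∧
      |(G ^ (j + 1)) x - x| = |(G ^ j) x - x| + |(G ^ (j + 1)) x - (G ^ j) x| := by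
  have e : (G ^ (j + 1)) x = (G ^ j) (G x) := by rw [pow_succ, RelIso.mul_apply]
  rcases lt_or_gt_of_ne h with h1 | h1
  · have h2 : (G ^ (j + 1)) x < (G ^ j) x := by
      rw [e]
      exact (G ^ j).strictMono h1
    have h3 : (G ^ j) x ≤ x := o2_down h1.le j
    rw [abs_of_neg (by linarith : (G ^ (j + 1)) x - (G ^ j) x < 0),
      abs_of_neg (by linarith : (G ^ (j + 1)) x - x < 0),
      abs_of_nonpos (by linarith : (G ^ j) x - x ≤ 0)]
    constructor <;> linarith
  · have h2 : (G ^ j) x < (G ^ (j + 1)) x := by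
      rw [e]
      exact (G ^ j).strictMono h1
    have h3 : x ≤ (G ^ j) x := o2_up h1.le j
    rw [abs_of_pos (by linarith : 0 < (G ^ (j + 1)) x - (G ^ j) x),
      abs_of_pos (by linarith : 0 < (G ^ (j + 1)) x - x),
      abs_of_nonneg (by linarith : 0 ≤ (G ^ j) x - x)]
    constructor <;> linarith

/-- the numerical step -/
theorem a14_num {D D' u u' p e Q : ℝ} (hD0 : 0 ≤ D) (hu : 0 ≤ u) (he : 0 ≤ e) (hQ : 0 ≤ Q)
    (hp : 1 / 2 ≤ p) (heu : 4 * e * u ≤ 1) (h1 : D' ≤ D * (p + e * D))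
    (h2 : u * (p - e * u) ≤ u') (h3 : D ≤ Q * u) :
    D' ≤ Q * (1 + 4 * e * (D + u)) * u' := by
  have hs : 0 ≤ 1 + 4 * e * (D + u) := by positivity
  have h4 : p + e * D ≤ (p - e * u) * (1 + 4 * e * (D + u)) := by
    have h5 : 0 ≤ e * (D + u) := by positivity
    nlinarith [mul_nonneg h5 (by linarith : 0 ≤ p - 1 / 2), mul_nonneg h5 (by linarith : 0 ≤ 1 - 4 * e * u)]
  have h6 : 0 ≤ p - e * u := by nlinarith
  calc D' ≤ D * (p + e * D) := h1
    _ ≤ D * ((p - e * u) * (1 + 4 * e * (D + u))) := mul_le_mul_of_nonneg_left h4 hD0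
    _ ≤ (Q * u) * ((p - e * u) * (1 + 4 * e * (D + u))) :=
        mul_le_mul_of_nonneg_right h3 (mul_nonneg h6 hs)
    _ = Q * (1 + 4 * e * (D + u)) * (u * (p - e * u)) := by ring
    _ ≤ Q * (1 + 4 * e * (D + u)) * u' := mul_le_mul_of_nonneg_left h2 (mul_nonneg hQ hs)

/-- closed discs inside a disc -/
theorem a14_cb {x s t R₀ : ℝ} {z : ℂ} (hz : z ∈ ball (x : ℂ) s) (h : s + t ≤ R₀) :
    closedBall z t ⊆ ball (x : ℂ) R₀ := by
  intro y hy
  rw [mem_ball] at hz ⊢
  rw [mem_closedBall] at hy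
  have := dist_triangle y z (x : ℂ)
  linarith

theorem a14_deriv {F : ℂ → ℂ} {x R c : ℝ} (hR : 0 < R)
    (hF : DifferentiableOn ℂ F (ball (x : ℂ) (R / 128)))
    (ha : ∀ z ∈ ball (x : ℂ) (R / 128), ‖F z - z‖ ≤ c * R / 1000000) :
    ∀ z ∈ ball (x : ℂ) (R / 256), ‖deriv (fun w => F w - w) z‖ ≤ c * 256 / 1000000 := by
  intro z hz
  have hH : DifferentiableOn ℂ (fun w => F w - w) (ball (x : ℂ) (R / 128)) :=
    hF.sub differentiableOn_id
  have hR2 : 0 < R / 256 := by positivity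
  have hsub : closedBall z (R / 256) ⊆ ball (x : ℂ) (R / 128) := a14_cb hz (by linarith)
  have h1 := Complex.norm_deriv_le_of_forall_mem_sphere_norm_le hR2
    (hH.diffContOnCl_ball hsub) fun w hw => ha w (hsub (sphere_subset_closedBall hw))
  refine h1.trans (le_of_eq ?_)
  field_simp

theorem a14_deriv2 {F : ℂ → ℂ} {x R c : ℝ} (hR : 0 < R) (hc : 0 ≤ c)
    (hF : DifferentiableOn ℂ F (ball (x : ℂ) (R / 128)))
    (ha : ∀ z ∈ ball (x : ℂ) (R / 128), ‖F z - z‖ ≤ c * R / 1000000) {z w : ℂ}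
    (hz : z ∈ ball (x : ℂ) (R / 512)) (hw : w ∈ ball (x : ℂ) (R / 512)) :
    ‖deriv (fun w => F w - w) w - deriv (fun w => F w - w) z‖ ≤ c / R * ‖w - z‖ := by
  have hH : DifferentiableOn ℂ (fun w => F w - w) (ball (x : ℂ) (R / 128)) :=
    hF.sub differentiableOn_id
  have hH1 : DifferentiableOn ℂ (deriv fun w => F w - w) (ball (x : ℂ) (R / 128)) :=
    hH.deriv isOpen_ball
  have hR2 : 0 < R / 512 := by positivity
  have hsub : ∀ y ∈ ball (x : ℂ) (R / 512), closedBall y (R / 512) ⊆ ball (x : ℂ) (R / 256) :=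
    fun y hy => a14_cb hy (by linarith)
  have hsub2 : ball (x : ℂ) (R / 256) ⊆ ball (x : ℂ) (R / 128) :=
    ball_subset_ball (by linarith)
  refine Convex.norm_image_sub_le_of_norm_deriv_le (f := deriv fun w => F w - w) (𝕜 := ℂ)
    (s := ball (x : ℂ) (R / 512)) ?_ ?_ (convex_ball _ _) hz hw
  · intro y hy
    exact hH1.differentiableAt (isOpen_ball.mem_nhds
      (hsub2 (hsub y hy (mem_closedBall_self hR2.le))))
  · intro y hy
    have h1 := Complex.norm_deriv_le_of_forall_mem_sphere_norm_le hR2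
      ((hH1.mono hsub2).diffContOnCl_ball (hsub y hy))
      fun v hv => a14_deriv hR hF ha v (hsub y hy (sphere_subset_closedBall hv))
    refine h1.trans ?_
    rw [div_div_eq_mul_div, div_le_div_iff_of_pos_right hR]
    nlinarith

theorem a14_taylor {F : ℂ → ℂ} {x R c : ℝ} (hR : 0 < R) (hc : 0 ≤ c)
    (hF : DifferentiableOn ℂ F (ball (x : ℂ) (R / 128)))
    (ha : ∀ z ∈ ball (x : ℂ) (R / 128), ‖F z - z‖ ≤ c * R / 1000000) {z w : ℂ}
    (hz : z ∈ ball (x : ℂ) (R / 512)) (hw : w ∈ ball (x : ℂ) (R / 512)) :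
    ‖(F w - F z) - (1 + deriv (fun w => F w - w) z) * (w - z)‖ ≤ c / R * ‖w - z‖ * ‖w - z‖ := by
  have hH : DifferentiableOn ℂ (fun w => F w - w) (ball (x : ℂ) (R / 128)) :=
    hF.sub differentiableOn_id
  have hsub : ball (x : ℂ) (R / 512) ⊆ ball (x : ℂ) (R / 128) :=
    ball_subset_ball (by linarith)
  obtain ⟨d, hd⟩ : ∃ d, d = deriv (fun w => F w - w) z := ⟨_, rfl⟩
  have hdiff : ∀ y ∈ ball (x : ℂ) (R / 512) ∩ closedBall z ‖w - z‖,
      HasDerivAt (fun v => (F v - v) - d * v) (deriv (fun w => F w - w) y - d) y := by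
    intro y hy
    have h1 : HasDerivAt (fun v => F v - v) (deriv (fun w => F w - w) y) y :=
      (hH.differentiableAt (isOpen_ball.mem_nhds (hsub hy.1))).hasDerivAt
    have h2 : HasDerivAt (fun v : ℂ => d * v) d y := by
      simpa using (hasDerivAt_id y).const_mul d
    exact h1.sub h2
  have key := Convex.norm_image_sub_le_of_norm_hasDerivWithin_le
    (f := fun v => (F v - v) - d * v) (f' := fun y => deriv (fun w => F w - w) y - d)
    (s := ball (x : ℂ) (R / 512) ∩ closedBall z ‖w - z‖) (C := c / R * ‖w - z‖) (x := z) (y := w)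
    (fun y hy => (hdiff y hy).hasDerivWithinAt) ?_
    ((convex_ball _ _).inter (convex_closedBall _ _))
    ⟨hz, mem_closedBall_self (norm_nonneg _)⟩ ⟨hw, by rw [mem_closedBall, dist_eq_norm]⟩
  · have e : (F w - F z) - (1 + deriv (fun w => F w - w) z) * (w - z) =
        ((F w - w) - d * w) - ((F z - z) - d * z) := by
      rw [hd]
      ring
    rw [e]
    exact key
  · intro y hy
    rw [hd]
    refine (a14_deriv2 hR hc hF ha hz hy.1).trans ?_
    refine mul_le_mul_of_nonneg_left ?_ (by positivity)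
    have := hy.2
    rwa [mem_closedBall, dist_eq_norm] at this

theorem a14_bounds {F : ℂ → ℂ} {x R c : ℝ} (hR : 0 < R) (hc : 0 ≤ c)
    (hF : DifferentiableOn ℂ F (ball (x : ℂ) (R / 128)))
    (ha : ∀ z ∈ ball (x : ℂ) (R / 128), ‖F z - z‖ ≤ c * R / 1000000) {z w : ℂ}
    (hz : z ∈ ball (x : ℂ) (R / 512)) (hw : w ∈ ball (x : ℂ) (R / 512)) :
    ‖F w - F z‖ ≤ ‖w - z‖ * (‖1 + deriv (fun w => F w - w) z‖ + c / R * ‖w - z‖) ∧
    ‖w - z‖ * (‖1 + deriv (fun w => F w - w) z‖ - c / R * ‖w - z‖) ≤ ‖F w - F z‖ := by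
  have h := a14_taylor hR hc hF ha hz hw
  have h1 : ‖(1 + deriv (fun w => F w - w) z) * (w - z)‖ =
      ‖1 + deriv (fun w => F w - w) z‖ * ‖w - z‖ := norm_mul _ _
  have h2 := norm_sub_norm_le (F w - F z) ((1 + deriv (fun w => F w - w) z) * (w - z))
  have h3 := norm_sub_norm_le ((1 + deriv (fun w => F w - w) z) * (w - z)) (F w - F z)
  rw [norm_sub_rev ((1 + deriv (fun w => F w - w) z) * (w - z)) (F w - F z)] at h3
  rw [h1] at h2 h3
  constructor
  · nlinarith
  · nlinarith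

theorem sweep_iter {G : ℝ ≃o ℝ} {F : ℂ → ℂ} {x R c r : ℝ} {n : ℕ} (hc0 : 0 < c)
    (hc : c ≤ 1 / 1000000) (hR : 0 < R) (hr : 0 < r) (hF : Ext G F x (R / 128))
    (ha : ∀ z ∈ ball (x : ℂ) (R / 128), ‖F z - z‖ ≤ c * R / 1000000)
    (hu : c * r * (9 / 10) ≤ |G x - x|) (hn : |(G ^ n) x - x| ≤ 2 * c * R) :
    InjOn (F^[n]) (ball (x : ℂ) (r / 2)) ∧ DifferentiableOn ℂ (F^[n]) (ball (x : ℂ) (r / 2)) ∧
      (∀ z ∈ ball (x : ℂ) (r / 2), F^[n] z ∈ ball (x : ℂ) (R / 256)) ∧
      ∀ y : ℝ, |y - x| < r / 2 → F^[n] (y : ℂ) = (((G ^ n) y : ℝ) : ℂ) := by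
  obtain ⟨hFd, hFr⟩ := hF
  have hcR : 0 < c * R := by positivity
  have hu0 : 0 < |G x - x| := lt_of_lt_of_le (by positivity) hu
  have hne : G x ≠ x := by
    intro h
    rw [h, sub_self, abs_zero] at hu0
    exact lt_irrefl _ hu0
  -- the real orbit
  have horb := a14_orbit (G := G) (x := x) hne
  have hmono : Monotone fun j : ℕ => |(G ^ j) x - x| := monotone_nat_of_le_succ fun j => by
    have := (horb j).2
    have h2 := (horb j).1
    linarith
  have hxj : ∀ j ≤ n, |(G ^ j) x - x| ≤ 2 * c * R := fun j hj => (hmono hj).trans hn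
  have h2c : 2 * c * R ≤ 2 / 1000000 * R := by nlinarith
  have hV : ∀ j ≤ n, (((G ^ j) x : ℝ) : ℂ) ∈ ball (x : ℂ) (R / 512) := fun j hj =>
    M1_mem (lt_of_le_of_lt (hxj j hj) (by linarith))
  have hsub : ball (x : ℂ) (R / 512) ⊆ ball (x : ℂ) (R / 128) := ball_subset_ball (by linarith)
  have hsub2 : ball (x : ℂ) (R / 512) ⊆ ball (x : ℂ) (R / 256) := ball_subset_ball (by linarith)
  have hFx : ∀ j ≤ n, F (((G ^ j) x : ℝ) : ℂ) = (((G ^ (j + 1)) x : ℝ) : ℂ) := fun j hj => by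
    rw [hFr _ (M1_mem' (hsub (hV j hj))), o2_pow_succ]
  have huj : ∀ j ≤ n, |(G ^ (j + 1)) x - (G ^ j) x| ≤ c * R / 1000000 := fun j hj => by
    have h1 := ha _ (hsub (hV j hj))
    rw [hFx j hj, ← Complex.ofReal_sub, Complex.norm_real, Real.norm_eq_abs] at h1
    exact h1
  -- the main claim
  have claim : ∀ z ∈ ball (x : ℂ) (r / 2), ∀ j ≤ n,
      ‖F^[j] z - (((G ^ j) x : ℝ) : ℂ)‖ ≤ ‖z - x‖ / |G x - x| *
        Real.exp (8 / R * |(G ^ j) x - x|) * |(G ^ (j + 1)) x - (G ^ j) x| ∧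
      F^[j] z ∈ ball (x : ℂ) (R / 512) := by
    intro z hz
    have hzx : ‖z - x‖ < r / 2 := by rwa [mem_ball, dist_eq_norm] at hz
    have hq : ‖z - x‖ / |G x - x| ≤ 5 / (9 * c) := by
      rw [div_le_div_iff₀ hu0 (by positivity)]
      nlinarith
    have hq0 : 0 ≤ ‖z - x‖ / |G x - x| := by positivity
    -- consequence of the first part
    have cons : ∀ j ≤ n, ‖F^[j] z - (((G ^ j) x : ℝ) : ℂ)‖ ≤ ‖z - x‖ / |G x - x| *
        Real.exp (8 / R * |(G ^ j) x - x|) * |(G ^ (j + 1)) x - (G ^ j) x| →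
        ‖F^[j] z - (((G ^ j) x : ℝ) : ℂ)‖ ≤ 10 / (9 * c) * |(G ^ (j + 1)) x - (G ^ j) x| ∧
        F^[j] z ∈ ball (x : ℂ) (R / 512) := by
      intro j hj h
      have hexp : Real.exp (8 / R * |(G ^ j) x - x|) ≤ 2 := by
        have h1 : 8 / R * |(G ^ j) x - x| ≤ 1 / 2 := by
          have h2 : 8 / R * |(G ^ j) x - x| ≤ 8 / R * (2 * c * R) :=
            mul_le_mul_of_nonneg_left (hxj j hj) (by positivity)
          have h3 : 8 / R * (2 * c * R) = 16 * c := by
            field_simp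
            ring
          linarith
        calc Real.exp (8 / R * |(G ^ j) x - x|) ≤ Real.exp (1 / 2) := Real.exp_le_exp.2 h1
          _ ≤ 2 := by
            have h4 : Real.exp (1 / 2) ^ 2 = Real.exp 1 := by
              rw [← Real.exp_nat_mul]
              norm_num
            have h5 := Real.exp_one_lt_d9
            have h6 := Real.exp_pos (1 / 2)
            nlinarith
      have hU := (horb j).1
      have h1 : ‖F^[j] z - (((G ^ j) x : ℝ) : ℂ)‖ ≤
          10 / (9 * c) * |(G ^ (j + 1)) x - (G ^ j) x| := by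
        refine h.trans (mul_le_mul_of_nonneg_right ?_ hU.le)
        calc ‖z - x‖ / |G x - x| * Real.exp (8 / R * |(G ^ j) x - x|) ≤ 5 / (9 * c) * 2 :=
              mul_le_mul hq hexp (Real.exp_pos _).le (by positivity)
          _ = 10 / (9 * c) := by ring
      refine ⟨h1, ?_⟩
      have h2 : 10 / (9 * c) * |(G ^ (j + 1)) x - (G ^ j) x| ≤ 10 / (9 * c) * (c * R / 1000000) :=
        mul_le_mul_of_nonneg_left (huj j hj) (by positivity)
      have h3 : 10 / (9 * c) * (c * R / 1000000) = R / 900000 := by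
        field_simp
        norm_num
      rw [mem_ball, dist_eq_norm]
      have e : F^[j] z - x = (F^[j] z - (((G ^ j) x : ℝ) : ℂ)) + ((((G ^ j) x : ℝ) : ℂ) - x) := by
        ring
      have h4 : ‖(((G ^ j) x : ℝ) : ℂ) - x‖ = |(G ^ j) x - x| := by
        rw [← Complex.ofReal_sub, Complex.norm_real, Real.norm_eq_abs]
      rw [e]
      have h5 := norm_add_le (F^[j] z - (((G ^ j) x : ℝ) : ℂ)) ((((G ^ j) x : ℝ) : ℂ) - x)
      have h6 := hxj j hj
      linarith
    intro j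
    induction j with
    | zero =>
      intro _
      have h0 : ‖F^[0] z - (((G ^ 0) x : ℝ) : ℂ)‖ ≤ ‖z - x‖ / |G x - x| *
          Real.exp (8 / R * |(G ^ 0) x - x|) * |(G ^ (0 + 1)) x - (G ^ 0) x| := by
        have e1 : (G ^ 0) x = x := by rw [pow_zero]; rfl
        have e2 : (G ^ (0 + 1)) x = G x := by rw [zero_add, pow_one]
        rw [e1, e2, Function.iterate_zero, id, sub_self, abs_zero, mul_zero, Real.exp_zero,
          mul_one, div_mul_cancel₀ _ hu0.ne']
      exact ⟨h0, (cons 0 (Nat.zero_le n) h0).2⟩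
    | succ j ih =>
      intro hj
      have hj' : j ≤ n := by omega
      obtain ⟨ih1, ih2⟩ := ih hj'
      obtain ⟨c1, -⟩ := cons j hj' ih1
      have hU := (horb j).1
      have hUb := huj j hj'
      have b1 := (a14_bounds hR hc0.le hFd ha (hV j hj') ih2).1
      have b2 := (a14_bounds hR hc0.le hFd ha (hV j hj') (hV (j + 1) hj)).2
      rw [hFx j hj'] at b1 b2
      rw [hFx (j + 1) hj] at b2
      have en : ‖(((G ^ (j + 1)) x : ℝ) : ℂ) - (((G ^ j) x : ℝ) : ℂ)‖ =
          |(G ^ (j + 1)) x - (G ^ j) x| := by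
        rw [← Complex.ofReal_sub, Complex.norm_real, Real.norm_eq_abs]
      have en' : ‖(((G ^ (j + 1 + 1)) x : ℝ) : ℂ) - (((G ^ (j + 1)) x : ℝ) : ℂ)‖ =
          |(G ^ (j + 1 + 1)) x - (G ^ (j + 1)) x| := by
        rw [← Complex.ofReal_sub, Complex.norm_real, Real.norm_eq_abs]
      rw [en, en'] at b2
      have hp : 1 / 2 ≤ ‖1 + deriv (fun w => F w - w) (((G ^ j) x : ℝ) : ℂ)‖ := by
        have h1 := a14_deriv hR hFd ha _ (hsub2 (hV j hj'))
        have h2 := norm_sub_norm_le (1 : ℂ) (-deriv (fun w => F w - w) (((G ^ j) x : ℝ) : ℂ))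
        rw [norm_neg, norm_one, sub_neg_eq_add] at h2
        linarith
      have heu : 4 * (c / R) * |(G ^ (j + 1)) x - (G ^ j) x| ≤ 1 := by
        have h1 : 4 * (c / R) * |(G ^ (j + 1)) x - (G ^ j) x| ≤ 4 * (c / R) * (c * R / 1000000) :=
          mul_le_mul_of_nonneg_left hUb (by positivity)
        have h2 : 4 * (c / R) * (c * R / 1000000) = 4 * c * c / 1000000 := by
          field_simp
        nlinarith
      have st := a14_num (norm_nonneg _) hU.le (by positivity : 0 ≤ c / R)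
        (mul_nonneg hq0 (Real.exp_pos (8 / R * |(G ^ j) x - x|)).le) hp heu b1 b2 ih1
      have h0 : ‖F^[j + 1] z - (((G ^ (j + 1)) x : ℝ) : ℂ)‖ ≤ ‖z - x‖ / |G x - x| *
          Real.exp (8 / R * |(G ^ (j + 1)) x - x|) *
          |(G ^ (j + 1 + 1)) x - (G ^ (j + 1)) x| := by
        rw [Function.iterate_succ_apply']
        refine st.trans (mul_le_mul_of_nonneg_right ?_ (abs_nonneg _))
        rw [mul_assoc]
        refine mul_le_mul_of_nonneg_left ?_ hq0
        rw [(horb j).2, mul_add (8 / R), Real.exp_add]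
        refine mul_le_mul_of_nonneg_left ?_ (Real.exp_pos _).le
        have k1 : 4 * (c / R) * (‖F^[j] z - (((G ^ j) x : ℝ) : ℂ)‖ +
            |(G ^ (j + 1)) x - (G ^ j) x|) ≤ 8 / R * |(G ^ (j + 1)) x - (G ^ j) x| := by
          have k2 : ‖F^[j] z - (((G ^ j) x : ℝ) : ℂ)‖ + |(G ^ (j + 1)) x - (G ^ j) x| ≤
              2 / c * |(G ^ (j + 1)) x - (G ^ j) x| := by
            have k3 : 10 / (9 * c) + 1 ≤ 2 / c := by
              rw [div_add_one (by positivity), div_le_div_iff₀ (by positivity) hc0]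
              nlinarith
            nlinarith [mul_le_mul_of_nonneg_right k3 hU.le]
          calc 4 * (c / R) * (‖F^[j] z - (((G ^ j) x : ℝ) : ℂ)‖ +
              |(G ^ (j + 1)) x - (G ^ j) x|) ≤
              4 * (c / R) * (2 / c * |(G ^ (j + 1)) x - (G ^ j) x|) :=
                mul_le_mul_of_nonneg_left k2 (by positivity)
            _ = 8 / R * |(G ^ (j + 1)) x - (G ^ j) x| := by
                field_simp
                norm_num
        have k4 := Real.add_one_le_exp (8 / R * |(G ^ (j + 1)) x - (G ^ j) x|)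
        linarith
      exact ⟨h0, (cons (j + 1) hj h0).2⟩
  -- injectivity of `F`
  have hinj : ∀ p ∈ ball (x : ℂ) (R / 512), ∀ q ∈ ball (x : ℂ) (R / 512), F p = F q → p = q := by
    intro p hp q hq h
    have h1 : ‖(F q - q) - (F p - p)‖ ≤ c * 256 / 1000000 * ‖q - p‖ := by
      refine Convex.norm_image_sub_le_of_norm_deriv_le (f := fun z => F z - z) (𝕜 := ℂ)
        (s := ball (x : ℂ) (R / 512)) ?_ ?_ (convex_ball _ _) hp hq
      · intro y hy
        exact (hFd.sub differentiableOn_id).differentiableAt (isOpen_ball.mem_nhds (hsub hy))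
      · intro y hy
        exact a14_deriv hR hFd ha y (hsub2 hy)
    have h2 : (F q - q) - (F p - p) = -(q - p) := by
      rw [h]
      ring
    rw [h2, norm_neg] at h1
    have h3 : ‖q - p‖ = 0 := by
      have h4 := norm_nonneg (q - p)
      nlinarith
    rw [norm_eq_zero, sub_eq_zero] at h3
    exact h3.symm
  refine ⟨?_, ?_, fun z hz => hsub2 (claim z hz n le_rfl).2, ?_⟩
  · have key : ∀ j ≤ n, InjOn (F^[j]) (ball (x : ℂ) (r / 2)) := by
      intro j
      induction j with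
      | zero =>
        intro _ p _ q _ h
        simpa using h
      | succ j ih =>
        intro hj p hp q hq h
        rw [Function.iterate_succ_apply', Function.iterate_succ_apply'] at h
        exact ih (by omega) hp hq
          (hinj _ (claim p hp j (by omega)).2 _ (claim q hq j (by omega)).2 h)
    exact key n le_rfl
  · have key : ∀ j ≤ n, DifferentiableOn ℂ (F^[j]) (ball (x : ℂ) (r / 2)) := by
      intro j
      induction j with
      | zero =>
        intro _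
        rw [Function.iterate_zero]
        exact differentiableOn_id
      | succ j ih =>
        intro hj
        rw [Function.iterate_succ']
        exact hFd.comp (ih (by omega)) fun z hz => hsub (claim z hz j (by omega)).2
    exact key n le_rfl
  · intro y hy
    have hy' := M1_mem hy
    have key : ∀ j ≤ n, F^[j] (y : ℂ) = (((G ^ j) y : ℝ) : ℂ) := by
      intro j
      induction j with
      | zero =>
        intro _
        rw [Function.iterate_zero, pow_zero]
        rfl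
      | succ j ih =>
        intro hj
        have h1 := ih (by omega)
        have h2 := (claim y hy' j (by omega)).2
        rw [h1] at h2
        rw [Function.iterate_succ_apply', h1, hFr _ (M1_mem' (hsub h2)), o2_pow_succ]
    exact key n le_rfl

end Pool.Agent.H52.GS
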