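import Mathlib
import Pool.Agent.H62.CJ.A8
import Pool.Agent.H62.CJ.L0

/-!
# GS-A1: distortion of univalent functions (crude form)

Library: `H62.CJ.bieberbach (g) (hg : IsS g) : ‖deriv (deriv g) 0‖ ≤ 4`,
`H62.CJ.deriv_ne_zero_of_injOn (f U hU hd hi z hz) : deriv f z ≠ 0`.

PROOF of `koebe_ratio`.  Let `z ∈ ball z0 R`, `ρ = R - ‖z - z0‖ > 0`, so `ball z ρ ⊆ ball z0 R`.
`g ζ = (F (z + ρ ζ) - F z) / (ρ F' z)` is in the class `IsS` and `g'' 0 = ρ F'' z / F' z`.

PROOF of `koebe_dist`.  `F''/F'` is holomorphic on the ball, so it has a primitive `L` with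
`L z0 = 0` (`DifferentiableOn.isExactOn_ball`), and `F' z = F' z0 * exp (L z)` (the derivative of
`F' z * exp (- L z)` vanishes).  For `z` with `‖z - z0‖ ≤ ρ R` and `t ∈ [0,1]` the function
`ℓ t = L (z0 + t (z - z0))` has `‖ℓ' t‖ ≤ 4 ‖z - z0‖ / (R - t ‖z - z0‖)` (by `koebe_ratio`), which
is the derivative of `B t = - 4 log (1 - t ‖z - z0‖/R)`.  So
`‖L z‖ ≤ - 4 log (1 - ‖z - z0‖/R) ≤ - 4 log (1 - ρ)`
(`image_norm_le_of_norm_deriv_right_le_deriv_boundary'` or the mean value inequality).  Then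
`‖exp w - 1‖ ≤ exp ‖w‖ - 1` (`Complex.norm_exp_sub_one_le` style; or from the power series:
`‖exp w - 1‖ ≤ exp ‖w‖ - 1`), `exp (- ‖w‖) ≤ ‖exp w‖ ≤ exp ‖w‖` and
`exp (- 4 log (1 - ρ)) = 1 / (1 - ρ)^4`.
-/

set_option autoImplicit false
open Set Filter Topology MeasureTheory Metric

namespace Pool.Agent.H52.GS

theorem koebe_ratio {F : ℂ → ℂ} {z0 : ℂ} {R : ℝ} (hF : DifferentiableOn ℂ F (ball z0 R))
    (hi : InjOn F (ball z0 R)) {z : ℂ} (hz : z ∈ ball z0 R) :
    ‖deriv (deriv F) z‖ * (R - ‖z - z0‖) ≤ 4 * ‖deriv F z‖ := by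
  have ha : deriv F z ≠ 0 :=
    _root_.H62.CJ.deriv_ne_zero_of_injOn F (ball z0 R) isOpen_ball hF hi z hz
  set a : ℂ := deriv F z with had
  set r : ℝ := R - ‖z - z0‖ with hrd
  have hr : 0 < r := by
    rw [mem_ball_iff_norm] at hz
    linarith
  have hrC : (r : ℂ) ≠ 0 := by exact_mod_cast hr.ne'
  have hmaps : ∀ ζ ∈ ball (0 : ℂ) 1, z + r * ζ ∈ ball z0 R := by
    intro ζ hζ
    rw [mem_ball_iff_norm] at hζ ⊢
    rw [sub_zero] at hζ
    have h1 : z + r * ζ - z0 = (z - z0) + r * ζ := by ring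
    rw [h1]
    have h2 : ‖(r : ℂ) * ζ‖ < r := by
      rw [norm_mul, Complex.norm_real, Real.norm_of_nonneg hr.le]
      nlinarith
    have h3 := norm_add_le (z - z0) ((r : ℂ) * ζ)
    rw [hrd] at h2
    rw [hrd] at h3 ⊢
    linarith
  have hin : ∀ ζ : ℂ, HasDerivAt (fun ζ : ℂ => z + r * ζ) (r : ℂ) ζ := by
    intro ζ
    have h1 := ((hasDerivAt_id ζ).const_mul (r : ℂ)).const_add z
    rw [mul_one] at h1
    exact h1
  have hFd : ∀ w ∈ ball z0 R, HasDerivAt F (deriv F w) w := fun w hw =>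
    (hF.differentiableAt (isOpen_ball.mem_nhds hw)).hasDerivAt
  have hF' : DifferentiableOn ℂ (deriv F) (ball z0 R) := hF.deriv isOpen_ball
  have hF'd : ∀ w ∈ ball z0 R, HasDerivAt (deriv F) (deriv (deriv F) w) w := fun w hw =>
    (hF'.differentiableAt (isOpen_ball.mem_nhds hw)).hasDerivAt
  set g : ℂ → ℂ := fun ζ => (F (z + r * ζ) - F z) / (r * a) with hg
  have hgd : ∀ ζ ∈ ball (0 : ℂ) 1, HasDerivAt g (deriv F (z + r * ζ) / a) ζ := by
    intro ζ hζ
    have h1 : HasDerivAt (fun ζ : ℂ => F (z + r * ζ)) (deriv F (z + r * ζ) * r) ζ :=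
      (hFd _ (hmaps ζ hζ)).comp ζ (hin ζ)
    have h2 := (h1.sub_const (F z)).div_const ((r : ℂ) * a)
    have h3 : deriv F (z + r * ζ) * r / (r * a) = deriv F (z + r * ζ) / a := by
      field_simp
    rw [h3] at h2
    exact h2
  have h0 : (0 : ℂ) ∈ ball (0 : ℂ) 1 := mem_ball_self one_pos
  have hgS : _root_.H62.CJ.IsS g := by
    refine ⟨fun ζ hζ => (hgd ζ hζ).differentiableAt.differentiableWithinAt, ?_, ?_, ?_⟩
    · intro ζ hζ ξ hξ hEq
      have h1 : (F (z + r * ζ) - F z) / (r * a) = (F (z + r * ξ) - F z) / (r * a) := hEq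
      have h2 : (r : ℂ) * a ≠ 0 := mul_ne_zero hrC ha
      rw [div_left_inj' h2] at h1
      have h3 : F (z + r * ζ) = F (z + r * ξ) := by linear_combination h1
      have h4 := hi (hmaps ζ hζ) (hmaps ξ hξ) h3
      have h5 : (r : ℂ) * ζ = r * ξ := by linear_combination h4
      exact mul_left_cancel₀ hrC h5
    · show (F (z + r * 0) - F z) / (r * a) = 0
      rw [mul_zero, add_zero, sub_self, zero_div]
    · rw [(hgd 0 h0).deriv, mul_zero, add_zero, ← had, div_self ha]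
  have hb := _root_.H62.CJ.bieberbach g hgS
  have hgg : deriv (deriv g) 0 = deriv (deriv F) z * r / a := by
    have h1 : deriv g =ᶠ[𝓝 0] fun ζ => deriv F (z + r * ζ) / a := by
      filter_upwards [isOpen_ball.mem_nhds h0] with ζ hζ
      exact (hgd ζ hζ).deriv
    rw [h1.deriv_eq]
    have h2 : HasDerivAt (fun ζ : ℂ => deriv F (z + r * ζ)) (deriv (deriv F) (z + r * 0) * r) 0 :=
      HasDerivAt.comp (h₂ := deriv F) (h := fun ζ : ℂ => z + r * ζ) (0 : ℂ)
        (hF'd _ (hmaps 0 h0)) (hin 0)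
    rw [(h2.div_const a).deriv, mul_zero, add_zero]
  rw [hgg, norm_div, norm_mul, Complex.norm_real, Real.norm_of_nonneg hr.le,
    div_le_iff₀ (norm_pos_iff.2 ha)] at hb
  exact hb

theorem koebe_dist {F : ℂ → ℂ} {z0 : ℂ} {R ρ : ℝ} (hR : 0 < R) (hρ0 : 0 ≤ ρ) (hρ : ρ < 1)
    (hF : DifferentiableOn ℂ F (ball z0 R)) (hi : InjOn F (ball z0 R)) {z : ℂ}
    (hz : ‖z - z0‖ ≤ ρ * R) :
    ‖deriv F z / deriv F z0 - 1‖ ≤ 1 / (1 - ρ) ^ 4 - 1 ∧
      (1 - ρ) ^ 4 * ‖deriv F z0‖ ≤ ‖deriv F z‖ ∧ (1 - ρ) ^ 4 * ‖deriv F z‖ ≤ ‖deriv F z0‖ := by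
  have hρ1 : 0 < 1 - ρ := by linarith
  have hz0 : z0 ∈ ball z0 R := mem_ball_self hR
  have hnz : ∀ w ∈ ball z0 R, deriv F w ≠ 0 := fun w hw =>
    _root_.H62.CJ.deriv_ne_zero_of_injOn F (ball z0 R) isOpen_ball hF hi w hw
  have hF' : DifferentiableOn ℂ (deriv F) (ball z0 R) := hF.deriv isOpen_ball
  have hF'' : DifferentiableOn ℂ (deriv (deriv F)) (ball z0 R) := hF'.deriv isOpen_ball
  have hF'd : ∀ w ∈ ball z0 R, HasDerivAt (deriv F) (deriv (deriv F) w) w := fun w hw =>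
    (hF'.differentiableAt (isOpen_ball.mem_nhds hw)).hasDerivAt
  have hq : DifferentiableOn ℂ (fun w => deriv (deriv F) w / deriv F w) (ball z0 R) :=
    hF''.div hF' hnz
  obtain ⟨L, hL0, hL⟩ := hq.isExactOn_ball.with_val_at z0 0
  -- the constant
  have hconst : ∀ w ∈ ball z0 R, deriv F w = deriv F z0 * Complex.exp (L w) := by
    intro w hw
    have hE : ∀ u ∈ ball z0 R, HasDerivWithinAt (fun u => deriv F u * Complex.exp (-L u)) 0
        (ball z0 R) u := by
      intro u hu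
      have h0 : HasDerivAt (fun u => -L u) (-(deriv (deriv F) u / deriv F u)) u := (hL u hu).neg
      have h1 : HasDerivAt (fun u => deriv F u * Complex.exp (-L u))
          (deriv (deriv F) u * Complex.exp (-L u) +
          deriv F u * (Complex.exp (-L u) * -(deriv (deriv F) u / deriv F u))) u :=
        (hF'd u hu).mul h0.cexp
      have h2 : deriv (deriv F) u * Complex.exp (-L u) +
          deriv F u * (Complex.exp (-L u) * -(deriv (deriv F) u / deriv F u)) = 0 := by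
        have := hnz u hu
        field_simp
        ring
      rw [h2] at h1
      exact h1.hasDerivWithinAt
    have h1 := (convex_ball z0 R).norm_image_sub_le_of_norm_hasDerivWithin_le (C := 0) hE
      (fun u _ => by simp) hz0 hw
    rw [zero_mul] at h1
    have h2 : deriv F w * Complex.exp (-L w) = deriv F z0 * Complex.exp (-L z0) :=
      sub_eq_zero.1 (norm_eq_zero.1 (le_antisymm h1 (norm_nonneg _)))
    rw [hL0, neg_zero, Complex.exp_zero, mul_one] at h2
    rw [← h2, mul_assoc, ← Complex.exp_add, neg_add_cancel, Complex.exp_zero, mul_one]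
  -- the bound of L
  set m : ℝ := ‖z - z0‖ with hm
  have hm0 : 0 ≤ m := norm_nonneg _
  have hmR : m < R := lt_of_le_of_lt hz (by nlinarith)
  have hball : ∀ t : ℝ, 0 ≤ t → t ≤ 1 → z0 + (t : ℂ) * (z - z0) ∈ ball z0 R := by
    intro t ht0 ht1
    rw [mem_ball_iff_norm, add_sub_cancel_left, norm_mul, Complex.norm_real,
      Real.norm_of_nonneg ht0]
    nlinarith
  have hLz : ‖L z‖ ≤ -4 * Real.log (1 - ρ) := by
    have hℓ : ∀ t : ℝ, 0 ≤ t → t ≤ 1 → HasDerivAt (fun t : ℝ => L (z0 + (t : ℂ) * (z - z0)))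
        (deriv (deriv F) (z0 + (t : ℂ) * (z - z0)) / deriv F (z0 + (t : ℂ) * (z - z0))
          * (z - z0)) t := by
      intro t ht0 ht1
      have h1 : HasDerivAt (fun t : ℝ => z0 + (t : ℂ) * (z - z0)) (z - z0) t := by
        have h2 := ((Complex.ofRealCLM.hasDerivAt (x := t)).mul_const (z - z0)).const_add z0
        simpa using h2
      have h2 := (hL _ (hball t ht0 ht1)).comp_of_eq t h1 rfl
      exact h2
    have hpos : ∀ t : ℝ, 0 ≤ t → t ≤ 1 → 0 < 1 - t * (m / R) := by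
      intro t ht0 ht1
      have h1 : m / R < 1 := (div_lt_one hR).2 hmR
      have h2 : 0 ≤ m / R := div_nonneg hm0 hR.le
      nlinarith
    have hB : ∀ t : ℝ, 0 ≤ t → t ≤ 1 → HasDerivAt
        (fun t : ℝ => -4 * Real.log (1 - t * (m / R))) (-4 * (-(m / R) / (1 - t * (m / R)))) t := by
      intro t ht0 ht1
      have h1 : HasDerivAt (fun t : ℝ => 1 - t * (m / R)) (-(m / R)) t := by
        have h2 := ((hasDerivAt_id t).mul_const (m / R)).const_sub 1
        simpa using h2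
      exact (h1.log (hpos t ht0 ht1).ne').const_mul (-4)
    have hfin := image_norm_le_of_norm_deriv_right_le_deriv_boundary' (a := (0 : ℝ)) (b := 1)
      (f := fun t : ℝ => L (z0 + (t : ℂ) * (z - z0)))
      (f' := fun t : ℝ => deriv (deriv F) (z0 + (t : ℂ) * (z - z0)) /
        deriv F (z0 + (t : ℂ) * (z - z0)) * (z - z0))
      (B := fun t : ℝ => -4 * Real.log (1 - t * (m / R)))
      (B' := fun t : ℝ => -4 * (-(m / R) / (1 - t * (m / R))))
      (fun t ht => (hℓ t ht.1 ht.2).continuousAt.continuousWithinAt)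
      (fun t ht => (hℓ t ht.1 ht.2.le).hasDerivWithinAt)
      (by simp [hL0])
      (fun t ht => (hB t ht.1 ht.2).continuousAt.continuousWithinAt)
      (fun t ht => (hB t ht.1 ht.2.le).hasDerivWithinAt)
      (by
        intro t ht
        have hw := hball t ht.1 ht.2.le
        have hk := koebe_ratio hF hi hw
        have hn : ‖z0 + (t : ℂ) * (z - z0) - z0‖ = t * m := by
          rw [add_sub_cancel_left, norm_mul, Complex.norm_real, Real.norm_of_nonneg ht.1]
        rw [hn] at hk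
        have hd : 0 < ‖deriv F (z0 + (t : ℂ) * (z - z0))‖ := norm_pos_iff.2 (hnz _ hw)
        have hRt : 0 < R - t * m := by nlinarith [ht.1, ht.2]
        rw [norm_mul, norm_div, ← hm]
        have h1 : -4 * (-(m / R) / (1 - t * (m / R))) = 4 * m / (R - t * m) := by
          have := (hpos t ht.1 ht.2.le).ne'
          field_simp
        rw [h1, div_mul_eq_mul_div, div_le_div_iff₀ hd hRt]
        nlinarith)
    have h1 := hfin (x := 1) ⟨zero_le_one, le_rfl⟩
    simp only [Complex.ofReal_one, one_mul, add_sub_cancel] at h1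
    refine h1.trans ?_
    have h2 : Real.log (1 - ρ) ≤ Real.log (1 - m / R) := by
      apply Real.log_le_log hρ1
      have h3 : m / R ≤ ρ := (div_le_iff₀ hR).2 hz
      linarith
    linarith
  have hzb : z ∈ ball z0 R := by
    rw [mem_ball_iff_norm]
    exact hmR
  have hexp : Real.exp ‖L z‖ ≤ 1 / (1 - ρ) ^ 4 := by
    calc Real.exp ‖L z‖ ≤ Real.exp (-4 * Real.log (1 - ρ)) := Real.exp_le_exp.2 hLz
      _ = 1 / (1 - ρ) ^ 4 := by
        have h1 : -4 * Real.log (1 - ρ) = -Real.log ((1 - ρ) ^ 4) := by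
          rw [Real.log_pow]
          push_cast
          ring
        rw [h1, Real.exp_neg, Real.exp_log (pow_pos hρ1 4), one_div]
  have hp4 : 0 < (1 - ρ) ^ 4 := pow_pos hρ1 4
  have hd0 := hnz z0 hz0
  have heq := hconst z hzb
  refine ⟨?_, ?_, ?_⟩
  · have h1 : deriv F z / deriv F z0 - 1 = Complex.exp (L z) - 1 := by
      rw [heq, mul_div_cancel_left₀ _ hd0]
    have h2 := Complex.norm_exp_sub_sum_le_exp_norm_sub_sum (L z) 1
    simp only [Finset.range_one, Finset.sum_singleton, pow_zero, Nat.factorial_zero, Nat.cast_one,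
      div_one] at h2
    rw [h1]
    linarith
  · have h1 : deriv F z0 = deriv F z * Complex.exp (-L z) := by
      rw [heq, mul_assoc, ← Complex.exp_add, add_neg_cancel, Complex.exp_zero, mul_one]
    have h2 : ‖Complex.exp (-L z)‖ ≤ 1 / (1 - ρ) ^ 4 := by
      refine (Complex.norm_exp_le_exp_norm _).trans ?_
      rw [norm_neg]
      exact hexp
    have h3 : ‖deriv F z0‖ ≤ ‖deriv F z‖ * (1 / (1 - ρ) ^ 4) := by
      rw [h1, norm_mul]
      exact mul_le_mul_of_nonneg_left h2 (norm_nonneg _)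
    rw [mul_one_div, le_div_iff₀ hp4] at h3
    linarith
  · have h2 : ‖Complex.exp (L z)‖ ≤ 1 / (1 - ρ) ^ 4 :=
      (Complex.norm_exp_le_exp_norm _).trans hexp
    have h3 : ‖deriv F z‖ ≤ ‖deriv F z0‖ * (1 / (1 - ρ) ^ 4) := by
      rw [heq, norm_mul]
      exact mul_le_mul_of_nonneg_left h2 (norm_nonneg _)
    rw [mul_one_div, le_div_iff₀ hp4] at h3
    linarith

end Pool.Agent.H52.GS
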