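import Mathlib
import Pool.Agent.H52.GS.O2
import Pool.Agent.H52.GS.A1

/-!
# GS-A6: distortion of univalent real maps

PROOFS.
* `uni_deriv`: `F` is holomorphic at the real point `y`, `F' y ≠ 0`
  (`H62.CJ.deriv_ne_zero_of_injOn`).  The restriction of `F` to the real axis is `w`, so `w` is
  differentiable at `y` and `(w' y : ℂ) = F' y` (`HasDerivAt.comp_ofReal` and real values:
  `Complex.ofReal` is a closed embedding; or take real parts); `w` is increasing, so `w' y ≥ 0`, and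
  `F' y ≠ 0`.
* `uni_dist`: `koebe_dist` with `z0 = x`, `‖F' x‖ = w' x`.
* `uni_growth`: mean value inequality on the segment `[x, z]`, on which `‖F'‖ ≤ w' x/(1-ρ)^4`.
* `Uni.mono`: restrict.
* `Uni.real_le`, `Uni.le_real`: mean value theorem for `w` on the real segment `[p,q]`, all of whose
  points are within `ρ R` of `x`: `w' ≤ w' x/(1-ρ)^4`, `w' ≥ (1-ρ)^4 w' x`.
-/

set_option autoImplicit false
open Set Filter Topology MeasureTheory Metric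

namespace Pool.Agent.H52.GS

theorem A6_mem {x R y : ℝ} (hy : |y - x| < R) : (y : ℂ) ∈ ball (x : ℂ) R := by
  rw [mem_ball_iff_norm, ← Complex.ofReal_sub, Complex.norm_real]
  exact hy

theorem uni_deriv {w : ℝ ≃o ℝ} {F : ℂ → ℂ} {x R : ℝ} (he : Ext w F x R)
    (hi : InjOn F (ball (x : ℂ) R)) {y : ℝ} (hy : |y - x| < R) :
    HasDerivAt (w : ℝ → ℝ) (deriv (w : ℝ → ℝ) y) y ∧ 0 < deriv (w : ℝ → ℝ) y ∧
      HasDerivAt F ((deriv (w : ℝ → ℝ) y : ℝ) : ℂ) (y : ℂ) := by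
  have hym : (y : ℂ) ∈ ball (x : ℂ) R := A6_mem hy
  have hF : HasDerivAt F (deriv F y) (y : ℂ) :=
    (he.1.differentiableAt (isOpen_ball.mem_nhds hym)).hasDerivAt
  have hne : deriv F y ≠ 0 :=
    _root_.H62.CJ.deriv_ne_zero_of_injOn F (ball (x : ℂ) R) isOpen_ball he.1 hi y hym
  have hev : ∀ᶠ t : ℝ in 𝓝 y, F (t : ℂ) = ((w t : ℝ) : ℂ) := by
    have h1 : {t : ℝ | |t - x| < R} ∈ 𝓝 y := by
      have h2 : IsOpen {t : ℝ | |t - x| < R} := isOpen_lt (by fun_prop) continuous_const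
      exact h2.mem_nhds hy
    filter_upwards [h1] with t ht
    exact he.2 t ht
  have hre : HasDerivAt (w : ℝ → ℝ) (deriv F y).re y := by
    refine hF.real_of_complex.congr_of_eventuallyEq ?_
    filter_upwards [hev] with t ht
    rw [ht, Complex.ofReal_re]
  have him : (deriv F y).im = 0 := by
    have h1 : HasDerivAt (fun t : ℝ => (F (t : ℂ)).im) (deriv F y).im y :=
      Complex.imCLM.hasFDerivAt.comp_hasDerivAt y hF.comp_ofReal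
    have h2 : HasDerivAt (fun t : ℝ => (F (t : ℂ)).im) 0 y := by
      refine (hasDerivAt_const y (0 : ℝ)).congr_of_eventuallyEq ?_
      filter_upwards [hev] with t ht
      rw [ht, Complex.ofReal_im]
    exact h1.unique h2
  have hd : deriv (w : ℝ → ℝ) y = (deriv F y).re := hre.deriv
  have hC : ((deriv (w : ℝ → ℝ) y : ℝ) : ℂ) = deriv F y := by
    rw [hd]
    apply Complex.ext
    · rw [Complex.ofReal_re]
    · rw [Complex.ofReal_im, him]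
  refine ⟨hd ▸ hre, ?_, hC ▸ hF⟩
  have h0 : 0 ≤ deriv (w : ℝ → ℝ) y := w.monotone.deriv_nonneg
  rcases h0.lt_or_eq with h | h
  · exact h
  · exfalso
    apply hne
    rw [← hC, ← h, Complex.ofReal_zero]

theorem uni_dist {w : ℝ ≃o ℝ} {F : ℂ → ℂ} {x R ρ : ℝ} (hR : 0 < R) (hρ0 : 0 ≤ ρ) (hρ : ρ < 1)
    (he : Ext w F x R) (hi : InjOn F (ball (x : ℂ) R)) {z : ℂ} (hz : ‖z - x‖ ≤ ρ * R) :
    (1 - ρ) ^ 4 * deriv (w : ℝ → ℝ) x ≤ ‖deriv F z‖ ∧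
      (1 - ρ) ^ 4 * ‖deriv F z‖ ≤ deriv (w : ℝ → ℝ) x := by
  have h1 := uni_deriv he hi (y := x) (by rw [sub_self, abs_zero]; exact hR)
  have h2 : ‖deriv F x‖ = deriv (w : ℝ → ℝ) x := by
    rw [h1.2.2.deriv, Complex.norm_real, Real.norm_of_nonneg h1.2.1.le]
  have h3 := koebe_dist hR hρ0 hρ he.1 hi hz
  rw [h2] at h3
  exact ⟨h3.2.1, h3.2.2⟩

theorem A6_pow {ρ : ℝ} (hρ : ρ < 1) : 0 < (1 - ρ) ^ 4 := by
  have : 0 < 1 - ρ := by linarith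
  positivity

theorem A6_lt {R ρ : ℝ} (hR : 0 < R) (hρ : ρ < 1) : ρ * R < R := by nlinarith

theorem uni_growth {w : ℝ ≃o ℝ} {F : ℂ → ℂ} {x R ρ : ℝ} (hR : 0 < R) (hρ0 : 0 ≤ ρ) (hρ : ρ < 1)
    (he : Ext w F x R) (hi : InjOn F (ball (x : ℂ) R)) {z : ℂ} (hz : ‖z - x‖ ≤ ρ * R) :
    (1 - ρ) ^ 4 * ‖F z - ((w x : ℝ) : ℂ)‖ ≤ deriv (w : ℝ → ℝ) x * (ρ * R) := by
  have hp := A6_pow hρ
  have hx0 : |x - x| < R := by rw [sub_self, abs_zero]; exact hR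
  have h1 := uni_deriv he hi (y := x) hx0
  have hFx : F x = ((w x : ℝ) : ℂ) := he.2 x hx0
  have hm : ‖F z - F x‖ ≤ (deriv (w : ℝ → ℝ) x / (1 - ρ) ^ 4) * ‖z - x‖ := by
    refine Convex.norm_image_sub_le_of_norm_deriv_le (s := closedBall (x : ℂ) (ρ * R)) ?_ ?_
      (convex_closedBall _ _) ?_ ?_
    · intro v hv
      apply he.1.differentiableAt
      apply isOpen_ball.mem_nhds
      exact closedBall_subset_ball (A6_lt hR hρ) hv
    · intro v hv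
      rw [mem_closedBall_iff_norm] at hv
      rw [le_div_iff₀ hp, mul_comm]
      exact (uni_dist hR hρ0 hρ he hi hv).2
    · exact mem_closedBall_self (mul_nonneg hρ0 hR.le)
    · rw [mem_closedBall_iff_norm]
      exact hz
  rw [← hFx]
  calc (1 - ρ) ^ 4 * ‖F z - F x‖
      ≤ (1 - ρ) ^ 4 * ((deriv (w : ℝ → ℝ) x / (1 - ρ) ^ 4) * ‖z - x‖) :=
        mul_le_mul_of_nonneg_left hm hp.le
    _ = deriv (w : ℝ → ℝ) x * ‖z - x‖ := by
        rw [← mul_assoc, mul_div_cancel₀ _ hp.ne']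
    _ ≤ deriv (w : ℝ → ℝ) x * (ρ * R) := mul_le_mul_of_nonneg_left hz h1.2.1.le

theorem Uni.mono {f : ℝ → ℝ} {x R x' R' : ℝ} (h : Uni f x R) (hx : |x' - x| + R' ≤ R) :
    Uni f x' R' := by
  obtain ⟨F, he, hi⟩ := h
  have hsub : ball (x' : ℂ) R' ⊆ ball (x : ℂ) R := by
    apply ball_subset_ball'
    rw [dist_eq_norm, ← Complex.ofReal_sub, Complex.norm_real, Real.norm_eq_abs]
    linarith
  refine ⟨F, ⟨he.1.mono hsub, fun y hy => he.2 y ?_⟩, hi.mono hsub⟩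
  have h1 : y - x = (y - x') + (x' - x) := by ring
  rw [h1]
  have h2 := abs_add_le (y - x') (x' - x)
  linarith

theorem Uni.diff {w : ℝ ≃o ℝ} {x R : ℝ} (h : Uni w x R) {y : ℝ} (hy : |y - x| < R) :
    HasDerivAt (w : ℝ → ℝ) (deriv (w : ℝ → ℝ) y) y ∧ 0 < deriv (w : ℝ → ℝ) y := by
  obtain ⟨F, he, hi⟩ := h
  exact ⟨(uni_deriv he hi hy).1, (uni_deriv he hi hy).2.1⟩

theorem A6_bd {w : ℝ ≃o ℝ} {x R ρ : ℝ} (hR : 0 < R) (hρ0 : 0 ≤ ρ) (hρ : ρ < 1)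
    (h : Uni w x R) {t : ℝ} (ht : |t - x| ≤ ρ * R) :
    (1 - ρ) ^ 4 * deriv (w : ℝ → ℝ) x ≤ deriv (w : ℝ → ℝ) t ∧
      (1 - ρ) ^ 4 * deriv (w : ℝ → ℝ) t ≤ deriv (w : ℝ → ℝ) x := by
  obtain ⟨F, he, hi⟩ := h
  have h1 : ‖(t : ℂ) - x‖ ≤ ρ * R := by
    rw [← Complex.ofReal_sub, Complex.norm_real]
    exact ht
  have h2 := uni_dist hR hρ0 hρ he hi h1
  have h3 := uni_deriv he hi (y := t) (lt_of_le_of_lt ht (A6_lt hR hρ))
  rw [h3.2.2.deriv, Complex.norm_real, Real.norm_of_nonneg h3.2.1.le] at h2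
  exact h2

theorem Uni.real_le {w : ℝ ≃o ℝ} {x R ρ : ℝ} (hR : 0 < R) (hρ0 : 0 ≤ ρ) (hρ : ρ < 1)
    (h : Uni w x R) {p q : ℝ} (hp : |p - x| ≤ ρ * R) (hq : |q - x| ≤ ρ * R) :
    (1 - ρ) ^ 4 * |w p - w q| ≤ deriv (w : ℝ → ℝ) x * |p - q| := by
  have hP := A6_pow hρ
  have hm : ‖w p - w q‖ ≤ (deriv (w : ℝ → ℝ) x / (1 - ρ) ^ 4) * ‖p - q‖ := by
    refine Convex.norm_image_sub_le_of_norm_deriv_le (s := closedBall x (ρ * R)) ?_ ?_
      (convex_closedBall _ _) ?_ ?_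
    · intro v hv
      rw [mem_closedBall_iff_norm] at hv
      exact (h.diff (lt_of_le_of_lt hv (A6_lt hR hρ))).1.differentiableAt
    · intro v hv
      rw [mem_closedBall_iff_norm] at hv
      rw [Real.norm_of_nonneg (h.diff (lt_of_le_of_lt hv (A6_lt hR hρ))).2.le,
        le_div_iff₀ hP, mul_comm]
      exact (A6_bd hR hρ0 hρ h hv).2
    · rw [mem_closedBall_iff_norm]
      exact hq
    · rw [mem_closedBall_iff_norm]
      exact hp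
  rw [Real.norm_eq_abs, Real.norm_eq_abs] at hm
  calc (1 - ρ) ^ 4 * |w p - w q|
      ≤ (1 - ρ) ^ 4 * ((deriv (w : ℝ → ℝ) x / (1 - ρ) ^ 4) * |p - q|) :=
        mul_le_mul_of_nonneg_left hm hP.le
    _ = deriv (w : ℝ → ℝ) x * |p - q| := by
        rw [← mul_assoc, mul_div_cancel₀ _ hP.ne']

theorem A6_le_real {w : ℝ ≃o ℝ} {x R ρ : ℝ} (hR : 0 < R) (hρ0 : 0 ≤ ρ) (hρ : ρ < 1)
    (h : Uni w x R) {p q : ℝ} (hp : |p - x| ≤ ρ * R) (hq : |q - x| ≤ ρ * R) (hpq : p ≤ q) :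
    (1 - ρ) ^ 4 * deriv (w : ℝ → ℝ) x * (q - p) ≤ w q - w p := by
  have hD : ∀ t ∈ closedBall x (ρ * R), |t - x| ≤ ρ * R := fun t ht => by
    rw [mem_closedBall_iff_norm] at ht
    exact ht
  have hdiff : ∀ t ∈ closedBall x (ρ * R), DifferentiableAt ℝ (w : ℝ → ℝ) t := fun t ht =>
    (h.diff (lt_of_le_of_lt (hD t ht) (A6_lt hR hρ))).1.differentiableAt
  refine Convex.mul_sub_le_image_sub_of_le_deriv (D := closedBall x (ρ * R))
    (convex_closedBall _ _) (fun t ht => (hdiff t ht).continuousAt.continuousWithinAt)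
    (fun t ht => (hdiff t (interior_subset ht)).differentiableWithinAt)
    (fun t ht => (A6_bd hR hρ0 hρ h (hD t (interior_subset ht))).1) p ?_ q ?_ hpq
  · rw [mem_closedBall_iff_norm]
    exact hp
  · rw [mem_closedBall_iff_norm]
    exact hq

theorem Uni.le_real {w : ℝ ≃o ℝ} {x R ρ : ℝ} (hR : 0 < R) (hρ0 : 0 ≤ ρ) (hρ : ρ < 1)
    (h : Uni w x R) {p q : ℝ} (hp : |p - x| ≤ ρ * R) (hq : |q - x| ≤ ρ * R) :
    (1 - ρ) ^ 4 * (deriv (w : ℝ → ℝ) x * |p - q|) ≤ |w p - w q| := by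
  rcases le_total p q with hpq | hpq
  · have h1 := A6_le_real hR hρ0 hρ h hp hq hpq
    have h2 : w p ≤ w q := w.monotone hpq
    rw [abs_of_nonpos (by linarith : p - q ≤ 0), abs_of_nonpos (by linarith : w p - w q ≤ 0)]
    linarith
  · have h1 := A6_le_real hR hρ0 hρ h hq hp hpq
    have h2 : w q ≤ w p := w.monotone hpq
    rw [abs_of_nonneg (by linarith : 0 ≤ p - q), abs_of_nonneg (by linarith : 0 ≤ w p - w q)]
    linarith

theorem Rel.inv {Γ : Subgroup (ℝ ≃o ℝ)} {f : ℝ ≃o ℝ} {x r : ℝ} (h : Rel Γ f x r) :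
    Rel Γ f⁻¹ x r := by
  obtain ⟨w, hw, W, hW, hf, h1, h2⟩ := h
  refine ⟨W, hW, w, hw, ?_, h2, h1⟩
  rw [hf, mul_inv_rev, inv_inv]

theorem Rel.mono {Γ : Subgroup (ℝ ≃o ℝ)} {f : ℝ ≃o ℝ} {x r x' r' : ℝ} (h : Rel Γ f x r)
    (hx : |x' - x| + r' / 2 ≤ r / 2) : Rel Γ f x' r' := by
  obtain ⟨w, hw, W, hW, hf, h1, h2⟩ := h
  exact ⟨w, hw, W, hW, hf, h1.mono hx, h2.mono hx⟩

theorem Rel.mem {Γ : Subgroup (ℝ ≃o ℝ)} {f : ℝ ≃o ℝ} {x r : ℝ} (h : Rel Γ f x r) : f ∈ Γ := by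
  obtain ⟨w, hw, W, hW, hf, h1, h2⟩ := h
  rw [hf]
  exact Γ.mul_mem (Γ.inv_mem hW) hw

end Pool.Agent.H52.GS
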