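import Mathlib
import Pool.Agent.H52.GS.A14
import Pool.Agent.H52.GS.A6

/-!
# GS-A15: the sweep lemma

PROOF.  Let `F, F'` be the extensions of `f, f⁻¹` from `hNI`; `|f' - 1|`, `|(f⁻¹)' - 1| ≤ 256 c/10^6`
on real points within `R/256` of `x` (Cauchy).
Choose `G ∈ {f, f⁻¹}` such that `G x - x` has the sign of `y - x` (if `y = x` take `G = f`):
possible since `f x ≠ x`.  `(9/10) c r ≤ |G x - x| ≤ (11/10) c r`: for `G = f⁻¹` put
`x' = f⁻¹ x`; `|f x - x| = |f x - f x'|` lies between `(1 ∓ 10^(-3)) |x - x'|`.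
Suppose `x ≤ y` (the case `y < x` is symmetric).  `x < G x`, and `G` has no fixed point in `[x, y]`
(`hne`), so `z < G z` for all `z ∈ [x, y]` (IVT).  The orbit `x_j = (G^j) x` is strictly increasing
and leaves `[x, y]` (otherwise it converges to a fixed point in `[x, y]`); let `n` be such that
`x_n ≤ y < x_(n+1)`.  Put `y' = (G^n)⁻¹ y ∈ [x, G x)`; so `|y' - x| ≤ |G x - x| ≤ 2 c r`, and
`y' ≤ y` because `z < G z` on `[x, y]` (the points `(G^j) y'`, `j ≤ n`, are increasing), so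
`y' ∈ [x, y]`.  `|x_n - x| ≤ |y - x| ≤ 2 c R`.
`sweep_iter` for `G` (extension `F` or `F'`): `Φ = F^[n]` is univalent on `ball x (r/2)`, maps it into
`ball x (R/256) ⊆ ball x (R/2)`, and extends `G^n`.  Let `F0` be the extension of `g0` on
`ball x (R/2)`.  `g1 = g0 * G^n ∈ Γ` has the univalent extension `F0 ∘ Φ` on `ball x (r/2)`, and
`g1 y' = g0 y ∈ X`.
`deriv g1 y' = deriv g0 y * deriv (G^n) y'` (`uni_deriv` for differentiability), and
`|deriv (G^n) y'| = ‖Φ' y'‖ ≤ (R/256)/(r/4) = R/(64 r)` (Cauchy estimate for `Φ - x` on the circle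
of radius `r/5` say around `y'`, which lies in `ball x (r/2)` as `|y' - x| ≤ 2 c r`; any bound
`≤ R/r` is enough).  `deriv g0 y > 0`.  So `deriv g1 y' * r ≤ deriv g0 y * R ≤ re`.
-/

set_option autoImplicit false
open Set Filter Topology MeasureTheory Metric

namespace Pool.Agent.H52.GS

theorem a15_exit {G : ℝ ≃o ℝ} {x y : ℝ} (hG : x ≤ G x)
    (hne : ∀ z ∈ Icc x y, G z ≠ z) : ∃ N : ℕ, y < (G ^ N) x := by
  by_contra hcon
  push Not at hcon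
  have hmono : Monotone (fun n : ℕ => (G ^ n) x) := by
    refine monotone_nat_of_le_succ fun n => ?_
    rw [pow_succ, RelIso.mul_apply]
    exact (G ^ n).monotone hG
  have hbdd : BddAbove (range fun n : ℕ => (G ^ n) x) :=
    ⟨y, by rintro _ ⟨n, rfl⟩; exact hcon n⟩
  have ht := tendsto_atTop_ciSup hmono hbdd
  set L := ⨆ n : ℕ, (G ^ n) x with hL
  have ht1 : Tendsto (fun n : ℕ => (G ^ (n + 1)) x) atTop (𝓝 L) :=
    ht.comp (tendsto_add_atTop_nat 1)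
  have ht2 : Tendsto (fun n : ℕ => (G ^ (n + 1)) x) atTop (𝓝 (G L)) := by
    have h1 := (G.continuous.tendsto L).comp ht
    refine h1.congr fun n => ?_
    rw [o2_pow_succ]
    rfl
  have h2 : G L = L := tendsto_nhds_unique ht2 ht1
  have h3 : x ≤ L := by
    have := le_ciSup hbdd 0
    simpa using this
  have h4 : L ≤ y := ciSup_le hcon
  exact hne L ⟨h3, h4⟩ h2

theorem a15_exit' {G : ℝ ≃o ℝ} {x y : ℝ} (hG : G x ≤ x)
    (hne : ∀ z ∈ Icc y x, G z ≠ z) : ∃ N : ℕ, (G ^ N) x < y := by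
  by_contra hcon
  push Not at hcon
  have hmono : Antitone (fun n : ℕ => (G ^ n) x) := by
    refine antitone_nat_of_succ_le fun n => ?_
    rw [pow_succ, RelIso.mul_apply]
    exact (G ^ n).monotone hG
  have hbdd : BddBelow (range fun n : ℕ => (G ^ n) x) :=
    ⟨y, by rintro _ ⟨n, rfl⟩; exact hcon n⟩
  have ht := tendsto_atTop_ciInf hmono hbdd
  set L := ⨅ n : ℕ, (G ^ n) x with hL
  have ht1 : Tendsto (fun n : ℕ => (G ^ (n + 1)) x) atTop (𝓝 L) :=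
    ht.comp (tendsto_add_atTop_nat 1)
  have ht2 : Tendsto (fun n : ℕ => (G ^ (n + 1)) x) atTop (𝓝 (G L)) := by
    have h1 := (G.continuous.tendsto L).comp ht
    refine h1.congr fun n => ?_
    rw [o2_pow_succ]
    rfl
  have h2 : G L = L := tendsto_nhds_unique ht2 ht1
  have h3 : L ≤ x := by
    have := ciInf_le hbdd 0
    simpa using this
  have h4 : y ≤ L := le_ciInf hcon
  exact hne L ⟨h4, h3⟩ h2

theorem a15_orbit {G : ℝ ≃o ℝ} {x y : ℝ} (hxy : x ≤ y) (hG : x < G x)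
    (hne : ∀ z ∈ Icc x y, G z ≠ z) :
    ∃ n : ℕ, x ≤ (G ^ n) x ∧ (G ^ n) x ≤ y ∧ x ≤ ((G ^ n)⁻¹ : ℝ ≃o ℝ) y ∧
      ((G ^ n)⁻¹ : ℝ ≃o ℝ) y < G x ∧ ((G ^ n)⁻¹ : ℝ ≃o ℝ) y ≤ y := by
  classical
  have hex := a15_exit hG.le hne
  obtain ⟨N, hN1, hN2⟩ : ∃ N : ℕ, y < (G ^ N) x ∧ ∀ m < N, ¬ y < (G ^ m) x :=
    ⟨Nat.find hex, Nat.find_spec hex, fun m hm => Nat.find_min hex hm⟩
  have hN0 : N ≠ 0 := by
    rintro rfl
    rw [pow_zero] at hN1
    exact absurd hN1 (not_lt.mpr hxy)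
  obtain ⟨n, rfl⟩ : ∃ n, N = n + 1 := ⟨N - 1, by omega⟩
  have h1 : (G ^ n) x ≤ y := not_lt.mp (hN2 n (Nat.lt_succ_self n))
  have hy : y < G y := by
    have hy0 : G y ≠ y := hne y ⟨hxy, le_rfl⟩
    by_contra hlt
    have hlt' : G y < y := lt_of_le_of_ne (not_lt.mp hlt) hy0
    obtain ⟨z, hz, hz'⟩ := isPreconnected_Icc.intermediate_value₂ (a := x) (b := y)
      (left_mem_Icc.mpr hxy) (right_mem_Icc.mpr hxy) continuousOn_id G.continuous.continuousOn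
      hG.le hlt'.le
    exact hne z hz hz'.symm
  refine ⟨n, o2_up hG.le n, h1, ?_, ?_, ?_⟩
  · rw [o2_le_inv]
    exact h1
  · rw [pow_succ, RelIso.mul_apply] at hN1
    rw [← not_le, o2_le_inv, not_le]
    exact hN1
  · rw [o2_inv_le]
    exact o2_up hy.le n

theorem a15_orbit' {G : ℝ ≃o ℝ} {x y : ℝ} (hxy : y ≤ x) (hG : G x < x)
    (hne : ∀ z ∈ Icc y x, G z ≠ z) :
    ∃ n : ℕ, (G ^ n) x ≤ x ∧ y ≤ (G ^ n) x ∧ ((G ^ n)⁻¹ : ℝ ≃o ℝ) y ≤ x ∧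
      G x < ((G ^ n)⁻¹ : ℝ ≃o ℝ) y ∧ y ≤ ((G ^ n)⁻¹ : ℝ ≃o ℝ) y := by
  classical
  have hex := a15_exit' hG.le hne
  obtain ⟨N, hN1, hN2⟩ : ∃ N : ℕ, (G ^ N) x < y ∧ ∀ m < N, ¬ (G ^ m) x < y :=
    ⟨Nat.find hex, Nat.find_spec hex, fun m hm => Nat.find_min hex hm⟩
  have hN0 : N ≠ 0 := by
    rintro rfl
    rw [pow_zero] at hN1
    exact absurd hN1 (not_lt.mpr hxy)
  obtain ⟨n, rfl⟩ : ∃ n, N = n + 1 := ⟨N - 1, by omega⟩
  have h1 : y ≤ (G ^ n) x := not_lt.mp (hN2 n (Nat.lt_succ_self n))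
  have hy : G y < y := by
    have hy0 : G y ≠ y := hne y ⟨le_rfl, hxy⟩
    by_contra hlt
    have hlt' : y < G y := lt_of_le_of_ne (not_lt.mp hlt) (Ne.symm hy0)
    obtain ⟨z, hz, hz'⟩ := isPreconnected_Icc.intermediate_value₂ (a := y) (b := x)
      (left_mem_Icc.mpr hxy) (right_mem_Icc.mpr hxy) continuousOn_id G.continuous.continuousOn
      hlt'.le hG.le
    exact hne z hz hz'.symm
  refine ⟨n, o2_down hG.le n, h1, ?_, ?_, ?_⟩
  · rw [o2_inv_le]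
    exact h1
  · rw [pow_succ, RelIso.mul_apply] at hN1
    rw [← not_le, o2_inv_le, not_le]
    exact hN1
  · rw [o2_le_inv]
    exact o2_down hy.le n

theorem a15_main {Γ : Subgroup (ℝ ≃o ℝ)} {G g0 : ℝ ≃o ℝ} {x y R c r re : ℝ} {X : Set ℝ}
    {F : ℂ → ℂ} {n : ℕ} (hG : G ∈ Γ) (hg0 : g0 ∈ Γ) (hc0 : 0 < c) (hc : c ≤ 1 / 1000000)
    (hR : 0 < R) (hr : 0 < r) (hF : Ext G F x (R / 128))
    (ha : ∀ z ∈ ball (x : ℂ) (R / 128), ‖F z - z‖ ≤ c * R / 1000000)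
    (hu : c * r * (9 / 10) ≤ |G x - x|) (hu2 : |G x - x| ≤ 11 / 10 * (c * r))
    (hy : |y - x| ≤ 2 * c * R) (hn : |(G ^ n) x - x| ≤ 2 * c * R)
    (hy1 : ((G ^ n)⁻¹ : ℝ ≃o ℝ) y ∈ uIcc x y)
    (hy2 : |((G ^ n)⁻¹ : ℝ ≃o ℝ) y - x| ≤ |G x - x|) (hU : Uni g0 x (R / 2)) (hX : g0 y ∈ X)
    (hd : deriv (g0 : ℝ → ℝ) y * R ≤ re) :
    ∃ g1 ∈ Γ, ∃ y' ∈ uIcc x y, |y' - x| ≤ 2 * c * r ∧ Uni g1 x (r / 2) ∧ g1 y' ∈ X ∧
      deriv (g1 : ℝ → ℝ) y' * r ≤ re := by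
  obtain ⟨s1, s2, s3, s4⟩ := sweep_iter hc0 hc hR hr hF ha hu hn
  have hcr : 0 < c * r := mul_pos hc0 hr
  have hcR : 0 < c * R := mul_pos hc0 hR
  have hcr2 : c * r ≤ 1 / 1000000 * r := mul_le_mul_of_nonneg_right hc hr.le
  have hcR2 : c * R ≤ 1 / 1000000 * R := mul_le_mul_of_nonneg_right hc hR.le
  set y' : ℝ := ((G ^ n)⁻¹ : ℝ ≃o ℝ) y with hy'
  have hyy : (G ^ n) y' = y := RelIso.apply_inv_self (G ^ n) y
  have hy'x : |y' - x| ≤ 11 / 10 * (c * r) := hy2.trans hu2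
  have hE : Ext ((G ^ n : ℝ ≃o ℝ) : ℝ → ℝ) (F^[n]) x (r / 2) := ⟨s2, s4⟩
  obtain ⟨F0, hF0, hF0i⟩ := hU
  have hmaps : ∀ z ∈ ball (x : ℂ) (r / 2), F^[n] z ∈ ball (x : ℂ) (R / 2) := fun z hz =>
    ball_subset_ball (by linarith) (s3 z hz)
  have hE1 := Ext.comp hF0 hE hmaps
  obtain ⟨d1, d2, -⟩ := uni_deriv (w := g0) hF0 hF0i (y := y) (by linarith)
  obtain ⟨d3, d4, d5⟩ := uni_deriv (w := G ^ n) hE s1 (y := y') (by linarith)
  refine ⟨g0 * G ^ n, Γ.mul_mem hg0 (Γ.pow_mem hG n), y', hy1, by linarith,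
    ⟨fun z => F0 (F^[n] z), hE1, ?_⟩, ?_, ?_⟩
  · intro a ha' b hb' hab
    exact s1 ha' hb' (hF0i (hmaps a ha') (hmaps b hb') hab)
  · rw [RelIso.mul_apply, hyy]
    exact hX
  · have hder : HasDerivAt ((g0 * G ^ n : ℝ ≃o ℝ) : ℝ → ℝ)
        (deriv (g0 : ℝ → ℝ) y * deriv ((G ^ n : ℝ ≃o ℝ) : ℝ → ℝ) y') y' := by
      have h1 : HasDerivAt (g0 : ℝ → ℝ) (deriv (g0 : ℝ → ℝ) y) ((G ^ n) y') := by
        rw [hyy]
        exact d1
      exact h1.comp y' d3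
    rw [hder.deriv]
    have hsub : closedBall (y' : ℂ) (r / 4) ⊆ ball (x : ℂ) (r / 2) := by
      intro z hz
      rw [mem_closedBall, dist_eq_norm] at hz
      have h1 : ‖((y' : ℝ) : ℂ) - (x : ℂ)‖ ≤ 11 / 10 * (c * r) := by
        rw [← Complex.ofReal_sub, Complex.norm_real, Real.norm_eq_abs]
        exact hy'x
      rw [mem_ball, dist_eq_norm]
      have h2 : z - (x : ℂ) = (z - y') + (y' - x) := by ring
      rw [h2]
      have h3 := norm_add_le (z - (y' : ℂ)) ((y' : ℂ) - x)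
      linarith
    have hcau : ‖deriv (fun z => F^[n] z - (x : ℂ)) (y' : ℂ)‖ ≤ (R / 256) / (r / 4) := by
      refine Complex.norm_deriv_le_of_forall_mem_sphere_norm_le (by linarith) ?_ ?_
      · have h1 : DifferentiableOn ℂ (fun z => F^[n] z - (x : ℂ)) (ball (x : ℂ) (r / 2)) :=
          s2.sub (differentiableOn_const _)
        exact h1.diffContOnCl_ball hsub
      · intro z hz
        have h1 := s3 z (hsub (sphere_subset_closedBall hz))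
        rw [mem_ball, dist_eq_norm] at h1
        exact h1.le
    have hdd : deriv (fun z => F^[n] z - (x : ℂ)) (y' : ℂ) =
        ((deriv ((G ^ n : ℝ ≃o ℝ) : ℝ → ℝ) y' : ℝ) : ℂ) := (d5.sub_const (x : ℂ)).deriv
    rw [hdd, Complex.norm_real, Real.norm_eq_abs, abs_of_pos d4] at hcau
    have h5 : deriv ((G ^ n : ℝ ≃o ℝ) : ℝ → ℝ) y' * r ≤ R := by
      have h6 : (R / 256) / (r / 4) * r = R / 64 := by
        field_simp
        ring
      have h7 := mul_le_mul_of_nonneg_right hcau hr.le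
      rw [h6] at h7
      linarith
    calc deriv (g0 : ℝ → ℝ) y * deriv ((G ^ n : ℝ ≃o ℝ) : ℝ → ℝ) y' * r
        = deriv (g0 : ℝ → ℝ) y * (deriv ((G ^ n : ℝ ≃o ℝ) : ℝ → ℝ) y' * r) := by ring
      _ ≤ deriv (g0 : ℝ → ℝ) y * R := mul_le_mul_of_nonneg_left h5 d2.le
      _ ≤ re := hd

theorem a15_side {Γ : Subgroup (ℝ ≃o ℝ)} {G g0 : ℝ ≃o ℝ} {x y R c r re : ℝ} {X : Set ℝ}
    {F : ℂ → ℂ} (hG : G ∈ Γ) (hg0 : g0 ∈ Γ) (hc0 : 0 < c) (hc : c ≤ 1 / 1000000)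
    (hR : 0 < R) (hr : 0 < r) (hF : Ext G F x (R / 128))
    (ha : ∀ z ∈ ball (x : ℂ) (R / 128), ‖F z - z‖ ≤ c * R / 1000000)
    (hu : c * r * (9 / 10) ≤ |G x - x|) (hu2 : |G x - x| ≤ 11 / 10 * (c * r))
    (hy : |y - x| ≤ 2 * c * R) (hne : ∀ z ∈ uIcc x y, G z ≠ z)
    (hs : (x ≤ y ∧ x < G x) ∨ (y ≤ x ∧ G x < x)) (hU : Uni g0 x (R / 2)) (hX : g0 y ∈ X)
    (hd : deriv (g0 : ℝ → ℝ) y * R ≤ re) :
    ∃ g1 ∈ Γ, ∃ y' ∈ uIcc x y, |y' - x| ≤ 2 * c * r ∧ Uni g1 x (r / 2) ∧ g1 y' ∈ X ∧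
      deriv (g1 : ℝ → ℝ) y' * r ≤ re := by
  rcases hs with ⟨h1, h2⟩ | ⟨h1, h2⟩
  · rw [uIcc_of_le h1] at hne
    obtain ⟨n, m1, m2, m3, m4, m5⟩ := a15_orbit h1 h2 hne
    refine a15_main (n := n) hG hg0 hc0 hc hR hr hF ha hu hu2 hy ?_ ?_ ?_ hU hX hd
    · refine le_trans ?_ hy
      rw [abs_of_nonneg (by linarith), abs_of_nonneg (by linarith)]
      linarith
    · rw [uIcc_of_le h1]
      exact ⟨m3, m5⟩
    · rw [abs_of_nonneg (by linarith), abs_of_nonneg (by linarith)]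
      linarith
  · rw [uIcc_of_ge h1] at hne
    obtain ⟨n, m1, m2, m3, m4, m5⟩ := a15_orbit' h1 h2 hne
    refine a15_main (n := n) hG hg0 hc0 hc hR hr hF ha hu hu2 hy ?_ ?_ ?_ hU hX hd
    · refine le_trans ?_ hy
      rw [abs_of_nonpos (by linarith), abs_of_nonpos (by linarith)]
      linarith
    · rw [uIcc_of_ge h1]
      exact ⟨m5, m3⟩
    · rw [abs_of_nonpos (by linarith), abs_of_nonpos (by linarith)]
      linarith

theorem sweep {Γ : Subgroup (ℝ ≃o ℝ)} {f g0 : ℝ ≃o ℝ} {x y R c r re : ℝ} {X : Set ℝ}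
    (hf : f ∈ Γ) (hg0 : g0 ∈ Γ) (hc0 : 0 < c) (hc : c ≤ 1 / 1000000) (hR : 0 < R) (hr : 0 < r)
    (hNI : NI f x (R / 128) (c * R / 1000000)) (hu1 : c * r ≤ |f x - x|)
    (hu2 : |f x - x| ≤ 101 / 100 * c * r) (hy : |y - x| ≤ 2 * c * R)
    (hne : ∀ z ∈ uIcc x y, f z ≠ z) (hU : Uni g0 x (R / 2)) (hX : g0 y ∈ X)
    (hd : deriv (g0 : ℝ → ℝ) y * R ≤ re) :
    ∃ g1 ∈ Γ, ∃ y' ∈ uIcc x y, |y' - x| ≤ 2 * c * r ∧ Uni g1 x (r / 2) ∧ g1 y' ∈ X ∧
      deriv (g1 : ℝ → ℝ) y' * r ≤ re := by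
  obtain ⟨F, F', hF, hF', hb⟩ := hNI
  have hcr : 0 < c * r := mul_pos hc0 hr
  have hcR : 0 < c * R := mul_pos hc0 hR
  have hcR2 : c * R ≤ 1 / 1000000 * R := mul_le_mul_of_nonneg_right hc hR.le
  have hfx : f x ≠ x := by
    intro h
    rw [h, sub_self, abs_zero] at hu1
    linarith
  have hu2' : |f x - x| ≤ 101 / 100 * (c * r) := by
    calc |f x - x| ≤ 101 / 100 * c * r := hu2
      _ = 101 / 100 * (c * r) := by ring
  -- the inverse
  set x' : ℝ := (f⁻¹ : ℝ ≃o ℝ) x with hx'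
  have hfx' : f x' = x := RelIso.apply_inv_self f x
  have hx0 : |x - x| < R / 128 := by
    rw [sub_self, abs_zero]
    positivity
  have hxball : (x : ℂ) ∈ ball (x : ℂ) (R / 128) := M1_mem hx0
  have hx'x : |x' - x| ≤ c * R / 1000000 := by
    have h1 := (hb x hxball).2
    rw [hF'.2 x hx0, ← Complex.ofReal_sub, Complex.norm_real, Real.norm_eq_abs] at h1
    exact h1
  have hx'b : |x' - x| < R / 128 := by
    have : c * R / 1000000 ≤ c * R := by linarith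
    linarith
  have hlip := M1_lip (F := F) (x := x) (r := R / 128) (a := c * R / 1000000) (ρ := R / 128)
    (by positivity) hF.1 (fun w hw => (hb w hw).1) (p := (x' : ℂ)) (q := (x : ℂ))
    (M1_mem (by
      have : c * R / 1000000 ≤ c * R := by linarith
      linarith)) (M1_mem (by
      rw [sub_self, abs_zero]
      linarith))
  rw [hF.2 x hx0, hF.2 x' hx'b, hfx'] at hlip
  have hlip2 : |(f x - x) - (x - x')| ≤ 1 / 1000 * |x - x'| := by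
    have h1 : ((f x : ℝ) : ℂ) - (x : ℂ) - ((x : ℂ) - (x' : ℂ)) =
        (((f x - x) - (x - x') : ℝ) : ℂ) := by
      push_cast
      ring
    rw [h1, Complex.norm_real, Real.norm_eq_abs, ← Complex.ofReal_sub, Complex.norm_real,
      Real.norm_eq_abs] at hlip
    have h2 : c * R / 1000000 / (R / 128 / 2) ≤ 1 / 1000 := by
      rw [div_le_iff₀ (by positivity)]
      linarith
    exact hlip.trans (mul_le_mul_of_nonneg_right h2 (abs_nonneg _))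
  have hx1 : c * r * (9 / 10) ≤ |x' - x| := by
    rw [abs_sub_comm x' x]
    have h1 : |f x - x| ≤ |(f x - x) - (x - x')| + |x - x'| := by
      have := abs_add_le ((f x - x) - (x - x')) (x - x')
      rwa [sub_add_cancel] at this
    linarith
  have hx2 : |x' - x| ≤ 11 / 10 * (c * r) := by
    rw [abs_sub_comm x' x]
    have h1 : |x - x'| ≤ |(f x - x) - (x - x')| + |f x - x| := by
      have h3 : x - x' = (f x - x) - ((f x - x) - (x - x')) := by ring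
      have h4 := abs_sub (f x - x) ((f x - x) - (x - x'))
      rw [← h3] at h4
      linarith
    linarith
  have hne' : ∀ z ∈ uIcc x y, (f⁻¹ : ℝ ≃o ℝ) z ≠ z := by
    intro z hz h
    apply hne z hz
    have h1 := congrArg f h
    rw [RelIso.apply_inv_self] at h1
    exact h1.symm
  have hmain : ∀ _ : (x ≤ y ∧ x < f x) ∨ (y ≤ x ∧ f x < x),
      ∃ g1 ∈ Γ, ∃ y' ∈ uIcc x y, |y' - x| ≤ 2 * c * r ∧ Uni g1 x (r / 2) ∧ g1 y' ∈ X ∧
        deriv (g1 : ℝ → ℝ) y' * r ≤ re := fun hs =>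
    a15_side hf hg0 hc0 hc hR hr hF (fun z hz => (hb z hz).1) (by linarith) (by linarith) hy hne
      hs hU hX hd
  have hmain' : ∀ _ : (x ≤ y ∧ x < x') ∨ (y ≤ x ∧ x' < x),
      ∃ g1 ∈ Γ, ∃ y' ∈ uIcc x y, |y' - x| ≤ 2 * c * r ∧ Uni g1 x (r / 2) ∧ g1 y' ∈ X ∧
        deriv (g1 : ℝ → ℝ) y' * r ≤ re := fun hs =>
    a15_side (Γ.inv_mem hf) hg0 hc0 hc hR hr hF' (fun z hz => (hb z hz).2) hx1 hx2 hy hne'
      hs hU hX hd
  rcases lt_or_gt_of_ne hfx with h | h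
  · have h' : x < x' := by
      rw [← not_le, hx', o2_inv_le, not_le]
      exact h
    rcases le_total x y with hxy | hxy
    · exact hmain' (Or.inl ⟨hxy, h'⟩)
    · exact hmain (Or.inr ⟨hxy, h⟩)
  · have h' : x' < x := by
      rw [← not_le, hx', o2_le_inv, not_le]
      exact h
    rcases le_total x y with hxy | hxy
    · exact hmain (Or.inl ⟨hxy, h⟩)
    · exact hmain' (Or.inr ⟨hxy, h'⟩)

end Pool.Agent.H52.GS
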