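import Mathlib
import Pool.Agent.H52.GS.O3

/-!
# GS-E1: choice of the base point and of the interval

PROOF.  `ε > 0`, `τ ∈ (0, 1]`.
(1) By `h.thin`, for almost every `x` there is `n : ℕ` with `x ∈ XX Γ ε (1/(n+1))`; these sets
increase with `n`.  So for some `n` the set `X = XX Γ ε (1/(n+1))` is not a null set
(`measure_iUnion_null`).  `re = 1/(n+1)`; `XX Γ ε re' ⊇ XX Γ ε re` if `re' ≤ re`; in the statement take
this `re` (one may also shrink it).
(2) `τ' = τ/10000`.  For `k : ℕ` let `Y_k` be the set of `p ∈ X` such that for all `t ∈ (0, 1/(k+1)]`: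
`volume (X ∩ closedBall p t) > (1 - τ'/8) * volume (closedBall p t)` (outer measure).  By the
Lebesgue density theorem (`Besicovitch.ae_tendsto_measure_inter_div volume X`, valid for arbitrary
sets: for a.e. `p ∈ X` the ratio tends to 1 as `t → 0+`), almost every point of `X` lies in some
`Y_k`.  So some `Y = Y_k` is not null; `t0 = 1/(k+1)`.
(3) Again by the density theorem almost every point `a` of `Y` has
`volume (Y ∩ closedBall a t)/volume (closedBall a t) → 1`; and `hthk` holds for almost every `a`.  So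
there is `a` with both properties.  (`e1_fix`: the set of points fixed by some `f ∈ Γ`, `f ≠ 1` is
countable, by `h.cnt` and `fix_fin` from O3, hence null; used elsewhere.)
(4) Let `t1 > 0` be such that `volume (Y ∩ closedBall a t) > (9/10) volume (closedBall a t)` for
`0 < t ≤ t1`.  Choose `ρ0 > 0` with `10000 * 1024 * ρ0 ≤ t1`, `2 * 10000 * 1024 ρ0 ≤ t0`,
`1024 ρ0 ≤ re`, `1024 ρ0 ≤ 1`, and `2 * 1024 * 10000 ρ0 ≤ 1`.  `hthk` gives `ρ ≤ ρ0`.  Put
`s = 10000 ρ`.  The intervals `(a - 1000 s, a - 200 s)` and `(a + 200 s, a + 1000 s)` have length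
`800 s`, and the complement of `Y` in `closedBall a (1000 s)` has small density, so both meet `Y`
(if `Y` misses an open interval of length `800 s` in `closedBall a (1000 s)` then
`volume (Y ∩ closedBall a (1000 s)) ≤ 1200 s < (9/10) 2000 s`; sub-additivity).
Choose `α ∈ Y` in the first and `β ∈ Y` in the second.
Then `ph0 α β a = min (a - α) (β - a)/10000 ∈ (200 ρ, 1000 ρ)`, so `128 ρ ≤ ph0 α β a ≤ 1024 ρ`.
`ph0 α β x ≤ (β - α)/20000 ≤ re` and `≤ 1`.
(5) Let `x ∈ (α, β)`.  First let `x - α ≤ β - x`, `t = x - α ≤ 1000 s ≤ t0/2`.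
`closedBall α (2t)` has measure `4 t`; if `X` misses `(x, x + τ' t) ⊆ closedBall α (2t)` then
`volume (X ∩ closedBall α (2t)) ≤ 4t - τ' t = (1 - τ'/4) 4t`, against `α ∈ Y` (`2 t ≤ t0`).  So there
is `y ∈ X` with `x < y < x + τ' t = x + τ ph0 α β x`; and likewise in `(x - τ' t, x)`.  The case
`β - x ≤ x - α` is symmetric (use `β ∈ Y`).
-/

set_option autoImplicit false
open Set Filter Topology MeasureTheory Metric

namespace Pool.Agent.H52.GS

/-- a set of large density in a ball meets every interval which is not too short -/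
theorem e1_hit {X : Set ℝ} {p r u v : ℝ} (hu : p - r ≤ u) (_huv : u ≤ v) (hv : v ≤ p + r)
    (h : ENNReal.ofReal (2 * r - (v - u)) < volume (X ∩ closedBall p r)) :
    ∃ y ∈ X, u ≤ y ∧ y ≤ v := by
  by_contra hcon
  have hsub : X ∩ closedBall p r ⊆ Icc (p - r) u ∪ Icc v (p + r) := by
    rintro y ⟨h1, h2⟩
    rw [Real.closedBall_eq_Icc] at h2
    by_cases h3 : u ≤ y
    · right
      refine ⟨?_, h2.2⟩
      by_contra h4
      exact hcon ⟨y, h1, h3, (not_le.1 h4).le⟩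
    · left
      exact ⟨h2.1, (not_le.1 h3).le⟩
  have h1 : volume (X ∩ closedBall p r) ≤ volume (Icc (p - r) u) + volume (Icc v (p + r)) :=
    (measure_mono hsub).trans (measure_union_le _ _)
  rw [Real.volume_Icc, Real.volume_Icc, ← ENNReal.ofReal_add (by linarith) (by linarith)] at h1
  have h2 : u - (p - r) + (p + r - v) = 2 * r - (v - u) := by ring
  rw [h2] at h1
  exact absurd h1 (not_le.2 h)

/-- the density theorem for outer measure -/
theorem e1_ae (X : Set ℝ) {θ : ℝ} (h0 : 0 ≤ θ) (h1 : θ < 1) :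
    ∀ᵐ x : ℝ, x ∈ X → ∃ δ : ℝ, 0 < δ ∧ ∀ t : ℝ, 0 < t → t ≤ δ →
      ENNReal.ofReal (θ * (2 * t)) < volume (X ∩ closedBall x t) := by
  have key := ae_imp_of_ae_restrict (Besicovitch.ae_tendsto_measure_inter_div volume X)
  filter_upwards [key] with x hx hxX
  have h2 := hx hxX
  have h3 : ENNReal.ofReal θ < 1 := by
    rw [← ENNReal.ofReal_one]
    exact (ENNReal.ofReal_lt_ofReal_iff one_pos).2 h1
  have h4 := h2.eventually (lt_mem_nhds h3)
  rw [eventually_nhdsWithin_iff, Metric.eventually_nhds_iff] at h4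
  obtain ⟨δ, hδ, h5⟩ := h4
  refine ⟨δ / 2, by linarith, fun t ht htδ => ?_⟩
  have h6 : ENNReal.ofReal θ < volume (X ∩ closedBall x t) / volume (closedBall x t) := by
    refine h5 ?_ ht
    rw [Real.dist_eq, sub_zero, abs_of_pos ht]
    linarith
  rw [Real.volume_closedBall] at h6
  have h7 : ENNReal.ofReal (2 * t) ≠ 0 := by
    rw [Ne, ENNReal.ofReal_eq_zero, not_le]
    linarith
  rw [ENNReal.lt_div_iff_mul_lt (Or.inl h7) (Or.inl ENNReal.ofReal_ne_top),
    ← ENNReal.ofReal_mul h0] at h6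
  exact h6

/-- uniform density on a set which is not null -/
theorem e1_unif {X : Set ℝ} (hX : volume X ≠ 0) {θ : ℝ} (h0 : 0 ≤ θ) (h1 : θ < 1) :
    ∃ t0 : ℝ, 0 < t0 ∧ volume {p | p ∈ X ∧ ∀ t : ℝ, 0 < t → t ≤ t0 →
      ENNReal.ofReal (θ * (2 * t)) < volume (X ∩ closedBall p t)} ≠ 0 := by
  by_contra hcon
  have h2 : ∀ k : ℕ, volume {p | p ∈ X ∧ ∀ t : ℝ, 0 < t → t ≤ 1 / ((k : ℝ) + 1) →
      ENNReal.ofReal (θ * (2 * t)) < volume (X ∩ closedBall p t)} = 0 := by
    intro k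
    by_contra h3
    exact hcon ⟨1 / ((k : ℝ) + 1), by positivity, h3⟩
  have h3 := measure_iUnion_null h2
  apply hX
  rw [measure_eq_zero_iff_ae_notMem] at h3 ⊢
  filter_upwards [h3, e1_ae X h0 h1] with x hx hx' hxX
  obtain ⟨δ, hδ, h4⟩ := hx' hxX
  obtain ⟨k, hk⟩ := exists_nat_one_div_lt hδ
  apply hx
  rw [mem_iUnion]
  exact ⟨k, hxX, fun t ht htk => h4 t ht (htk.trans hk.le)⟩

theorem e1_fix {Γ : Subgroup (ℝ ≃o ℝ)} (h : Gp Γ) : ∀ᵐ a : ℝ, ∀ f ∈ Γ, f a = a → f = 1 := by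
  have key : ∀ᵐ a : ℝ, ∀ f ∈ (Γ : Set (ℝ ≃o ℝ)), f a = a → f = 1 := by
    rw [ae_ball_iff h.cnt]
    intro f hf
    by_cases hf1 : f = 1
    · exact Eventually.of_forall fun a _ => hf1
    · have h1 : {y : ℝ | f y = y}.Countable := by
        have h2 : {y : ℝ | f y = y} ⊆ ⋃ n : ℕ, {y : ℝ | y ∈ Icc (-(n : ℝ)) n ∧ f y = y} := by
          intro y hy
          obtain ⟨n, hn⟩ := exists_nat_ge |y|
          rw [mem_iUnion]
          exact ⟨n, ⟨abs_le.1 hn, hy⟩⟩
        exact (countable_iUnion fun n => (fix_fin h hf hf1 _ _).countable).mono h2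
      have h3 := h1.measure_zero volume
      rw [measure_eq_zero_iff_ae_notMem] at h3
      filter_upwards [h3] with a ha hfa
      exact absurd hfa ha
  exact key

theorem e1_XX {Γ : Subgroup (ℝ ≃o ℝ)} (h : Gp Γ) {ε : ℝ} (hε : 0 < ε) :
    ∃ re : ℝ, 0 < re ∧ volume (XX Γ ε re) ≠ 0 := by
  by_contra hcon
  have h2 : ∀ n : ℕ, volume (XX Γ ε (1 / ((n : ℝ) + 1))) = 0 := by
    intro n
    by_contra h3
    exact hcon ⟨_, by positivity, h3⟩
  have h3 := measure_iUnion_null h2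
  rw [measure_eq_zero_iff_ae_notMem] at h3
  have h4 : ∀ᵐ x : ℝ, False := by
    filter_upwards [h3, h.thin] with x hx hx'
    obtain ⟨r0, hr0, h5⟩ := hx' ε hε
    obtain ⟨n, hn⟩ := exists_nat_one_div_lt hr0
    apply hx
    rw [mem_iUnion]
    exact ⟨n, fun r hr hrn w hw hU => h5 r hr (hrn.trans hn.le) w hw hU⟩
  rw [ae_iff] at h4
  simp at h4

theorem choose_pt {Γ : Subgroup (ℝ ≃o ℝ)} (h : Gp Γ) {ηT : ℝ}
    (hthk : ∀ᵐ a : ℝ, ∀ ρ0 : ℝ, 0 < ρ0 →
      ∃ ρ : ℝ, 0 < ρ ∧ ρ ≤ ρ0 ∧ ∀ f ∈ Γ, f ≠ 1 → ¬ NI f a ρ (ηT * ρ / 2))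
    {ε τ : ℝ} (hε : 0 < ε) (hτ : 0 < τ) (hτ1 : τ ≤ 1) :
    ∃ re α β a ρ : ℝ, 0 < re ∧ α < a ∧ a < β ∧ 0 < ρ ∧ ρ ≤ 1 ∧
      128 * ρ ≤ ph0 α β a ∧ ph0 α β a ≤ 1024 * ρ ∧ β - α ≤ 1 ∧
      (∀ x, ph0 α β x ≤ re ∧ ph0 α β x ≤ 1) ∧
      (∀ f ∈ Γ, f ≠ 1 → ¬ NI f a ρ (ηT * ρ / 2)) ∧
      ∀ x ∈ Ioo α β, (∃ y ∈ XX Γ ε re, x ≤ y ∧ y ≤ x + τ * ph0 α β x) ∧
        ∃ y ∈ XX Γ ε re, y ≤ x ∧ x - τ * ph0 α β x ≤ y := by
  obtain ⟨re, hre, hX⟩ := e1_XX h hε
  obtain ⟨X, hXdef⟩ : ∃ X, X = XX Γ ε re := ⟨_, rfl⟩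
  rw [← hXdef] at hX
  obtain ⟨τ', hτ'⟩ : ∃ τ', τ' = τ / 10000 := ⟨_, rfl⟩
  have hτ'0 : 0 < τ' := by rw [hτ']; positivity
  have hτ'1 : τ' ≤ 1 := by rw [hτ']; linarith
  obtain ⟨t0, ht0, hY⟩ := e1_unif hX (θ := 1 - τ' / 8) (by linarith) (by linarith)
  obtain ⟨Y, hYdef⟩ : ∃ Y, Y = {p | p ∈ X ∧ ∀ t : ℝ, 0 < t → t ≤ t0 →
      ENNReal.ofReal ((1 - τ' / 8) * (2 * t)) < volume (X ∩ closedBall p t)} := ⟨_, rfl⟩
  rw [← hYdef] at hY
  have hYm : ∀ p ∈ Y, ∀ t : ℝ, 0 < t → t ≤ t0 →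
      ENNReal.ofReal ((1 - τ' / 8) * (2 * t)) < volume (X ∩ closedBall p t) := by
    intro p hp
    rw [hYdef] at hp
    exact hp.2
  obtain ⟨a, haY, hae, hathk⟩ := ((frequently_ae_mem_iff.2 hY).and_eventually
    ((e1_ae Y (θ := 9 / 10) (by norm_num) (by norm_num)).and hthk)).exists
  obtain ⟨t1, ht1, had⟩ := hae haY
  have hM : 0 < min (min t1 t0) (min re 1) := lt_min (lt_min ht1 ht0) (lt_min hre one_pos)
  obtain ⟨ρ, hρ, hρ0, hNI⟩ := hathk (min (min t1 t0) (min re 1) / 10 ^ 8) (by positivity)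
  have hρM : 10 ^ 8 * ρ ≤ min (min t1 t0) (min re 1) := by
    rw [le_div_iff₀ (by norm_num)] at hρ0
    linarith
  have g1 : 10 ^ 8 * ρ ≤ t1 := hρM.trans ((min_le_left _ _).trans (min_le_left _ _))
  have g2 : 10 ^ 8 * ρ ≤ t0 := hρM.trans ((min_le_left _ _).trans (min_le_right _ _))
  have g3 : 10 ^ 8 * ρ ≤ re := hρM.trans ((min_le_right _ _).trans (min_le_left _ _))
  have g4 : 10 ^ 8 * ρ ≤ 1 := hρM.trans ((min_le_right _ _).trans (min_le_right _ _))
  obtain ⟨s, hs⟩ : ∃ s, s = 10000 * ρ := ⟨_, rfl⟩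
  have hs0 : 0 < s := by rw [hs]; positivity
  have had' := had (1000 * s) (by positivity) (by rw [hs]; linarith)
  obtain ⟨α, hαY, hα1, hα2⟩ := e1_hit (X := Y) (p := a) (r := 1000 * s) (u := a - 1000 * s)
    (v := a - 200 * s) (by linarith) (by linarith) (by linarith)
    (lt_of_le_of_lt (ENNReal.ofReal_le_ofReal (by linarith)) had')
  obtain ⟨β, hβY, hβ1, hβ2⟩ := e1_hit (X := Y) (p := a) (r := 1000 * s) (u := a + 200 * s)
    (v := a + 1000 * s) (by linarith) (by linarith) (by linarith)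
    (lt_of_le_of_lt (ENNReal.ofReal_le_ofReal (by linarith)) had')
  have hph : ∀ x, ph0 α β x ≤ 1000 * ρ := by
    intro x
    unfold ph0
    rw [div_le_iff₀ (by norm_num)]
    refine max_le (by positivity) ?_
    rcases le_total (x - α) (β - x) with h1 | h1
    · refine (min_le_left _ _).trans ?_
      rw [hs] at *
      linarith
    · refine (min_le_right _ _).trans ?_
      rw [hs] at *
      linarith
  refine ⟨re, α, β, a, ρ, hre, by linarith, by linarith, hρ, by linarith, ?_, ?_, ?_, ?_, hNI, ?_⟩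
  · unfold ph0
    rw [le_div_iff₀ (by norm_num)]
    refine le_trans ?_ (le_max_right _ _)
    refine le_min ?_ ?_
    · rw [hs] at *
      linarith
    · rw [hs] at *
      linarith
  · have := hph a
    linarith
  · rw [hs] at *
    linarith
  · intro x
    have := hph x
    exact ⟨by linarith, by linarith⟩
  · rintro x ⟨hx1, hx2⟩
    rw [← hXdef]
    rcases le_total (x - α) (β - x) with h1 | h1
    · obtain ⟨t, ht⟩ : ∃ t, t = x - α := ⟨_, rfl⟩
      have htp : 0 < t := by linarith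
      have hpx : τ * ph0 α β x = τ' * t := by
        unfold ph0
        rw [min_eq_left h1, ← ht, max_eq_right htp.le, hτ']
        ring
      have h2 : 2 * t ≤ t0 := by
        rw [hs] at *
        linarith
      have h3 := hYm α hαY (2 * t) (by linarith) h2
      have h4 : 0 < τ' * t := mul_pos hτ'0 htp
      have h5 : τ' * t ≤ t := mul_le_of_le_one_left htp.le hτ'1
      have h6 : 2 * (2 * t) - τ' * t ≤ (1 - τ' / 8) * (2 * (2 * t)) := by linarith
      rw [hpx]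
      constructor
      · exact e1_hit (p := α) (r := 2 * t) (by linarith) (by linarith) (by linarith)
          (lt_of_le_of_lt (ENNReal.ofReal_le_ofReal (by linarith)) h3)
      · obtain ⟨y, hy, hy1, hy2⟩ := e1_hit (X := X) (p := α) (r := 2 * t) (u := x - τ' * t)
          (v := x) (by linarith) (by linarith) (by linarith)
          (lt_of_le_of_lt (ENNReal.ofReal_le_ofReal (by linarith)) h3)
        exact ⟨y, hy, hy2, hy1⟩
    · obtain ⟨t, ht⟩ : ∃ t, t = β - x := ⟨_, rfl⟩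
      have htp : 0 < t := by linarith
      have hpx : τ * ph0 α β x = τ' * t := by
        unfold ph0
        rw [min_eq_right h1, ← ht, max_eq_right htp.le, hτ']
        ring
      have h2 : 2 * t ≤ t0 := by
        rw [hs] at *
        linarith
      have h3 := hYm β hβY (2 * t) (by linarith) h2
      have h4 : 0 < τ' * t := mul_pos hτ'0 htp
      have h5 : τ' * t ≤ t := mul_le_of_le_one_left htp.le hτ'1
      have h6 : 2 * (2 * t) - τ' * t ≤ (1 - τ' / 8) * (2 * (2 * t)) := by linarith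
      rw [hpx]
      constructor
      · exact e1_hit (p := β) (r := 2 * t) (by linarith) (by linarith) (by linarith)
          (lt_of_le_of_lt (ENNReal.ofReal_le_ofReal (by linarith)) h3)
      · obtain ⟨y, hy, hy1, hy2⟩ := e1_hit (X := X) (p := β) (r := 2 * t) (u := x - τ' * t)
          (v := x) (by linarith) (by linarith) (by linarith)
          (lt_of_le_of_lt (ENNReal.ofReal_le_ofReal (by linarith)) h3)
        exact ⟨y, hy, hy2, hy1⟩

end Pool.Agent.H52.GS
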