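import Mathlib
import Pool.Agent.H52.GS.A6

/-!
# GS-E2: thin univalent words do not expand: contradiction

PROOF.  Let `c0 > 0` be given by `h.expd`, `ε ≤ c0/8`... (hypothesis `40 * ε < c0`).
`I = [a - φ0/2, a + φ0/2]`, `φ0 = ph0 α β a > 0`.  For `|x - a| ≤ φ0/2`:
`ph0 α β x ≥ φ0 - |x - a|/10000 ≥ φ0/2` and by hypothesis every `w ∈ Γ` satisfies
`deriv w x * ph0 α β x ≤ 20 ε` and `w` is differentiable at `x`.  So `deriv w x ≤ 40 ε/φ0` on `I`, and
by the mean value theorem `w (a + φ0/2) - w (a - φ0/2) ≤ 40 ε < c0` for all `w ∈ Γ`.  But `h.expd`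
gives `g ∈ Γ` with `g (a + φ0/2) - g (a - φ0/2) ≥ c0`.
-/

set_option autoImplicit false
open Set Filter Topology MeasureTheory Metric

namespace Pool.Agent.H52.GS

theorem no_expand {Γ : Subgroup (ℝ ≃o ℝ)} {c0 ε α β a : ℝ}
    (hexp : ∀ x y : ℝ, x < y → ∃ g ∈ Γ, c0 ≤ g y - g x) (hε : 0 < ε) (hεc : 40 * ε < c0)
    (hα : α < a) (hβ : a < β)
    (hw : ∀ w ∈ Γ, ∀ x, |x - a| ≤ ph0 α β a → Uni w x (ph0 α β x / 2) ∧
      deriv (w : ℝ → ℝ) x * ph0 α β x ≤ 20 * ε) : False := by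
  obtain ⟨φ, hφ⟩ : ∃ φ, φ = ph0 α β a := ⟨_, rfl⟩
  have hM : 0 < min (a - α) (β - a) := lt_min (by linarith) (by linarith)
  have hφM : φ = min (a - α) (β - a) / 10000 := by
    rw [hφ, ph0, max_eq_right hM.le]
  have hφ0 : 0 < φ := by rw [hφM]; positivity
  rw [← hφ] at hw
  -- lower bound for `ph0`
  have hlow : ∀ x, |x - a| ≤ φ / 2 → φ / 2 ≤ ph0 α β x := by
    intro x hx
    have h1 : min (a - α) (β - a) - |x - a| ≤ min (x - α) (β - x) := by
      have h2 := min_le_left (a - α) (β - a)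
      have h3 := min_le_right (a - α) (β - a)
      have h4 := neg_abs_le (x - a)
      have h5 := le_abs_self (x - a)
      exact le_min (by linarith) (by linarith)
    have h6 : min (x - α) (β - x) ≤ max 0 (min (x - α) (β - x)) := le_max_right _ _
    unfold ph0
    rw [le_div_iff₀ (by norm_num)]
    have h7 : min (a - α) (β - a) = 10000 * φ := by rw [hφM]; ring
    linarith
  -- derivative bound
  have hder : ∀ w ∈ Γ, ∀ x, |x - a| ≤ φ / 2 →
      DifferentiableAt ℝ (w : ℝ → ℝ) x ∧ deriv (w : ℝ → ℝ) x ≤ 40 * ε / φ := by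
    intro w hwΓ x hx
    obtain ⟨⟨F, he, hi⟩, h2⟩ := hw w hwΓ x (by linarith)
    have hlx := hlow x hx
    have h3 := uni_deriv he hi (y := x) (by rw [sub_self, abs_zero]; linarith)
    refine ⟨h3.1.differentiableAt, ?_⟩
    rw [le_div_iff₀ hφ0]
    have h4 : deriv (w : ℝ → ℝ) x * (φ / 2) ≤ deriv (w : ℝ → ℝ) x * ph0 α β x :=
      mul_le_mul_of_nonneg_left hlx h3.2.1.le
    linarith
  obtain ⟨g, hg, hgc⟩ := hexp (a - φ / 2) (a + φ / 2) (by linarith)
  have hmem : ∀ x ∈ Icc (a - φ / 2) (a + φ / 2), |x - a| ≤ φ / 2 := by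
    intro x hx
    rw [abs_le]
    exact ⟨by linarith [hx.1], by linarith [hx.2]⟩
  have hmv := (convex_Icc (a - φ / 2) (a + φ / 2)).image_sub_le_mul_sub_of_deriv_le
    (f := (g : ℝ → ℝ)) (C := 40 * ε / φ)
    (fun x hx => (hder g hg x (hmem x hx)).1.continuousAt.continuousWithinAt)
    (fun x hx => (hder g hg x (hmem x (interior_subset hx))).1.differentiableWithinAt)
    (fun x hx => (hder g hg x (hmem x (interior_subset hx))).2)
    (a - φ / 2) (left_mem_Icc.2 (by linarith)) (a + φ / 2) (right_mem_Icc.2 (by linarith))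
    (by linarith)
  have h8 : 40 * ε / φ * (a + φ / 2 - (a - φ / 2)) = 40 * ε := by
    field_simp
    ring
  rw [h8] at hmv
  linarith

end Pool.Agent.H52.GS
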