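import Mathlib
import Pool.Agent.H62.CJ.A8
import Pool.Agent.H62.CJ.L0

/-!
# GS-A2: the Koebe quarter theorem

Library: `H62.CJ.bieberbach (g) (hg : IsS g) : ‖deriv (deriv g) 0‖ ≤ 4`,
`H62.CJ.deriv_ne_zero_of_injOn`.

PROOF.  Normalise: `g ζ = (F (z0 + R ζ) - F z0) / (R F' z0)` is in `IsS`.  It suffices that every
`w ∉ g '' ball 0 1` has `1/4 ≤ ‖w‖`.  `w ≠ 0` (as `g 0 = 0`).  Put
`G ζ = w g ζ / (w - g ζ)`: holomorphic on the disc (`g ζ ≠ w`), injective (`G ζ = G ζ'` implies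
`g ζ = g ζ'`), `G 0 = 0`, `G' = w^2 g' / (w - g)^2`, so `G' 0 = 1` and
`G'' 0 = g'' 0 + 2 / w` (differentiate `w^2 g'/(w - g)^2` at `0`, where `g = 0`, `g' = 1`).
`bieberbach` for `G` and `g`: `‖2/w‖ ≤ ‖G'' 0‖ + ‖g'' 0‖ ≤ 8`.
Conclusion: if `p ∈ ball (F z0) (‖F' z0‖ R/4)` then `w = (p - F z0)/(R F' z0)` has `‖w‖ < 1/4`, so
`w = g ζ` for some `ζ` in the unit disc and `p = F (z0 + R ζ)`.
-/

set_option autoImplicit false
open Set Filter Topology MeasureTheory Metric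

namespace Pool.Agent.H52.GS

/-- a value omitted by a normalised univalent function has modulus at least `1/4` -/
theorem a2_quarter (g : ℂ → ℂ) (hg : H62.CJ.IsS g) (w : ℂ)
    (hw : ∀ z ∈ ball (0 : ℂ) 1, g z ≠ w) : 1 / 4 ≤ ‖w‖ := by
  have h0m : (0:ℂ) ∈ ball (0:ℂ) 1 := mem_ball_self one_pos
  have hw0 : w ≠ 0 := by
    intro h
    exact hw 0 h0m (by rw [hg.zero, h])
  have hsub : ∀ z ∈ ball (0 : ℂ) 1, w - g z ≠ 0 := fun z hz => sub_ne_zero.2 (hw z hz).symm
  obtain ⟨G, hG⟩ : ∃ G : ℂ → ℂ, G = fun z => w * g z / (w - g z) := ⟨_, rfl⟩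
  have hgd : ∀ z ∈ ball (0 : ℂ) 1, HasDerivAt g (deriv g z) z := fun z hz =>
    (hg.diff.differentiableAt (isOpen_ball.mem_nhds hz)).hasDerivAt
  have hGd : ∀ z ∈ ball (0 : ℂ) 1, HasDerivAt G (w ^ 2 * deriv g z / (w - g z) ^ 2) z := by
    intro z hz
    have h1 := ((hgd z hz).const_mul w).div ((hgd z hz).const_sub w) (hsub z hz)
    rw [hG]
    have h2 : (w * deriv g z * (w - g z) - w * g z * -deriv g z) / (w - g z) ^ 2 =
        w ^ 2 * deriv g z / (w - g z) ^ 2 := by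
      congr 1
      ring
    rw [h2] at h1
    exact h1
  have hS : H62.CJ.IsS G := by
    refine ⟨fun z hz => (hGd z hz).differentiableAt.differentiableWithinAt, ?_, ?_, ?_⟩
    · intro a ha b hb hab
      rw [hG] at hab
      have h1 : w * g a / (w - g a) = w * g b / (w - g b) := hab
      rw [div_eq_div_iff (hsub a ha) (hsub b hb)] at h1
      have h2 : w ^ 2 * (g a - g b) = 0 := by linear_combination h1
      have h3 : g a - g b = 0 := by
        rcases mul_eq_zero.1 h2 with h | h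
        · exact absurd h (pow_ne_zero 2 hw0)
        · exact h
      exact hg.inj ha hb (sub_eq_zero.1 h3)
    · rw [hG]
      change w * g 0 / (w - g 0) = 0
      rw [hg.zero, mul_zero, zero_div]
    · rw [(hGd 0 h0m).deriv, hg.zero, hg.one, sub_zero, mul_one]
      exact div_self (pow_ne_zero 2 hw0)
  have hdd : deriv (deriv G) 0 = deriv (deriv g) 0 + 2 / w := by
    have h1 : deriv G =ᶠ[𝓝 0] fun z => w ^ 2 * deriv g z / (w - g z) ^ 2 := by
      filter_upwards [isOpen_ball.mem_nhds h0m] with z hz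
      exact (hGd z hz).deriv
    rw [h1.deriv_eq]
    have h2 : HasDerivAt (deriv g) (deriv (deriv g) 0) 0 :=
      ((hg.diff.deriv isOpen_ball).differentiableAt (isOpen_ball.mem_nhds h0m)).hasDerivAt
    have h3 := (h2.const_mul (w ^ 2)).div (((hgd 0 h0m).const_sub w).pow 2)
      (pow_ne_zero 2 (hsub 0 h0m))
    refine (HasDerivAt.deriv (f := fun z => w ^ 2 * deriv g z / (w - g z) ^ 2) h3).trans ?_
    simp only [hg.zero, hg.one, sub_zero, Pi.pow_apply]
    push_cast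
    field_simp
    ring
  have h1 := H62.CJ.bieberbach g hg
  have h2 := H62.CJ.bieberbach G hS
  have h3 : ‖2 / w‖ ≤ 8 := by
    have h4 : 2 / w = deriv (deriv G) 0 - deriv (deriv g) 0 := by rw [hdd]; ring
    rw [h4]
    exact (norm_sub_le _ _).trans (by linarith)
  have h5 : 0 < ‖w‖ := norm_pos_iff.2 hw0
  rw [norm_div, Complex.norm_ofNat, div_le_iff₀ h5] at h3
  linarith

theorem koebe_quarter {F : ℂ → ℂ} {z0 : ℂ} {R : ℝ} (hR : 0 < R)
    (hF : DifferentiableOn ℂ F (ball z0 R)) (hi : InjOn F (ball z0 R)) :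
    ball (F z0) (‖deriv F z0‖ * R / 4) ⊆ F '' ball z0 R := by
  intro p hp
  have hz0 : z0 ∈ ball z0 R := mem_ball_self hR
  have h0m : (0:ℂ) ∈ ball (0:ℂ) 1 := mem_ball_self one_pos
  have hd : deriv F z0 ≠ 0 := H62.CJ.deriv_ne_zero_of_injOn F (ball z0 R) isOpen_ball hF hi z0 hz0
  have hRc : (R : ℂ) ≠ 0 := Complex.ofReal_ne_zero.2 hR.ne'
  have hRd : (R : ℂ) * deriv F z0 ≠ 0 := mul_ne_zero hRc hd
  have hmap : ∀ ζ ∈ ball (0 : ℂ) 1, z0 + R * ζ ∈ ball z0 R := by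
    intro ζ hζ
    rw [mem_ball_zero_iff] at hζ
    rw [mem_ball_iff_norm, add_sub_cancel_left, norm_mul, Complex.norm_real,
      Real.norm_of_nonneg hR.le]
    nlinarith
  obtain ⟨g, hgdef⟩ : ∃ g : ℂ → ℂ, g = fun ζ => (F (z0 + R * ζ) - F z0) / (R * deriv F z0) :=
    ⟨_, rfl⟩
  have hgz : ∀ ζ, g ζ = (F (z0 + R * ζ) - F z0) / (R * deriv F z0) := fun ζ => by rw [hgdef]
  have hgd : ∀ ζ ∈ ball (0 : ℂ) 1,
      HasDerivAt g (deriv F (z0 + R * ζ) * R / (R * deriv F z0)) ζ := by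
    intro ζ hζ
    have h1 : HasDerivAt F (deriv F (z0 + R * ζ)) (z0 + R * ζ) :=
      (hF.differentiableAt (isOpen_ball.mem_nhds (hmap ζ hζ))).hasDerivAt
    have h2 : HasDerivAt (fun ζ : ℂ => z0 + R * ζ) (R : ℂ) ζ := by
      have h3 := ((hasDerivAt_id ζ).const_mul (R : ℂ)).const_add z0
      rw [mul_one] at h3
      exact h3
    rw [hgdef]
    exact ((HasDerivAt.comp ζ h1 h2).sub_const (F z0)).div_const _
  have hS : H62.CJ.IsS g := by
    refine ⟨fun z hz => (hgd z hz).differentiableAt.differentiableWithinAt, ?_, ?_, ?_⟩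
    · intro a ha b hb hab
      rw [hgz, hgz, div_left_inj' hRd, sub_left_inj] at hab
      have h1 := hi (hmap a ha) (hmap b hb) hab
      exact mul_left_cancel₀ hRc (add_left_cancel h1)
    · rw [hgz, mul_zero, add_zero, sub_self, zero_div]
    · rw [(hgd 0 h0m).deriv, mul_zero, add_zero, mul_comm]
      exact div_self hRd
  by_contra hne
  have hom : ∀ z ∈ ball (0 : ℂ) 1, g z ≠ (p - F z0) / (R * deriv F z0) := by
    intro z hz h
    rw [hgz, div_left_inj' hRd, sub_left_inj] at h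
    exact hne ⟨z0 + R * z, hmap z hz, h⟩
  have h1 := a2_quarter g hS _ hom
  rw [mem_ball_iff_norm] at hp
  rw [norm_div, norm_mul, Complex.norm_real, Real.norm_of_nonneg hR.le,
    le_div_iff₀ (mul_pos hR (norm_pos_iff.2 hd))] at h1
  linarith

end Pool.Agent.H52.GS
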