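import Mathlib
import Pool.Agent.H62.CJ.L0

/-!
# GS-A3: the inverse of a univalent function is holomorphic

Library: `H62.CJ.deriv_ne_zero_of_injOn (f U hU hd hi z hz) : deriv f z ≠ 0`.

PROOF.  `g = Function.invFunOn F U` satisfies `g (F z) = z` for `z ∈ U` (`InjOn.leftInvOn_invFunOn`).
Let `z ∈ U`.  `F` is analytic at `z` with `F' z ≠ 0`, so it has a strict derivative there and a
local inverse `ℓ` (`HasStrictDerivAt.localInverse`, `HasStrictDerivAt.to_localInverse`,
`ContDiffAt.toOpenPartialHomeomorph` ...) defined near `F z` with `F (ℓ w) = w`, `ℓ (F z) = z`, `ℓ`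
continuous at `F z`, so `ℓ w ∈ U` for `w` near `F z`, hence `g w = g (F (ℓ w)) = ℓ w` near `F z`;
so `g` is differentiable at `F z` with derivative `(F' z)⁻¹`.
-/

set_option autoImplicit false
open Set Filter Topology MeasureTheory Metric

namespace Pool.Agent.H52.GS

theorem inv_holo {F : ℂ → ℂ} {U : Set ℂ} (hU : IsOpen U) (hF : DifferentiableOn ℂ F U)
    (hi : InjOn F U) :
    (∀ z ∈ U, Function.invFunOn F U (F z) = z) ∧
      ∀ z ∈ U, HasDerivAt (Function.invFunOn F U) (deriv F z)⁻¹ (F z) := by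
  have h1 : ∀ z ∈ U, Function.invFunOn F U (F z) = z := fun z hz => hi.leftInvOn_invFunOn hz
  refine ⟨h1, fun z hz => ?_⟩
  have h2 : HasStrictDerivAt F (deriv F z) z :=
    (hF.analyticAt (hU.mem_nhds hz)).hasStrictDerivAt
  have h3 : deriv F z ≠ 0 := H62.CJ.deriv_ne_zero_of_injOn F U hU hF hi z hz
  exact (h2.to_local_left_inverse h3
    (Filter.eventually_of_mem (hU.mem_nhds hz) fun x hx => h1 x hx)).hasDerivAt

theorem inv_holo' {F : ℂ → ℂ} {U : Set ℂ} (hU : IsOpen U) (hF : DifferentiableOn ℂ F U)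
    (hi : InjOn F U) : DifferentiableOn ℂ (Function.invFunOn F U) (F '' U) := by
  rintro _ ⟨z, hz, rfl⟩
  exact ((inv_holo hU hF hi).2 z hz).differentiableAt.differentiableWithinAt

end Pool.Agent.H52.GS
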