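import Mathlib
import Pool.Agent.H52.GS.A6
import Pool.Agent.H52.GS.A2
import Pool.Agent.H52.GS.A3
import Pool.Agent.H52.GS.M1

/-!
# GS-B0: thinness from a nearby thin point

PROOF.  `SS Γ X c re a x r` gives `g ∈ Γ`, `y`, `|y - x| ≤ 2 c r ≤ r/500`, `Uni g x (r/2)`,
`g y ∈ X = XX Γ ε re`, `g'(y) r ≤ re`.  Let `F`, `Fw` be the univalent extensions of `g`, `w` on
`ball x (r/2) ⊇ ball y (r/4)`.  Put `ρ = g'(y) r/16 > 0`, `ρ ≤ re`.  By `koebe_quarter` on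
`ball y (r/4)`: `ball (g y) ρ ⊆ F '' ball y (r/4)`.  So `w * g⁻¹ ∈ Γ` has on `ball (g y) ρ` the
univalent extension `Fw ∘ invFunOn F (ball y (r/4))` (`inv_holo`, `inv_holo'`; injectivity from
`F (invFunOn F U p) = p`; at a real point `p` of the ball: the real point `g⁻¹ p` satisfies
`|g⁻¹ p - y| < r/4`, because by `koebe_quarter`/monotonicity `g` maps `(y - r/4, y + r/4)` onto an
interval containing `(g y - ρ, g y + ρ)`: if `q = invFunOn .. p` then `F q = p` is real and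
`F (conj q) = conj (F q) = p`, so `q` is real by injectivity (`F ∘ conj = conj ∘ F` by `ident`), and
`g q = p`).  Its derivative at `g y` is `w'(y)/g'(y)`.  Since `g y ∈ X`:
`(w'(y)/g'(y)) ρ ≤ ε`, i.e. `w'(y) r ≤ 16 ε`.  By `uni_dist`/`Uni` distortion on `ball y (r/4)`
(`|x - y| ≤ 8 c (r/4) ≤ r/4/100`): `(99/100)^4 w'(x) ≤ w'(y)`, so `w'(x) r ≤ 20 ε`.
-/

set_option autoImplicit false
open Set Filter Topology MeasureTheory Metric

namespace Pool.Agent.H52.GS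

/-- the extension commutes with the conjugation -/
theorem b0_conj {f : ℝ → ℝ} {F : ℂ → ℂ} {x r : ℝ} (hr : 0 < r) (he : Ext f F x r) :
    ∀ z ∈ ball (x : ℂ) r, F ((starRingEnd ℂ) z) = (starRingEnd ℂ) (F z) := by
  have hc : ∀ z ∈ ball (x : ℂ) r, (starRingEnd ℂ) z ∈ ball (x : ℂ) r := by
    intro z hz
    rw [mem_ball] at hz ⊢
    have h1 := Complex.dist_conj_conj z (x : ℂ)
    rw [Complex.conj_ofReal] at h1
    rw [h1]
    exact hz
  have hd : DifferentiableOn ℂ (fun z => (starRingEnd ℂ) (F ((starRingEnd ℂ) z)))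
      (ball (x : ℂ) r) := by
    intro z hz
    have h1 : DifferentiableAt ℂ F ((starRingEnd ℂ) z) :=
      he.1.differentiableAt (isOpen_ball.mem_nhds (hc z hz))
    have h2 := h1.conj_conj
    rw [Complex.conj_conj] at h2
    exact h2.differentiableWithinAt
  intro z hz
  have h1 := ident hr he.1 hd (fun y hy => by
    rw [Complex.conj_ofReal, he.2 y hy, Complex.conj_ofReal]) (hc z hz)
  rw [h1]
  change (starRingEnd ℂ) (F ((starRingEnd ℂ) ((starRingEnd ℂ) z))) = _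
  rw [Complex.conj_conj]

/-- a real value of the extension is taken at a real point -/
theorem b0_real {g : ℝ ≃o ℝ} {F : ℂ → ℂ} {x r : ℝ} (hr : 0 < r) (he : Ext g F x r)
    (hi : InjOn F (ball (x : ℂ) r)) {z : ℂ} (hz : z ∈ ball (x : ℂ) r) {p : ℝ}
    (hp : F z = (p : ℂ)) : z = (((g⁻¹ : ℝ ≃o ℝ) p : ℝ) : ℂ) := by
  have hcz : (starRingEnd ℂ) z ∈ ball (x : ℂ) r := by
    rw [mem_ball] at hz ⊢
    have h1 := Complex.dist_conj_conj z (x : ℂ)
    rw [Complex.conj_ofReal] at h1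
    rw [h1]
    exact hz
  have h1 : F ((starRingEnd ℂ) z) = F z := by
    rw [b0_conj hr he z hz, hp, Complex.conj_ofReal]
  obtain ⟨q, hq⟩ := Complex.conj_eq_iff_real.1 (hi hcz hz h1)
  subst hq
  have h2 : F (q : ℂ) = ((g q : ℝ) : ℂ) := he.2 q (M1_mem' hz)
  rw [h2] at hp
  have h3 : g q = p := Complex.ofReal_injective hp
  rw [← h3, RelIso.inv_apply_self]

/-- the univalent extension of `w * g⁻¹` near `g y` -/
theorem b0_uni {g w : ℝ ≃o ℝ} {y r : ℝ} (hr : 0 < r) (hg : Uni g y r) (hw : Uni w y r) :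
    Uni (w * g⁻¹ : ℝ ≃o ℝ) (g y) (deriv (g : ℝ → ℝ) y * r / 4) := by
  obtain ⟨F, he, hi⟩ := hg
  obtain ⟨W, hwe, hwi⟩ := hw
  have hd := uni_deriv he hi (y := y) (by rw [sub_self, abs_zero]; exact hr)
  have hFy : F (y : ℂ) = ((g y : ℝ) : ℂ) := he.2 y (by rw [sub_self, abs_zero]; exact hr)
  have hk := koebe_quarter hr he.1 hi
  rw [hd.2.2.deriv, hFy, Complex.norm_real, Real.norm_of_nonneg hd.2.1.le] at hk
  have hG := inv_holo' isOpen_ball he.1 hi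
  have hmem : ∀ p ∈ ball ((g y : ℝ) : ℂ) (deriv (g : ℝ → ℝ) y * r / 4),
      Function.invFunOn F (ball (y : ℂ) r) p ∈ ball (y : ℂ) r ∧
        F (Function.invFunOn F (ball (y : ℂ) r) p) = p := by
    intro p hp
    obtain ⟨z, hz, hzp⟩ := hk hp
    exact ⟨Function.invFunOn_mem ⟨z, hz, hzp⟩, Function.invFunOn_eq ⟨z, hz, hzp⟩⟩
  refine ⟨fun p => W (Function.invFunOn F (ball (y : ℂ) r) p), ⟨?_, ?_⟩, ?_⟩
  · exact hwe.1.comp (hG.mono hk) fun p hp => (hmem p hp).1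
  · intro p hp
    obtain ⟨h1, h2⟩ := hmem (p : ℂ) (M1_mem hp)
    have h3 := b0_real hr he hi h1 h2
    change W (Function.invFunOn F (ball (y : ℂ) r) (p : ℂ)) = _
    rw [h3] at h1 ⊢
    rw [hwe.2 _ (M1_mem' h1)]
    rfl
  · intro p hp q hq hpq
    have h1 := hwi (hmem p hp).1 (hmem q hq).1 hpq
    rw [← (hmem p hp).2, ← (hmem q hq).2, h1]

theorem b0_deriv {g w : ℝ ≃o ℝ} {y a b : ℝ} (hg : HasDerivAt (g : ℝ → ℝ) a y) (ha : a ≠ 0)
    (hw : HasDerivAt (w : ℝ → ℝ) b y) :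
    HasDerivAt ((w * g⁻¹ : ℝ ≃o ℝ) : ℝ → ℝ) (b * a⁻¹) (g y) := by
  have h0 : (g⁻¹ : ℝ ≃o ℝ) (g y) = y := RelIso.inv_apply_self g y
  have h1 : HasDerivAt ((g⁻¹ : ℝ ≃o ℝ) : ℝ → ℝ) a⁻¹ (g y) := by
    refine HasDerivAt.of_local_left_inverse (f := (g : ℝ → ℝ)) ?_ ?_ ha ?_
    · exact (g⁻¹ : ℝ ≃o ℝ).continuous.continuousAt
    · rw [h0]
      exact hg
    · exact Filter.Eventually.of_forall fun p => RelIso.apply_inv_self g p
  have h2 : HasDerivAt (w : ℝ → ℝ) b ((g⁻¹ : ℝ ≃o ℝ) (g y)) := by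
    rw [h0]
    exact hw
  have h3 : HasDerivAt ((w : ℝ → ℝ) ∘ ((g⁻¹ : ℝ ≃o ℝ) : ℝ → ℝ)) (b * a⁻¹) (g y) :=
    HasDerivAt.comp (g y) h2 h1
  rw [RelIso.coe_mul]
  exact h3

theorem thin31 {Γ : Subgroup (ℝ ≃o ℝ)} {ε re c a x r : ℝ} (hc0 : 0 < c) (hc : c ≤ 1 / 1000)
    (hr : 0 < r) (hS : SS Γ (XX Γ ε re) c re a x r) {w : ℝ ≃o ℝ} (hw : w ∈ Γ)
    (hU : Uni w x (r / 2)) : deriv (w : ℝ → ℝ) x * r ≤ 20 * ε := by
  obtain ⟨g, hg, y, -, hy, hgU, hgX, hge⟩ := hS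
  have hxy : |x - y| ≤ 2 * c * r := by
    rw [abs_sub_comm]
    exact hy
  have hcr : 2 * c * r ≤ r / 500 := by nlinarith
  have hyr : |y - x| < r / 2 := by linarith
  have hg4 : Uni g y (r / 4) := hgU.mono (by linarith)
  have hw4 : Uni w y (r / 4) := hU.mono (by linarith)
  have hgd := hgU.diff hyr
  have hwd := hU.diff hyr
  set a : ℝ := deriv (g : ℝ → ℝ) y with ha
  set b : ℝ := deriv (w : ℝ → ℝ) y with hb
  have hu := b0_uni (by linarith : (0 : ℝ) < r / 4) hg4 hw4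
  rw [← ha] at hu
  have hpos : 0 < a * (r / 4) / 4 := by
    have := mul_pos hgd.2 hr
    linarith
  have hle : a * (r / 4) / 4 ≤ re := by
    have := mul_pos hgd.2 hr
    linarith
  have h1 := hgX (a * (r / 4) / 4) hpos hle (w * g⁻¹) (Γ.mul_mem hw (Γ.inv_mem hg)) hu
  rw [(b0_deriv hgd.1 hgd.2.ne' hwd.1).deriv] at h1
  have h2 : b * a⁻¹ * (a * (r / 4) / 4) = b * r / 16 := by
    have := hgd.2.ne'
    field_simp
    ring
  rw [h2] at h1
  have h3 : 0 < b * r := mul_pos hwd.2 hr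
  obtain ⟨W, hWe, hWi⟩ := hU
  have h4 := (uni_dist (ρ := 1 / 250) (by linarith : (0 : ℝ) < r / 2) (by norm_num) (by norm_num)
    hWe hWi (z := (y : ℂ)) (by
      rw [← Complex.ofReal_sub, Complex.norm_real, Real.norm_eq_abs]
      linarith)).1
  rw [(uni_deriv hWe hWi hyr).2.2.deriv, Complex.norm_real, Real.norm_of_nonneg hwd.2.le] at h4
  have h5 : (1 - 1 / 250 : ℝ) ^ 4 * (deriv (w : ℝ → ℝ) x * r) ≤ b * r := by
    have := mul_le_mul_of_nonneg_right h4 hr.le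
    linarith
  norm_num at h5
  nlinarith

end Pool.Agent.H52.GS
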