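import Mathlib
import Pool.Agent.H52.GS.O1

/-!
# GS-B2: words

PROOFS.
* `BB_sub`: induction (`h.T_mem`).
* `BB_mono`: `1 ∈ S` gives `BB S n ⊆ BB S (n+1)`.
* `BB_TT`: `TT^k * b ∈ BB S n` for `b ∈ BB S n`: induction, `TT^k` commutes with `s ∈ S ⊆ Γ`
  (`TT_comm`).
* `chain_word`: let `n` be the least number with `w ∈ BB S n` (`Nat.find`), `n ≤ m`.  Prove by
  induction on `n`: if `w ∈ BB S n` and `w ∉ BB S j` for all `j < n`, there is `v : ℕ → ℝ ≃o ℝ` with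
  `v n = w`, `v 0 = TT^k`, `v (j+1) = s * v j` with `s ∈ S` for `j < n`, `v j ∈ BB S j` for
  `j ≤ n`, and `v j ∉ BB S i` for `i < j ≤ n`.  Step: `w = s * b`, `b ∈ BB S (n-1)`; if
  `b ∈ BB S i` with `i < n - 1` then `w ∈ BB S (i+1)`, contradiction.  Apply the induction
  hypothesis to `b` and extend `v` by `v n = w`.
* `chain_ne`: if `(v j)⁻¹ * (TT^k * v i) = 1` for some `i ≠ j`, `i, j ≤ n`: if `i < j` then
  `v j = TT^k * v i ∈ BB S i` (`BB_TT`), contradiction; if `j < i` then `v i = TT^(-k) * v j`.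
* `FF_mem`: `(v j)⁻¹ * (TT^k * v i) ∈ FF S m` if `i, j ≤ m`.
-/

set_option autoImplicit false
open Set Filter Topology MeasureTheory Metric

namespace Pool.Agent.H52.GS

theorem B2_succ {S : Set (ℝ ≃o ℝ)} {n : ℕ} {w : ℝ ≃o ℝ} :
    w ∈ BB S (n + 1) ↔ ∃ s ∈ S, ∃ b ∈ BB S n, w = s * b := Iff.rfl

theorem BB_sub {Γ : Subgroup (ℝ ≃o ℝ)} (h : Gp Γ) {S : Set (ℝ ≃o ℝ)} (hS : S ⊆ Γ) (n : ℕ) :
    BB S n ⊆ Γ := by
  induction n with
  | zero =>
    rintro w ⟨k, rfl⟩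
    exact Γ.zpow_mem h.T_mem k
  | succ n ih =>
    rintro w ⟨s, hs, b, hb, rfl⟩
    exact Γ.mul_mem (hS hs) (ih hb)

theorem BB_mono {S : Set (ℝ ≃o ℝ)} (h1 : (1 : ℝ ≃o ℝ) ∈ S) {m n : ℕ} (hmn : m ≤ n) :
    BB S m ⊆ BB S n := by
  induction hmn with
  | refl => exact Subset.rfl
  | step _ ih => exact fun w hw => ⟨1, h1, w, ih hw, (one_mul w).symm⟩

theorem BB_TT {Γ : Subgroup (ℝ ≃o ℝ)} (h : Gp Γ) {S : Set (ℝ ≃o ℝ)} (hS : S ⊆ Γ) {n : ℕ}
    {b : ℝ ≃o ℝ} (hb : b ∈ BB S n) (k : ℤ) : TT ^ k * b ∈ BB S n := by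
  induction n generalizing b with
  | zero =>
    obtain ⟨j, rfl⟩ := hb
    exact ⟨k + j, (zpow_add TT k j).symm⟩
  | succ n ih =>
    obtain ⟨s, hs, b', hb', rfl⟩ := hb
    refine ⟨s, hs, TT ^ k * b', ih hb', ?_⟩
    rw [← mul_assoc, ← mul_assoc, TT_comm h (hS hs) k]

/-- a geodesic chain of words -/
structure WChain (S : Set (ℝ ≃o ℝ)) (n : ℕ) (v : ℕ → ℝ ≃o ℝ) : Prop where
  zero : ∃ k : ℤ, v 0 = TT ^ k
  step : ∀ j, j < n → ∃ s ∈ S, v (j + 1) = s * v j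
  mem : ∀ j, j ≤ n → v j ∈ BB S j
  geo : ∀ i j, i < j → j ≤ n → v j ∉ BB S i

theorem chain_word {S : Set (ℝ ≃o ℝ)} {m : ℕ} {w : ℝ ≃o ℝ} (hw : w ∈ BB S m) :
    ∃ n ≤ m, ∃ v : ℕ → ℝ ≃o ℝ, v n = w ∧ WChain S n v := by
  classical
  have key : ∀ n : ℕ, ∀ w : ℝ ≃o ℝ, w ∈ BB S n → (∀ j, j < n → w ∉ BB S j) →
      ∃ v : ℕ → ℝ ≃o ℝ, v n = w ∧ WChain S n v := by
    intro n
    induction n with
    | zero =>
      intro w hw _
      refine ⟨fun _ => w, rfl, ⟨hw, fun j hj => absurd hj (Nat.not_lt_zero j), ?_, ?_⟩⟩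
      · intro j hj
        rw [Nat.le_zero.1 hj]
        exact hw
      · intro i j hij hj
        omega
    | succ n ih =>
      intro w hw hmin
      obtain ⟨s, hs, b, hb, hwb⟩ := hw
      have hbm : ∀ j, j < n → b ∉ BB S j := fun j hj hbj =>
        hmin (j + 1) (by omega) ⟨s, hs, b, hbj, hwb⟩
      obtain ⟨v, hvn, hv⟩ := ih b hb hbm
      refine ⟨fun j => if j ≤ n then v j else w, by simp, ⟨?_, ?_, ?_, ?_⟩⟩
      · simpa using hv.zero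
      · intro j hj
        rcases Nat.lt_or_ge j n with h | h
        · obtain ⟨t, ht, e⟩ := hv.step j h
          refine ⟨t, ht, ?_⟩
          simp only [show j + 1 ≤ n from h, show j ≤ n by omega, if_true]
          exact e
        · have e : j = n := by omega
          subst e
          refine ⟨s, hs, ?_⟩
          simp only [le_refl, if_true, show ¬ (j + 1 ≤ j) by omega, if_false]
          rw [hvn]
          exact hwb
      · intro j hj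
        rcases Nat.lt_or_ge n j with h | h
        · have e : j = n + 1 := by omega
          subst e
          simp only [show ¬ (n + 1 ≤ n) by omega, if_false]
          exact ⟨s, hs, b, hb, hwb⟩
        · simp only [h, if_true]
          exact hv.mem j h
      · intro i j hij hj
        rcases Nat.lt_or_ge n j with h | h
        · have e : j = n + 1 := by omega
          subst e
          simp only [show ¬ (n + 1 ≤ n) by omega, if_false]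
          exact hmin i hij
        · simp only [h, if_true]
          exact hv.geo i j hij h
  have hex : ∃ n, w ∈ BB S n := ⟨m, hw⟩
  obtain ⟨v, h1, h2⟩ := key (Nat.find hex) w (Nat.find_spec hex) fun j hj => Nat.find_min hex hj
  exact ⟨Nat.find hex, Nat.find_min' hex hw, v, h1, h2⟩

theorem chain_ne {Γ : Subgroup (ℝ ≃o ℝ)} (h : Gp Γ) {S : Set (ℝ ≃o ℝ)} (hS : S ⊆ Γ) {n : ℕ}
    {v : ℕ → ℝ ≃o ℝ} (hv : WChain S n v) {i j : ℕ} (hi : i ≤ n) (hj : j ≤ n) (hij : i ≠ j)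
    (k : ℤ) : (v j)⁻¹ * (TT ^ k * v i) ≠ 1 := by
  intro he
  have e : v j = TT ^ k * v i := inv_mul_eq_one.1 he
  rcases lt_or_gt_of_ne hij with hlt | hgt
  · refine hv.geo i j hlt hj ?_
    rw [e]
    exact BB_TT h hS (hv.mem i hi) k
  · refine hv.geo j i hgt hi ?_
    have e2 : v i = TT ^ (-k) * v j := by
      rw [e, ← mul_assoc, ← zpow_add, neg_add_cancel, zpow_zero, one_mul]
    rw [e2]
    exact BB_TT h hS (hv.mem j hj) (-k)

theorem FF_mem {Γ : Subgroup (ℝ ≃o ℝ)} (h : Gp Γ) {S : Set (ℝ ≃o ℝ)} (hS : S ⊆ Γ)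
    (h1 : (1 : ℝ ≃o ℝ) ∈ S) {n m : ℕ} {v : ℕ → ℝ ≃o ℝ} (hv : WChain S n v) {i j : ℕ}
    (hi : i ≤ n) (hj : j ≤ n) (him : i ≤ m) (hjm : j ≤ m) (k : ℤ) :
    (v j)⁻¹ * (TT ^ k * v i) ∈ FF S m :=
  ⟨TT ^ k * v i, BB_mono h1 him (BB_TT h hS (hv.mem i hi) k), v j, BB_mono h1 hjm (hv.mem j hj),
    rfl⟩

theorem FF_sub {Γ : Subgroup (ℝ ≃o ℝ)} (h : Gp Γ) {S : Set (ℝ ≃o ℝ)} (hS : S ⊆ Γ) (n : ℕ) :
    FF S n ⊆ Γ := by
  rintro f ⟨w, hw, W, hW, rfl⟩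
  exact Γ.mul_mem (Γ.inv_mem (BB_sub h hS n hW)) (BB_sub h hS n hw)

theorem FF_mono {S : Set (ℝ ≃o ℝ)} (h1 : (1 : ℝ ≃o ℝ) ∈ S) {m n : ℕ} (hmn : m ≤ n) :
    FF S m ⊆ FF S n := by
  rintro f ⟨w, hw, W, hW, rfl⟩
  exact ⟨w, BB_mono h1 hmn hw, W, BB_mono h1 hmn hW, rfl⟩

end Pool.Agent.H52.GS
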