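import Mathlib
import Pool.Agent.H52.GS.A6

/-!
# GS-B3: pigeonhole for words in one box

Given: finitely many `w i ∈ ℝ ≃o ℝ`, `i ∈ I`, univalent on `D(x, R/2)`, with
`t < w i'(x) R ≤ 2 t` and `p ≤ w i x < p + t`, such that no quotient `(w j)⁻¹ * w i`, `i ≠ j`,
satisfies `LL _ x R η`.  Then `#I ≤ N0(η)`.

PROOF.  `δ = η/6`, `η ≤ 1/100`.
(1) Let `i ≠ j`.  Then there is `y`, `|y - x| ≤ R/8`, with `|w i y - w j y| > δ t`.  Otherwise
let `f = (w j)⁻¹ * w i`, `|y - x| ≤ R/8`: if `f y > y + η R` then `w i y = w j (f y) ≥ w j (y + η R)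
≥ w j y + (2/3)^4 w j'(x) η R ≥ w j y + 0.19 η t` (`Uni.le_real` with `ρ = 1/3`:
`|y + η R - x| ≤ R/8 + R/100 ≤ R/6`), against `|w i y - w j y| ≤ η t/6`.  The case `f y < y - η R` is
symmetric, and `f⁻¹ = (w i)⁻¹ * w j` is the same with `i, j` exchanged.  So `LL f x R η`.
(2) Let `L` be a natural number `≥ 32/δ` and `y_l = x - R/8 + (l/L) (R/4)`, `0 ≤ l ≤ L`.  On
`|y - x| ≤ R/8 = (1/4)(R/2)`: `|w i y - w i y'| ≤ (4/3)^4 w i'(x)|y - y'| ≤ 6.4 (t/R) |y - y'|`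
(`Uni.real_le`).  So `|w i y_l - p| ≤ t + 0.8 t ≤ 2 t`.  Let
`n i l = ⌊(w i y_l - p)/(δ t/4)⌋ ∈ [-8/δ - 1, 8/δ]`.  If `n i = n j` (as functions of `l`) then
`|w i y_l - w j y_l| ≤ δ t/4` for all `l`; every `y` with `|y - x| ≤ R/8` is within `R/(4L)` of some
`y_l`, where both functions vary by at most `6.4 t/(4 L) ≤ δ t/20`, so `|w i y - w j y| < δ t` for all
such `y`: by (1) `i = j`.
So `i ↦ n i` is injective into the functions `Fin (L+1) → [-K, K]`, `K = ⌈8/δ⌉ + 1`; hence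
`#I ≤ (2K+1)^(L+1) =: N0`.
-/

set_option autoImplicit false
open Set Filter Topology MeasureTheory Metric

namespace Pool.Agent.H52.GS

theorem B3_close {η : ℝ} (hη : 0 < η) (hη1 : η ≤ 1 / 100) {w W : ℝ ≃o ℝ} {x R t : ℝ} (hR : 0 < R)
    (hW : Uni W x (R / 2)) (hd : t < deriv (W : ℝ → ℝ) x * R) {y : ℝ}
    (hy : |y - x| ≤ R / 8) (h : |w y - W y| ≤ η * t / 6) :
    |(W⁻¹ * w : ℝ ≃o ℝ) y - y| ≤ η * R := by
  have hz : W ((W⁻¹ * w : ℝ ≃o ℝ) y) = w y := by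
    rw [RelIso.mul_apply, RelIso.apply_inv_self]
  obtain ⟨z, hzd⟩ : ∃ z : ℝ, z = (W⁻¹ * w : ℝ ≃o ℝ) y := ⟨_, rfl⟩
  rw [← hzd] at hz ⊢
  have hηR : 0 < η * R := mul_pos hη hR
  have hηR1 : η * R ≤ 1 / 100 * R := mul_le_mul_of_nonneg_right hη1 hR.le
  have hR2 : 0 < R / 2 := half_pos hR
  obtain ⟨hy1, hy2⟩ := abs_le.1 hy
  obtain ⟨h1, h2⟩ := abs_le.1 h
  have hyb : |y - x| ≤ 1 / 3 * (R / 2) := abs_le.2 ⟨by linarith, by linarith⟩
  have hcmp : η * t ≤ η * (deriv (W : ℝ → ℝ) x * R) := mul_le_mul_of_nonneg_left hd.le hη.le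
  have hcmp' : η * t < η * (deriv (W : ℝ → ℝ) x * R) := mul_lt_mul_of_pos_left hd hη
  have hpos : 0 < deriv (W : ℝ → ℝ) x := (hW.diff (y := x) (by rw [sub_self, abs_zero]; exact hR2)).2
  have hpos2 : 0 < η * (deriv (W : ℝ → ℝ) x * R) := mul_pos hη (mul_pos hpos hR)
  rw [abs_le]
  constructor
  · by_contra hc
    push Not at hc
    have h3 : z ≤ y - η * R := by linarith
    have h4 : W z ≤ W (y - η * R) := W.monotone h3
    have hq : |y - η * R - x| ≤ 1 / 3 * (R / 2) := abs_le.2 ⟨by linarith, by linarith⟩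
    have h5 := A6_le_real hR2 (by norm_num : (0:ℝ) ≤ 1 / 3) (by norm_num) hW hq hyb (by linarith)
    have h6 : (1 - 1 / 3 : ℝ) ^ 4 * deriv (W : ℝ → ℝ) x * (y - (y - η * R)) =
        16 / 81 * (η * (deriv (W : ℝ → ℝ) x * R)) := by ring
    rw [h6] at h5
    rw [hz] at h4
    linarith
  · by_contra hc
    push Not at hc
    have h3 : y + η * R ≤ z := by linarith
    have h4 : W (y + η * R) ≤ W z := W.monotone h3
    have hq : |y + η * R - x| ≤ 1 / 3 * (R / 2) := abs_le.2 ⟨by linarith, by linarith⟩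
    have h5 := A6_le_real hR2 (by norm_num : (0:ℝ) ≤ 1 / 3) (by norm_num) hW hyb hq (by linarith)
    have h6 : (1 - 1 / 3 : ℝ) ^ 4 * deriv (W : ℝ → ℝ) x * (y + η * R - y) =
        16 / 81 * (η * (deriv (W : ℝ → ℝ) x * R)) := by ring
    rw [h6] at h5
    rw [hz] at h4
    linarith

theorem B3_LL {η : ℝ} (hη : 0 < η) (hη1 : η ≤ 1 / 100) {w W : ℝ ≃o ℝ} {x R t : ℝ} (hR : 0 < R)
    (hw : Uni w x (R / 2)) (hW : Uni W x (R / 2)) (hd' : t < deriv (w : ℝ → ℝ) x * R)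
    (hd : t < deriv (W : ℝ → ℝ) x * R)
    (h : ∀ y : ℝ, |y - x| ≤ R / 8 → |w y - W y| ≤ η * t / 6) : LL (W⁻¹ * w) x R η := by
  intro y hy
  refine ⟨B3_close hη hη1 hR hW hd hy (h y hy), ?_⟩
  have e : (W⁻¹ * w : ℝ ≃o ℝ)⁻¹ = w⁻¹ * W := by rw [mul_inv_rev, inv_inv]
  rw [e]
  exact B3_close hη hη1 hR hw hd' hy (by rw [abs_sub_comm]; exact h y hy)

theorem B3_lip {w : ℝ ≃o ℝ} {x R t : ℝ} (hR : 0 < R) (hw : Uni w x (R / 2))
    (hd : deriv (w : ℝ → ℝ) x * R ≤ 2 * t) {p q : ℝ} (hp : |p - x| ≤ R / 8)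
    (hq : |q - x| ≤ R / 8) : |w p - w q| * R ≤ 512 / 81 * t * |p - q| := by
  have hR2 : 0 < R / 2 := half_pos hR
  have h1 := hw.real_le hR2 (by norm_num : (0:ℝ) ≤ 1 / 4) (by norm_num) (p := p) (q := q)
    (by linarith) (by linarith)
  have h2 : (81 / 256 : ℝ) * |w p - w q| ≤ deriv (w : ℝ → ℝ) x * |p - q| := by
    have e : (1 - 1 / 4 : ℝ) ^ 4 = 81 / 256 := by norm_num
    rw [e] at h1
    exact h1
  have h3 : (81 / 256 : ℝ) * |w p - w q| * R ≤ deriv (w : ℝ → ℝ) x * |p - q| * R :=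
    mul_le_mul_of_nonneg_right h2 hR.le
  have h4 : deriv (w : ℝ → ℝ) x * R * |p - q| ≤ 2 * t * |p - q| :=
    mul_le_mul_of_nonneg_right hd (abs_nonneg _)
  nlinarith

theorem B3_bound {w : ℝ ≃o ℝ} {x R t p : ℝ} (hR : 0 < R) (ht : 0 < t) (hw : Uni w x (R / 2))
    (hd : deriv (w : ℝ → ℝ) x * R ≤ 2 * t) (hp1 : p ≤ w x) (hp2 : w x < p + t) {y : ℝ}
    (hy : |y - x| ≤ R / 8) : |w y - p| ≤ 2 * t := by
  have h1 := B3_lip hR hw hd hy (q := x) (by rw [sub_self, abs_zero]; linarith)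
  have h2 : 512 / 81 * t * |y - x| ≤ 512 / 81 * t * (R / 8) :=
    mul_le_mul_of_nonneg_left hy (by positivity)
  have h3 : |w y - w x| * R ≤ (64 / 81 * t) * R := by linarith
  have h4 : |w y - w x| ≤ 64 / 81 * t := le_of_mul_le_mul_right h3 hR
  obtain ⟨h5, h6⟩ := abs_le.1 h4
  rw [abs_le]
  constructor <;> linarith

theorem B3_grid {x R : ℝ} (hR : 0 < R) {L : ℕ} (hL : 0 < L) {y : ℝ} (hy : |y - x| ≤ R / 8) :
    ∃ l : Fin (L + 1), |y - (x - R / 8 + (l : ℕ) / (L : ℝ) * (R / 4))| * L ≤ R / 4 := by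
  have hL' : (0:ℝ) < L := Nat.cast_pos.2 hL
  obtain ⟨hy1, hy2⟩ := abs_le.1 hy
  obtain ⟨s, hs⟩ : ∃ s : ℝ, s = (y - x + R / 8) / (R / 4) * L := ⟨_, rfl⟩
  have hR4 : 0 < R / 4 := by linarith
  have hs0 : 0 ≤ s := by
    rw [hs]
    exact mul_nonneg (div_nonneg (by linarith) hR4.le) hL'.le
  have hs1 : s ≤ L := by
    rw [hs]
    have : (y - x + R / 8) / (R / 4) ≤ 1 := by rw [div_le_one hR4]; linarith
    nlinarith
  have hf1 := Nat.floor_le hs0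
  have hf2 := Nat.lt_floor_add_one s
  have hfl : ⌊s⌋₊ < L + 1 := by
    have : (⌊s⌋₊ : ℝ) ≤ L := hf1.trans hs1
    exact Nat.lt_succ_of_le (Nat.cast_le.1 this)
  refine ⟨⟨⌊s⌋₊, hfl⟩, ?_⟩
  have e1 : (y - x + R / 8) * L = s * (R / 4) := by
    rw [hs]
    field_simp
  have e2 : (y - (x - R / 8 + (⌊s⌋₊ : ℝ) / (L : ℝ) * (R / 4))) * L = (s - ⌊s⌋₊) * (R / 4) := by
    have e3 : (⌊s⌋₊ : ℝ) / (L : ℝ) * (R / 4) * L = ⌊s⌋₊ * (R / 4) := by field_simp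
    linear_combination e1 - e3
  have e4 : |y - (x - R / 8 + (⌊s⌋₊ : ℝ) / (L : ℝ) * (R / 4))| * L =
      |(y - (x - R / 8 + (⌊s⌋₊ : ℝ) / (L : ℝ) * (R / 4))) * L| := by
    rw [abs_mul, abs_of_pos hL']
  change |y - (x - R / 8 + (⌊s⌋₊ : ℝ) / (L : ℝ) * (R / 4))| * L ≤ R / 4
  rw [e4, e2, abs_of_nonneg (mul_nonneg (by linarith) hR4.le)]
  nlinarith

theorem B3_gridmem {x R : ℝ} (hR : 0 < R) {L : ℕ} (hL : 0 < L) (l : Fin (L + 1)) :
    |x - R / 8 + (l : ℕ) / (L : ℝ) * (R / 4) - x| ≤ R / 8 := by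
  have hL' : (0:ℝ) < L := Nat.cast_pos.2 hL
  have h1 : ((l : ℕ) : ℝ) / L ≤ 1 := by
    rw [div_le_one hL']
    exact Nat.cast_le.2 (Nat.le_of_lt_succ l.2)
  have h0 : 0 ≤ ((l : ℕ) : ℝ) / L := by positivity
  rw [abs_le]
  constructor <;> nlinarith

theorem box_pigeon {η : ℝ} (hη : 0 < η) (hη1 : η ≤ 1 / 100) :
    ∃ N0 : ℕ, ∀ (I : Finset ℕ) (w : ℕ → ℝ ≃o ℝ) (x R t p : ℝ), 0 < R → 0 < t →
      (∀ i ∈ I, Uni (w i) x (R / 2)) →
      (∀ i ∈ I, t < deriv (w i : ℝ → ℝ) x * R ∧ deriv (w i : ℝ → ℝ) x * R ≤ 2 * t) →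
      (∀ i ∈ I, p ≤ w i x ∧ w i x < p + t) →
      (∀ i ∈ I, ∀ j ∈ I, i ≠ j → ¬ LL ((w j)⁻¹ * w i) x R η) → I.card ≤ N0 := by
  obtain ⟨δ, hδd⟩ : ∃ δ : ℝ, δ = η / 6 := ⟨_, rfl⟩
  have hδ : 0 < δ := by rw [hδd]; linarith
  obtain ⟨L, hL⟩ := exists_nat_ge (32 / δ)
  obtain ⟨K, hK⟩ := exists_nat_ge (8 / δ + 1)
  have hL0 : (0:ℝ) < L := lt_of_lt_of_le (by positivity) hL
  have hLn : 0 < L := Nat.cast_pos.1 hL0
  have hLδ : 32 ≤ δ * L := by
    rw [div_le_iff₀ hδ] at hL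
    linarith
  refine ⟨(Fintype.piFinset fun _ : Fin (L + 1) => Finset.Icc (-(K : ℤ)) K).card, ?_⟩
  intro I w x R t p hR ht hU hd hp hLL
  have hδt : 0 < δ * t / 4 := by positivity
  refine Finset.card_le_card_of_injOn
    (fun i => fun l : Fin (L + 1) =>
      ⌊(w i (x - R / 8 + (l : ℕ) / (L : ℝ) * (R / 4)) - p) / (δ * t / 4)⌋) ?_ ?_
  · intro i hi
    have hi' : i ∈ I := hi
    rw [Finset.mem_coe, Fintype.mem_piFinset]
    intro l
    rw [Finset.mem_Icc]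
    have h1 := B3_bound hR ht (hU i hi') (hd i hi').2 (hp i hi').1 (hp i hi').2
      (B3_gridmem hR hLn l)
    obtain ⟨h2, h3⟩ := abs_le.1 h1
    have e : (2 * t) / (δ * t / 4) = 8 / δ := by
      field_simp
      norm_num
    have h4 : (w i (x - R / 8 + (l : ℕ) / (L : ℝ) * (R / 4)) - p) / (δ * t / 4) ≤ 8 / δ := by
      rw [← e]
      exact div_le_div_of_nonneg_right h3 hδt.le
    have h5 : -(8 / δ) ≤ (w i (x - R / 8 + (l : ℕ) / (L : ℝ) * (R / 4)) - p) / (δ * t / 4) := by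
      rw [← e, ← neg_div]
      exact div_le_div_of_nonneg_right h2 hδt.le
    constructor
    · apply Int.le_floor.2
      push_cast
      linarith
    · have h6 := Int.floor_le
        ((w i (x - R / 8 + (l : ℕ) / (L : ℝ) * (R / 4)) - p) / (δ * t / 4))
      have h7 : ((⌊(w i (x - R / 8 + (l : ℕ) / (L : ℝ) * (R / 4)) - p) / (δ * t / 4)⌋ : ℤ) : ℝ)
          ≤ ((K : ℤ) : ℝ) := by
        push_cast
        linarith
      exact Int.cast_le.1 h7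
  · intro i hi j hj hij
    have hi' : i ∈ I := hi
    have hj' : j ∈ I := hj
    by_contra hne
    refine hLL i hi' j hj' hne (B3_LL hη hη1 hR (hU i hi') (hU j hj') (hd i hi').1 (hd j hj').1 ?_)
    intro y hy
    obtain ⟨l, hl⟩ := B3_grid hR hLn hy
    obtain ⟨q, hq⟩ : ∃ q : ℝ, q = x - R / 8 + (l : ℕ) / (L : ℝ) * (R / 4) := ⟨_, rfl⟩
    have hqm : |q - x| ≤ R / 8 := by rw [hq]; exact B3_gridmem hR hLn l
    rw [← hq] at hl
    have hfl : ⌊(w i q - p) / (δ * t / 4)⌋ = ⌊(w j q - p) / (δ * t / 4)⌋ := by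
      have h := congrFun hij l
      simp only at h
      rw [← hq] at h
      exact h
    have hlt := Int.abs_sub_lt_one_of_floor_eq_floor hfl
    have h1 : |w i q - w j q| ≤ δ * t / 4 := by
      have e : (w i q - p) / (δ * t / 4) - (w j q - p) / (δ * t / 4) =
          (w i q - w j q) / (δ * t / 4) := by ring
      rw [e, abs_div, abs_of_pos hδt, div_lt_one hδt] at hlt
      exact hlt.le
    have hb : ∀ k ∈ I, |w k y - w k q| ≤ δ * t / 20 := by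
      intro k hk
      have h2 := B3_lip hR (hU k hk) (hd k hk).2 hy hqm
      have h3 : |w k y - w k q| * R * L ≤ 512 / 81 * t * (|y - q| * L) := by nlinarith
      have h4 : 512 / 81 * t * (|y - q| * L) ≤ 512 / 81 * t * (R / 4) :=
        mul_le_mul_of_nonneg_left hl (by positivity)
      have h5 : |w k y - w k q| * L * R ≤ (128 / 81 * t) * R := by linarith
      have h6 : |w k y - w k q| * L ≤ 128 / 81 * t := le_of_mul_le_mul_right h5 hR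
      have h7 : 32 * t ≤ δ * L * t := mul_le_mul_of_nonneg_right hLδ ht.le
      have h8 : |w k y - w k q| * L ≤ (δ * t / 20) * L := by nlinarith
      exact le_of_mul_le_mul_right h8 hL0
    have h2 := hb i hi'
    have h3 := hb j hj'
    have e : w i y - w j y = (w i y - w i q) + (w i q - w j q) + (w j q - w j y) := by ring
    rw [e]
    have h4 := abs_add_le ((w i y - w i q) + (w i q - w j q)) (w j q - w j y)
    have h5 := abs_add_le (w i y - w i q) (w i q - w j q)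
    have h6 : |w j q - w j y| ≤ δ * t / 20 := by rw [abs_sub_comm]; exact h3
    have h7 : η * t / 6 = δ * t := by rw [hδd]; ring
    have h8 : 0 < δ * t := mul_pos hδ ht
    rw [h7]
    linarith

end Pool.Agent.H52.GS
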