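import Mathlib
import Pool.Agent.H52.GS.B3
import Pool.Agent.H52.GS.O1

/-!
# GS-B4: the sum over a chain (`0 < n` was added to the statement, which is false for `n = 0`, `ε1 < 0`)

PROOF.  `N0` from `box_pigeon η`, `K = 200 * (N0 + 1)`.
`h_i = (w i)'(x) R ∈ (0, ε1]`, `ε1 ≤ 1`.  For `i < n` let `k_i : ℕ` be such that
`2^(-k_i - 1) < h_i ≤ 2^(-k_i)` (exists since `0 < h_i ≤ 1`), and let `q_i : ℤ` be such that
`w i x + q_i 2 pi ∈ [0, 2 pi)` (`= (TT^q_i * w i) x`).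
For fixed `k` put `t = 2^(-k-1)` and divide `I_k = {i < n | k_i = k}` according to
`b_i = ⌊(w i x + q_i 2 pi)/t⌋ ∈ {0, ..., ⌊2 pi/t⌋}`.  Each class `{i ∈ I_k | b_i = b}` has at most `N0`
elements by `box_pigeon` applied to `w' i = TT^q_i * w i` with `p = b t`: the extension of `w' i` is
that of `w i` plus `q_i 2 pi`, the derivative is the same, and
`(w' j)⁻¹ * w' i = (w j)⁻¹ * (TT^(q_i - q_j) * w i)`.
So `#I_k ≤ N0 (2 pi/t + 1) ≤ N0 * 8 * 2^(k+1)` and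
`∑_{i ∈ I_k} h_i^2 ≤ N0 * 8 * 2^(k+1) * 4^(-k) = 16 N0 2^(-k)`.
`I_k` is empty unless `2^(-k-1) < ε1`.  So the total is at most
`16 N0 ∑_{k : 2^(-k) < 2 ε1} 2^(-k) ≤ 16 N0 * 4 ε1` (geometric series starting at `2^(-k0) < 2 ε1`).
In Lean: `Finset.sum_fiberwise`/`Finset.sum_comp` over `k ∈ range (M+1)`, `M` the maximum of the
`k_i`, and `∑_{k0 ≤ k ≤ M} 2^(-k) ≤ 2 * 2^(-k0)`.
-/

set_option autoImplicit false
open Set Filter Topology MeasureTheory Metric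

namespace Pool.Agent.H52.GS

theorem B4_uni {w : ℝ ≃o ℝ} {x r : ℝ} (q : ℤ) (h : Uni w x r) :
    Uni (TT ^ q * w : ℝ ≃o ℝ) x r := by
  obtain ⟨F, ⟨hF1, hF2⟩, hFi⟩ := h
  refine ⟨fun z => F z + ((q * (2 * Real.pi) : ℝ) : ℂ), ⟨hF1.add_const _, ?_⟩, ?_⟩
  · intro y hy
    change F y + _ = _
    rw [hF2 y hy, RelIso.mul_apply, TT_zpow, ← Complex.ofReal_add]
  · intro a ha b hb hab
    exact hFi ha hb (add_right_cancel hab)

theorem B4_deriv (w : ℝ ≃o ℝ) (x : ℝ) (q : ℤ) :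
    deriv ((TT ^ q * w : ℝ ≃o ℝ) : ℝ → ℝ) x = deriv (w : ℝ → ℝ) x := by
  have h1 : ((TT ^ q * w : ℝ ≃o ℝ) : ℝ → ℝ) = fun y => w y + q * (2 * Real.pi) := by
    funext y
    rw [RelIso.mul_apply, TT_zpow]
  rw [h1, deriv_add_const]

theorem B4_quot (u v : ℝ ≃o ℝ) (p q : ℤ) :
    (TT ^ q * v)⁻¹ * (TT ^ p * u) = v⁻¹ * (TT ^ (p - q) * u) := by
  rw [mul_inv_rev, mul_assoc, ← mul_assoc (TT ^ q)⁻¹, ← zpow_neg, ← zpow_add]
  congr 3
  ring

/-- the number of elements of one dyadic level -/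
theorem B4_level {η : ℝ} {N0 : ℕ}
    (hN : ∀ (I : Finset ℕ) (w : ℕ → ℝ ≃o ℝ) (x R t p : ℝ), 0 < R → 0 < t →
      (∀ i ∈ I, Uni (w i) x (R / 2)) →
      (∀ i ∈ I, t < deriv (w i : ℝ → ℝ) x * R ∧ deriv (w i : ℝ → ℝ) x * R ≤ 2 * t) →
      (∀ i ∈ I, p ≤ w i x ∧ w i x < p + t) →
      (∀ i ∈ I, ∀ j ∈ I, i ≠ j → ¬ LL ((w j)⁻¹ * w i) x R η) → I.card ≤ N0)
    (I : Finset ℕ) (w : ℕ → ℝ ≃o ℝ) {x R t : ℝ} (hR : 0 < R) (ht : 0 < t) (ht1 : t ≤ 1)
    (hU : ∀ i ∈ I, Uni (w i) x (R / 2))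
    (hd : ∀ i ∈ I, t < deriv (w i : ℝ → ℝ) x * R ∧ deriv (w i : ℝ → ℝ) x * R ≤ 2 * t)
    (hL : ∀ i ∈ I, ∀ j ∈ I, i ≠ j → ∀ k : ℤ, ¬ LL ((w j)⁻¹ * (TT ^ k * w i)) x R η) :
    (I.card : ℝ) * t ≤ 8 * N0 := by
  have hpi : 0 < 2 * Real.pi := by positivity
  obtain ⟨q, hq⟩ : ∃ q : ℕ → ℤ, ∀ i, 0 ≤ w i x + q i * (2 * Real.pi) ∧
      w i x + q i * (2 * Real.pi) < 2 * Real.pi := by
    refine ⟨fun i => -⌊w i x / (2 * Real.pi)⌋, fun i => ?_⟩
    have h1 := Int.floor_le (w i x / (2 * Real.pi))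
    have h2 := Int.lt_floor_add_one (w i x / (2 * Real.pi))
    rw [le_div_iff₀ hpi] at h1
    rw [div_lt_iff₀ hpi] at h2
    push_cast
    constructor <;> linarith
  obtain ⟨b, hb⟩ : ∃ b : ℕ → ℤ, ∀ i, b i = ⌊(w i x + q i * (2 * Real.pi)) / t⌋ :=
    ⟨_, fun i => rfl⟩
  have hcard : I.card ≤ N0 * (I.image b).card := by
    refine Finset.card_le_mul_card_image I N0 ?_
    intro c _
    refine hN _ (fun i => TT ^ q i * w i) x R t (c * t) hR ht ?_ ?_ ?_ ?_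
    · intro i hi
      exact B4_uni _ (hU i (Finset.mem_filter.1 hi).1)
    · intro i hi
      have h1 := hd i (Finset.mem_filter.1 hi).1
      have h2 := B4_deriv (w i) x (q i)
      change t < deriv ((TT ^ q i * w i : ℝ ≃o ℝ) : ℝ → ℝ) x * R ∧
        deriv ((TT ^ q i * w i : ℝ ≃o ℝ) : ℝ → ℝ) x * R ≤ 2 * t
      rw [h2]
      exact h1
    · intro i hi
      have h1 := (Finset.mem_filter.1 hi).2
      rw [hb, Int.floor_eq_iff, le_div_iff₀ ht, div_lt_iff₀ ht] at h1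
      change c * t ≤ (TT ^ q i * w i : ℝ ≃o ℝ) x ∧ (TT ^ q i * w i : ℝ ≃o ℝ) x < c * t + t
      rw [RelIso.mul_apply, TT_zpow]
      exact ⟨h1.1, by linarith [h1.2]⟩
    · intro i hi j hj hij
      rw [B4_quot]
      exact hL i (Finset.mem_filter.1 hi).1 j (Finset.mem_filter.1 hj).1 hij _
  have himg : I.image b ⊆ Finset.Icc (0 : ℤ) ⌊2 * Real.pi / t⌋ := by
    intro c hc
    obtain ⟨i, _, rfl⟩ := Finset.mem_image.1 hc
    rw [Finset.mem_Icc, hb]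
    constructor
    · exact Int.floor_nonneg.2 (div_nonneg (hq i).1 ht.le)
    · exact Int.floor_le_floor (div_le_div_of_nonneg_right (hq i).2.le ht.le)
  have hfl : 0 ≤ ⌊2 * Real.pi / t⌋ := Int.floor_nonneg.2 (by positivity)
  have hc2 : ((I.image b).card : ℝ) ≤ 2 * Real.pi / t + 1 := by
    have h1 : (I.image b).card ≤ (⌊2 * Real.pi / t⌋ + 1).toNat := by
      have h2 := Finset.card_le_card himg
      rw [Int.card_Icc] at h2
      simpa using h2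
    have h3 : (((⌊2 * Real.pi / t⌋ + 1).toNat : ℕ) : ℝ) = (⌊2 * Real.pi / t⌋ : ℝ) + 1 := by
      have h4 : (((⌊2 * Real.pi / t⌋ + 1).toNat : ℕ) : ℤ) = ⌊2 * Real.pi / t⌋ + 1 :=
        Int.toNat_of_nonneg (by linarith)
      have h5 : ((((⌊2 * Real.pi / t⌋ + 1).toNat : ℕ) : ℤ) : ℝ) =
          ((⌊2 * Real.pi / t⌋ + 1 : ℤ) : ℝ) := by rw [h4]
      rw [Int.cast_natCast] at h5
      rw [h5]
      push_cast
      ring
    have h6 : ((I.image b).card : ℝ) ≤ (((⌊2 * Real.pi / t⌋ + 1).toNat : ℕ) : ℝ) := by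
      exact_mod_cast h1
    rw [h3] at h6
    have h7 := Int.floor_le (2 * Real.pi / t)
    linarith
  have hc3 : (I.card : ℝ) ≤ N0 * ((I.image b).card : ℝ) := by exact_mod_cast hcard
  have hc4 : ((I.image b).card : ℝ) * t ≤ 8 := by
    have h1 : ((I.image b).card : ℝ) * t ≤ (2 * Real.pi / t + 1) * t :=
      mul_le_mul_of_nonneg_right hc2 ht.le
    have h2 : (2 * Real.pi / t + 1) * t = 2 * Real.pi + t := by
      field_simp
    rw [h2] at h1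
    have h3 := Real.pi_lt_d2
    linarith
  have hN0 : (0 : ℝ) ≤ N0 := Nat.cast_nonneg _
  calc (I.card : ℝ) * t ≤ N0 * ((I.image b).card : ℝ) * t :=
        mul_le_mul_of_nonneg_right hc3 ht.le
    _ = N0 * (((I.image b).card : ℝ) * t) := by ring
    _ ≤ N0 * 8 := mul_le_mul_of_nonneg_left hc4 hN0
    _ = 8 * N0 := by ring

theorem B4_geom (M : ℕ) : ∑ m ∈ Finset.range M, (1 / 2 : ℝ) ^ (m + 1) ≤ 1 := by
  have h1 : ∀ M : ℕ, ∑ m ∈ Finset.range M, (1 / 2 : ℝ) ^ (m + 1) = 1 - (1 / 2) ^ M := by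
    intro M
    induction M with
    | zero => simp
    | succ M ih =>
      rw [Finset.sum_range_succ, ih]
      ring
  rw [h1]
  have h2 : (0 : ℝ) ≤ (1 / 2) ^ M := by positivity
  linarith

theorem box_sum {η : ℝ} (hη : 0 < η) (hη1 : η ≤ 1 / 100) :
    ∃ K : ℝ, 0 < K ∧ ∀ (Γ : Subgroup (ℝ ≃o ℝ)), Gp Γ → ∀ (n : ℕ) (w : ℕ → ℝ ≃o ℝ)
      (x R ε1 : ℝ), 0 < n → 0 < R → ε1 ≤ 1 → (∀ i, i < n → w i ∈ Γ) →
      (∀ i, i < n → Uni (w i) x (R / 2)) →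
      (∀ i, i < n → deriv (w i : ℝ → ℝ) x * R ≤ ε1) →
      (∀ i j, i < n → j < n → i ≠ j → ∀ k : ℤ, ¬ LL ((w j)⁻¹ * (TT ^ k * w i)) x R η) →
      ∑ i ∈ Finset.range n, (deriv (w i : ℝ → ℝ) x * R) ^ 2 ≤ K * ε1 := by
  obtain ⟨N0, hN⟩ := box_pigeon hη hη1
  refine ⟨32 * (N0 + 1), by positivity, ?_⟩
  intro Γ _ n w x R ε1 hn hR hε1 _ hU hd hL
  have hpos : ∀ i, i < n → 0 < deriv (w i : ℝ → ℝ) x * R := by
    intro i hi
    refine mul_pos ((hU i hi).diff (y := x) ?_).2 hR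
    rw [sub_self, abs_zero]
    linarith
  have hε0 : 0 < ε1 := (hpos 0 hn).trans_le (hd 0 hn)
  have hex : ∀ i, ∃ m : ℕ, i < n → ε1 * (1 / 2) ^ (m + 1) < deriv (w i : ℝ → ℝ) x * R ∧
      deriv (w i : ℝ → ℝ) x * R ≤ ε1 * (1 / 2) ^ m := by
    intro i
    by_cases hi : i < n
    · obtain ⟨m, hm1, hm2⟩ := exists_nat_pow_near_of_lt_one (x := deriv (w i : ℝ → ℝ) x * R / ε1)
        (y := 1 / 2) (div_pos (hpos i hi) hε0) (by rw [div_le_one hε0]; exact hd i hi)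
        (by norm_num) (by norm_num)
      refine ⟨m, fun _ => ⟨?_, ?_⟩⟩
      · rw [lt_div_iff₀ hε0] at hm1
        linarith
      · rw [div_le_iff₀ hε0] at hm2
        linarith
    · exact ⟨0, fun h => absurd h hi⟩
  choose g hg using hex
  obtain ⟨M, hM⟩ : ∃ M, ∀ i ∈ Finset.range n, g i ∈ Finset.range M := by
    refine ⟨(Finset.range n).sup g + 1, fun i hi => ?_⟩
    rw [Finset.mem_range]
    exact Nat.lt_succ_of_le (Finset.le_sup hi)
  rw [← Finset.sum_fiberwise_of_maps_to hM]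
  have hlev : ∀ m ∈ Finset.range M,
      ∑ i ∈ Finset.range n with g i = m, (deriv (w i : ℝ → ℝ) x * R) ^ 2 ≤
        32 * N0 * ε1 * (1 / 2) ^ (m + 1) := by
    intro m _
    obtain ⟨t, htd⟩ : ∃ t, t = ε1 * (1 / 2 : ℝ) ^ (m + 1) := ⟨_, rfl⟩
    have ht : 0 < t := by rw [htd]; positivity
    have h2t : ε1 * (1 / 2 : ℝ) ^ m = 2 * t := by rw [htd, pow_succ]; ring
    have ht1 : t ≤ 1 := by
      have h1 : (1 / 2 : ℝ) ^ (m + 1) ≤ 1 := pow_le_one₀ (by norm_num) (by norm_num)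
      rw [htd]
      nlinarith
    have hmem : ∀ i ∈ (Finset.range n).filter (fun i => g i = m), i < n ∧
        t < deriv (w i : ℝ → ℝ) x * R ∧ deriv (w i : ℝ → ℝ) x * R ≤ 2 * t := by
      intro i hi
      rw [Finset.mem_filter, Finset.mem_range] at hi
      have h1 := hg i hi.1
      rw [hi.2, h2t, ← htd] at h1
      exact ⟨hi.1, h1⟩
    have hc := B4_level hN ((Finset.range n).filter (fun i => g i = m)) w hR ht ht1
      (fun i hi => hU i (hmem i hi).1) (fun i hi => (hmem i hi).2)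
      (fun i hi j hj hij k => hL i j (hmem i hi).1 (hmem j hj).1 hij k)
    have hs : ∑ i ∈ Finset.range n with g i = m, (deriv (w i : ℝ → ℝ) x * R) ^ 2 ≤
        ((Finset.range n).filter (fun i => g i = m)).card • (4 * t ^ 2) := by
      refine Finset.sum_le_card_nsmul _ _ _ ?_
      intro i hi
      have h1 := hmem i hi
      have h2 := hpos i h1.1
      nlinarith [h1.2.2]
    rw [nsmul_eq_mul] at hs
    refine hs.trans ?_
    have h3 : ((Finset.range n).filter (fun i => g i = m)).card * (4 * t ^ 2) =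
        4 * t * (((Finset.range n).filter (fun i => g i = m)).card * t) := by ring
    rw [h3]
    calc 4 * t * ((((Finset.range n).filter (fun i => g i = m)).card : ℝ) * t)
        ≤ 4 * t * (8 * N0) := mul_le_mul_of_nonneg_left hc (by linarith)
      _ = 32 * N0 * ε1 * (1 / 2) ^ (m + 1) := by rw [htd]; ring
  refine (Finset.sum_le_sum hlev).trans ?_
  rw [← Finset.mul_sum]
  have h1 := B4_geom M
  have h2 : (0 : ℝ) ≤ 32 * N0 * ε1 := by positivity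
  calc 32 * N0 * ε1 * ∑ m ∈ Finset.range M, (1 / 2 : ℝ) ^ (m + 1)
      ≤ 32 * N0 * ε1 * 1 := mul_le_mul_of_nonneg_left h1 h2
    _ ≤ 32 * (N0 + 1) * ε1 := by nlinarith

end Pool.Agent.H52.GS
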