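import Mathlib
import Pool.Agent.H52.GS.Def
import Pool.Agent.H62.CJ.L0

/-!
# GS-B1: the extension of an element to a strip

PROOF.  Let `σ1, F` be as in `h.ext s hs`.
* `F (conj z) = conj (F z)` on the strip: `z ↦ conj (F (conj z))` is holomorphic on the strip
  (convex, open) and agrees with `F` on the real axis; identity theorem.
* `F (z + 2 pi) = F z + 2 pi` on the strip: the same (`h.comm`).
* `F' x > 0` for real `x`: `F' x` is the real derivative of the increasing function `s`, and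
  `F' x ≠ 0` (`H62.CJ.deriv_ne_zero_of_injOn` in Pool.Agent.H62.CJ.L0, may be imported).
* By periodicity and compactness of `[0, 2 pi] × [-σ1/2, σ1/2]` there are `B ≥ 1` with
  `‖F''‖, ‖F'''‖ ≤ B` on `|Im z| ≤ σ1/2`, and `m ∈ (0, 1]` with `F' x ≥ m` for all real `x`.
* Let `0 ≤ t ≤ σ := min (σ1/2) (m/(2B))` (so `σ ≤ 1/2`), `p t = Re F'(x + i t)`,
  `q t = Im F'(x + i t)`.  `p 0 = F' x ≥ m`, `q 0 = 0`.  `|q t| ≤ B t`.  The derivative of
  `t ↦ F'(x + i t)` is `i F''(x + i t)`, at `t = 0` it is `i F'' x` with `F'' x` real, so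
  `p' 0 = 0`, `|p'(t)| ≤ B t`, `|p t - p 0| ≤ B t^2`.  So `p t ≥ m - B t^2 ≥ m/2 > 0`.
* `Im F (x + i y) = ∫_0^y p t dt ≥ p 0 y - B y^3` (or: the derivative of
  `t ↦ Im F(x + i t)` is `p t`), and it is `≥ (m/2) y > 0` for `0 < y < σ`.
* `‖F'(x + i y)‖ ≤ p y + q^2/(2 p) ≤ p 0 + B y^2 + B^2 y^2/m`.
* So `‖F'(x+iy)‖ y ≤ (p 0 y - B y^3) + (2 B + B^2/m) y^3 ≤ Im F (x+iy) + (2B + B^2/m) y^3
  ≤ (1 + C y^2) Im F(x+iy)` with `C = (2 B + B^2/m)(2/m)`, as `y ≤ (2/m) Im F (x + iy)`.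

`strips`: for a finite set `S` take the minimum of the `σ` and the maximum of the `C`
(`Set.Finite.induction_on` or `Finset.exists_min_image`); `F s` by choice.
-/

set_option autoImplicit false
open Set Filter Topology MeasureTheory Metric

namespace Pool.Agent.H52.GS

/-- `F` is a good extension of `s` to the strip of height `σ` with constant `C` -/
structure Strip (s : ℝ ≃o ℝ) (σ C : ℝ) (F : ℂ → ℂ) : Prop where
  diff : DifferentiableOn ℂ F {z : ℂ | |z.im| < σ}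
  inj : InjOn F {z : ℂ | |z.im| < σ}
  real : ∀ x : ℝ, F (x : ℂ) = ((s x : ℝ) : ℂ)
  conj : ∀ z : ℂ, |z.im| < σ → F ((starRingEnd ℂ) z) = (starRingEnd ℂ) (F z)
  pos : ∀ z : ℂ, 0 < z.im → z.im < σ → 0 < (F z).im
  bd : ∀ z : ℂ, 0 < z.im → z.im < σ → ‖deriv F z‖ * z.im ≤ (1 + C * z.im ^ 2) * (F z).im

private theorem b1_open (σ : ℝ) : IsOpen {z : ℂ | |z.im| < σ} :=
  isOpen_lt (continuous_abs.comp Complex.continuous_im) continuous_const

private theorem b1_preconn (σ : ℝ) : IsPreconnected {z : ℂ | |z.im| < σ} := by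
  have h : {z : ℂ | |z.im| < σ} = Complex.imLm ⁻¹' (Ioo (-σ) σ) := by
    ext z
    simp [abs_lt]
  rw [h]
  exact ((convex_Ioo (-σ) σ).linear_preimage Complex.imLm).isPreconnected

private theorem b1_freq (P : ℂ → Prop) (h : ∀ x : ℝ, P (x : ℂ)) : ∃ᶠ z in 𝓝[≠] (0 : ℂ), P z := by
  have ht : Tendsto (fun x : ℝ => (x : ℂ)) (𝓝[≠] (0 : ℝ)) (𝓝[≠] (0 : ℂ)) := by
    refine tendsto_nhdsWithin_iff.2 ⟨?_, ?_⟩
    · have h1 : Tendsto (fun x : ℝ => (x : ℂ)) (𝓝 (0 : ℝ)) (𝓝 ((0 : ℝ) : ℂ)) :=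
        Complex.continuous_ofReal.tendsto 0
      rw [Complex.ofReal_zero] at h1
      exact h1.mono_left nhdsWithin_le_nhds
    · filter_upwards [self_mem_nhdsWithin] with x hx
      simpa using hx
  exact ht.frequently (Filter.Eventually.frequently (Filter.Eventually.of_forall h))

private theorem b1_id {F G : ℂ → ℂ} {σ : ℝ} (hσ : 0 < σ)
    (hF : DifferentiableOn ℂ F {z : ℂ | |z.im| < σ})
    (hG : DifferentiableOn ℂ G {z : ℂ | |z.im| < σ}) (h : ∀ x : ℝ, F (x : ℂ) = G (x : ℂ)) :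
    ∀ z : ℂ, |z.im| < σ → F z = G z := by
  have h1 := (hF.analyticOnNhd (b1_open σ)).eqOn_of_preconnected_of_frequently_eq
    (hG.analyticOnNhd (b1_open σ)) (b1_preconn σ) (z₀ := 0) (by simpa using hσ)
    (b1_freq (fun z => F z = G z) h)
  exact fun z hz => h1 hz

private theorem b1_conj {F : ℂ → ℂ} {σ : ℝ} (hσ : 0 < σ)
    (hF : DifferentiableOn ℂ F {z : ℂ | |z.im| < σ}) (s : ℝ → ℝ)
    (h : ∀ x : ℝ, F (x : ℂ) = ((s x : ℝ) : ℂ)) (z : ℂ) (hz : |z.im| < σ) :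
    F ((starRingEnd ℂ) z) = (starRingEnd ℂ) (F z) := by
  have hG : DifferentiableOn ℂ (fun z => (starRingEnd ℂ) (F ((starRingEnd ℂ) z)))
      {z : ℂ | |z.im| < σ} := by
    intro w hw
    have hw' : |((starRingEnd ℂ) w).im| < σ := by
      rw [Complex.conj_im, abs_neg]
      exact hw
    have h1 : DifferentiableAt ℂ F ((starRingEnd ℂ) w) :=
      (hF _ hw').differentiableAt ((b1_open σ).mem_nhds hw')
    have h2 := differentiableAt_conj_conj_iff.2 h1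
    exact DifferentiableAt.differentiableWithinAt h2
  have h1 := b1_id hσ hF hG (fun x => by
    change F (x : ℂ) = (starRingEnd ℂ) (F ((starRingEnd ℂ) (x : ℂ)))
    rw [Complex.conj_ofReal, h, Complex.conj_ofReal])
  have hz' : |((starRingEnd ℂ) z).im| < σ := by
    rw [Complex.conj_im, abs_neg]
    exact hz
  have h2 := h1 _ hz'
  rw [h2]
  change (starRingEnd ℂ) (F ((starRingEnd ℂ) ((starRingEnd ℂ) z))) = _
  rw [Complex.conj_conj]

private theorem b1_im_add (z : ℂ) (P : ℝ) : (z + (P : ℂ)).im = z.im := by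
  simp

private theorem b1_per {F : ℂ → ℂ} {σ : ℝ} (hσ : 0 < σ)
    (hF : DifferentiableOn ℂ F {z : ℂ | |z.im| < σ}) (s : ℝ → ℝ)
    (h : ∀ x : ℝ, F (x : ℂ) = ((s x : ℝ) : ℂ)) (P : ℝ) (hs : ∀ x, s (x + P) = s x + P)
    (z : ℂ) (hz : |z.im| < σ) : F (z + (P : ℂ)) = F z + (P : ℂ) := by
  have hG : DifferentiableOn ℂ (fun z => F (z + (P : ℂ)) - (P : ℂ)) {z : ℂ | |z.im| < σ} := by
    refine DifferentiableOn.sub_const ?_ _
    refine hF.comp (differentiable_id.add_const _).differentiableOn ?_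
    intro w hw
    have hw2 : |w.im| < σ := hw
    have hw3 : |(w + (P : ℂ)).im| < σ := by
      rw [b1_im_add]
      exact hw2
    exact hw3
  have h1 := b1_id hσ hF hG (fun x => by
    change F (x : ℂ) = F ((x : ℂ) + (P : ℂ)) - (P : ℂ)
    rw [← Complex.ofReal_add, h, h, hs]
    push_cast
    ring) z hz
  rw [h1]
  ring

private theorem b1_dper {G : ℂ → ℂ} {σ : ℝ} (P c : ℂ)
    (h : ∀ z : ℂ, |z.im| < σ → G (z + P) = G z + c) (z : ℂ) (hz : |z.im| < σ) :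
    deriv G (z + P) = deriv G z := by
  have h1 : (fun w => G (w + P)) =ᶠ[𝓝 z] (fun w => G w + c) := by
    filter_upwards [(b1_open σ).mem_nhds (show z ∈ {z : ℂ | |z.im| < σ} from hz)] with w hw
    exact h w hw
  have h2 := h1.deriv_eq
  rw [deriv_comp_add_const, deriv_add_const] at h2
  exact h2

private theorem b1_bound {G : ℂ → ℂ} {σ τ P : ℝ} (hP : 0 < P) (hτ : τ < σ)
    (hG : ContinuousOn G {z : ℂ | |z.im| < σ})
    (hper : ∀ z : ℂ, |z.im| < σ → G (z + (P : ℂ)) = G z) :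
    ∃ B : ℝ, ∀ z : ℂ, |z.im| ≤ τ → ‖G z‖ ≤ B := by
  have hK : IsCompact (Icc (0 : ℝ) P ×ℂ Icc (-τ) τ) := isCompact_Icc.reProdIm isCompact_Icc
  have hsub : Icc (0 : ℝ) P ×ℂ Icc (-τ) τ ⊆ {z : ℂ | |z.im| < σ} := by
    intro z hz
    have h2 := hz.2
    have h3 : |z.im| ≤ τ := abs_le.2 h2
    exact lt_of_le_of_lt h3 hτ
  obtain ⟨B, hB⟩ := hK.exists_bound_of_continuousOn (hG.mono hsub)
  refine ⟨B, fun z hz => ?_⟩
  have hp : Function.Periodic (fun x : ℝ => G ((x : ℂ) + (z.im : ℂ) * Complex.I)) P := by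
    intro x
    have h1 := hper ((x : ℂ) + (z.im : ℂ) * Complex.I) (by
      have : ((x : ℂ) + (z.im : ℂ) * Complex.I).im = z.im := by simp
      rw [this]
      exact lt_of_le_of_lt hz hτ)
    change G (((x + P : ℝ) : ℂ) + (z.im : ℂ) * Complex.I) =
      G ((x : ℂ) + (z.im : ℂ) * Complex.I)
    rw [← h1]
    congr 1
    push_cast
    ring
  obtain ⟨y, hy, hxy⟩ := hp.exists_mem_Ico₀ hP z.re
  have hz1 : G z = G ((y : ℂ) + (z.im : ℂ) * Complex.I) := by
    have h3 : G ((z.re : ℂ) + (z.im : ℂ) * Complex.I) = G ((y : ℂ) + (z.im : ℂ) * Complex.I) := hxy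
    rw [Complex.re_add_im] at h3
    exact h3
  rw [hz1]
  refine hB _ ?_
  rw [Complex.mem_reProdIm]
  constructor
  · simpa using ⟨hy.1, hy.2.le⟩
  · simpa using abs_le.1 hz

private theorem b1_real {G : ℂ → ℂ} {G' : ℂ} {x : ℝ} (hd : HasDerivAt G G' (x : ℂ))
    (hr : ∀ t : ℝ, (G (t : ℂ)).im = 0) : G'.im = 0 := by
  have h1 : HasDerivAt (fun t : ℝ => G (t : ℂ)) G' x := hd.comp_ofReal
  have h2 := Complex.imCLM.hasFDerivAt.comp_hasDerivAt x h1
  have h3 : HasDerivAt (fun t : ℝ => (0 : ℝ)) (Complex.imCLM G') x := by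
    refine h2.congr_of_eventuallyEq (Filter.Eventually.of_forall fun t => ?_)
    change 0 = (G (t : ℂ)).im
    rw [hr]
  exact (h3.unique (hasDerivAt_const x (0 : ℝ)))

private theorem b1_line {G : ℂ → ℂ} {G' : ℂ} {x t : ℝ}
    (hd : HasDerivAt G G' ((x : ℂ) + (t : ℂ) * Complex.I)) :
    HasDerivAt (fun t : ℝ => G ((x : ℂ) + (t : ℂ) * Complex.I)) (G' * Complex.I) t := by
  have h2 : HasDerivAt (fun t : ℝ => (x : ℂ) + (t : ℂ) * Complex.I) Complex.I t := by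
    have := (Complex.ofRealCLM.hasDerivAt (x := t)).mul_const Complex.I
    simpa using this.const_add (x : ℂ)
  exact hd.comp t h2

/-- the final real inequality -/
private theorem b1_ineq {m B a y p q v : ℝ} (hm : 0 < m) (hB : 0 < B) (ha : m ≤ a) (hy : 0 < y)
    (hy1 : y ≤ 1) (hy2 : y ≤ m / (2 * B)) (hp : |p - a| ≤ B * y ^ 2) (hq : |q| ≤ B * y)
    (hv : |v - y * a| ≤ B * y ^ 3) :
    0 < v ∧ Real.sqrt (p ^ 2 + q ^ 2) * y ≤ (1 + (2 * B + B ^ 2 / m) * (2 / m) * y ^ 2) * v := by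
  have hBy : B * y ≤ m / 2 := by
    have h1 : B * y ≤ B * (m / (2 * B)) := mul_le_mul_of_nonneg_left hy2 hB.le
    have h2 : B * (m / (2 * B)) = m / 2 := by field_simp
    linarith
  have hBy2 : B * y ^ 2 ≤ m / 2 := by
    have h1 : B * y ^ 2 = (B * y) * y := by ring
    rw [h1]
    have h3 : 0 ≤ B * y := by positivity
    nlinarith
  have hv1 := abs_le.1 hv
  have hp1 := abs_le.1 hp
  have hy3 : B * y ^ 3 ≤ m / 2 * y := by
    have h1 : B * y ^ 3 = (B * y ^ 2) * y := by ring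
    rw [h1]
    exact mul_le_mul_of_nonneg_right hBy2 hy.le
  have hvm : m / 2 * y ≤ v := by nlinarith [hv1.1]
  have hvpos : 0 < v := lt_of_lt_of_le (by positivity) hvm
  refine ⟨hvpos, ?_⟩
  have hpm : m / 2 ≤ p := by linarith [hp1.1]
  have hq2 : q ^ 2 ≤ (B * y) ^ 2 := by
    rw [← sq_abs q]
    exact pow_le_pow_left₀ (abs_nonneg q) hq 2
  have hN : Real.sqrt (p ^ 2 + q ^ 2) ≤ p + q ^ 2 / m := by
    have hnn : 0 ≤ p + q ^ 2 / m := by
      have : 0 ≤ q ^ 2 / m := by positivity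
      linarith
    rw [Real.sqrt_le_left hnn]
    have h1 : (p + q ^ 2 / m) ^ 2 = p ^ 2 + (2 * p) * (q ^ 2 / m) + (q ^ 2 / m) ^ 2 := by ring
    have h2 : q ^ 2 ≤ (2 * p) * (q ^ 2 / m) := by
      have h3 : 0 ≤ q ^ 2 / m := by positivity
      have h4 : m * (q ^ 2 / m) = q ^ 2 := by field_simp
      nlinarith
    rw [h1]
    have h5 : 0 ≤ (q ^ 2 / m) ^ 2 := by positivity
    linarith
  have hqm : q ^ 2 / m ≤ B ^ 2 / m * y ^ 2 := by
    have h1 : B ^ 2 / m * y ^ 2 = (B * y) ^ 2 / m := by ring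
    rw [h1]
    exact div_le_div_of_nonneg_right hq2 hm.le
  have hN2 : Real.sqrt (p ^ 2 + q ^ 2) ≤ a + (B + B ^ 2 / m) * y ^ 2 := by
    have : p ≤ a + B * y ^ 2 := by linarith [hp1.2]
    nlinarith
  have hN3 : Real.sqrt (p ^ 2 + q ^ 2) * y ≤ (a + (B + B ^ 2 / m) * y ^ 2) * y :=
    mul_le_mul_of_nonneg_right hN2 hy.le
  have h6 : (a + (B + B ^ 2 / m) * y ^ 2) * y ≤ v + (2 * B + B ^ 2 / m) * y ^ 3 := by
    nlinarith [hv1.1]
  have h7 : y ≤ 2 / m * v := by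
    have h8 : 2 / m * (m / 2 * y) = y := by field_simp
    have h9 : 2 / m * (m / 2 * y) ≤ 2 / m * v := mul_le_mul_of_nonneg_left hvm (by positivity)
    linarith
  have h10 : (2 * B + B ^ 2 / m) * y ^ 3 ≤ (2 * B + B ^ 2 / m) * (y ^ 2 * (2 / m * v)) := by
    refine mul_le_mul_of_nonneg_left ?_ (by positivity)
    have h11 : y ^ 3 = y ^ 2 * y := by ring
    rw [h11]
    exact mul_le_mul_of_nonneg_left h7 (by positivity)
  nlinarith

private theorem b1_est {F : ℂ → ℂ} {σ1 B : ℝ}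
    (hF : DifferentiableOn ℂ F {z : ℂ | |z.im| < σ1})
    (hr : ∀ x : ℝ, (F (x : ℂ)).im = 0)
    (hB2 : ∀ z : ℂ, |z.im| ≤ σ1 / 2 → ‖deriv (deriv (deriv F)) z‖ ≤ B)
    (hB1 : ∀ z : ℂ, |z.im| ≤ σ1 / 2 → ‖deriv (deriv F) z‖ ≤ B)
    (hσ1 : 0 < σ1) (hB : 0 ≤ B) (x y : ℝ) (hy : 0 < y) (hyσ : y ≤ σ1 / 2) :
    (|(deriv F ((x : ℂ) + (y : ℂ) * Complex.I)).re - (deriv F (x : ℂ)).re| ≤ B * y ^ 2) ∧
    (|(deriv F ((x : ℂ) + (y : ℂ) * Complex.I)).im| ≤ B * y) ∧
    (|(F ((x : ℂ) + (y : ℂ) * Complex.I)).im - y * (deriv F (x : ℂ)).re| ≤ B * y ^ 3) := by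
  have ho := b1_open σ1
  have hF1 : DifferentiableOn ℂ (deriv F) {z : ℂ | |z.im| < σ1} := hF.deriv ho
  have hF2 : DifferentiableOn ℂ (deriv (deriv F)) {z : ℂ | |z.im| < σ1} := hF1.deriv ho
  have him : ∀ t : ℝ, ((x : ℂ) + (t : ℂ) * Complex.I).im = t := fun t => by simp
  have hmem : ∀ t ∈ Icc (0 : ℝ) y, |((x : ℂ) + (t : ℂ) * Complex.I).im| < σ1 := by
    intro t ht
    rw [him, abs_of_nonneg ht.1]
    linarith [ht.2]
  have hmem2 : ∀ t ∈ Icc (0 : ℝ) y, |((x : ℂ) + (t : ℂ) * Complex.I).im| ≤ σ1 / 2 := by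
    intro t ht
    rw [him, abs_of_nonneg ht.1]
    linarith [ht.2]
  have hat : ∀ {G : ℂ → ℂ}, DifferentiableOn ℂ G {z : ℂ | |z.im| < σ1} → ∀ z : ℂ,
      |z.im| < σ1 → HasDerivAt G (deriv G z) z := by
    intro G hG z hz
    exact ((hG z hz).differentiableAt (ho.mem_nhds hz)).hasDerivAt
  have hx0 : ∀ t : ℝ, |((t : ℝ) : ℂ).im| < σ1 := fun t => by simpa using hσ1
  have hr1 : ∀ t : ℝ, (deriv F (t : ℂ)).im = 0 := fun t => b1_real (hat hF _ (hx0 t)) hr
  have hr2 : ∀ t : ℝ, (deriv (deriv F) (t : ℂ)).im = 0 := fun t =>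
    b1_real (hat hF1 _ (hx0 t)) hr1
  have hz0 : (x : ℂ) + ((0 : ℝ) : ℂ) * Complex.I = (x : ℂ) := by simp
  -- second derivative along the segment
  have e2 : ∀ t ∈ Icc (0 : ℝ) y, ‖deriv (deriv F) ((x : ℂ) + (t : ℂ) * Complex.I) -
      deriv (deriv F) (x : ℂ)‖ ≤ B * t := by
    intro t ht
    have h := norm_image_sub_le_of_norm_deriv_le_segment'
      (f := fun t : ℝ => deriv (deriv F) ((x : ℂ) + (t : ℂ) * Complex.I))
      (f' := fun t => deriv (deriv (deriv F)) ((x : ℂ) + (t : ℂ) * Complex.I) * Complex.I)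
      (C := B) (a := 0) (b := y)
      (fun t ht => (b1_line (hat hF2 _ (hmem t ht))).hasDerivWithinAt)
      (fun t ht => by
        rw [norm_mul, Complex.norm_I, mul_one]
        exact hB2 _ (hmem2 t ⟨ht.1, ht.2.le⟩)) t ht
    simp only [hz0, sub_zero] at h
    exact h
  have e1 : ∀ t ∈ Icc (0 : ℝ) y, ‖deriv F ((x : ℂ) + (t : ℂ) * Complex.I) -
      deriv F (x : ℂ)‖ ≤ B * t := by
    intro t ht
    have h := norm_image_sub_le_of_norm_deriv_le_segment'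
      (f := fun t : ℝ => deriv F ((x : ℂ) + (t : ℂ) * Complex.I))
      (f' := fun t => deriv (deriv F) ((x : ℂ) + (t : ℂ) * Complex.I) * Complex.I)
      (C := B) (a := 0) (b := y)
      (fun t ht => (b1_line (hat hF1 _ (hmem t ht))).hasDerivWithinAt)
      (fun t ht => by
        rw [norm_mul, Complex.norm_I, mul_one]
        exact hB1 _ (hmem2 t ⟨ht.1, ht.2.le⟩)) t ht
    simp only [hz0, sub_zero] at h
    exact h
  have hlin : ∀ (c : ℂ) (t : ℝ), HasDerivAt (fun t : ℝ => Complex.I * (t : ℂ) * c)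
      (Complex.I * c) t := by
    intro c t
    have := ((Complex.ofRealCLM.hasDerivAt (x := t)).const_mul Complex.I).mul_const c
    simpa using this
  have hsq : ∀ (c : ℂ) (t : ℝ), HasDerivAt (fun t : ℝ => (t : ℂ) ^ 2 / 2 * c)
      ((t : ℂ) * c) t := by
    intro c t
    have h1 : HasDerivAt (fun z : ℂ => z ^ 2 / 2 * c) ((t : ℂ) * c) (t : ℂ) := by
      have := (((hasDerivAt_id (t : ℂ)).pow 2).div_const 2).mul_const c
      convert! this using 1
      simp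
    exact h1.comp_ofReal
  have g1 : ∀ t ∈ Icc (0 : ℝ) y, ‖deriv F ((x : ℂ) + (t : ℂ) * Complex.I) -
      deriv F (x : ℂ) - Complex.I * (t : ℂ) * deriv (deriv F) (x : ℂ)‖ ≤ B * y * t := by
    intro t ht
    have h := norm_image_sub_le_of_norm_deriv_le_segment'
      (f := fun t : ℝ => deriv F ((x : ℂ) + (t : ℂ) * Complex.I) -
        Complex.I * (t : ℂ) * deriv (deriv F) (x : ℂ))
      (f' := fun t => deriv (deriv F) ((x : ℂ) + (t : ℂ) * Complex.I) * Complex.I -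
        Complex.I * deriv (deriv F) (x : ℂ))
      (C := B * y) (a := 0) (b := y)
      (fun t ht => ((b1_line (hat hF1 _ (hmem t ht))).sub (hlin _ t)).hasDerivWithinAt)
      (fun t ht => by
        rw [mul_comm Complex.I, ← sub_mul, norm_mul, Complex.norm_I, mul_one]
        refine (e2 t ⟨ht.1, ht.2.le⟩).trans ?_
        exact mul_le_mul_of_nonneg_left ht.2.le hB) t ht
    have h2 : deriv F ((x : ℂ) + (t : ℂ) * Complex.I) -
        deriv F (x : ℂ) - Complex.I * (t : ℂ) * deriv (deriv F) (x : ℂ) =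
        (deriv F ((x : ℂ) + (t : ℂ) * Complex.I) -
          Complex.I * (t : ℂ) * deriv (deriv F) (x : ℂ)) -
        (deriv F ((x : ℂ) + ((0 : ℝ) : ℂ) * Complex.I) -
          Complex.I * ((0 : ℝ) : ℂ) * deriv (deriv F) (x : ℂ)) := by
      rw [hz0]
      simp only [Complex.ofReal_zero, mul_zero, zero_mul, sub_zero]
      ring
    rw [h2]
    simpa only [sub_zero] using h
  have g2 : ‖F ((x : ℂ) + (y : ℂ) * Complex.I) - F (x : ℂ) -
      Complex.I * (y : ℂ) * deriv F (x : ℂ) + (y : ℂ) ^ 2 / 2 * deriv (deriv F) (x : ℂ)‖ ≤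
      B * y * y * y := by
    have h := norm_image_sub_le_of_norm_deriv_le_segment'
      (f := fun t : ℝ => F ((x : ℂ) + (t : ℂ) * Complex.I) -
        Complex.I * (t : ℂ) * deriv F (x : ℂ) + (t : ℂ) ^ 2 / 2 * deriv (deriv F) (x : ℂ))
      (f' := fun t => deriv F ((x : ℂ) + (t : ℂ) * Complex.I) * Complex.I -
        Complex.I * deriv F (x : ℂ) + (t : ℂ) * deriv (deriv F) (x : ℂ))
      (C := B * y * y) (a := 0) (b := y)
      (fun t ht => (((b1_line (hat hF _ (hmem t ht))).sub (hlin _ t)).add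
        (hsq _ t)).hasDerivWithinAt)
      (fun t ht => by
        have h3 : deriv F ((x : ℂ) + (t : ℂ) * Complex.I) * Complex.I -
            Complex.I * deriv F (x : ℂ) + (t : ℂ) * deriv (deriv F) (x : ℂ) =
            (deriv F ((x : ℂ) + (t : ℂ) * Complex.I) - deriv F (x : ℂ) -
              Complex.I * (t : ℂ) * deriv (deriv F) (x : ℂ)) * Complex.I := by
          have : Complex.I * Complex.I = -1 := Complex.I_mul_I
          linear_combination ((t : ℂ) * deriv (deriv F) (x : ℂ)) * this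
        rw [h3, norm_mul, Complex.norm_I, mul_one]
        refine (g1 t ⟨ht.1, ht.2.le⟩).trans ?_
        exact mul_le_mul_of_nonneg_left ht.2.le (by positivity)) y ⟨hy.le, le_rfl⟩
    have h2 : F ((x : ℂ) + (y : ℂ) * Complex.I) - F (x : ℂ) -
        Complex.I * (y : ℂ) * deriv F (x : ℂ) + (y : ℂ) ^ 2 / 2 * deriv (deriv F) (x : ℂ) =
        (F ((x : ℂ) + (y : ℂ) * Complex.I) -
          Complex.I * (y : ℂ) * deriv F (x : ℂ) + (y : ℂ) ^ 2 / 2 * deriv (deriv F) (x : ℂ)) -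
        (F ((x : ℂ) + ((0 : ℝ) : ℂ) * Complex.I) -
          Complex.I * ((0 : ℝ) : ℂ) * deriv F (x : ℂ) +
            ((0 : ℝ) : ℂ) ^ 2 / 2 * deriv (deriv F) (x : ℂ)) := by
      rw [hz0]
      simp only [Complex.ofReal_zero]
      ring
    rw [h2]
    simpa only [sub_zero] using h
  have hy' : y ∈ Icc (0 : ℝ) y := ⟨hy.le, le_rfl⟩
  refine ⟨?_, ?_, ?_⟩
  · have h := (Complex.abs_re_le_norm _).trans (g1 y hy')
    have h2 : (deriv F ((x : ℂ) + (y : ℂ) * Complex.I) - deriv F (x : ℂ) -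
        Complex.I * (y : ℂ) * deriv (deriv F) (x : ℂ)).re =
        (deriv F ((x : ℂ) + (y : ℂ) * Complex.I)).re - (deriv F (x : ℂ)).re := by
      simp only [Complex.sub_re, Complex.mul_re, Complex.I_re, Complex.I_im, Complex.ofReal_re,
        Complex.ofReal_im, Complex.mul_im, hr2 x]
      ring
    rw [h2] at h
    calc _ ≤ B * y * y := h
      _ = B * y ^ 2 := by ring
  · have h := (Complex.abs_im_le_norm _).trans (e1 y hy')
    rw [Complex.sub_im, hr1 x, sub_zero] at h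
    exact h
  · have h := (Complex.abs_im_le_norm _).trans g2
    have h2 : (F ((x : ℂ) + (y : ℂ) * Complex.I) - F (x : ℂ) -
        Complex.I * (y : ℂ) * deriv F (x : ℂ) +
          (y : ℂ) ^ 2 / 2 * deriv (deriv F) (x : ℂ)).im =
        (F ((x : ℂ) + (y : ℂ) * Complex.I)).im - y * (deriv F (x : ℂ)).re := by
      have h3 : ((y : ℂ) ^ 2 / 2) = ((y ^ 2 / 2 : ℝ) : ℂ) := by push_cast; ring
      rw [h3]
      simp only [Complex.sub_im, Complex.add_im, Complex.mul_im, Complex.mul_re, Complex.I_re,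
        Complex.I_im, Complex.ofReal_re, Complex.ofReal_im, hr2 x, hr x]
      ring
    rw [h2] at h
    calc _ ≤ B * y * y * y := h
      _ = B * y ^ 3 := by ring

theorem strip {Γ : Subgroup (ℝ ≃o ℝ)} (h : Gp Γ) {s : ℝ ≃o ℝ} (hs : s ∈ Γ) :
    ∃ σ : ℝ, 0 < σ ∧ σ ≤ 1 ∧ ∃ C : ℝ, 0 ≤ C ∧ ∃ F : ℂ → ℂ, Strip s σ C F := by
  obtain ⟨σ1, hσ1, F, hF, hinj, hreal⟩ := h.ext s hs
  have ho := b1_open σ1
  have hF1 : DifferentiableOn ℂ (deriv F) {z : ℂ | |z.im| < σ1} := hF.deriv ho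
  have hF2 : DifferentiableOn ℂ (deriv (deriv F)) {z : ℂ | |z.im| < σ1} := hF1.deriv ho
  have hF3 : DifferentiableOn ℂ (deriv (deriv (deriv F))) {z : ℂ | |z.im| < σ1} := hF2.deriv ho
  have hP : (0 : ℝ) < 2 * Real.pi := by positivity
  have hper := b1_per hσ1 hF s hreal (2 * Real.pi) (h.comm s hs)
  have hper1 := b1_dper ((2 * Real.pi : ℝ) : ℂ) ((2 * Real.pi : ℝ) : ℂ) hper
  have hper2 := b1_dper (G := deriv F) ((2 * Real.pi : ℝ) : ℂ) 0
    (fun z hz => by rw [add_zero]; exact hper1 z hz)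
  have hper3 := b1_dper (G := deriv (deriv F)) ((2 * Real.pi : ℝ) : ℂ) 0
    (fun z hz => by rw [add_zero]; exact hper2 z hz)
  have hhalf : σ1 / 2 < σ1 := by linarith
  obtain ⟨B1, hB1⟩ := b1_bound hP hhalf hF2.continuousOn hper2
  obtain ⟨B2, hB2⟩ := b1_bound hP hhalf hF3.continuousOn hper3
  have hr : ∀ x : ℝ, (F (x : ℂ)).im = 0 := fun x => by rw [hreal]; simp
  have hx0 : ∀ t : ℝ, |((t : ℝ) : ℂ).im| < σ1 := fun t => by simpa using hσ1
  have hat : ∀ x : ℝ, HasDerivAt F (deriv F (x : ℂ)) (x : ℂ) := fun x =>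
    ((hF _ (hx0 x)).differentiableAt (ho.mem_nhds (hx0 x))).hasDerivAt
  have hr1 : ∀ x : ℝ, (deriv F (x : ℂ)).im = 0 := fun x => b1_real (hat x) hr
  have hpos : ∀ x : ℝ, 0 < (deriv F (x : ℂ)).re := by
    intro x
    have h1 : HasDerivAt (fun t : ℝ => F (t : ℂ)) (deriv F (x : ℂ)) x := (hat x).comp_ofReal
    have h2 := Complex.reCLM.hasFDerivAt.comp_hasDerivAt x h1
    have h3 : HasDerivAt (fun t : ℝ => s t) (deriv F (x : ℂ)).re x := by
      refine h2.congr_of_eventuallyEq (Filter.Eventually.of_forall fun t => ?_)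
      change s t = (F (t : ℂ)).re
      rw [hreal, Complex.ofReal_re]
    have h4 : 0 ≤ (deriv F (x : ℂ)).re := by
      rw [← h3.deriv]
      exact s.monotone.deriv_nonneg
    have h5 : deriv F (x : ℂ) ≠ 0 :=
      H62.CJ.deriv_ne_zero_of_injOn F _ ho hF hinj (x : ℂ) (hx0 x)
    refine lt_of_le_of_ne h4 fun h6 => h5 ?_
    apply Complex.ext
    · exact h6.symm
    · exact hr1 x
  obtain ⟨m, hm0, hm⟩ : ∃ m : ℝ, 0 < m ∧ ∀ x : ℝ, m ≤ (deriv F (x : ℂ)).re := by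
    have hc : Continuous fun x : ℝ => (deriv F (x : ℂ)).re := by
      refine Complex.continuous_re.comp ?_
      refine hF1.continuousOn.comp_continuous Complex.continuous_ofReal hx0
    obtain ⟨x0, _, hx0'⟩ := (isCompact_Icc (a := (0 : ℝ)) (b := 2 * Real.pi)).exists_isMinOn
      ⟨0, le_rfl, hP.le⟩ hc.continuousOn
    refine ⟨_, hpos x0, fun x => ?_⟩
    have hp : Function.Periodic (fun x : ℝ => (deriv F (x : ℂ)).re) (2 * Real.pi) := by
      intro t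
      change (deriv F ((t + 2 * Real.pi : ℝ) : ℂ)).re = _
      rw [Complex.ofReal_add, hper1 _ (hx0 t)]
    obtain ⟨y, hy, hxy⟩ := hp.exists_mem_Ico₀ hP x
    have hxy' : (deriv F (x : ℂ)).re = (deriv F (y : ℂ)).re := hxy
    rw [hxy']
    exact hx0' ⟨hy.1, hy.2.le⟩
  obtain ⟨B, hBdef⟩ : ∃ B : ℝ, B = max 1 (max B1 B2) := ⟨_, rfl⟩
  have hBpos : 0 < B := by
    rw [hBdef]
    exact lt_of_lt_of_le one_pos (le_max_left _ _)
  have hB1' : ∀ z : ℂ, |z.im| ≤ σ1 / 2 → ‖deriv (deriv F) z‖ ≤ B := fun z hz =>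
    (hB1 z hz).trans (by rw [hBdef]; exact (le_max_left _ _).trans (le_max_right _ _))
  have hB2' : ∀ z : ℂ, |z.im| ≤ σ1 / 2 → ‖deriv (deriv (deriv F)) z‖ ≤ B := fun z hz =>
    (hB2 z hz).trans (by rw [hBdef]; exact (le_max_right _ _).trans (le_max_right _ _))
  obtain ⟨σ, hσdef⟩ : ∃ σ : ℝ, σ = min 1 (min (σ1 / 2) (m / (2 * B))) := ⟨_, rfl⟩
  have hσpos : 0 < σ := by
    rw [hσdef]
    exact lt_min one_pos (lt_min (by positivity) (by positivity))
  have hσle1 : σ ≤ 1 := by rw [hσdef]; exact min_le_left _ _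
  have hσle2 : σ ≤ σ1 / 2 := by
    rw [hσdef]; exact (min_le_right _ _).trans (min_le_left _ _)
  have hσle3 : σ ≤ m / (2 * B) := by
    rw [hσdef]; exact (min_le_right _ _).trans (min_le_right _ _)
  have hsub : {z : ℂ | |z.im| < σ} ⊆ {z : ℂ | |z.im| < σ1} := by
    intro z hz
    have hz' : |z.im| < σ := hz
    have : |z.im| < σ1 := by linarith
    exact this
  have key : ∀ z : ℂ, 0 < z.im → z.im < σ → 0 < (F z).im ∧
      ‖deriv F z‖ * z.im ≤ (1 + (2 * B + B ^ 2 / m) * (2 / m) * z.im ^ 2) * (F z).im := by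
    intro z hz0 hz1
    obtain ⟨h1, h2, h3⟩ := b1_est hF hr hB2' hB1' hσ1 hBpos.le z.re z.im hz0 (by linarith)
    rw [Complex.re_add_im] at h1 h2 h3
    have h4 := b1_ineq hm0 hBpos (hm z.re) hz0 (by linarith) (by linarith) h1 h2 h3
    refine ⟨h4.1, ?_⟩
    have h5 : ‖deriv F z‖ = Real.sqrt ((deriv F z).re ^ 2 + (deriv F z).im ^ 2) :=
      Complex.norm_eq_sqrt_sq_add_sq _
    rw [h5]
    exact h4.2
  refine ⟨σ, hσpos, hσle1, (2 * B + B ^ 2 / m) * (2 / m), by positivity, F, ?_⟩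
  exact
    { diff := hF.mono hsub
      inj := hinj.mono hsub
      real := hreal
      conj := fun z hz => b1_conj hσ1 hF s hreal z (hsub hz)
      pos := fun z h1 h2 => (key z h1 h2).1
      bd := fun z h1 h2 => (key z h1 h2).2 }

private theorem b1_mono {s : ℝ ≃o ℝ} {σ σ' C C' : ℝ} {F : ℂ → ℂ} (h : Strip s σ C F)
    (hσ : σ' ≤ σ) (hC : C ≤ C') : Strip s σ' C' F where
  diff := h.diff.mono fun z hz => lt_of_lt_of_le (show |z.im| < σ' from hz) hσ
  inj := h.inj.mono fun z hz => lt_of_lt_of_le (show |z.im| < σ' from hz) hσ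
  real := h.real
  conj := fun z hz => h.conj z (lt_of_lt_of_le hz hσ)
  pos := fun z h1 h2 => h.pos z h1 (lt_of_lt_of_le h2 hσ)
  bd := fun z h1 h2 => by
    have h3 := h.bd z h1 (lt_of_lt_of_le h2 hσ)
    have h4 := h.pos z h1 (lt_of_lt_of_le h2 hσ)
    refine h3.trans ?_
    refine mul_le_mul_of_nonneg_right ?_ h4.le
    have h5 : C * z.im ^ 2 ≤ C' * z.im ^ 2 := mul_le_mul_of_nonneg_right hC (sq_nonneg _)
    linarith

private theorem b1_min {α : Type*} {S : Set α} (hS : S.Finite) (f : α → ℝ)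
    (hf : ∀ a ∈ S, 0 < f a) : ∃ σ : ℝ, 0 < σ ∧ σ ≤ 1 ∧ ∀ a ∈ S, σ ≤ f a := by
  induction S, hS using Set.Finite.induction_on with
  | empty => exact ⟨1, one_pos, le_rfl, fun a ha => absurd ha (Set.notMem_empty a)⟩
  | insert _ _ ih =>
    rename_i a S _ _
    obtain ⟨σ, h1, h2, h3⟩ := ih fun b hb => hf b (Set.mem_insert_of_mem _ hb)
    refine ⟨min σ (f a), lt_min h1 (hf a (Set.mem_insert _ _)), (min_le_left _ _).trans h2, ?_⟩
    intro b hb
    rcases Set.mem_insert_iff.1 hb with rfl | hb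
    · exact min_le_right _ _
    · exact (min_le_left _ _).trans (h3 b hb)

theorem strips {Γ : Subgroup (ℝ ≃o ℝ)} (h : Gp Γ) {S : Set (ℝ ≃o ℝ)} (hS : S.Finite)
    (hSΓ : S ⊆ Γ) :
    ∃ σ : ℝ, 0 < σ ∧ σ ≤ 1 ∧ ∃ C : ℝ, 0 ≤ C ∧ ∃ F : (ℝ ≃o ℝ) → ℂ → ℂ,
      ∀ s ∈ S, Strip s σ C (F s) := by
  classical
  have hex : ∀ s : ℝ ≃o ℝ, ∃ (σ C : ℝ) (F : ℂ → ℂ), s ∈ Γ → 0 < σ ∧ 0 ≤ C ∧ Strip s σ C F := by
    intro s
    by_cases hs : s ∈ Γ
    · obtain ⟨σ, h1, _, C, h2, F, hF⟩ := strip h hs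
      exact ⟨σ, C, F, fun _ => ⟨h1, h2, hF⟩⟩
    · exact ⟨0, 0, 0, fun h => absurd h hs⟩
  choose σ C F hex using hex
  obtain ⟨σ0, h1, h2, h3⟩ := b1_min hS σ fun s hs => (hex s (hSΓ hs)).1
  obtain ⟨C0, hC0⟩ := (hS.image C).bddAbove
  refine ⟨σ0, h1, h2, max 0 C0, le_max_left _ _, F, fun s hs => ?_⟩
  exact b1_mono (hex s (hSΓ hs)).2.2 (h3 s hs)
    ((hC0 (Set.mem_image_of_mem C hs)).trans (le_max_right _ _))

end Pool.Agent.H52.GS
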