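import Mathlib
import Pool.Agent.H52.GS.A6

/-!
# GS-B5: the domain over the graph of `φ`

`JJ φ a` is the set of `x` with `φ > 0` on the interval between `a` and `x`;
`Om φ a = {x + i y | x ∈ JJ φ a, |y| < φ x}`.  `φ` is 1-Lipschitz.
PROOFS.
* `JJ_conn`: if `x, x' ∈ JJ φ a` then `uIcc x x' ⊆ JJ φ a` (intervals between `a` and a point of
  `uIcc x x'` are contained in the union of the intervals from `a` to `x` and to `x'`).
* `JJ_near`: if `x ∈ JJ φ a` and `|y - x| < φ x` then `y ∈ JJ φ a`: the interval between `a` and `y`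
  is contained in the union of the intervals `[a,x]` and `[x,y]`, and on the latter
  `φ ≥ φ x - |y - x| > 0`.
* `JJ_open`, `Om_open`: from `JJ_near` and continuity of `φ`.
* `ball_Om`: let `x ∈ JJ φ a`, `z ∈ ball x (φ x/2)`: `|Re z - x| < φ x/2`, so `Re z ∈ JJ φ a`,
  `φ (Re z) ≥ φ x - |Re z - x| > φ x/2 > |Im z|`.
* `GoodExt.uni`: restrict `F` to `ball x (φ x/2)`.
-/

set_option autoImplicit false
open Set Filter Topology MeasureTheory Metric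

namespace Pool.Agent.H52.GS

/-- the domain over the graph -/
def Om (φ : ℝ → ℝ) (a : ℝ) : Set ℂ := {z : ℂ | z.re ∈ JJ φ a ∧ |z.im| < φ z.re}

/-- `F` is a symmetric univalent extension of `w` to `Om φ a` -/
structure GoodExt (φ : ℝ → ℝ) (a : ℝ) (w : ℝ ≃o ℝ) (F : ℂ → ℂ) : Prop where
  diff : DifferentiableOn ℂ F (Om φ a)
  inj : InjOn F (Om φ a)
  real : ∀ x ∈ JJ φ a, F (x : ℂ) = ((w x : ℝ) : ℂ)
  conj : ∀ z ∈ Om φ a, F ((starRingEnd ℂ) z) = (starRingEnd ℂ) (F z)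
  pos : ∀ z ∈ Om φ a, 0 < z.im → 0 < (F z).im

theorem JJ_pos {φ : ℝ → ℝ} {a x : ℝ} (hx : x ∈ JJ φ a) : 0 < φ x := by
  exact hx x right_mem_uIcc

theorem JJ_self {φ : ℝ → ℝ} {a x : ℝ} (hx : x ∈ JJ φ a) : a ∈ JJ φ a := by
  intro y hy
  rw [uIcc_self, mem_singleton_iff] at hy
  rw [hy]
  exact hx a left_mem_uIcc

theorem JJ_conn {φ : ℝ → ℝ} {a x x' : ℝ} (hx : x ∈ JJ φ a) (hx' : x' ∈ JJ φ a) :
    uIcc x x' ⊆ JJ φ a := by
  intro y hy z hz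
  have h1 : z ∈ uIcc a x ∪ uIcc a x' := by
    rcases mem_uIcc.1 hy with ⟨h2, h3⟩ | ⟨h2, h3⟩ <;> rcases mem_uIcc.1 hz with ⟨h4, h5⟩ | ⟨h4, h5⟩
    · exact Or.inr (mem_uIcc.2 (Or.inl ⟨h4, h5.trans h3⟩))
    · exact Or.inl (mem_uIcc.2 (Or.inr ⟨h2.trans h4, h5⟩))
    · exact Or.inl (mem_uIcc.2 (Or.inl ⟨h4, h5.trans h3⟩))
    · exact Or.inr (mem_uIcc.2 (Or.inr ⟨h2.trans h4, h5⟩))
  rcases h1 with h1 | h1
  · exact hx z h1
  · exact hx' z h1

theorem JJ_near {φ : ℝ → ℝ} (hlip : ∀ x y, |φ x - φ y| ≤ |x - y|) {a x y : ℝ}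
    (hx : x ∈ JJ φ a) (hy : |y - x| < φ x) : y ∈ JJ φ a := by
  intro z hz
  have h1 : z ∈ uIcc a x ∪ uIcc x y := uIcc_subset_uIcc_union_uIcc hz
  rcases h1 with h1 | h1
  · exact hx z h1
  · have h2 : |z - x| ≤ |y - x| := abs_sub_left_of_mem_uIcc h1
    have h3 := hlip x z
    have h4 := (abs_le.1 h3).2
    rw [abs_sub_comm x z] at h4
    linarith

theorem JJ_open {φ : ℝ → ℝ} (hlip : ∀ x y, |φ x - φ y| ≤ |x - y|) (a : ℝ) :
    IsOpen (JJ φ a) := by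
  rw [Metric.isOpen_iff]
  intro x hx
  refine ⟨φ x, JJ_pos hx, ?_⟩
  intro y hy
  rw [mem_ball, Real.dist_eq] at hy
  exact JJ_near hlip hx hy

theorem B5_cont {φ : ℝ → ℝ} (hlip : ∀ x y, |φ x - φ y| ≤ |x - y|) : Continuous φ := by
  have h1 : LipschitzWith 1 φ := LipschitzWith.of_dist_le_mul (fun x y => by
    rw [NNReal.coe_one, one_mul, Real.dist_eq, Real.dist_eq]
    exact hlip x y)
  exact h1.continuous

theorem Om_open {φ : ℝ → ℝ} (hlip : ∀ x y, |φ x - φ y| ≤ |x - y|) (a : ℝ) :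
    IsOpen (Om φ a) := by
  have h1 : IsOpen (Complex.re ⁻¹' (JJ φ a)) := (JJ_open hlip a).preimage Complex.continuous_re
  have h2 : IsOpen {z : ℂ | |z.im| < φ z.re} :=
    isOpen_lt Complex.continuous_im.abs ((B5_cont hlip).comp Complex.continuous_re)
  exact h1.inter h2

theorem ball_Om {φ : ℝ → ℝ} (hlip : ∀ x y, |φ x - φ y| ≤ |x - y|) {a x : ℝ}
    (hx : x ∈ JJ φ a) : ball (x : ℂ) (φ x / 2) ⊆ Om φ a := by
  intro z hz
  rw [mem_ball_iff_norm] at hz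
  have hp := JJ_pos hx
  have h1 : |z.re - x| < φ x / 2 := by
    have h2 := Complex.abs_re_le_norm (z - x)
    rw [Complex.sub_re, Complex.ofReal_re] at h2
    exact h2.trans_lt hz
  have h3 : |z.im| < φ x / 2 := by
    have h2 := Complex.abs_im_le_norm (z - x)
    rw [Complex.sub_im, Complex.ofReal_im, sub_zero] at h2
    exact h2.trans_lt hz
  refine ⟨JJ_near hlip hx (by linarith), ?_⟩
  have h4 := (abs_le.1 (hlip x z.re)).2
  rw [abs_sub_comm x z.re] at h4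
  show |z.im| < φ z.re
  linarith

theorem GoodExt.uni {φ : ℝ → ℝ} (hlip : ∀ x y, |φ x - φ y| ≤ |x - y|) {a : ℝ} {w : ℝ ≃o ℝ}
    {F : ℂ → ℂ} (h : GoodExt φ a w F) {x : ℝ} (hx : x ∈ JJ φ a) :
    Ext w F x (φ x / 2) ∧ InjOn F (ball (x : ℂ) (φ x / 2)) := by
  have hb := ball_Om hlip hx
  refine ⟨⟨h.diff.mono hb, ?_⟩, h.inj.mono hb⟩
  intro y hy
  have hp := JJ_pos hx
  exact h.real y (JJ_near hlip hx (by linarith))

theorem GoodExt.uni' {φ : ℝ → ℝ} (hlip : ∀ x y, |φ x - φ y| ≤ |x - y|) {a : ℝ} {w : ℝ ≃o ℝ}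
    {F : ℂ → ℂ} (h : GoodExt φ a w F) {x : ℝ} (hx : x ∈ JJ φ a) : Uni w x (φ x / 2) := by
  exact ⟨F, (h.uni hlip hx).1, (h.uni hlip hx).2⟩

end Pool.Agent.H52.GS
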