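import Mathlib
import Pool.Agent.H52.GS.B5
import Pool.Agent.H52.GS.B1
import Pool.Agent.H52.GS.O1

/-!
# GS-B6: composing with a generator; the growth along vertical segments

PROOFS.
* `good_TT`: `F z = z + k 2 pi` (`TT_zpow`).
* `good_step`: `Fs ∘ F` is defined on `Om φ a` because `|Im F z| < σ`; holomorphic, injective,
  symmetric, real values, `Im > 0` for `Im z > 0`.
* `good_quot`: chain rule: `(Fs ∘ F)' z = Fs'(F z) F' z`; with `ζ = F z`, `0 < Im ζ < σ`: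
  `‖Fs' ζ‖ Im ζ ≤ (1 + C (Im ζ)^2) Im (Fs ζ)`.  If `‖F' z‖ Im z ≤ P Im (F z)` then
  `‖(Fs ∘ F)' z‖ Im z ≤ ‖Fs' ζ‖ P Im ζ ≤ P (1 + C (Im ζ)^2) Im (Fs ζ)`.
* `growth`: fix `x ∈ JJ φ a` and let `I t = Im F(x + i t)` for `0 < t < φ x`; `I t > 0`,
  `I'(t) = Re F'(x + i t) ≤ ‖F'(x + i t)‖ ≤ 2 I t/t`.  So `I t/t^2` has derivative `≤ 0` and is
  nonincreasing on `(0, φ x)`.  With `t0 = φ x/8`: for `t0 ≤ t < φ x`
  `I t ≤ (t/t0)^2 I t0 ≤ 64 I t0`, and for `0 < t ≤ t0` by `uni_growth` (`R = φ x/2`, `ρ = 1/4`,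
  `GoodExt.uni`): `I t ≤ ‖F(x + i t) - w x‖ ≤ (4/3)^4 w'(x) φ x/8 ≤ w'(x) φ x`; the same at `t0`.
  So `I t ≤ 64 w'(x) φ x`.
-/

set_option autoImplicit false
open Set Filter Topology MeasureTheory Metric

namespace Pool.Agent.H52.GS

theorem good_TT (φ : ℝ → ℝ) (a : ℝ) (k : ℤ) :
    GoodExt φ a (TT ^ k) (fun z => z + ((k * (2 * Real.pi) : ℝ) : ℂ)) := by
  refine ⟨?_, ?_, ?_, ?_, ?_⟩
  · exact (differentiable_id.add_const _).differentiableOn
  · intro z _ w _ hzw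
    exact add_right_cancel hzw
  · intro x _
    rw [TT_zpow]
    push_cast
    ring
  · intro z _
    simp only [map_add, Complex.conj_ofReal]
  · intro z _ hz
    rw [Complex.add_im, Complex.ofReal_im, add_zero]
    exact hz

theorem B6_conj_mem {φ : ℝ → ℝ} {a : ℝ} {z : ℂ} (hz : z ∈ Om φ a) :
    (starRingEnd ℂ) z ∈ Om φ a := by
  refine ⟨?_, ?_⟩
  · rw [Complex.conj_re]
    exact hz.1
  · rw [Complex.conj_re, Complex.conj_im, abs_neg]
    exact hz.2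

theorem B6_real_mem {φ : ℝ → ℝ} {a x : ℝ} (hx : x ∈ JJ φ a) : (x : ℂ) ∈ Om φ a := by
  refine ⟨?_, ?_⟩
  · rw [Complex.ofReal_re]
    exact hx
  · rw [Complex.ofReal_re, Complex.ofReal_im, abs_zero]
    exact JJ_pos hx

theorem good_step {φ : ℝ → ℝ} {a σ C : ℝ} {s w : ℝ ≃o ℝ} {F Fs : ℂ → ℂ}
    (h : GoodExt φ a w F) (hs : Strip s σ C Fs) (hb : ∀ z ∈ Om φ a, |(F z).im| < σ) :
    GoodExt φ a (s * w) (Fs ∘ F) := by
  have hm : MapsTo F (Om φ a) {z : ℂ | |z.im| < σ} := fun z hz => hb z hz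
  refine ⟨hs.diff.comp h.diff hm, hs.inj.comp h.inj hm, ?_, ?_, ?_⟩
  · intro x hx
    rw [Function.comp_apply, h.real x hx, hs.real, RelIso.mul_apply]
  · intro z hz
    rw [Function.comp_apply, Function.comp_apply, h.conj z hz, hs.conj _ (hb z hz)]
  · intro z hz hz0
    have h1 := h.pos z hz hz0
    have h2 := hb z hz
    rw [abs_of_pos h1] at h2
    exact hs.pos _ h1 h2

theorem good_quot {φ : ℝ → ℝ} (hlip : ∀ x y, |φ x - φ y| ≤ |x - y|) {a σ C P : ℝ}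
    {s w : ℝ ≃o ℝ} {F Fs : ℂ → ℂ} (hC : 0 ≤ C) (hP : 0 ≤ P)
    (h : GoodExt φ a w F) (hs : Strip s σ C Fs) (hb : ∀ z ∈ Om φ a, |(F z).im| < σ) {z : ℂ}
    (hz : z ∈ Om φ a) (hz0 : 0 < z.im) (hPz : ‖deriv F z‖ * z.im ≤ P * (F z).im) :
    ‖deriv (Fs ∘ F) z‖ * z.im ≤ P * (1 + C * (F z).im ^ 2) * ((Fs ∘ F) z).im := by
  have h1 := h.pos z hz hz0
  have h2 := hb z hz
  have h2' := h2
  rw [abs_of_pos h1] at h2'
  have hF : DifferentiableAt ℂ F z := h.diff.differentiableAt ((Om_open hlip a).mem_nhds hz)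
  have hso : IsOpen {z : ℂ | |z.im| < σ} :=
    isOpen_lt (Complex.continuous_im.abs) continuous_const
  have hFs : DifferentiableAt ℂ Fs (F z) := hs.diff.differentiableAt (hso.mem_nhds h2)
  rw [deriv_comp z hFs hF, norm_mul, Function.comp_apply]
  have h3 := hs.bd (F z) h1 h2'
  have h4 : 0 ≤ ‖deriv Fs (F z)‖ := norm_nonneg _
  calc ‖deriv Fs (F z)‖ * ‖deriv F z‖ * z.im
      = ‖deriv Fs (F z)‖ * (‖deriv F z‖ * z.im) := by ring
    _ ≤ ‖deriv Fs (F z)‖ * (P * (F z).im) := mul_le_mul_of_nonneg_left hPz h4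
    _ = P * (‖deriv Fs (F z)‖ * (F z).im) := by ring
    _ ≤ P * ((1 + C * (F z).im ^ 2) * (Fs (F z)).im) := mul_le_mul_of_nonneg_left h3 hP
    _ = P * (1 + C * (F z).im ^ 2) * (Fs (F z)).im := by ring

theorem B6_small {φ : ℝ → ℝ} (hlip : ∀ x y, |φ x - φ y| ≤ |x - y|) {a : ℝ} {w : ℝ ≃o ℝ}
    {F : ℂ → ℂ} (h : GoodExt φ a w F) {x : ℝ} (hx : x ∈ JJ φ a) {z : ℂ}
    (hz : ‖z - x‖ ≤ φ x / 8) : |(F z).im| ≤ deriv (w : ℝ → ℝ) x * φ x := by
  have hφ := JJ_pos hx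
  obtain ⟨he, hi⟩ := h.uni hlip hx
  have h1 := uni_growth (R := φ x / 2) (ρ := 1 / 4) (by linarith) (by norm_num) (by norm_num)
    he hi (z := z) (by linarith)
  have h2 : |(F z).im| ≤ ‖F z - ((w x : ℝ) : ℂ)‖ := by
    have h3 := Complex.abs_im_le_norm (F z - ((w x : ℝ) : ℂ))
    rwa [Complex.sub_im, Complex.ofReal_im, sub_zero] at h3
  have h4 : 0 < deriv (w : ℝ → ℝ) x :=
    (uni_deriv he hi (y := x) (by rw [sub_self, abs_zero]; linarith)).2.1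
  have h5 : 0 ≤ deriv (w : ℝ → ℝ) x * φ x := by positivity
  norm_num at h1
  nlinarith

theorem B6_vert {φ : ℝ → ℝ} {a x t : ℝ} (hx : x ∈ JJ φ a) (h0 : 0 < t) (ht : t < φ x) :
    (x : ℂ) + t * Complex.I ∈ Om φ a := by
  refine ⟨?_, ?_⟩
  · simpa using hx
  · simp only [Complex.add_im, Complex.ofReal_im, Complex.mul_im, Complex.ofReal_re, Complex.I_im,
      Complex.I_re, mul_one, mul_zero, zero_add, add_zero, Complex.add_re, Complex.mul_re,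
      sub_self]
    rw [abs_of_pos h0]
    exact ht

theorem B6_deriv {φ : ℝ → ℝ} (hlip : ∀ x y, |φ x - φ y| ≤ |x - y|) {a : ℝ} {w : ℝ ≃o ℝ}
    {F : ℂ → ℂ} (h : GoodExt φ a w F) {x t : ℝ} (hx : x ∈ JJ φ a) (h0 : 0 < t) (ht : t < φ x) :
    HasDerivAt (fun t : ℝ => (F ((x : ℂ) + t * Complex.I)).im)
      (deriv F ((x : ℂ) + t * Complex.I)).re t := by
  have hz := B6_vert hx h0 ht
  have hF : HasDerivAt F (deriv F ((x : ℂ) + t * Complex.I)) ((x : ℂ) + t * Complex.I) :=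
    (h.diff.differentiableAt ((Om_open hlip a).mem_nhds hz)).hasDerivAt
  have hl : HasDerivAt (fun t : ℝ => (x : ℂ) + t * Complex.I) Complex.I t := by
    have h1 : HasDerivAt (fun t : ℝ => ((t : ℝ) : ℂ)) 1 t := Complex.ofRealCLM.hasDerivAt
    have h2 := (h1.mul_const Complex.I).const_add (x : ℂ)
    rwa [one_mul] at h2
  have h3 : HasDerivAt (fun t : ℝ => F ((x : ℂ) + t * Complex.I))
      (deriv F ((x : ℂ) + t * Complex.I) * Complex.I) t := hF.comp t hl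
  have h4 := Complex.imCLM.hasFDerivAt.comp_hasDerivAt t h3
  have h5 : Complex.imCLM (deriv F ((x : ℂ) + t * Complex.I) * Complex.I) =
      (deriv F ((x : ℂ) + t * Complex.I)).re := by
    simp [Complex.imCLM_apply]
  rw [h5] at h4
  exact h4

theorem B6_anti {φ : ℝ → ℝ} (hlip : ∀ x y, |φ x - φ y| ≤ |x - y|) {a : ℝ} {w : ℝ ≃o ℝ}
    {F : ℂ → ℂ} (h : GoodExt φ a w F)
    (hq : ∀ z ∈ Om φ a, 0 < z.im → ‖deriv F z‖ * z.im ≤ 2 * (F z).im) {x : ℝ}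
    (hx : x ∈ JJ φ a) :
    AntitoneOn (fun t : ℝ => (F ((x : ℂ) + t * Complex.I)).im / t ^ 2) (Ioo 0 (φ x)) := by
  have hd : ∀ t ∈ Ioo (0 : ℝ) (φ x),
      HasDerivAt (fun t : ℝ => (F ((x : ℂ) + t * Complex.I)).im / t ^ 2)
        (((deriv F ((x : ℂ) + t * Complex.I)).re * t ^ 2 -
          (F ((x : ℂ) + t * Complex.I)).im * (2 * t)) / (t ^ 2) ^ 2) t := by
    intro t ht
    have h1 := B6_deriv hlip h hx ht.1 ht.2
    have h2 : HasDerivAt (fun t : ℝ => t ^ 2) (2 * t) t := by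
      simpa using hasDerivAt_pow 2 t
    exact h1.div h2 (pow_ne_zero 2 ht.1.ne')
  apply antitoneOn_of_deriv_nonpos (convex_Ioo 0 (φ x))
  · intro t ht
    exact (hd t ht).continuousAt.continuousWithinAt
  · intro t ht
    rw [interior_Ioo] at ht
    exact (hd t ht).differentiableAt.differentiableWithinAt
  · intro t ht
    rw [interior_Ioo] at ht
    rw [(hd t ht).deriv]
    have hz := B6_vert hx ht.1 ht.2
    have him : ((x : ℂ) + t * Complex.I).im = t := by simp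
    have h1 := hq _ hz (by rw [him]; exact ht.1)
    rw [him] at h1
    have h2 : (deriv F ((x : ℂ) + t * Complex.I)).re ≤ ‖deriv F ((x : ℂ) + t * Complex.I)‖ :=
      Complex.re_le_norm _
    have h3 : (deriv F ((x : ℂ) + t * Complex.I)).re * t ≤
        ‖deriv F ((x : ℂ) + t * Complex.I)‖ * t := mul_le_mul_of_nonneg_right h2 ht.1.le
    apply div_nonpos_of_nonpos_of_nonneg
    · have h4 : ((deriv F ((x : ℂ) + t * Complex.I)).re * t -
          2 * (F ((x : ℂ) + t * Complex.I)).im) * t ≤ 0 :=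
        mul_nonpos_of_nonpos_of_nonneg (by linarith) ht.1.le
      nlinarith [h4]
    · positivity

theorem B6_pos {φ : ℝ → ℝ} (hlip : ∀ x y, |φ x - φ y| ≤ |x - y|) {a : ℝ} {w : ℝ ≃o ℝ}
    {F : ℂ → ℂ} (h : GoodExt φ a w F)
    (hq : ∀ z ∈ Om φ a, 0 < z.im → ‖deriv F z‖ * z.im ≤ 2 * (F z).im) {x t : ℝ}
    (hx : x ∈ JJ φ a) (h0 : 0 ≤ t) (ht : t < φ x) :
    |(F ((x : ℂ) + t * Complex.I)).im| ≤ 64 * deriv (w : ℝ → ℝ) x * φ x := by
  have hφ := JJ_pos hx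
  have hn : ∀ t : ℝ, 0 ≤ t → ‖((x : ℂ) + t * Complex.I) - x‖ = t := by
    intro t ht
    rw [add_sub_cancel_left, norm_mul, Complex.norm_I, mul_one, Complex.norm_real,
      Real.norm_of_nonneg ht]
  have hb0 : 0 ≤ deriv (w : ℝ → ℝ) x * φ x :=
    (abs_nonneg _).trans (B6_small hlip h hx (z := ((x : ℂ) + (0 : ℝ) * Complex.I))
      (by rw [hn 0 le_rfl]; linarith))
  rcases le_or_gt t (φ x / 8) with hc | hc
  · have h1 := B6_small hlip h hx (z := ((x : ℂ) + t * Complex.I)) (by rw [hn t h0]; exact hc)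
    linarith
  · have h1 := B6_small hlip h hx (z := ((x : ℂ) + ((φ x / 8 : ℝ) : ℂ) * Complex.I))
      (by rw [hn _ (by linarith)])
    have h2 := (B6_anti hlip h hq hx) (show φ x / 8 ∈ Ioo 0 (φ x) from
      ⟨by linarith, by linarith⟩) (show t ∈ Ioo 0 (φ x) from ⟨by linarith, ht⟩) hc.le
    simp only at h2
    have ht0 : 0 < t := by linarith
    have h3 := h.pos _ (B6_vert hx ht0 ht) (by simpa using ht0)
    rw [abs_of_pos h3]
    have h4 : (F ((x : ℂ) + t * Complex.I)).im ≤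
        (F ((x : ℂ) + ((φ x / 8 : ℝ) : ℂ) * Complex.I)).im / (φ x / 8) ^ 2 * t ^ 2 := by
      rwa [div_le_iff₀ (by positivity)] at h2
    have h5 : (F ((x : ℂ) + ((φ x / 8 : ℝ) : ℂ) * Complex.I)).im ≤
        deriv (w : ℝ → ℝ) x * φ x := (le_abs_self _).trans h1
    have h6 : t ^ 2 ≤ φ x ^ 2 := by nlinarith
    have h7 : 0 ≤ t ^ 2 / (φ x / 8) ^ 2 := by positivity
    have h8 : t ^ 2 / (φ x / 8) ^ 2 ≤ 64 := by
      rw [div_le_iff₀ (by positivity)]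
      nlinarith
    calc (F ((x : ℂ) + t * Complex.I)).im
        ≤ (F ((x : ℂ) + ((φ x / 8 : ℝ) : ℂ) * Complex.I)).im * (t ^ 2 / (φ x / 8) ^ 2) := by
          refine h4.trans (le_of_eq ?_)
          ring
      _ ≤ (deriv (w : ℝ → ℝ) x * φ x) * (t ^ 2 / (φ x / 8) ^ 2) :=
          mul_le_mul_of_nonneg_right h5 h7
      _ ≤ (deriv (w : ℝ → ℝ) x * φ x) * 64 := mul_le_mul_of_nonneg_left h8 hb0
      _ = 64 * deriv (w : ℝ → ℝ) x * φ x := by ring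

theorem growth {φ : ℝ → ℝ} (hlip : ∀ x y, |φ x - φ y| ≤ |x - y|) {a : ℝ} {w : ℝ ≃o ℝ}
    {F : ℂ → ℂ} (h : GoodExt φ a w F)
    (hq : ∀ z ∈ Om φ a, 0 < z.im → ‖deriv F z‖ * z.im ≤ 2 * (F z).im) {z : ℂ}
    (hz : z ∈ Om φ a) : |(F z).im| ≤ 64 * deriv (w : ℝ → ℝ) z.re * φ z.re := by
  have hz2 := hz.2
  rcases le_or_gt 0 z.im with h0 | h0
  · rw [abs_of_nonneg h0] at hz2
    have h1 := B6_pos hlip h hq hz.1 h0 hz2
    rwa [Complex.re_add_im] at h1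
  · rw [abs_of_neg h0] at hz2
    have h1 := B6_pos hlip h hq hz.1 (by linarith : 0 ≤ -z.im) hz2
    have h2 : ((z.re : ℝ) : ℂ) + ((-z.im : ℝ) : ℂ) * Complex.I = (starRingEnd ℂ) z := by
      apply Complex.ext <;> simp
    rw [h2, h.conj z hz, Complex.conj_im, abs_neg] at h1
    exact h1

end Pool.Agent.H52.GS
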