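import Mathlib
import Pool.Agent.H52.GS.B6
import Pool.Agent.H52.GS.B4
import Pool.Agent.H52.GS.B2
import Pool.Agent.H52.GS.B0

/-!
# GS-B7: Claim A: all words of length `m + 1` are univalent over the graph

PROOF.  `strips` gives `σ ≤ 1`, `C`, `Fs s` for `s ∈ S`; `box_sum` gives `K` for `η = η3`.
Choose `ε0 > 0` with `20 ε0 ≤ 1`, `64 * 20 * ε0 < σ` and `C * 64^2 * K * 20 * ε0 ≤ log 2`
(or `exp` of it `≤ 2`).  Let `ε ≤ ε0`, `ε1 = 20 ε`.
Let `w ∈ BB S (m+1)`; `chain_word`: `n ≤ m + 1`, `v n = w`, `WChain S n v`.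
CLAIM: for all `j ≤ n` there is a sequence `F : ℕ → ℂ → ℂ` with, for all `i ≤ j`:
`GoodExt φ a (v i) (F i)` and for `z ∈ Om φ a`: `|Im F i z| ≤ 64 (v i)'(x) φ x`, `x = Re z`; and, for
`i < j`, `F (i+1) = Fs s_i ∘ F i` with `v (i+1) = s_i * v i`.  (Construct `F` once and for all by
recursion: `F 0 z = z + k 2 pi`, `F (i+1) = Fs s_i ∘ F i`, with `s : ℕ → ℝ ≃o ℝ` chosen from
`WChain.step`; then prove by strong induction on `j ≤ n`: `GoodExt φ a (v j) (F j)` and the bound.)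
For such `i`: `Uni (v i) x (φ x/2)` (`GoodExt.uni'`), so `(v i)'(x) φ x ≤ 20 ε = ε1` for
`x ∈ JJ φ a` by `thin31` and `hS`.
`j = 0`: `good_TT`; `|Im F 0 z| = |Im z| < φ x = (v 0)'(x) φ x` (`(v 0)' = 1`).
Step `j → j + 1 ≤ n` (so `j ≤ m`).  `|Im F j z| ≤ 64 ε1 < σ`, so `good_step` gives
`GoodExt φ a (v (j+1)) (F (j+1))`.  For `z ∈ Om φ a`, `0 < Im z`, iterating `good_quot` from
`‖F 0' z‖ Im z = Im F 0 z`:
`‖F (j+1)' z‖ Im z ≤ ∏_{i ≤ j} (1 + C (Im F i z)^2) Im F (j+1) z`, and the product is at most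
`exp (C ∑_{i ≤ j} (Im F i z)^2) ≤ exp (C 64^2 ∑_{i ≤ j} ((v i)'(x) φ x)^2) ≤ exp (C 64^2 K ε1) ≤ 2`:
here `box_sum` is applied with `n := j + 1` and `R = φ x`; its last hypothesis: for `i ≠ i' ≤ j ≤ m` the element
`f = (v i')⁻¹ * (TT^k * v i)` is in `FF S m` and `≠ 1` (`FF_mem`, `chain_ne`), so `¬ LL f x (φ x) η3`
by `hc`.  Now `growth` gives `|Im F (j+1) z| ≤ 64 (v (j+1))'(x) φ x`.
Conclusion at `j = n`: `GoodExt.uni'` and `thin31`.
-/

set_option autoImplicit false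
open Set Filter Topology MeasureTheory Metric

namespace Pool.Agent.H52.GS

/-- the extensions along the chain -/
noncomputable def B7_F (k0 : ℤ) (Fs : (ℝ ≃o ℝ) → ℂ → ℂ) (s : ℕ → ℝ ≃o ℝ) : ℕ → ℂ → ℂ
  | 0 => fun z => z + ((k0 * (2 * Real.pi) : ℝ) : ℂ)
  | j + 1 => Fs (s j) ∘ B7_F k0 Fs s j

theorem B7_prod (n : ℕ) (b : ℕ → ℝ) (hb : ∀ i, 0 ≤ b i) :
    ∏ l ∈ Finset.range n, (1 + b l) ≤ Real.exp (∑ l ∈ Finset.range n, b l) := by
  rw [Real.exp_sum]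
  refine Finset.prod_le_prod (fun l _ => by have := hb l; linarith) fun l _ => ?_
  have := Real.add_one_le_exp (b l)
  linarith

theorem B7_exp_half {t : ℝ} (ht : t ≤ 1 / 2) : Real.exp t ≤ 2 := by
  have h1 : Real.exp t ≤ Real.exp (1 / 2) := Real.exp_le_exp.2 ht
  have h2 : Real.exp (1 / 2) * Real.exp (1 / 2) = Real.exp 1 := by
    rw [← Real.exp_add]
    norm_num
  have h3 := Real.exp_one_lt_d9
  have h4 := Real.exp_pos (1 / 2 : ℝ)
  nlinarith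

theorem B7_deriv_TT (k : ℤ) (x : ℝ) : deriv ((TT ^ k : ℝ ≃o ℝ) : ℝ → ℝ) x = 1 := by
  have h1 : ((TT ^ k : ℝ ≃o ℝ) : ℝ → ℝ) = fun x => x + k * (2 * Real.pi) := by
    funext x
    exact TT_zpow k x
  rw [h1]
  exact ((hasDerivAt_id x).add_const _).deriv

theorem B7_chain {Γ : Subgroup (ℝ ≃o ℝ)} (h : Gp Γ) {S : Set (ℝ ≃o ℝ)}
    (hSΓ : S ⊆ Γ) (h1 : (1 : ℝ ≃o ℝ) ∈ S) {η3 σ C K ε1 : ℝ} (hC : 0 ≤ C)
    {Fs : (ℝ ≃o ℝ) → ℂ → ℂ} (hFs : ∀ s ∈ S, Strip s σ C (Fs s))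
    (hbox : ∀ (n : ℕ) (w : ℕ → ℝ ≃o ℝ)
      (x R ε1 : ℝ), 0 < n → 0 < R → ε1 ≤ 1 → (∀ i, i < n → w i ∈ Γ) →
      (∀ i, i < n → Uni (w i) x (R / 2)) →
      (∀ i, i < n → deriv (w i : ℝ → ℝ) x * R ≤ ε1) →
      (∀ i j, i < n → j < n → i ≠ j → ∀ k : ℤ, ¬ LL ((w j)⁻¹ * (TT ^ k * w i)) x R η3) →
      ∑ i ∈ Finset.range n, (deriv (w i : ℝ → ℝ) x * R) ^ 2 ≤ K * ε1)
    (he1 : ε1 ≤ 1) (he2 : 64 * ε1 < σ) (he3 : C * 64 ^ 2 * (K * ε1) ≤ 1 / 2)
    {φ : ℝ → ℝ} {a : ℝ} {m : ℕ} (hlip : ∀ x y, |φ x - φ y| ≤ |x - y|)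
    (hth : ∀ v ∈ Γ, ∀ x ∈ JJ φ a, Uni v x (φ x / 2) → deriv (v : ℝ → ℝ) x * φ x ≤ ε1)
    (hLL : ∀ f ∈ FF S m, f ≠ 1 → ∀ x ∈ JJ φ a, ¬ LL f x (φ x) η3)
    {n : ℕ} {v : ℕ → ℝ ≃o ℝ} (hnm : n ≤ m + 1) (hv : WChain S n v) {k0 : ℤ}
    (hk0 : v 0 = TT ^ k0) {s : ℕ → ℝ ≃o ℝ} (hs : ∀ j, j < n → s j ∈ S ∧ v (j + 1) = s j * v j)
    (j : ℕ) : j ≤ n → ∀ i, i ≤ j → GoodExt φ a (v i) (B7_F k0 Fs s i) ∧
      ∀ z ∈ Om φ a, |(B7_F k0 Fs s i z).im| ≤ 64 * deriv (v i : ℝ → ℝ) z.re * φ z.re := by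
  have hmem : ∀ i, i ≤ n → v i ∈ Γ := fun i hi => BB_sub h hSΓ i (hv.mem i hi)
  induction j with
  | zero =>
    intro _ i hi
    have hi0 : i = 0 := by omega
    subst hi0
    rw [hk0]
    refine ⟨good_TT φ a k0, ?_⟩
    intro z hz
    rw [B7_deriv_TT]
    have h2 : (B7_F k0 Fs s 0 z).im = z.im := by
      change (z + ((k0 * (2 * Real.pi) : ℝ) : ℂ)).im = z.im
      rw [Complex.add_im, Complex.ofReal_im, add_zero]
    rw [h2]
    have h3 := hz.2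
    have h4 := abs_nonneg z.im
    linarith
  | succ j ih =>
    intro hj
    have ih' := ih (by omega)
    -- the bound for the imaginary parts
    have hb : ∀ i, i ≤ j → ∀ z ∈ Om φ a, |(B7_F k0 Fs s i z).im| < σ := by
      intro i hi z hz
      have h2 := (ih' i hi).2 z hz
      have h3 := hth (v i) (hmem i (by omega)) z.re hz.1 ((ih' i hi).1.uni' hlip hz.1)
      have h4 : 64 * deriv (v i : ℝ → ℝ) z.re * φ z.re =
          64 * (deriv (v i : ℝ → ℝ) z.re * φ z.re) := by ring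
      rw [h4] at h2
      linarith
    have hG : GoodExt φ a (v (j + 1)) (B7_F k0 Fs s (j + 1)) := by
      rw [(hs j (by omega)).2]
      exact good_step (ih' j le_rfl).1 (hFs (s j) (hs j (by omega)).1) (hb j le_rfl)
    have hquot : ∀ z ∈ Om φ a, 0 < z.im →
        ‖deriv (B7_F k0 Fs s (j + 1)) z‖ * z.im ≤ 2 * (B7_F k0 Fs s (j + 1) z).im := by
      intro z hz hz0
      have hQ : ∀ i, i ≤ j + 1 → ‖deriv (B7_F k0 Fs s i) z‖ * z.im ≤
          (∏ l ∈ Finset.range i, (1 + C * (B7_F k0 Fs s l z).im ^ 2)) *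
            (B7_F k0 Fs s i z).im := by
        intro i
        induction i with
        | zero =>
          intro _
          rw [Finset.prod_range_zero, one_mul]
          have h2 : deriv (B7_F k0 Fs s 0) z = 1 :=
            ((hasDerivAt_id z).add_const ((k0 * (2 * Real.pi) : ℝ) : ℂ)).deriv
          have h3 : (B7_F k0 Fs s 0 z).im = z.im := by
            change (z + ((k0 * (2 * Real.pi) : ℝ) : ℂ)).im = z.im
            rw [Complex.add_im, Complex.ofReal_im, add_zero]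
          rw [h2, h3, norm_one, one_mul]
        | succ i ihi =>
          intro hi
          have h2 := ihi (by omega)
          rw [Finset.prod_range_succ]
          have hP : 0 ≤ ∏ l ∈ Finset.range i, (1 + C * (B7_F k0 Fs s l z).im ^ 2) :=
            Finset.prod_nonneg fun l _ => by positivity
          exact good_quot hlip hC hP (ih' i (by omega)).1 (hFs (s i) (hs i (by omega)).1)
            (hb i (by omega)) hz hz0 h2
      have h2 := hQ (j + 1) le_rfl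
      have hpos := hG.pos z hz hz0
      -- the sum
      have hsum := hbox (j + 1) v z.re (φ z.re) ε1 (Nat.succ_pos j) (JJ_pos hz.1) he1
        (fun i hi => hmem i (by omega))
        (fun i hi => (ih' i (by omega)).1.uni' hlip hz.1)
        (fun i hi => hth (v i) (hmem i (by omega)) z.re hz.1
          ((ih' i (by omega)).1.uni' hlip hz.1))
        (fun i i' hi hi' hii k => hLL _
          (FF_mem h hSΓ h1 hv (by omega) (by omega) (by omega) (by omega) k)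
          (chain_ne h hSΓ hv (by omega) (by omega) hii k) z.re hz.1)
      have h3 : ∑ l ∈ Finset.range (j + 1), C * (B7_F k0 Fs s l z).im ^ 2 ≤
          C * 64 ^ 2 * (K * ε1) := by
        have h4 : ∑ l ∈ Finset.range (j + 1), C * (B7_F k0 Fs s l z).im ^ 2 ≤
            ∑ l ∈ Finset.range (j + 1),
              C * 64 ^ 2 * (deriv (v l : ℝ → ℝ) z.re * φ z.re) ^ 2 := by
          refine Finset.sum_le_sum fun l hl => ?_
          have hl' := Finset.mem_range.1 hl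
          have h5 := (ih' l (by omega)).2 z hz
          have h6 : (B7_F k0 Fs s l z).im ^ 2 ≤
              (64 * deriv (v l : ℝ → ℝ) z.re * φ z.re) ^ 2 := by
            rw [← sq_abs (B7_F k0 Fs s l z).im]
            exact pow_le_pow_left₀ (abs_nonneg _) h5 2
          calc C * (B7_F k0 Fs s l z).im ^ 2
              ≤ C * (64 * deriv (v l : ℝ → ℝ) z.re * φ z.re) ^ 2 :=
                mul_le_mul_of_nonneg_left h6 hC
            _ = C * 64 ^ 2 * (deriv (v l : ℝ → ℝ) z.re * φ z.re) ^ 2 := by ring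
        refine h4.trans ?_
        rw [← Finset.mul_sum]
        exact mul_le_mul_of_nonneg_left hsum (by positivity)
      have h4 : ∏ l ∈ Finset.range (j + 1), (1 + C * (B7_F k0 Fs s l z).im ^ 2) ≤ 2 :=
        (B7_prod (j + 1) (fun l => C * (B7_F k0 Fs s l z).im ^ 2)
          (fun l => by positivity)).trans (B7_exp_half (h3.trans he3))
      exact h2.trans (mul_le_mul_of_nonneg_right h4 hpos.le)
    intro i hi
    rcases Nat.lt_or_ge j i with hji | hji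
    · have hi1 : i = j + 1 := by omega
      subst hi1
      exact ⟨hG, fun z hz => growth hlip hG hquot hz⟩
    · exact ih' i hji

theorem claimA {Γ : Subgroup (ℝ ≃o ℝ)} (h : Gp Γ) {S : Set (ℝ ≃o ℝ)} (hSf : S.Finite)
    (hSΓ : S ⊆ Γ) (h1 : (1 : ℝ ≃o ℝ) ∈ S) {η3 : ℝ} (hη : 0 < η3) (hη1 : η3 ≤ 1 / 100) :
    ∃ ε0 : ℝ, 0 < ε0 ∧ ∀ (ε re c : ℝ), 0 < ε → ε ≤ ε0 → 0 < c → c ≤ 1 / 1000 →
      ∀ (φ : ℝ → ℝ) (a : ℝ) (m : ℕ), (∀ x y, |φ x - φ y| ≤ |x - y|) →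
      (∀ x ∈ JJ φ a, SS Γ (XX Γ ε re) c re a x (φ x)) →
      (∀ f ∈ FF S m, f ≠ 1 → ∀ x ∈ JJ φ a, ¬ LL f x (φ x) η3) →
      ∀ w ∈ BB S (m + 1), ∀ x ∈ JJ φ a,
        Uni w x (φ x / 2) ∧ deriv (w : ℝ → ℝ) x * φ x ≤ 20 * ε := by
  obtain ⟨σ, hσ0, hσ1, C, hC, Fs, hFs⟩ := strips h hSf hSΓ
  obtain ⟨K, hK, hbox⟩ := box_sum hη hη1
  obtain ⟨D, hD⟩ : ∃ D, D = C * 64 ^ 2 * K * 20 := ⟨_, rfl⟩
  have hD0 : 0 ≤ D := by rw [hD]; positivity
  refine ⟨min (min (1 / 20) (σ / 2560)) (1 / (2 * (D + 1))), ?_, ?_⟩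
  · exact lt_min (lt_min (by norm_num) (by positivity)) (by positivity)
  intro ε re c hε hε0 hc0 hc φ a m hlip hS hLL w hw x hx
  have e1 : ε ≤ 1 / 20 := hε0.trans ((min_le_left _ _).trans (min_le_left _ _))
  have e2 : ε ≤ σ / 2560 := hε0.trans ((min_le_left _ _).trans (min_le_right _ _))
  have e3 : ε ≤ 1 / (2 * (D + 1)) := hε0.trans (min_le_right _ _)
  have e4 : C * 64 ^ 2 * (K * (20 * ε)) ≤ 1 / 2 := by
    have e5 : C * 64 ^ 2 * (K * (20 * ε)) = D * ε := by rw [hD]; ring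
    rw [e5]
    rw [le_div_iff₀ (by positivity)] at e3
    nlinarith
  obtain ⟨n, hn, v, hvn, hv⟩ := chain_word hw
  obtain ⟨k0, hk0⟩ := hv.zero
  have hex : ∀ j, ∃ s : ℝ ≃o ℝ, j < n → s ∈ S ∧ v (j + 1) = s * v j := by
    intro j
    by_cases hj : j < n
    · obtain ⟨s, hs, hs'⟩ := hv.step j hj
      exact ⟨s, fun _ => ⟨hs, hs'⟩⟩
    · exact ⟨1, fun h => absurd h hj⟩
  choose s hs using hex
  have hth : ∀ v ∈ Γ, ∀ x ∈ JJ φ a, Uni v x (φ x / 2) → deriv (v : ℝ → ℝ) x * φ x ≤ 20 * ε :=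
    fun v hv x hx hU => thin31 hc0 hc (JJ_pos hx) (hS x hx) hv hU
  have key := B7_chain h hSΓ h1 hC hFs (hbox Γ h) (ε1 := 20 * ε) (by linarith) (by linarith) e4
    hlip hth hLL hn hv hk0 hs n le_rfl n le_rfl
  rw [hvn] at key
  have hU := key.1.uni' hlip hx
  exact ⟨hU, hth w (BB_sub h hSΓ _ hw) x hx hU⟩

end Pool.Agent.H52.GS
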