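import Mathlib
import Pool.Agent.H52.GS.O2

/-!
# GS-C1: comparison of commuting elements

PROOF of `ord_core`.  `f g = g f`, `x < g x`, `x ≤ f x`, `f (f x) < g x`.

CASE 1: `g` has no fixed point.  Then `y < g y` for all `y` (IVT and `x < g x`).
(a) Suppose `g y ≤ f y` for some `y`.  Since `f x ≤ f (f x) < g x`, the IVT gives `z` with
`f z = g z`.  By commutation `f (f z) = f (g z) = g (f z) = g (g z)`.  Take `k` with
`(g^k) z ≤ x < (g^(k+1)) z` (`arch`).  Then
`(g^(k+2)) z = g^k (f (f z)) = f (f ((g^k) z)) ≤ f (f x) < g x < g ((g^(k+1)) z) = (g^(k+2)) z`,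
a contradiction.
(b) Suppose `f y ≤ g⁻¹ y` for some `y`.  Since `g⁻¹ x < x ≤ f x`, the IVT gives `z` with
`f z = g⁻¹ z`.  Take `k` with `(g^k) z ≤ x < (g^(k+1)) z`.  Then
`x ≤ f x < f ((g^(k+1)) z) = (g^(k+1)) (f z) = (g^(k+1)) (g⁻¹ z) = (g^k) z ≤ x`, a contradiction.
So `g⁻¹ y < f y < g y` for all `y` (and `g y ≤ y` never happens), which is `Le f g`.

CASE 2: `g` has a fixed point.  `Fix g` is closed and invariant under `y ↦ y + 2 pi` (`h.comm`), so
there are fixed points of `g` above `x`; let `zp` be the smallest fixed point of `g` which is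
`≥ x` (`zp = sInf {z | x ≤ z ∧ g z = z}`, closed set); `x < zp`.  For `x ≤ y < zp` we have
`y < g y` (IVT, no fixed point in `[x, zp)`), and `g y < g zp = zp`.
`f zp = zp`: `g (f zp) = f (g zp) = f zp`, so `f zp` is a fixed point of `g`, `f zp ≥ f x ≥ x`, so
`zp ≤ f zp`.  If `zp < f zp` then `w = f⁻¹ zp < zp` is a fixed point of `g` too (`g` commutes with
`f⁻¹`), and `f x ≤ f (f x) < g x < zp` gives `x < f⁻¹ zp = w`; so `w` is a fixed point of `g` in
`(x, zp)`, a contradiction.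
By `h.stab zp` there is `s ∈ Γ`, `s zp = zp`, `f = s^i`, `g = s^j`.  Replacing `s` by `s⁻¹` (and
`i, j` by `-i, -j`) we may assume `x ≤ s x`; `s x ≠ x` since `g x ≠ x` (`fixed_zpow`).  By `zpow_lt`
the map `k ↦ (s^k) x` is strictly increasing: `x < g x` gives `0 < j`; `x ≤ f x` gives `0 ≤ i`;
`f (f x) = (s^(2i)) x < g x = (s^j) x` gives `2 i < j`.  So `0 ≤ i ≤ j` and `le_zpow` gives
`Le f g`.
-/

set_option autoImplicit false
open Set Filter Topology MeasureTheory Metric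

namespace Pool.Agent.H52.GS

theorem c1_ivt {φ : ℝ → ℝ} (hφ : Continuous φ) {a b : ℝ} (ha : φ a ≤ 0) (hb : 0 ≤ φ b) :
    ∃ z, φ z = 0 :=
  mem_range_of_exists_le_of_exists_ge hφ ⟨a, ha⟩ ⟨b, hb⟩

theorem c1_succ (g : ℝ ≃o ℝ) (k : ℤ) (y : ℝ) : (g ^ (k + 1)) y = (g ^ k) (g y) := by
  rw [zpow_add_one, RelIso.mul_apply]

theorem c1_succ' (g : ℝ ≃o ℝ) (k : ℤ) (y : ℝ) : (g ^ (k + 1)) y = g ((g ^ k) y) := by
  rw [add_comm, zpow_one_add, RelIso.mul_apply]

theorem c1_comm {f g : ℝ ≃o ℝ} (hfg : f * g = g * f) (k : ℤ) (y : ℝ) :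
    f ((g ^ k) y) = (g ^ k) (f y) := by
  have hc : Commute f g := hfg
  have h1 := congrArg (fun e : ℝ ≃o ℝ => e y) (hc.zpow_right k).eq
  simp only [RelIso.mul_apply] at h1
  exact h1

theorem c1_case1 {f g : ℝ ≃o ℝ} (hfg : f * g = g * f) (hup : ∀ y, y < g y) {x : ℝ}
    (h2 : x ≤ f x) (h3 : f (f x) < g x) : Le f g := by
  have hc1 : ∀ y, f (g y) = g (f y) := fun y => by
    have h := c1_comm hfg 1 y
    simpa using h
  have hfx : f x < g x := lt_of_le_of_lt (f.monotone h2) h3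
  have hA : ∀ y, f y < g y := by
    intro y
    by_contra hcon
    push Not at hcon
    obtain ⟨z, hz⟩ := c1_ivt (φ := fun t => f t - g t) (f.continuous.sub g.continuous)
      (a := x) (b := y) (by linarith) (by linarith)
    have hz' : f z = g z := by linarith
    have hff : f (f z) = g (g z) := by rw [hz', hc1, hz']
    obtain ⟨k, hk1, hk2⟩ := arch hup z x
    have h4 : f (f ((g ^ k) z)) = g ((g ^ (k + 1)) z) := by
      rw [c1_comm hfg, c1_comm hfg, hff, ← c1_succ, ← c1_succ, ← c1_succ']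
    have h5 : f (f ((g ^ k) z)) ≤ f (f x) := f.monotone (f.monotone hk1)
    have h6 : g x < g ((g ^ (k + 1)) z) := g.strictMono hk2
    rw [h4] at h5
    linarith
  have hB : ∀ y, (g⁻¹ : ℝ ≃o ℝ) y < f y := by
    intro y
    by_contra hcon
    push Not at hcon
    have hgx : (g⁻¹ : ℝ ≃o ℝ) x < x := by
      have h := hup ((g⁻¹ : ℝ ≃o ℝ) x)
      rwa [RelIso.apply_inv_self] at h
    obtain ⟨z, hz⟩ := c1_ivt (φ := fun t => f t - (g⁻¹ : ℝ ≃o ℝ) t)
      (f.continuous.sub (g⁻¹ : ℝ ≃o ℝ).continuous) (a := y) (b := x) (by linarith) (by linarith)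
    have hz' : f z = (g⁻¹ : ℝ ≃o ℝ) z := by linarith
    obtain ⟨k, hk1, hk2⟩ := arch hup z x
    have h4 : f ((g ^ (k + 1)) z) = (g ^ k) z := by
      rw [c1_comm hfg, hz', c1_succ, RelIso.apply_inv_self]
    have h5 : f x < f ((g ^ (k + 1)) z) := f.strictMono hk2
    rw [h4] at h5
    linarith
  refine ⟨fun y _ => ⟨(hB y).le, (hA y).le⟩, fun y hy => ?_⟩
  exact absurd (hup y) (not_lt.2 hy)

theorem c1_zpow {s : ℝ ≃o ℝ} {i j : ℤ} {x : ℝ} (hs : x < s x) (h1 : x < (s ^ j) x)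
    (h2 : x ≤ (s ^ i) x) (h3 : (s ^ i) ((s ^ i) x) < (s ^ j) x) : Le (s ^ i) (s ^ j) := by
  have hm := zpow_lt hs
  have e0 : (s ^ (0 : ℤ)) x = x := by rw [zpow_zero]; rfl
  have hi : 0 ≤ i := by
    have h4 : (s ^ (0 : ℤ)) x ≤ (s ^ i) x := by rw [e0]; exact h2
    exact hm.le_iff_le.1 h4
  have hij : i + i < j := by
    have h4 : (s ^ (i + i)) x < (s ^ j) x := by
      rw [zpow_add, RelIso.mul_apply]
      exact h3
    exact hm.lt_iff_lt.1 h4
  exact le_zpow hi (by omega)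

theorem c1_fix {Γ : Subgroup (ℝ ≃o ℝ)} (h : Gp Γ) {g : ℝ ≃o ℝ} (hg : g ∈ Γ) {x z0 : ℝ}
    (hz0 : g z0 = z0) : ∃ zp, x ≤ zp ∧ g zp = zp ∧ ∀ z, x ≤ z → g z = z → zp ≤ z := by
  set S : Set ℝ := {z | x ≤ z ∧ g z = z} with hS
  have hcl : IsClosed S := by
    have h1 : IsClosed {z : ℝ | x ≤ z} := isClosed_le continuous_const continuous_id
    have h2 : IsClosed {z : ℝ | g z = z} := isClosed_eq g.continuous continuous_id
    exact h1.inter h2
  have hbd : BddBelow S := ⟨x, fun z hz => hz.1⟩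
  have hne : S.Nonempty := by
    obtain ⟨m, hm⟩ := exists_nat_ge ((x - z0) / (2 * Real.pi))
    have hp : 0 < 2 * Real.pi := Real.two_pi_pos
    rw [div_le_iff₀ hp] at hm
    refine ⟨z0 + ((m : ℤ) : ℝ) * (2 * Real.pi), ?_, ?_⟩
    · push_cast
      linarith
    · rw [per_int h hg, hz0]
  have hmem : sInf S ∈ S := hcl.csInf_mem hne hbd
  exact ⟨sInf S, hmem.1, hmem.2, fun z hz hz' => csInf_le hbd ⟨hz, hz'⟩⟩

theorem ord_core {Γ : Subgroup (ℝ ≃o ℝ)} (h : Gp Γ) {f g : ℝ ≃o ℝ} (hf : f ∈ Γ) (hg : g ∈ Γ)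
    (hfg : f * g = g * f) {x : ℝ} (h1 : x < g x) (h2 : x ≤ f x) (h3 : f (f x) < g x) :
    Le f g := by
  have hc1 : ∀ y, f (g y) = g (f y) := fun y => by
    have h := c1_comm hfg 1 y
    simpa using h
  by_cases hfix : ∃ z0, g z0 = z0
  · obtain ⟨z0, hz0⟩ := hfix
    obtain ⟨zp, hx, hgz, hmin⟩ := c1_fix h hg (x := x) hz0
    have hxz : x < zp := by
      rcases hx.eq_or_lt with h4 | h4
      · rw [← h4] at hgz
        linarith
      · exact h4
    have hffx : f x ≤ f (f x) := f.monotone h2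
    have hgxz : g x < zp := by
      have h4 := g.strictMono hxz
      rwa [hgz] at h4
    have hfz : f zp = zp := by
      have h4 : g (f zp) = f zp := by rw [← hc1, hgz]
      have h5 : zp ≤ f zp := hmin _ (h2.trans (f.monotone hx)) h4
      rcases h5.eq_or_lt with h6 | h6
      · exact h6.symm
      · exfalso
        set w : ℝ := (f⁻¹ : ℝ ≃o ℝ) zp with hw
        have hfw : f w = zp := RelIso.apply_inv_self f zp
        have hwz : w < zp := by
          rw [← f.lt_iff_lt, hfw]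
          exact h6
        have hxw : x < w := by
          rw [← f.lt_iff_lt, hfw]
          linarith
        have hgw : g w = w := by
          apply f.injective
          rw [hc1, hfw, hgz]
        have h7 := hmin w hxw.le hgw
        linarith
    obtain ⟨s, hs, hsz, hgen⟩ := h.stab zp
    obtain ⟨i, hi⟩ := hgen f hf hfz
    obtain ⟨j, hj⟩ := hgen g hg hgz
    rcases lt_trichotomy (s x) x with h4 | h4 | h4
    · have h5 : x < s⁻¹ x := by
        have h6 := (s⁻¹ : ℝ ≃o ℝ).strictMono h4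
        rwa [RelIso.inv_apply_self] at h6
      have hi' : f = s⁻¹ ^ (-i) := by rw [hi, inv_zpow, zpow_neg, inv_inv]
      have hj' : g = s⁻¹ ^ (-j) := by rw [hj, inv_zpow, zpow_neg, inv_inv]
      rw [hi', hj'] at h3
      rw [hj'] at h1
      rw [hi'] at h2
      rw [hi', hj']
      exact c1_zpow h5 h1 h2 h3
    · exfalso
      have h5 := fixed_zpow j h4
      rw [← hj] at h5
      linarith
    · rw [hi, hj] at h3
      rw [hj] at h1
      rw [hi] at h2
      rw [hi, hj]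
      exact c1_zpow h4 h1 h2 h3
  · push Not at hfix
    have hup : ∀ y, y < g y := by
      intro y
      by_contra hcon
      push Not at hcon
      obtain ⟨z, hz⟩ := c1_ivt (φ := fun t => g t - t) (g.continuous.sub continuous_id)
        (a := y) (b := x) (by linarith) (by linarith)
      exact hfix z (by linarith)
    exact c1_case1 hfg hup h2 h3

end Pool.Agent.H52.GS
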