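import Mathlib
import Pool.Agent.H52.GS.C1

/-!
# GS-C2: the dichotomy

PROOF.  Since `f ≠ 1` there is `t` with `f t ≠ t`.  Both `Le` relations are invariant under
replacing `f` by `f⁻¹` and `g` by `g⁻¹` (`Le.invl`, `Le.invr`, `inv_pow`; inverses of commuting
elements commute).  So we may assume `t < f t` and `t ≤ g t`.  Then `t ≤ (g^n) t` for all `n`.
CASE 1: `(g^(2 N)) t < f t`.  Apply `ord_core` to the pair `(g^N, f)` at `x = t`:
`t < f t`, `t ≤ (g^N) t`, `(g^N) ((g^N) t) = (g^(2N)) t < f t`.  So `Le (g^N) f`.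
CASE 2: `f t ≤ (g^(2 N)) t`.  Then `t < (g^(2N)) t`, hence `t < g t` (otherwise `g t = t` and
`(g^(2N)) t = t`).  `f (f t) ≤ f ((g^(2N)) t) = (g^(2N)) (f t) ≤ (g^(2N)) ((g^(2N)) t)
= (g^(4N)) t < (g^(4N)) (g t) = (g^(4N+1)) t`, and `t < (g^(4N+1)) t`, `t ≤ f t`.  `ord_core` for
the pair `(f, g^(4N+1))` at `x = t` gives `Le f (g^(4N+1))`.
-/

set_option autoImplicit false
open Set Filter Topology MeasureTheory Metric

namespace Pool.Agent.H52.GS

theorem c2_pow_add (g : ℝ ≃o ℝ) (m n : ℕ) (y : ℝ) : (g ^ (m + n)) y = (g ^ m) ((g ^ n) y) := by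
  rw [pow_add, RelIso.mul_apply]

/-- the case `t < f t`, `t ≤ g t` -/
theorem c2_core {Γ : Subgroup (ℝ ≃o ℝ)} (h : Gp Γ) {f g : ℝ ≃o ℝ} (hf : f ∈ Γ) (hg : g ∈ Γ)
    (hfg : f * g = g * f) (N : ℕ) {t : ℝ} (h1 : t < f t) (h2 : t ≤ g t) :
    Le (g ^ N) f ∨ Le f (g ^ (4 * N + 1)) := by
  have hc : ∀ n : ℕ, g ^ n * f = f * g ^ n := fun n =>
    ((show Commute f g from hfg).pow_right n).symm.eq
  rcases lt_or_ge ((g ^ (2 * N)) t) (f t) with h3 | h3
  · left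
    refine ord_core h (Γ.pow_mem hg N) hf (hc N) h1 (o2_up h2 N) ?_
    rw [← c2_pow_add, ← two_mul]
    exact h3
  · right
    have h4 : t < g t := by
      by_contra h5
      have h6 := o2_down (not_lt.1 h5) (2 * N)
      linarith
    have h7 : (g ^ (4 * N)) t < (g ^ (4 * N + 1)) t := by
      rw [c2_pow_add, pow_one]
      exact (g ^ (4 * N)).strictMono h4
    have h8 : t ≤ (g ^ (4 * N)) t := o2_up h2 _
    refine ord_core h hf (Γ.pow_mem hg _) (hc _).symm (h8.trans_lt h7) h1.le ?_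
    refine lt_of_le_of_lt ?_ h7
    have e1 : f ((g ^ (2 * N)) t) = (g ^ (2 * N)) (f t) := by
      rw [← RelIso.mul_apply, ← hc, RelIso.mul_apply]
    calc f (f t) ≤ f ((g ^ (2 * N)) t) := f.monotone h3
      _ = (g ^ (2 * N)) (f t) := e1
      _ ≤ (g ^ (2 * N)) ((g ^ (2 * N)) t) := (g ^ (2 * N)).monotone h3
      _ = (g ^ (4 * N)) t := by
          rw [← c2_pow_add]
          congr 2
          ring

/-- the case `t < f t` -/
theorem c2_half {Γ : Subgroup (ℝ ≃o ℝ)} (h : Gp Γ) {f g : ℝ ≃o ℝ} (hf : f ∈ Γ) (hg : g ∈ Γ)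
    (hfg : f * g = g * f) (N : ℕ) {t : ℝ} (h1 : t < f t) :
    Le (g ^ N) f ∨ Le f (g ^ (4 * N + 1)) := by
  rcases le_total t (g t) with h2 | h2
  · exact c2_core h hf hg hfg N h1 h2
  · have hc : f * g⁻¹ = g⁻¹ * f := ((show Commute f g from hfg).inv_right).eq
    rcases c2_core h hf (Γ.inv_mem hg) hc N h1 (o2_le_inv.2 h2) with h3 | h3
    · left
      rw [inv_pow] at h3
      have h4 := h3.invl
      rwa [inv_inv] at h4
    · right
      rw [inv_pow] at h3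
      have h4 := h3.invr
      rwa [inv_inv] at h4

theorem dich {Γ : Subgroup (ℝ ≃o ℝ)} (h : Gp Γ) {f g : ℝ ≃o ℝ} (hf : f ∈ Γ) (hg : g ∈ Γ)
    (hfg : f * g = g * f) (hf1 : f ≠ 1) (N : ℕ) : Le (g ^ N) f ∨ Le f (g ^ (4 * N + 1)) := by
  obtain ⟨t, ht⟩ : ∃ t, f t ≠ t := by
    by_contra hn
    push Not at hn
    exact hf1 (RelIso.ext fun y => hn y)
  rcases lt_or_gt_of_ne ht with h1 | h1
  · have h2 : t < (f⁻¹ : ℝ ≃o ℝ) t := by
      have h3 := (f⁻¹ : ℝ ≃o ℝ).strictMono h1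
      rwa [RelIso.inv_apply_self] at h3
    have hc : f⁻¹ * g = g * f⁻¹ := ((show Commute f g from hfg).inv_left).eq
    rcases c2_half h (Γ.inv_mem hf) hg hc N h2 with h3 | h3
    · left
      have h4 := h3.invr
      rwa [inv_inv] at h4
    · right
      have h4 := h3.invl
      rwa [inv_inv] at h4
  · exact c2_half h hf hg hfg N h1

end Pool.Agent.H52.GS
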