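import Mathlib
import Pool.Agent.H52.GS.Def

/-!
# GS-FDef: constants and stages

The Margulis constants give only that the squares of small relative elements commute (`com`); the
parameter `ηM` is the thickness constant.
-/

set_option autoImplicit false
open Set Filter Topology MeasureTheory Metric

namespace Pool.Agent.H52.GS

/-- the constants of the construction -/
structure Env where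
  c : ℝ
  η1 : ℝ
  ηp : ℝ
  ηd : ℝ
  κ : ℝ
  η2 : ℝ
  η3 : ℝ
  N1 : ℕ
  N2 : ℕ

/-- `ψ` is `1/10000`-Lipschitz, positive on the interval between `x` and `x'`, and `f` is relative at
all points of it at scale `ψ` -/
def Along (Γ : Subgroup (ℝ ≃o ℝ)) (f : ℝ ≃o ℝ) (ψ : ℝ → ℝ) (x x' : ℝ) : Prop :=
  (∀ p ∈ uIcc x x', ∀ q ∈ uIcc x x', |ψ p - ψ q| ≤ |p - q| / 10000) ∧
    ∀ z ∈ uIcc x x', 0 < ψ z ∧ Rel Γ f z (ψ z)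

/-- the properties of the constants -/
structure Cst (Γ : Subgroup (ℝ ≃o ℝ)) (ηM : ℝ) (e : Env) : Prop where
  c0 : 0 < e.c
  c1 : e.c ≤ 1 / 1000000
  κ0 : 0 < e.κ
  κ1 : e.κ ≤ e.c
  η0 : 0 < e.η3
  h32 : e.η3 ≤ e.η2
  h2d : e.η2 ≤ e.ηd
  hdp : e.ηd ≤ e.ηp
  hp1 : e.ηp ≤ e.η1
  h1c : e.η1 ≤ e.c ^ 2
  num1 : (8 * (e.N1 : ℝ) + 2) * e.η3 ≤ 1 / 16
  num2 : (8 * (e.N2 : ℝ) + 2) * e.η2 ≤ e.c * e.κ / 100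
  num3 : 1 ≤ e.N1 ∧ 1 ≤ e.N2
  com : ∀ (f g : ℝ ≃o ℝ) (x r : ℝ), 0 < r → r ≤ 1 → Rel Γ f x r → Rel Γ g x r →
    LL f x r (2 * e.c) → LL g x r (2 * e.c) → f ^ 2 * g ^ 2 = g ^ 2 * f ^ 2
  der : ∀ (f : ℝ ≃o ℝ) (x r : ℝ), 0 < r → Rel Γ f x r → LL f x r e.η1 →
    ∀ y, |y - x| ≤ r / 16 → DifferentiableAt ℝ (f : ℝ → ℝ) y ∧
      |deriv (f : ℝ → ℝ) y - 1| ≤ e.c / 4
  thk : ∀ (f : ℝ ≃o ℝ) (x r : ℝ), 0 < r → Rel Γ f x r → LL f x r e.η1 →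
    NI f x (r / 128) (ηM * r / 4096)
  swp : ∀ (f : ℝ ≃o ℝ) (x r : ℝ), 0 < r → Rel Γ f x r → LL f x r e.η1 →
    NI f x (r / 128) (e.c * r / 1000000)
  loc : ∀ (f : ℝ ≃o ℝ) (x r : ℝ), 0 < r → Rel Γ f x r → LL f x r e.ηp →
    ∀ y, |y - x| ≤ 3 * r / 16 → Mv f y (e.η1 * r / 2)
  sg1 : ∀ (f g : ℝ ≃o ℝ) (x r : ℝ), 0 < r → Rel Γ f x r → LL g x r (2 * e.c) →
    Le ((f ^ 2) ^ e.N1) (g ^ 2) → LL f x r e.ηp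
  sg2 : ∀ (f g : ℝ ≃o ℝ) (x r : ℝ), 0 < r → Rel Γ f x r → LL g x r e.η1 →
    Le ((f ^ 2) ^ e.N1) (g ^ 2) → LL f x r e.ηd
  sg3 : ∀ (f g : ℝ ≃o ℝ) (x r : ℝ), 0 < r → Rel Γ f x r → LL g x r e.η1 →
    Le ((f ^ 2) ^ e.N2) (g ^ 2) → LL f x r e.ηd
  gl : ∀ (f g : ℝ ≃o ℝ) (x r : ℝ), 0 < r → Rel Γ f x r → Rel Γ g x r → LL g x r e.η3 →
    Le ((f ^ 2) ^ e.N2) (g ^ 2) → LL f x r e.η3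
  ch1 : ∀ (f : ℝ ≃o ℝ) (ψ : ℝ → ℝ) (x x' : ℝ), Along Γ f ψ x x' → |x - x'| ≤ 101 * ψ x →
    LL f x (ψ x) e.ηd → LL f x' (ψ x') e.ηp
  ch2 : ∀ (f : ℝ ≃o ℝ) (ψ : ℝ → ℝ) (x x' : ℝ), Along Γ f ψ x x' → |x - x'| ≤ 101 * ψ x →
    LL f x (ψ x) (2 * e.κ) → LL f x' (ψ x') e.ηp
  x1 : ∀ (f : ℝ ≃o ℝ) (x r : ℝ), 0 < r → Rel Γ f x r →
    (∀ y, |y - x| ≤ r / 16 → Mv f y ((8 * (e.N1 : ℝ) + 2) * e.η3 * r)) → LL f x r e.η2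
  x2 : ∀ (f : ℝ ≃o ℝ) (ψ : ℝ → ℝ) (x x' : ℝ), Along Γ f ψ x x' → |x - x'| ≤ 2 * ψ x →
    (∀ y, |y - x| ≤ e.κ * ψ x / 16 → Mv f y ((8 * (e.N2 : ℝ) + 2) * e.η2 * ψ x)) →
    Mv f x' (e.κ * ψ x' / 3)

/-- the geometry: interval `(α, β)`, thick point `a`, the set `X` -/
structure Geo (Γ : Subgroup (ℝ ≃o ℝ)) (ηM : ℝ) (e : Env) (α β a re : ℝ) (X : Set ℝ) :
    Prop where
  hα : α < a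
  hβ : a < β
  ph1 : ∀ x, ph0 α β x ≤ 1
  phre : ∀ x, ph0 α β x ≤ re
  thick : ∃ ρ : ℝ, 0 < ρ ∧ 128 * ρ ≤ ph0 α β a ∧ ph0 α β a ≤ 1024 * ρ ∧
    ∀ f ∈ Γ, f ≠ 1 → ¬ NI f a ρ (ηM * ρ / 2)
  near : ∀ x ∈ Ioo α β, (∃ y ∈ X, x ≤ y ∧ y ≤ x + e.c * e.κ * ph0 α β x) ∧
    ∃ y ∈ X, y ≤ x ∧ x - e.c * e.κ * ph0 α β x ≤ y

/-- a stage of the construction, for the family `fam` -/
structure Stage (Γ : Subgroup (ℝ ≃o ℝ)) (e : Env) (α β a re : ℝ) (X : Set ℝ)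
    (fam : Set (ℝ ≃o ℝ)) (φ : ℝ → ℝ) (V : Set (ℝ ≃o ℝ)) : Prop where
  lip : ∀ x y, |φ x - φ y| ≤ |x - y|
  nn : ∀ x, 0 ≤ φ x
  le : ∀ x, φ x ≤ ph0 α β x
  nr : ∀ x, |x - a| ≤ 2 * ph0 α β a → φ x = ph0 α β x
  sub : V ⊆ fam
  b : ∀ x ∈ JJ φ a, SS Γ X e.c re a x (φ x)
  cc : ∀ f ∈ fam, f ≠ 1 → ∀ x ∈ JJ φ a, ¬ LL f x (φ x) e.η3
  d : ∀ f ∈ V, ∀ x ∈ JJ φ a, ¬ LL f x (φ x) e.η2
  e : ∀ x ∈ JJ φ a, φ x < ph0 α β x → ∃ f ∈ V, LL f x (φ x) (2 * e.c) ∧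
    ∀ x' ∈ JJ φ a, |x' - x| ≤ 4 * ph0 α β x → φ x' = ph0 α β x' →
      LL f x' (ph0 α β x') e.η1

/-- the hypotheses of the step -/
structure StepH (Γ : Subgroup (ℝ ≃o ℝ)) (ηM : ℝ) (e : Env) (α β a re : ℝ) (X : Set ℝ)
    (fam fam' : Set (ℝ ≃o ℝ)) (φ : ℝ → ℝ) (V : Set (ℝ ≃o ℝ)) : Prop where
  gp : Gp Γ
  cst : Cst Γ ηM e
  geo : Geo Γ ηM e α β a re X
  st : Stage Γ e α β a re X fam φ V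
  sub' : fam ⊆ fam'
  gam : fam' ⊆ Γ
  rel : ∀ f ∈ fam', ∀ x ∈ JJ φ a, Rel Γ f x (φ x)

/-- the new small elements -/
def VS (e : Env) (a : ℝ) (fam' : Set (ℝ ≃o ℝ)) (φ : ℝ → ℝ) : Set (ℝ ≃o ℝ) :=
  {g | g ∈ fam' ∧ g ≠ 1 ∧ ∃ x1 ∈ JJ φ a, LL g x1 (φ x1) e.η3}

/-- a good end of a core -/
def OKe (e : Env) (α β a : ℝ) (φ : ℝ → ℝ) (g : ℝ ≃o ℝ) (p : ℝ) : Prop :=
  e.κ * ph0 α β p / 2 ≤ |g p - p| ∧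
    ∀ z, |z - p| ≤ 11 / 2 * ph0 α β p → z ∈ JJ φ a ∧ φ z = ph0 α β z

/-- `[lo, hi]` is a core of `g` -/
def Core (e : Env) (α β a : ℝ) (φ : ℝ → ℝ) (g : ℝ ≃o ℝ) (lo hi : ℝ) : Prop :=
  (lo ∈ JJ φ a → OKe e α β a φ g lo) ∧ (hi ∈ JJ φ a → OKe e α β a φ g hi) ∧
    ∀ k, lo ≤ k → k ≤ hi → k ∈ JJ φ a → ∀ y ∈ JJ φ a, |y - k| ≤ 11 / 2 * ph0 α β k →
      LL g y (φ y) e.η1

/-- `y` is a core point of `g` -/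
def CP (e : Env) (α β a : ℝ) (fam' : Set (ℝ ≃o ℝ)) (φ : ℝ → ℝ) (g : ℝ ≃o ℝ) (y : ℝ) : Prop :=
  g ∈ VS e a fam' φ ∧ y ∈ JJ φ a ∧ ∃ lo hi, lo ≤ y ∧ y ≤ hi ∧ Core e α β a φ g lo hi

/-- the new graph -/
noncomputable def phN (e : Env) (α β a : ℝ) (fam' : Set (ℝ ≃o ℝ)) (φ : ℝ → ℝ) (x : ℝ) : ℝ :=
  sInf (insert (φ x) {t : ℝ | ∃ g y, CP e α β a fam' φ g y ∧ t = |g y - y| / e.c + |x - y|})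

end Pool.Agent.H52.GS
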