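import Mathlib
import Pool.Agent.H52.GS.FDef
import Pool.Agent.H52.GS.B5
import Pool.Agent.H52.GS.O2
import Pool.Agent.H52.GS.M1

/-!
# GS-F0: basic facts for the stages

PROOFS.
* `ph0_nn`, `ph0_lip` (max, min of 1-Lipschitz functions, divided by 10000), `ph0_pos`: positive
  exactly on `Ioo α β`.
* `JJ_sub`: `φ ≤ ph0`, so `φ > 0` implies `x ∈ Ioo α β`.
* `a_mem`: `φ a = ph0 a > 0` by `Stage.nr`.
* `LL_closed`: let `y` with `|y - x| ≤ φ x/8`, `φ x > 0`.  For points `z → x` satisfying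
  `LL g z (φ z) η` put `y_z = z + (y - x) φ z/φ x`; then `|y_z - z| ≤ φ z/8`, so
  `Mv g y_z (η φ z)`; `y_z → y`, `φ z → φ x`; continuity of `g` and `g⁻¹` gives `Mv g y (η φ x)`.
  (Suppose `|g y - y| > η φ x`; by continuity of `z ↦ |g y_z - y_z| - η φ z` at `z = x` this stays
  positive for `z` near `x`, contradiction.)
* `LL_loc`: `r = φ x`, `δ = r/32`.  For `|z - x| < δ`: `|φ z - r| ≤ r/32`, and `|y - z| ≤ φ z/8`
  implies `|y - x| ≤ r/32 + 33 r/256 ≤ 3r/16`, so `Mv g y (η1 r/2)` by `loc` and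
  `η1 r/2 ≤ η1 φ z`.
* `not_LL_a`: `thk` gives `NI g a (ph0 a/128) (ηM ph0 a/4096)`; `ρ ≤ ph0 a/128` and
  `ηM ph0 a/4096 ≤ ηM ρ/4 ≤ ηM ρ/2`; `NI.mono` (M1) contradicts `Geo.thick` (`g ∈ Γ`, `g ≠ 1`).
  (Needs `0 ≤ ηM`; add the hypothesis `0 < ηM`.)
* `along`: for `x, x' ∈ JJ φ a` with `φ = ph0` on `uIcc x x'`: `Along Γ f ph0 x x'` for
  `f ∈ fam'` (`JJ_conn`, `StepH.rel`, `ph0_lip`, `JJ_pos`).
-/

set_option autoImplicit false
open Set Filter Topology MeasureTheory Metric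

namespace Pool.Agent.H52.GS

theorem ph0_nn (α β x : ℝ) : 0 ≤ ph0 α β x := by
  unfold ph0
  exact div_nonneg (le_max_left _ _) (by norm_num)

theorem ph0_lip (α β x y : ℝ) : |ph0 α β x - ph0 α β y| ≤ |x - y| / 10000 := by
  unfold ph0
  rw [← sub_div, abs_div, abs_of_pos (by norm_num : (0 : ℝ) < 10000)]
  refine div_le_div_of_nonneg_right ?_ (by norm_num)
  have h1 := abs_max_sub_max_le_max 0 (min (x - α) (β - x)) 0 (min (y - α) (β - y))
  have h2 := abs_min_sub_min_le_max (x - α) (β - x) (y - α) (β - y)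
  rw [sub_self, abs_zero] at h1
  have h3 : |x - α - (y - α)| = |x - y| := by
    congr 1
    ring
  have h4 : |β - x - (β - y)| = |x - y| := by
    rw [abs_sub_comm x y]
    congr 1
    ring
  rw [h3, h4, max_self] at h2
  exact h1.trans (max_le (abs_nonneg _) h2)

theorem ph0_pos {α β x : ℝ} : 0 < ph0 α β x ↔ x ∈ Ioo α β := by
  unfold ph0
  rw [div_pos_iff_of_pos_right (by norm_num : (0 : ℝ) < 10000), lt_max_iff, lt_min_iff, sub_pos,
    sub_pos]
  constructor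
  · rintro (h | h)
    · exact absurd h (lt_irrefl _)
    · exact h
  · intro h
    exact Or.inr h

variable {Γ : Subgroup (ℝ ≃o ℝ)} {ηM : ℝ} {e : Env} {α β a re : ℝ} {X : Set ℝ}
  {fam fam' : Set (ℝ ≃o ℝ)} {φ : ℝ → ℝ} {V : Set (ℝ ≃o ℝ)}

theorem JJ_sub (h : Stage Γ e α β a re X fam φ V) : JJ φ a ⊆ Ioo α β := by
  intro x hx
  exact ph0_pos.1 ((JJ_pos hx).trans_le (h.le x))

theorem a_mem (hg : Geo Γ ηM e α β a re X) (h : Stage Γ e α β a re X fam φ V) :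
    a ∈ JJ φ a := by
  intro y hy
  rw [uIcc_self, mem_singleton_iff] at hy
  rw [hy, h.nr a (by
    rw [sub_self, abs_zero]
    have := ph0_nn α β a
    linarith)]
  exact ph0_pos.2 ⟨hg.hα, hg.hβ⟩

theorem f0_cont (hlip : ∀ x y, |φ x - φ y| ≤ |x - y|) : Continuous φ := by
  have h : LipschitzWith 1 φ := LipschitzWith.of_dist_le_mul fun x y => by
    rw [Real.dist_eq, Real.dist_eq, NNReal.coe_one, one_mul]
    exact hlip x y
  exact h.continuous

theorem f0_mv {g : ℝ ≃o ℝ} {y d d' : ℝ} (h : Mv g y d) (hd : d ≤ d') : Mv g y d' :=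
  ⟨h.1.trans hd, h.2.trans hd⟩

theorem LL_closed (hlip : ∀ x y, |φ x - φ y| ≤ |x - y|) {g : ℝ ≃o ℝ} {x η : ℝ}
    (hx : 0 < φ x) (h : ∀ δ > 0, ∃ z, |z - x| < δ ∧ LL g z (φ z) η) : LL g x (φ x) η := by
  have hc : Continuous φ := f0_cont hlip
  have hgc : Continuous (g : ℝ → ℝ) := g.continuous
  have hgc' : Continuous ((g⁻¹ : ℝ ≃o ℝ) : ℝ → ℝ) := (g⁻¹ : ℝ ≃o ℝ).continuous
  intro y hy
  have hY : Continuous fun z : ℝ => z + (y - x) * (φ z / φ x) := by fun_prop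
  have hcl : x ∈ closure {z : ℝ | LL g z (φ z) η ∧ 0 < φ z} := by
    rw [Metric.mem_closure_iff]
    intro ε hε
    obtain ⟨z, hz, hL⟩ := h (min ε (φ x)) (lt_min hε hx)
    refine ⟨z, ⟨hL, ?_⟩, ?_⟩
    · have h1 := hlip z x
      have h2 := hz.trans_le (min_le_right ε (φ x))
      rw [abs_le] at h1
      linarith [h1.1]
    · rw [dist_comm, Real.dist_eq]
      exact hz.trans_le (min_le_left _ _)
  have hin : ∀ z : ℝ, LL g z (φ z) η → 0 < φ z →
      Mv g (z + (y - x) * (φ z / φ x)) (η * φ z) := by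
    intro z hL hz
    apply hL
    rw [add_sub_cancel_left, abs_mul, abs_div, abs_of_pos hz, abs_of_pos hx]
    have h1 := mul_le_mul_of_nonneg_right hy (div_nonneg hz.le hx.le)
    have h2 : φ x / 8 * (φ z / φ x) = φ z / 8 := by
      have := hx.ne'
      field_simp
    linarith
  have hyx : x + (y - x) * (φ x / φ x) = y := by
    rw [div_self hx.ne']
    ring
  constructor
  · have hC : IsClosed {z : ℝ | |g (z + (y - x) * (φ z / φ x)) - (z + (y - x) * (φ z / φ x))| ≤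
        η * φ z} := isClosed_le ((hgc.comp hY).sub hY).abs (continuous_const.mul hc)
    have h1 : |g (x + (y - x) * (φ x / φ x)) - (x + (y - x) * (φ x / φ x))| ≤ η * φ x :=
      closure_minimal (fun z hz => (hin z hz.1 hz.2).1) hC hcl
    rw [hyx] at h1
    exact h1
  · have hC : IsClosed {z : ℝ | |(g⁻¹ : ℝ ≃o ℝ) (z + (y - x) * (φ z / φ x)) -
        (z + (y - x) * (φ z / φ x))| ≤ η * φ z} :=
      isClosed_le ((hgc'.comp hY).sub hY).abs (continuous_const.mul hc)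
    have h1 : |(g⁻¹ : ℝ ≃o ℝ) (x + (y - x) * (φ x / φ x)) - (x + (y - x) * (φ x / φ x))| ≤
        η * φ x := closure_minimal (fun z hz => (hin z hz.1 hz.2).2) hC hcl
    rw [hyx] at h1
    exact h1

theorem LL_loc (h : StepH Γ ηM e α β a re X fam fam' φ V) {g : ℝ ≃o ℝ} (hg : g ∈ fam')
    {x : ℝ} (hx : x ∈ JJ φ a) (hL : LL g x (φ x) e.ηp) :
    ∃ δ > 0, ∀ z, |z - x| < δ → LL g z (φ z) e.η1 := by
  have hr : 0 < φ x := JJ_pos hx
  have hη : 0 ≤ e.η1 := by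
    have := h.cst.η0
    have := h.cst.h32
    have := h.cst.h2d
    have := h.cst.hdp
    have := h.cst.hp1
    linarith
  have hl := h.cst.loc g x (φ x) hr (h.rel g hg x hx) hL
  refine ⟨φ x / 32, by linarith, fun z hz y hy => ?_⟩
  have h1 := h.st.lip z x
  rw [abs_le] at h1
  rw [abs_lt] at hz
  have h0 : |z - x| ≤ φ x / 32 := (abs_lt.2 hz).le
  have h2 : |φ z - φ x| ≤ φ x / 32 := (h.st.lip z x).trans h0
  rw [abs_le] at h2
  have h3 : |y - x| ≤ 3 * φ x / 16 := by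
    have h4 : y - x = (y - z) + (z - x) := by ring
    rw [h4]
    have h5 := abs_add_le (y - z) (z - x)
    linarith [h2.2]
  refine f0_mv (hl y h3) ?_
  nlinarith [h2.1]

theorem not_LL_a (hηM : 0 < ηM) (h : StepH Γ ηM e α β a re X fam fam' φ V) {g : ℝ ≃o ℝ}
    (hg : g ∈ fam') (hg1 : g ≠ 1) : ¬ LL g a (φ a) e.η1 := by
  intro hL
  have ha := a_mem h.geo h.st
  have hr : 0 < φ a := JJ_pos ha
  have hpa : φ a = ph0 α β a := h.st.nr a (by
    rw [sub_self, abs_zero]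
    have := ph0_nn α β a
    linarith)
  obtain ⟨ρ, h1, h2, h3, h4⟩ := h.geo.thick
  have h5 := h.cst.thk g a (φ a) hr (h.rel g hg a ha) hL
  rw [← hpa] at h2 h3
  refine h4 g (h.gam hg) hg1 (h5.mono ?_ ?_)
  · rw [sub_self, abs_zero]
    linarith
  · nlinarith

theorem along (h : StepH Γ ηM e α β a re X fam fam' φ V) {g : ℝ ≃o ℝ} (hg : g ∈ fam')
    {x x' : ℝ} (hx : x ∈ JJ φ a) (hx' : x' ∈ JJ φ a)
    (hz : ∀ z ∈ uIcc x x', φ z = ph0 α β z) : Along Γ g (ph0 α β) x x' := by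
  refine ⟨fun p _ q _ => ph0_lip α β p q, fun z hzm => ?_⟩
  have h1 : z ∈ JJ φ a := JJ_conn hx hx' hzm
  have h2 := JJ_pos h1
  have h3 := h.rel g hg z h1
  rw [hz z hzm] at h2 h3
  exact ⟨h2, h3⟩

end Pool.Agent.H52.GS
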