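import Mathlib
import Pool.Agent.H52.GS.F0
import Pool.Agent.H52.GS.C2

/-!
# GS-F1: comparison of new small elements with the elements of `V`

`VS e a fam' φ` = the nontrivial `g ∈ fam'` with `LL g x1 (φ x1) η3` for some `x1 ∈ JJ φ a`.
All `r = φ x ≤ ph0 x ≤ 1` (`Stage.le`, `Geo.ph1`).

PROOFS.
* `F51`: `f ∈ V` is not `1`: otherwise `LL 1 a (φ a) η2` holds trivially, against `Stage.d` (`a_mem`).
  `dich gp (f^2) (g^2) N1`: `Le ((g^2)^N1) (f^2)` or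
  `Le (f^2) ((g^2)^(4 N1+1))`, hence `Le f (g^(8 N1+2))`.  In the second case let
  `x1 ∈ JJ φ a`, `r = φ x1`, `LL g x1 r η3`.  By `mv_pow` (with `d = η3 r`, radius `r/8`) for
  `|y - x1| ≤ r/16 ≤ r/8 - (8 N1+2) η3 r`: `Mv (g^(8N1+2)) y ((8 N1+2) η3 r)`, so
  `Mv f y ((8 N1+2) η3 r)` (`Le.mv`), and `Cst.x1` gives `LL f x1 r η2`, against `Stage.d`.
* `F52`: `Stage.e` at `x`: `f ∈ V` with `LL f x (φ x) (2c)`.  `Cst.com`: `f^2 g^2 = g^2 f^2` (both relative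
  at `(x, φ x)` by `StepH.rel`; `f ∈ V ⊆ fam ⊆ fam'`).  `F51`: `Le ((g^2)^N1) (f^2)`.  `Cst.sg1`:
  `LL g x (φ x) ηp`.
* `F53`: `Stage.e` at `x2` gives `f ∈ V` with `LL f x' (ph0 x') η1`; `ph0 x' = φ x'`;
  `η1 ≤ 2 c`; `Cst.com`, `F51`, `Cst.sg2`: `LL g x' (φ x') ηd`.
-/

set_option autoImplicit false
open Set Filter Topology MeasureTheory Metric

namespace Pool.Agent.H52.GS

variable {Γ : Subgroup (ℝ ≃o ℝ)} {ηM : ℝ} {e : Env} {α β a re : ℝ} {X : Set ℝ}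
  {fam fam' : Set (ℝ ≃o ℝ)} {φ : ℝ → ℝ} {V : Set (ℝ ≃o ℝ)}

theorem F1_fam (h : StepH Γ ηM e α β a re X fam fam' φ V) {f : ℝ ≃o ℝ} (hf : f ∈ V) :
    f ∈ fam' := h.sub' (h.st.sub hf)

theorem F1_le1 (h : StepH Γ ηM e α β a re X fam fam' φ V) (x : ℝ) : φ x ≤ 1 :=
  (h.st.le x).trans (h.geo.ph1 x)

theorem F1_eta2 (h : Cst Γ ηM e) : 0 < e.η2 := h.η0.trans_le h.h32

theorem F1_eta1 (h : Cst Γ ηM e) : e.η1 ≤ 2 * e.c := by
  have h1 := h.h1c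
  have h2 := h.c0
  have h3 := h.c1
  nlinarith

/-- `f^2 ≠ 1` for `f ≠ 1` -/
theorem F1_sq {f : ℝ ≃o ℝ} (hf : f ≠ 1) : f ^ 2 ≠ 1 := by
  intro h1
  refine hf (zpow_eq_one (k := 2) two_ne_zero ?_)
  rw [← h1]
  exact zpow_natCast f 2

theorem F51 (h : StepH Γ ηM e α β a re X fam fam' φ V) {f g : ℝ ≃o ℝ} (hf : f ∈ V)
    (hg : g ∈ VS e a fam' φ) (hfg : f ^ 2 * g ^ 2 = g ^ 2 * f ^ 2) :
    Le ((g ^ 2) ^ e.N1) (f ^ 2) := by
  have hff := F1_fam h hf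
  obtain ⟨hgf, hg1, x1, hx1, hL⟩ := hg
  have hf1 : f ≠ 1 := by
    rintro rfl
    refine h.st.d 1 hf a (a_mem h.geo h.st) (fun y _ => ?_)
    have h1 : 0 ≤ e.η2 * φ a := mul_nonneg (F1_eta2 h.cst).le (h.st.nn a)
    refine ⟨?_, ?_⟩
    · show |y - y| ≤ _
      rw [sub_self, abs_zero]
      exact h1
    · rw [inv_one]
      show |y - y| ≤ _
      rw [sub_self, abs_zero]
      exact h1
  rcases dich h.gp (Γ.pow_mem (h.gam hff) 2) (Γ.pow_mem (h.gam hgf) 2) hfg (F1_sq hf1) e.N1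
    with h1 | h1
  · exact h1
  · exfalso
    have hr : 0 < φ x1 := JJ_pos hx1
    refine h.st.d f hf x1 hx1 (h.cst.x1 f x1 (φ x1) hr (h.rel f hff x1 hx1) (fun y hy => ?_))
    have hd : 0 ≤ e.η3 * φ x1 := mul_nonneg h.cst.η0.le hr.le
    have h2 := h.cst.num1
    have h3 := mul_le_mul_of_nonneg_right h2 hr.le
    have h4 : |y - x1| ≤ φ x1 / 8 - ((2 * (4 * e.N1 + 1) : ℕ) : ℝ) * (e.η3 * φ x1) := by
      push_cast
      nlinarith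
    rw [← pow_mul] at h1
    have h5 := (Le.pow_le (N := 2) (by norm_num) h1).mv (mv_pow hd hL (2 * (4 * e.N1 + 1)) h4)
    refine h5.mono (le_of_eq ?_)
    push_cast
    ring

theorem F52 (h : StepH Γ ηM e α β a re X fam fam' φ V) {g : ℝ ≃o ℝ}
    (hg : g ∈ VS e a fam' φ) {x : ℝ} (hx : x ∈ JJ φ a) (hlow : φ x < ph0 α β x)
    (hL : LL g x (φ x) (2 * e.c)) : LL g x (φ x) e.ηp := by
  obtain ⟨f, hf, hfL, -⟩ := h.st.e x hx hlow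
  have hr : 0 < φ x := JJ_pos hx
  have hrf := h.rel f (F1_fam h hf) x hx
  have hrg := h.rel g hg.1 x hx
  have hfg := h.cst.com f g x (φ x) hr (F1_le1 h x) hrf hrg hfL hL
  exact h.cst.sg1 g f x (φ x) hr hrg hfL (F51 h hf hg hfg)

theorem F53 (h : StepH Γ ηM e α β a re X fam fam' φ V) {g : ℝ ≃o ℝ}
    (hg : g ∈ VS e a fam' φ) {x2 x' : ℝ} (hx2 : x2 ∈ JJ φ a) (hlow : φ x2 < ph0 α β x2)
    (hx' : x' ∈ JJ φ a) (hx'0 : φ x' = ph0 α β x') (hd : |x' - x2| ≤ 4 * ph0 α β x2)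
    (hL : LL g x' (φ x') e.η1) : LL g x' (φ x') e.ηd := by
  obtain ⟨f, hf, -, hf2⟩ := h.st.e x2 hx2 hlow
  have hfL := hf2 x' hx' hd hx'0
  rw [← hx'0] at hfL
  have hr : 0 < φ x' := JJ_pos hx'
  have hrf := h.rel f (F1_fam h hf) x' hx'
  have hrg := h.rel g hg.1 x' hx'
  have h1 := F1_eta1 h.cst
  have hfg := h.cst.com f g x' (φ x') hr (F1_le1 h x') hrf hrg (hfL.mono hr.le h1)
    (hL.mono hr.le h1)
  exact h.cst.sg2 g f x' (φ x') hr hrg hfL (F51 h hf hg hfg)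

end Pool.Agent.H52.GS
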