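import Mathlib
import Pool.Agent.H52.GS.B5

/-!
# GS-F2: the end lemma (abstract)

`φ` is 1-Lipschitz, `ψ` is 1/10000-Lipschitz, `φ ≤ ψ`; `J = JJ φ a` (open interval, `JJ_conn`,
`JJ_open`, `JJ_near`, `JJ_pos`).  A point `z` is called lowered if `φ z < ψ z`.
`P1, Pp, Pd` are predicates of real numbers.

PROOF of `end_right`.  Suppose there is a bad point `yb ∈ J`, `x0 ≤ yb`, `¬ P1 yb`.  Let
`A = {y | x0 ≤ y, ∀ z ∈ [x0, y], P1 z}` and `xp = sSup A`; `A` is bounded above by `yb`, `x0 ∈ A`.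
`xp ∈ [x0, yb] ⊆ J`.  All `z ∈ [x0, xp)` satisfy `P1`, so `P1 xp` by `hcl` (if `xp = x0` trivially),
hence `P1` on `[x0, xp]`.
(1) `¬ Pp xp`: otherwise `hloc` gives `P1` on a neighbourhood of `xp`, so `xp` is not an upper bound.
(2) `xp` is not lowered (`hlow` and (1)), so `φ xp = ψ xp > 0`.
(3) No lowered `x2 ∈ J` has `|xp - x2| ≤ 4 ψ x2` (`hnear` gives `Pd xp`, so `Pp xp`).
(4) `x0 + 99 ψ xp ≤ xp` and no point of `[xp - 99 ψ xp, xp]` is lowered.  Let `e = x0` if no point of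
`[x0, xp]` is lowered; otherwise let `e = sSup {z ∈ [x0, xp] | φ z < ψ z}`.  In the second case `e`
is not lowered: otherwise `e < xp` by (2), and by continuity all points slightly to the right of `e`
are lowered points of `[x0, xp]`.  So `φ e = ψ e`, `ψ e > 0`, and there is a lowered
`x2 ∈ [x0, xp]` with `|e - x2| ≤ ψ e/2`, so `|e - x2| ≤ 4 ψ x2` (Lipschitz), and `hnear` (with
`P1 e`) gives `Pd e`.  In the first case `Pd e` by hypothesis.  In both cases no point of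
`[e, xp]` is lowered.  If `xp - e < 99 ψ xp` then `ψ xp ≤ ψ e + (xp - e)/10000 ≤ ψ e + ψ xp/100`, so
`xp - e < 99 ψ xp ≤ 100 ψ e ≤ 101 ψ e` and `hch` gives `Pp xp`, against (1).  So
`e + 99 ψ xp ≤ xp`.
(5) All `z ∈ [xp, xp + 3 ψ xp]` are in `J` and not lowered.  Otherwise let `z0` be the infimum of
the bad `z`.  All `z ∈ [xp, z0)` are in `J` and not lowered, so by continuity `φ z0 = ψ z0`
(for `z0 = xp` this is (2)), and `ψ z0 ≥ ψ xp - 3 ψ xp/10000 > 0`, so `z0 ∈ J` (`φ > 0` on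
`[xp, z0]`).  So `z0` is not bad, and there are bad `z > z0` arbitrarily close to `z0`; they are in
`J` (open), so lowered, and `|z - xp| ≤ (3 + 1/10) ψ xp ≤ 4 ψ z`, against (3).
PROOF of `end_left`.  Apply `end_right` to `φ'(x) = φ (-x)`, `ψ'(x) = ψ (-x)`, `a' = -a`,
`x0' = -x0` and the predicates composed with `x ↦ -x`; `x ∈ JJ φ' (-a) ↔ -x ∈ JJ φ a`.
-/

set_option autoImplicit false
open Set Filter Topology MeasureTheory Metric

namespace Pool.Agent.H52.GS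

theorem F2_cont {ψ : ℝ → ℝ} (hlip' : ∀ x y, |ψ x - ψ y| ≤ |x - y| / 10000) : Continuous ψ := by
  refine B5_cont fun x y => (hlip' x y).trans ?_
  have := abs_nonneg (x - y)
  linarith

theorem F2_low {φ ψ : ℝ → ℝ} (hφ : Continuous φ) (hψ : Continuous ψ) {e : ℝ} (h : φ e < ψ e) :
    ∃ ε > 0, ∀ z, |z - e| < ε → φ z < ψ z := by
  have h1 : IsOpen {z | φ z < ψ z} := isOpen_lt hφ hψ
  obtain ⟨ε, h2, h3⟩ := Metric.isOpen_iff.1 h1 e h
  refine ⟨ε, h2, fun z hz => h3 ?_⟩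
  rw [mem_ball, Real.dist_eq]
  exact hz

theorem F2_union {φ : ℝ → ℝ} {a x z : ℝ} (hx : x ∈ JJ φ a) (hz : ∀ y ∈ uIcc x z, 0 < φ y) :
    z ∈ JJ φ a := by
  intro y hy
  rcases uIcc_subset_uIcc_union_uIcc (b := x) hy with h | h
  · exact hx y h
  · exact hz y h

theorem end_right {φ ψ : ℝ → ℝ} {a x0 : ℝ} {P1 Pp Pd : ℝ → Prop}
    (hlip : ∀ x y, |φ x - φ y| ≤ |x - y|) (hlip' : ∀ x y, |ψ x - ψ y| ≤ |x - y| / 10000)
    (hle : ∀ x, φ x ≤ ψ x) (hdp : ∀ x, Pd x → Pp x) (hp1 : ∀ x, Pp x → P1 x)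
    (hcl : ∀ x ∈ JJ φ a, (∀ δ > 0, ∃ z, |z - x| < δ ∧ P1 z) → P1 x)
    (hloc : ∀ x ∈ JJ φ a, Pp x → ∃ δ > 0, ∀ z, |z - x| < δ → P1 z)
    (hlow : ∀ x ∈ JJ φ a, φ x < ψ x → P1 x → Pp x)
    (hnear : ∀ x2 ∈ JJ φ a, φ x2 < ψ x2 → ∀ x' ∈ JJ φ a, φ x' = ψ x' →
      |x' - x2| ≤ 4 * ψ x2 → P1 x' → Pd x')
    (hch : ∀ x ∈ JJ φ a, ∀ x' ∈ JJ φ a, (∀ z ∈ uIcc x x', φ z = ψ z) →
      |x - x'| ≤ 101 * ψ x → Pd x → Pp x')
    (hx0 : x0 ∈ JJ φ a) (hd0 : Pd x0) :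
    (∀ y ∈ JJ φ a, x0 ≤ y → P1 y) ∨
      ∃ xp ∈ JJ φ a, x0 + 99 * ψ xp ≤ xp ∧ ¬ Pp xp ∧ (∀ y, x0 ≤ y → y ≤ xp → P1 y) ∧
        ∀ z, xp - 99 * ψ xp ≤ z → z ≤ xp + 3 * ψ xp → z ∈ JJ φ a ∧ φ z = ψ z := by 
  by_cases hb : ∀ y ∈ JJ φ a, x0 ≤ y → P1 y
  · exact Or.inl hb
  right
  push Not at hb
  obtain ⟨yb, hyb, hyb0, hyb1⟩ := hb
  have hφc : Continuous φ := B5_cont hlip
  have hψc : Continuous ψ := F2_cont hlip'
  have hP0 : P1 x0 := hp1 _ (hdp _ hd0)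
  set A : Set ℝ := {y | x0 ≤ y ∧ ∀ z, x0 ≤ z → z ≤ y → P1 z} with hA
  have hA0 : x0 ∈ A := ⟨le_refl _, fun z h1 h2 => by rwa [le_antisymm h2 h1]⟩
  have hAb : ∀ y ∈ A, y ≤ yb := by
    intro y hy
    by_contra h
    push Not at h
    exact hyb1 (hy.2 yb hyb0 h.le)
  have hAbdd : BddAbove A := ⟨yb, hAb⟩
  set xp : ℝ := sSup A with hxpdef
  have h0p : x0 ≤ xp := le_csSup hAbdd hA0
  have hpb : xp ≤ yb := csSup_le ⟨x0, hA0⟩ hAb
  have hxp : xp ∈ JJ φ a := JJ_conn hx0 hyb (mem_uIcc.2 (Or.inl ⟨h0p, hpb⟩))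
  have hlt : ∀ z, x0 ≤ z → z < xp → P1 z := by
    intro z h1 h2
    obtain ⟨y, hy, hzy⟩ := exists_lt_of_lt_csSup ⟨x0, hA0⟩ h2
    exact hy.2 z h1 hzy.le
  have hPp : P1 xp := by
    rcases h0p.eq_or_lt with h | h
    · rw [← h]; exact hP0
    · refine hcl xp hxp fun δ hδ => ?_
      refine ⟨max x0 (xp - δ / 2), ?_, ?_⟩
      · have h1 : max x0 (xp - δ / 2) < xp := max_lt h (by linarith)
        have h2 : xp - δ / 2 ≤ max x0 (xp - δ / 2) := le_max_right _ _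
        rw [abs_lt]
        constructor <;> linarith
      · exact hlt _ (le_max_left _ _) (max_lt h (by linarith))
  have hP : ∀ z, x0 ≤ z → z ≤ xp → P1 z := by
    intro z h1 h2
    rcases h2.eq_or_lt with h | h
    · rw [h]; exact hPp
    · exact hlt z h1 h
  have n1 : ¬ Pp xp := by
    intro h
    obtain ⟨δ, hδ, hδ'⟩ := hloc xp hxp h
    have h1 : xp + δ / 2 ∈ A := by
      refine ⟨by linarith, fun z h2 h3 => ?_⟩
      rcases le_total z xp with h4 | h4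
      · exact hP z h2 h4
      · refine hδ' z ?_
        rw [abs_lt]
        constructor <;> linarith
    have h2 := le_csSup hAbdd h1
    linarith
  have n2 : ¬ φ xp < ψ xp := fun h => n1 (hlow xp hxp h hPp)
  have e2 : φ xp = ψ xp := le_antisymm (hle xp) (not_lt.1 n2)
  have hψp : 0 < ψ xp := by rw [← e2]; exact JJ_pos hxp
  have n3 : ∀ x2 ∈ JJ φ a, φ x2 < ψ x2 → ¬ |xp - x2| ≤ 4 * ψ x2 := fun x2 h1 h2 h3 =>
    n1 (hdp _ (hnear x2 h1 h2 xp hxp e2 h3 hPp))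
  have hJ : ∀ z, x0 ≤ z → z ≤ xp → z ∈ JJ φ a := fun z h1 h2 =>
    JJ_conn hx0 hxp (mem_uIcc.2 (Or.inl ⟨h1, h2⟩))
  -- (4)
  obtain ⟨e, he0, hep, hed, heq⟩ : ∃ e, x0 ≤ e ∧ e ≤ xp ∧ Pd e ∧
      ∀ z, e ≤ z → z ≤ xp → φ z = ψ z := by
    by_cases hS : ∀ z, x0 ≤ z → z ≤ xp → ¬ φ z < ψ z
    · exact ⟨x0, le_refl _, h0p, hd0, fun z h1 h2 =>
        le_antisymm (hle z) (not_lt.1 (hS z h1 h2))⟩
    · push Not at hS
      obtain ⟨zs, hzs0, hzs1, hzs2⟩ := hS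
      set S : Set ℝ := {z | x0 ≤ z ∧ z ≤ xp ∧ φ z < ψ z} with hSdef
      have hSne : S.Nonempty := ⟨zs, hzs0, hzs1, hzs2⟩
      have hSb : BddAbove S := ⟨xp, fun z hz => hz.2.1⟩
      set e : ℝ := sSup S with hedef
      have he0 : x0 ≤ e := hzs0.trans (le_csSup hSb ⟨hzs0, hzs1, hzs2⟩)
      have hep : e ≤ xp := csSup_le hSne fun z hz => hz.2.1
      have hen : ¬ φ e < ψ e := by
        intro h
        have hlt' : e < xp := by
          rcases hep.eq_or_lt with h1 | h1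
          · rw [h1] at h
            exact absurd h n2
          · exact h1
        obtain ⟨ε, hε, hε'⟩ := F2_low hφc hψc h
        have h1 : e < min xp (e + ε / 2) := lt_min hlt' (by linarith)
        have h2 : min xp (e + ε / 2) ∈ S := by
          refine ⟨he0.trans h1.le, min_le_left _ _, hε' _ ?_⟩
          have h3 : min xp (e + ε / 2) ≤ e + ε / 2 := min_le_right _ _
          rw [abs_lt]
          constructor <;> linarith
        have h3 := le_csSup hSb h2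
        linarith
      have hee : φ e = ψ e := le_antisymm (hle e) (not_lt.1 hen)
      have heJ : e ∈ JJ φ a := hJ e he0 hep
      have hep0 : 0 < ψ e := by rw [← hee]; exact JJ_pos heJ
      obtain ⟨x2, hx2, hx2'⟩ := exists_lt_of_lt_csSup hSne
        (show e - ψ e / 2 < sSup S by rw [← hedef]; linarith)
      have hx2e : x2 ≤ e := le_csSup hSb hx2
      have h1 : |e - x2| ≤ ψ e / 2 := by
        rw [abs_le]
        constructor <;> linarith
      have h2 := (abs_le.1 (hlip' e x2)).2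
      have hPd : Pd e := hnear x2 (hJ x2 hx2.1 hx2.2.1) hx2.2.2 e heJ hee (by linarith)
        (hP e he0 hep)
      refine ⟨e, he0, hep, hPd, fun z h3 h4 => ?_⟩
      rcases h3.eq_or_lt with h5 | h5
      · rw [← h5]; exact hee
      · refine le_antisymm (hle z) (not_lt.1 fun h6 => ?_)
        have h7 : z ≤ e := le_csSup hSb ⟨he0.trans h3, h4, h6⟩
        linarith
  have h4 : e + 99 * ψ xp ≤ xp := by
    by_contra h
    push Not at h
    have h1 := (abs_le.1 (hlip' xp e)).2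
    have h2 : |xp - e| = xp - e := abs_of_nonneg (by linarith)
    rw [h2] at h1
    refine n1 (hch e (hJ e he0 hep) xp hxp ?_ ?_ hed)
    · intro z hz
      rw [uIcc_of_le hep] at hz
      exact heq z hz.1 hz.2
    · rw [abs_sub_comm, h2]
      linarith
  -- (5)
  have h5 : ∀ z, xp ≤ z → z ≤ xp + 3 * ψ xp → z ∈ JJ φ a ∧ φ z = ψ z := by
    by_contra hcon
    push Not at hcon
    obtain ⟨zb, hzb0, hzb1, hzb2⟩ := hcon
    set S : Set ℝ := {z | xp ≤ z ∧ z ≤ xp + 3 * ψ xp ∧ ¬ (z ∈ JJ φ a ∧ φ z = ψ z)} with hSdef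
    have hzbS : zb ∈ S := ⟨hzb0, hzb1, fun h => hzb2 h.1 h.2⟩
    have hSb : BddBelow S := ⟨xp, fun z hz => hz.1⟩
    set z0 : ℝ := sInf S with hz0def
    have hz0p : xp ≤ z0 := le_csInf ⟨zb, hzbS⟩ fun z hz => hz.1
    have hz0t : z0 ≤ xp + 3 * ψ xp := (csInf_le hSb hzbS).trans hzb1
    have hgood : ∀ z, xp ≤ z → z < z0 → z ∈ JJ φ a ∧ φ z = ψ z := by
      intro z h1 h2
      by_contra h3
      have h4 : z0 ≤ z := csInf_le hSb ⟨h1, by linarith, h3⟩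
      linarith
    have hz0e : φ z0 = ψ z0 := by
      rcases hz0p.eq_or_lt with h | h
      · rw [← h]; exact e2
      · refine le_antisymm (hle z0) (not_lt.1 fun h1 => ?_)
        obtain ⟨ε, hε, hε'⟩ := F2_low hφc hψc h1
        have h2 : max xp (z0 - ε / 2) < z0 := max_lt h (by linarith)
        have h3 := (hgood _ (le_max_left xp (z0 - ε / 2)) h2).2
        have h4 : z0 - ε / 2 ≤ max xp (z0 - ε / 2) := le_max_right _ _
        have h5 := hε' (max xp (z0 - ε / 2)) (by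
          rw [abs_lt]
          constructor <;> linarith)
        linarith
    have hpos : ∀ z, xp ≤ z → z ≤ xp + 3 * ψ xp → ψ xp * (9 / 10) ≤ ψ z := by
      intro z h1 h2
      have h3 := (abs_le.1 (hlip' xp z)).2
      rw [abs_sub_comm, abs_of_nonneg (by linarith)] at h3
      linarith
    have hz0J : z0 ∈ JJ φ a := by
      refine F2_union hxp fun y hy => ?_
      rw [uIcc_of_le hz0p] at hy
      have h1 : φ y = ψ y := by
        rcases hy.2.eq_or_lt with h | h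
        · rw [h]; exact hz0e
        · exact (hgood y hy.1 h).2
      rw [h1]
      have h2 := hpos y hy.1 (hy.2.trans hz0t)
      linarith
    have hz0pos : 0 < φ z0 := JJ_pos hz0J
    obtain ⟨z, hz, hz'⟩ := exists_lt_of_csInf_lt ⟨zb, hzbS⟩
      (show sInf S < z0 + φ z0 by rw [← hz0def]; linarith)
    have hz0z : z0 ≤ z := csInf_le hSb hz
    have hzJ : z ∈ JJ φ a := by
      refine JJ_near hlip hz0J ?_
      rw [abs_of_nonneg (by linarith)]
      linarith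
    have hzl : φ z < ψ z := lt_of_le_of_ne (hle z) fun h => hz.2.2 ⟨hzJ, h⟩
    refine n3 z hzJ hzl ?_
    have h1 := hpos z hz.1 hz.2.1
    rw [abs_sub_comm, abs_of_nonneg (by linarith [hz.1])]
    linarith [hz.2.1]
  refine ⟨xp, hxp, by linarith, n1, hP, fun z h1 h2 => ?_⟩
  rcases le_total z xp with h3 | h3
  · exact ⟨hJ z (by linarith) h3, heq z (by linarith) h3⟩
  · exact h5 z h3 h2

theorem F2_neg {φ : ℝ → ℝ} {a x : ℝ} (h : -x ∈ JJ φ a) : x ∈ JJ (fun y => φ (-y)) (-a) := by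
  intro y hy
  apply h
  rcases mem_uIcc.1 hy with ⟨h1, h2⟩ | ⟨h1, h2⟩
  · exact mem_uIcc.2 (Or.inr ⟨by linarith, by linarith⟩)
  · exact mem_uIcc.2 (Or.inl ⟨by linarith, by linarith⟩)

theorem F2_neg' {φ : ℝ → ℝ} {a x : ℝ} (h : x ∈ JJ (fun y => φ (-y)) (-a)) : -x ∈ JJ φ a := by
  intro y hy
  have h1 := h (-y) (by
    rcases mem_uIcc.1 hy with ⟨h1, h2⟩ | ⟨h1, h2⟩
    · exact mem_uIcc.2 (Or.inr ⟨by linarith, by linarith⟩)
    · exact mem_uIcc.2 (Or.inl ⟨by linarith, by linarith⟩))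
  simpa using h1

theorem end_left {φ ψ : ℝ → ℝ} {a x0 : ℝ} {P1 Pp Pd : ℝ → Prop}
    (hlip : ∀ x y, |φ x - φ y| ≤ |x - y|) (hlip' : ∀ x y, |ψ x - ψ y| ≤ |x - y| / 10000)
    (hle : ∀ x, φ x ≤ ψ x) (hdp : ∀ x, Pd x → Pp x) (hp1 : ∀ x, Pp x → P1 x)
    (hcl : ∀ x ∈ JJ φ a, (∀ δ > 0, ∃ z, |z - x| < δ ∧ P1 z) → P1 x)
    (hloc : ∀ x ∈ JJ φ a, Pp x → ∃ δ > 0, ∀ z, |z - x| < δ → P1 z)
    (hlow : ∀ x ∈ JJ φ a, φ x < ψ x → P1 x → Pp x)
    (hnear : ∀ x2 ∈ JJ φ a, φ x2 < ψ x2 → ∀ x' ∈ JJ φ a, φ x' = ψ x' →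
      |x' - x2| ≤ 4 * ψ x2 → P1 x' → Pd x')
    (hch : ∀ x ∈ JJ φ a, ∀ x' ∈ JJ φ a, (∀ z ∈ uIcc x x', φ z = ψ z) →
      |x - x'| ≤ 101 * ψ x → Pd x → Pp x')
    (hx0 : x0 ∈ JJ φ a) (hd0 : Pd x0) :
    (∀ y ∈ JJ φ a, y ≤ x0 → P1 y) ∨
      ∃ xp ∈ JJ φ a, xp ≤ x0 - 99 * ψ xp ∧ ¬ Pp xp ∧ (∀ y, xp ≤ y → y ≤ x0 → P1 y) ∧
        ∀ z, xp - 3 * ψ xp ≤ z → z ≤ xp + 99 * ψ xp → z ∈ JJ φ a ∧ φ z = ψ z := by
  have e1 : ∀ x y : ℝ, |-x - -y| = |x - y| := fun x y => by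
    rw [← abs_neg]; congr 1; ring
  have H := end_right (φ := fun y => φ (-y)) (ψ := fun y => ψ (-y)) (a := -a) (x0 := -x0)
    (P1 := fun y => P1 (-y)) (Pp := fun y => Pp (-y)) (Pd := fun y => Pd (-y))
    (fun x y => by have := hlip (-x) (-y); rwa [e1] at this)
    (fun x y => by have := hlip' (-x) (-y); rwa [e1] at this)
    (fun x => hle (-x)) (fun x => hdp (-x)) (fun x => hp1 (-x))
    (fun x hx h => hcl (-x) (F2_neg' hx) fun δ hδ => by
      obtain ⟨z, h1, h2⟩ := h δ hδ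
      refine ⟨-z, ?_, h2⟩
      rwa [e1])
    (fun x hx h => by
      obtain ⟨δ, h1, h2⟩ := hloc (-x) (F2_neg' hx) h
      refine ⟨δ, h1, fun z hz => h2 (-z) ?_⟩
      rwa [e1])
    (fun x hx => hlow (-x) (F2_neg' hx))
    (fun x2 hx2 h2 x' hx' h3 h4 => hnear (-x2) (F2_neg' hx2) h2 (-x') (F2_neg' hx') h3
      (by rwa [e1]))
    (fun x hx x' hx' h1 h2 => hch (-x) (F2_neg' hx) (-x') (F2_neg' hx')
      (fun z hz => by
        have h3 := h1 (-z) (by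
          rcases mem_uIcc.1 hz with ⟨h3, h4⟩ | ⟨h3, h4⟩
          · exact mem_uIcc.2 (Or.inr ⟨by linarith, by linarith⟩)
          · exact mem_uIcc.2 (Or.inl ⟨by linarith, by linarith⟩))
        simpa using h3)
      (by rwa [e1]))
    (F2_neg (by rwa [neg_neg])) (by rwa [neg_neg])
  rcases H with H | ⟨xp, hxp, h1, h2, h3, h4⟩
  · left
    intro y hy hy0
    have h1 := H (-y) (F2_neg (by rwa [neg_neg])) (by linarith)
    change P1 (- -y) at h1
    rwa [neg_neg] at h1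
  · right
    refine ⟨-xp, F2_neg' hxp, by linarith, h2, ?_, ?_⟩
    · intro y hy1 hy2
      have h5 := h3 (-y) (by linarith) (by linarith)
      change P1 (- -y) at h5
      rwa [neg_neg] at h5
    · intro z hz1 hz2
      have h5 := h4 (-z) (by linarith) (by linarith)
      refine ⟨?_, ?_⟩
      · have h6 := F2_neg' h5.1
        rwa [neg_neg] at h6
      · have h6 := h5.2
        change φ (- -z) = ψ (- -z) at h6
        rwa [neg_neg] at h6

end Pool.Agent.H52.GS
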