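import Mathlib
import Pool.Agent.H52.GS.F1
import Pool.Agent.H52.GS.F2

/-!
# GS-F3: every very small place of a new element lies in a core

Notation `φ0 = ph0 α β`, `P1 x = LL g x (φ x) η1`, `Pp x = LL g x (φ x) ηp`,
`Pd x = LL g x (φ x) ηd`.

PROOF of `window` .  Let `xp ∈ JJ φ a`, `¬ Pp xp`, `xc ∈ JJ φ a` with `|xc - xp| ≤ 8 φ0 xp` and
`φ = φ0` on `uIcc xc xp`, and `P1 xc`.  If `LL g xc (φ0 xc) (2 κ)` then `Cst.ch2` (`along`,
`|xc - xp| ≤ 101 φ0 xc`) gives `LL g xp (φ0 xp) ηp`, i.e. `Pp xp`, a contradiction.  So there is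
`y`, `|y - xc| ≤ φ0 xc/8`, with `|g y - y| > 2 κ φ0 xc` or `|g⁻¹ y - y| > 2 κ φ0 xc`.  In the first
case `p = y`; in the second `p = g⁻¹ y`, `|g p - p| = |y - g⁻¹ y| > 2 κ φ0 xc`, and
`|p - y| ≤ η1 φ0 xc ≤ φ0 xc/100` by `P1 xc`.  So `|p - xc| ≤ φ0 xc/4` and `2 κ φ0 xc ≤ |g p - p|`.

PROOF of `core_exists`.  Apply `end_right` and `end_left` to `φ`, `ψ = φ0`, `P1, Pp, Pd`:
`hdp, hp1`: `LL.mono` (constants are ordered; `LL.mono` needs `0 ≤ φ x`: `Stage.nn`); `hcl`: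
`LL_closed`; `hloc`: `LL_loc`; `hlow`: `F52` (`η1 ≤ 2c`); `hnear`: `F53`; `hch`: `Cst.ch1`, `along`.
RIGHT END.  Alternative 1 (`P1` on all of `J ∩ [x0, ∞)`): `hi = β ∉ J` (`JJ_sub`).
Alternative 2: `xp` as in `end_right`.  Put `xc = xp - 7 φ0 xp`; `φ0 xc` is within `1/1000` of `φ0 xp`
in ratio; `window` gives `p` with `|p - xc| ≤ φ0 xc/4`; put `hi = p`; so
`xp - 7.3 φ0 xp ≤ hi ≤ xp - 6.7 φ0 xp`, in particular `x0 ≤ hi`.  `OKe g hi`:
`κ φ0 hi/2 ≤ 2 κ φ0 xc ≤ |g hi - hi|`, and `|z - hi| ≤ (11/2) φ0 hi ≤ 5.6 φ0 xp` implies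
`xp - 99 φ0 xp ≤ z ≤ xp`, so `z ∈ J`, `φ z = φ0 z`.
For `k ≤ hi` and `|y - k| ≤ (11/2) φ0 k`: `y ≤ k + (11/2) φ0 k ≤ hi + (11/2) φ0 hi ≤ xp` (the function
`k + (11/2) φ0 k` is nondecreasing because `φ0` is `1/10000`-Lipschitz).
LEFT END symmetric (`lo = α` or the window point).
So for `k ∈ [lo, hi] ∩ J`, `y ∈ J`, `|y - k| ≤ (11/2) φ0 k`: if `x0 ≤ y` the right alternative gives
`P1 y`, and if `y ≤ x0` the left one does.
-/

set_option autoImplicit false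
open Set Filter Topology MeasureTheory Metric

namespace Pool.Agent.H52.GS

variable {Γ : Subgroup (ℝ ≃o ℝ)} {ηM : ℝ} {e : Env} {α β a re : ℝ} {X : Set ℝ}
  {fam fam' : Set (ℝ ≃o ℝ)} {φ : ℝ → ℝ} {V : Set (ℝ ≃o ℝ)}

theorem F3_eta (h : StepH Γ ηM e α β a re X fam fam' φ V) :
    0 < e.c ∧ e.c ≤ 1 / 1000000 ∧ 0 < e.κ ∧ 0 ≤ e.η1 ∧ e.η1 ≤ 1 / 1000 ∧ e.η1 ≤ 2 * e.c ∧
      e.ηd ≤ e.ηp ∧ e.ηp ≤ e.η1 := by
  have c0 := h.cst.c0
  have c1 := h.cst.c1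
  have η0 := h.cst.η0
  have h32 := h.cst.h32
  have h2d := h.cst.h2d
  have hdp := h.cst.hdp
  have hp1 := h.cst.hp1
  have h1c := h.cst.h1c
  have h3 : e.c ^ 2 ≤ e.c := by nlinarith
  refine ⟨c0, c1, h.cst.κ0, by linarith, by linarith, by linarith, hdp, hp1⟩

theorem window (h : StepH Γ ηM e α β a re X fam fam' φ V) {g : ℝ ≃o ℝ} (hg : g ∈ fam')
    {xc xp : ℝ} (hxc : xc ∈ JJ φ a) (hxp : xp ∈ JJ φ a)
    (hd : |xc - xp| ≤ 8 * ph0 α β xp) (hz : ∀ z ∈ uIcc xc xp, φ z = ph0 α β z)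
    (h1 : LL g xc (φ xc) e.η1) (hp : ¬ LL g xp (φ xp) e.ηp) :
    ∃ p, |p - xc| ≤ ph0 α β xc / 4 ∧ 2 * e.κ * ph0 α β xc ≤ |g p - p| := by
  obtain ⟨c0, c1, κ0, η0, η1, η2, hdp, hp1⟩ := F3_eta h
  have ec : φ xc = ph0 α β xc := hz xc left_mem_uIcc
  have ep : φ xp = ph0 α β xp := hz xp right_mem_uIcc
  have hc0 : 0 < ph0 α β xc := by rw [← ec]; exact JJ_pos hxc
  have hp0 : 0 < ph0 α β xp := by rw [← ep]; exact JJ_pos hxp
  have hl := (abs_le.1 (ph0_lip α β xc xp)).1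
  have hnot : ¬ LL g xc (ph0 α β xc) (2 * e.κ) := by
    intro hL
    apply hp
    rw [ep]
    exact h.cst.ch2 g (ph0 α β) xc xp (along h hg hxc hxp hz) (by linarith) hL
  unfold LL at hnot
  push Not at hnot
  obtain ⟨y, hy, hM⟩ := hnot
  rw [ec] at h1
  have hM1 := h1 y hy
  unfold Mv at hM
  rw [not_and_or, not_le, not_le] at hM
  rcases hM with hM | hM
  · exact ⟨y, by linarith, hM.le⟩
  · refine ⟨(g⁻¹ : ℝ ≃o ℝ) y, ?_, ?_⟩
    · have h2 := hM1.2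
      have h3 : (g⁻¹ : ℝ ≃o ℝ) y - xc = ((g⁻¹ : ℝ ≃o ℝ) y - y) + (y - xc) := by ring
      rw [h3]
      have h4 := abs_add_le ((g⁻¹ : ℝ ≃o ℝ) y - y) (y - xc)
      have h5 : e.η1 * ph0 α β xc ≤ 1 / 1000 * ph0 α β xc :=
        mul_le_mul_of_nonneg_right η1 hc0.le
      linarith
    · rw [RelIso.apply_inv_self, abs_sub_comm]
      exact hM.le

/-- a good end, from the window point -/
theorem F3_oke (h : StepH Γ ηM e α β a re X fam fam' φ V) {g : ℝ ≃o ℝ} {xc xp p : ℝ}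
    (hs : 0 < ph0 α β xp) (hd : |xc - xp| = 7 * ph0 α β xp)
    (hp : |p - xc| ≤ ph0 α β xc / 4) (hgp : 2 * e.κ * ph0 α β xc ≤ |g p - p|)
    (hJ : ∀ z, |z - xc| ≤ 6 * ph0 α β xp → z ∈ JJ φ a ∧ φ z = ph0 α β z) :
    OKe e α β a φ g p ∧ |p - xc| ≤ 1 / 3 * ph0 α β xp ∧
      |p - xc| + 11 / 2 * ph0 α β p ≤ 6 * ph0 α β xp := by
  have κ0 := h.cst.κ0
  have l1 := abs_le.1 (ph0_lip α β xc xp)
  rw [hd] at l1
  have l2 := abs_le.1 (ph0_lip α β p xc)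
  have e1 : |p - xc| ≤ 1 / 3 * ph0 α β xp := by linarith
  have e2 : |p - xc| + 11 / 2 * ph0 α β p ≤ 6 * ph0 α β xp := by linarith
  refine ⟨⟨?_, ?_⟩, e1, e2⟩
  · refine le_trans ?_ hgp
    have h1 : ph0 α β p / 2 ≤ 2 * ph0 α β xc := by linarith
    have h2 := mul_le_mul_of_nonneg_left h1 κ0.le
    linarith
  · intro z hz
    apply hJ
    have h1 : z - xc = (z - p) + (p - xc) := by ring
    rw [h1]
    have h2 := abs_add_le (z - p) (p - xc)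
    linarith

theorem F3_right (h : StepH Γ ηM e α β a re X fam fam' φ V) {g : ℝ ≃o ℝ}
    (hg : g ∈ VS e a fam' φ) {x0 : ℝ} (hx0 : x0 ∈ JJ φ a) (hd : LL g x0 (φ x0) e.ηd) :
    ∃ hi, x0 ≤ hi ∧ (hi ∈ JJ φ a → OKe e α β a φ g hi) ∧
      ∀ k, k ≤ hi → ∀ y ∈ JJ φ a, x0 ≤ y → |y - k| ≤ 11 / 2 * ph0 α β k →
        LL g y (φ y) e.η1 := by
  obtain ⟨c0, c1, κ0, η0, η1, η2, hdp, hp1⟩ := F3_eta h
  have H := end_right (φ := φ) (ψ := ph0 α β) (a := a) (x0 := x0)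
    (P1 := fun x => LL g x (φ x) e.η1) (Pp := fun x => LL g x (φ x) e.ηp)
    (Pd := fun x => LL g x (φ x) e.ηd) h.st.lip (ph0_lip α β) h.st.le
    (fun x hx => hx.mono (h.st.nn x) hdp) (fun x hx => hx.mono (h.st.nn x) hp1)
    (fun x hx hc => LL_closed h.st.lip (JJ_pos hx) hc)
    (fun x hx hp => LL_loc h hg.1 hx hp)
    (fun x hx hlow hP => F52 h hg hx hlow (hP.mono (h.st.nn x) η2))
    (fun x2 hx2 hlow x' hx' hx'0 hdd hP => F53 h hg hx2 hlow hx' hx'0 hdd hP)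
    (fun x hx x' hx' hz hdd hP => by
      have hP' : LL g x (φ x) e.ηd := hP
      rw [hz x left_mem_uIcc] at hP'
      have h1 := h.cst.ch1 g (ph0 α β) x x' (along h hg.1 hx hx' hz) hdd hP'
      rw [← hz x' right_mem_uIcc] at h1
      exact h1)
    hx0 hd
  rcases H with H | ⟨xp, hxp, h1, h2, h3, h4⟩
  · refine ⟨β, (JJ_sub h.st hx0).2.le, fun hβ => ?_, fun k _ y hy hy0 _ => H y hy hy0⟩
    exact absurd (JJ_sub h.st hβ).2 (lt_irrefl β)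
  · have ep : φ xp = ph0 α β xp := (h4 xp (by
      have := ph0_nn α β xp
      linarith) (by
      have := ph0_nn α β xp
      linarith)).2
    have hs : 0 < ph0 α β xp := by rw [← ep]; exact JJ_pos hxp
    have hxc := h4 (xp - 7 * ph0 α β xp) (by linarith) (by linarith)
    have hdc : |xp - 7 * ph0 α β xp - xp| = 7 * ph0 α β xp := by
      rw [abs_of_neg (by linarith)]
      ring
    obtain ⟨p, hp, hgp⟩ := window h hg.1 hxc.1 hxp (by rw [hdc]; linarith)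
      (fun z hz => by
        rw [uIcc_of_le (by linarith)] at hz
        exact (h4 z (by linarith [hz.1]) (by linarith [hz.2])).2)
      (h3 _ (by linarith) (by linarith)) h2
    obtain ⟨hO, e1, e2⟩ := F3_oke h hs hdc hp hgp (fun z hz => by
      rw [abs_le] at hz
      exact h4 z (by linarith [hz.1]) (by linarith [hz.2]))
    have hpa := abs_le.1 e1
    have hpb := le_abs_self (p - (xp - 7 * ph0 α β xp))
    refine ⟨p, by linarith [hpa.1], fun _ => hO, ?_⟩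
    intro k hk y hy hy0 hyk
    refine h3 y hy0 ?_
    have l1 := (abs_le.1 (ph0_lip α β k p)).2
    rw [abs_sub_comm, abs_of_nonneg (by linarith : 0 ≤ p - k)] at l1
    have l2 := (abs_le.1 hyk).2
    linarith

theorem F3_left (h : StepH Γ ηM e α β a re X fam fam' φ V) {g : ℝ ≃o ℝ}
    (hg : g ∈ VS e a fam' φ) {x0 : ℝ} (hx0 : x0 ∈ JJ φ a) (hd : LL g x0 (φ x0) e.ηd) :
    ∃ lo, lo ≤ x0 ∧ (lo ∈ JJ φ a → OKe e α β a φ g lo) ∧
      ∀ k, lo ≤ k → ∀ y ∈ JJ φ a, y ≤ x0 → |y - k| ≤ 11 / 2 * ph0 α β k →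
        LL g y (φ y) e.η1 := by
  obtain ⟨c0, c1, κ0, η0, η1, η2, hdp, hp1⟩ := F3_eta h
  have H := end_left (φ := φ) (ψ := ph0 α β) (a := a) (x0 := x0)
    (P1 := fun x => LL g x (φ x) e.η1) (Pp := fun x => LL g x (φ x) e.ηp)
    (Pd := fun x => LL g x (φ x) e.ηd) h.st.lip (ph0_lip α β) h.st.le
    (fun x hx => hx.mono (h.st.nn x) hdp) (fun x hx => hx.mono (h.st.nn x) hp1)
    (fun x hx hc => LL_closed h.st.lip (JJ_pos hx) hc)
    (fun x hx hp => LL_loc h hg.1 hx hp)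
    (fun x hx hlow hP => F52 h hg hx hlow (hP.mono (h.st.nn x) η2))
    (fun x2 hx2 hlow x' hx' hx'0 hdd hP => F53 h hg hx2 hlow hx' hx'0 hdd hP)
    (fun x hx x' hx' hz hdd hP => by
      have hP' : LL g x (φ x) e.ηd := hP
      rw [hz x left_mem_uIcc] at hP'
      have h1 := h.cst.ch1 g (ph0 α β) x x' (along h hg.1 hx hx' hz) hdd hP'
      rw [← hz x' right_mem_uIcc] at h1
      exact h1)
    hx0 hd
  rcases H with H | ⟨xp, hxp, h1, h2, h3, h4⟩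
  · refine ⟨α, (JJ_sub h.st hx0).1.le, fun hα => ?_, fun k _ y hy hy0 _ => H y hy hy0⟩
    exact absurd (JJ_sub h.st hα).1 (lt_irrefl α)
  · have ep : φ xp = ph0 α β xp := (h4 xp (by
      have := ph0_nn α β xp
      linarith) (by
      have := ph0_nn α β xp
      linarith)).2
    have hs : 0 < ph0 α β xp := by rw [← ep]; exact JJ_pos hxp
    have hxc := h4 (xp + 7 * ph0 α β xp) (by linarith) (by linarith)
    have hdc : |xp + 7 * ph0 α β xp - xp| = 7 * ph0 α β xp := by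
      rw [abs_of_pos (by linarith)]
      ring
    obtain ⟨p, hp, hgp⟩ := window h hg.1 hxc.1 hxp (by rw [hdc]; linarith)
      (fun z hz => by
        rw [uIcc_of_ge (by linarith)] at hz
        exact (h4 z (by linarith [hz.1]) (by linarith [hz.2])).2)
      (h3 _ (by linarith) (by linarith)) h2
    obtain ⟨hO, e1, e2⟩ := F3_oke h hs hdc hp hgp (fun z hz => by
      rw [abs_le] at hz
      exact h4 z (by linarith [hz.1]) (by linarith [hz.2]))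
    have hpa := abs_le.1 e1
    have hpb := neg_abs_le (p - (xp + 7 * ph0 α β xp))
    refine ⟨p, by linarith [hpa.2], fun _ => hO, ?_⟩
    intro k hk y hy hy0 hyk
    refine h3 y ?_ hy0
    have l1 := (abs_le.1 (ph0_lip α β k p)).2
    rw [abs_of_nonneg (by linarith : 0 ≤ k - p)] at l1
    have l2 := (abs_le.1 hyk).1
    linarith

theorem core_exists (h : StepH Γ ηM e α β a re X fam fam' φ V) {g : ℝ ≃o ℝ}
    (hg : g ∈ VS e a fam' φ) {x0 : ℝ} (hx0 : x0 ∈ JJ φ a) (hd : LL g x0 (φ x0) e.ηd) :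
    CP e α β a fam' φ g x0 := by
  obtain ⟨hi, hi1, hi2, hi3⟩ := F3_right h hg hx0 hd
  obtain ⟨lo, lo1, lo2, lo3⟩ := F3_left h hg hx0 hd
  refine ⟨hg, hx0, lo, hi, lo1, hi1, lo2, hi2, ?_⟩
  intro k hk1 hk2 _ y hy hyk
  rcases le_total x0 y with h1 | h1
  · exact hi3 k hk2 y hy h1 hyk
  · exact lo3 k hk1 y hy h1 hyk

end Pool.Agent.H52.GS
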