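import Mathlib
import Pool.Agent.H52.GS.F0

/-!
# GS-F4: the new graph

`phN x = sInf (insert (φ x) {|g y - y|/c + |x - y| : y core point of g})`; all these numbers are
`≥ 0` (`Stage.nn`, `c > 0`), so the set is bounded below by `0` and nonempty.
PROOFS.
* `phN_le`, `phN_nn`, `phN_cp`: `csInf_le`, `le_csInf` (`Real.sInf_nonneg`).
* `phN_lip`: for `x, x'`: every element `t` of the set for `x` has a partner `t' ≤ t + |x - x'|` in
  the set for `x'`; so `phN x' ≤ phN x + |x - x'|`.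
* `phN_ex`: if `phN x < φ x` and `phN x < s` then there is an element of the set which is
  `< min (φ x) s` (`exists_lt_of_csInf_lt`); it is not `φ x`.
* `phN_near`: `|x - a| ≤ 2 φ0 a`, `φ0 = ph0 α β`.  Let `y` be a core point of `g`.  `a ∈ JJ φ a`
  (`a_mem`) and `¬ LL g a (φ a) η1` (`not_LL_a`), so by the last part of `Core` (with `k = y`)
  `|a - y| > (11/2) φ0 y ≥ (11/2) (φ0 a - |a - y|/10000)`, hence `|a - y| > 5.49 φ0 a` and
  `|x - y| ≥ 3.49 φ0 a ≥ φ0 x = φ x` (`φ0 x ≤ φ0 a + 2 φ0 a/10000`).  So all elements of the set are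
  `≥ φ x`, and `phN x = φ x = φ0 x`.
* `JJ_phN`: `phN ≤ φ` so `JJ phN a ⊆ JJ φ a`.
-/

set_option autoImplicit false
open Set Filter Topology MeasureTheory Metric

namespace Pool.Agent.H52.GS

variable {Γ : Subgroup (ℝ ≃o ℝ)} {ηM : ℝ} {e : Env} {α β a re : ℝ} {X : Set ℝ}
  {fam fam' : Set (ℝ ≃o ℝ)} {φ : ℝ → ℝ} {V : Set (ℝ ≃o ℝ)}

/-- the set whose infimum is `phN` -/
def F4S (e : Env) (α β a : ℝ) (fam' : Set (ℝ ≃o ℝ)) (φ : ℝ → ℝ) (x : ℝ) : Set ℝ :=
  insert (φ x) {t : ℝ | ∃ g y, CP e α β a fam' φ g y ∧ t = |g y - y| / e.c + |x - y|}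

theorem F4_nn (h : StepH Γ ηM e α β a re X fam fam' φ V) {x t : ℝ}
    (ht : t ∈ F4S e α β a fam' φ x) : 0 ≤ t := by
  rcases ht with ht | ⟨g, y, _, ht⟩
  · rw [ht]
    exact h.st.nn x
  · rw [ht]
    have h1 := div_nonneg (abs_nonneg (g y - y)) h.cst.c0.le
    have h2 := abs_nonneg (x - y)
    linarith

theorem F4_bdd (h : StepH Γ ηM e α β a re X fam fam' φ V) (x : ℝ) :
    BddBelow (F4S e α β a fam' φ x) := ⟨0, fun _ ht => F4_nn h ht⟩

theorem F4_ne (e : Env) (α β a : ℝ) (fam' : Set (ℝ ≃o ℝ)) (φ : ℝ → ℝ) (x : ℝ) :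
    (F4S e α β a fam' φ x).Nonempty := ⟨φ x, mem_insert _ _⟩

theorem F4_le (h : StepH Γ ηM e α β a re X fam fam' φ V) {x t : ℝ}
    (ht : t ∈ F4S e α β a fam' φ x) : phN e α β a fam' φ x ≤ t :=
  csInf_le (F4_bdd h x) ht

theorem F4_lip1 (h : StepH Γ ηM e α β a re X fam fam' φ V) (x y : ℝ) :
    phN e α β a fam' φ x - |x - y| ≤ phN e α β a fam' φ y := by
  refine le_csInf (F4_ne e α β a fam' φ y) ?_
  rintro t (ht | ⟨g, z, hg, ht⟩)
  · have h1 := F4_le h (mem_insert (φ x) _ : φ x ∈ F4S e α β a fam' φ x)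
    have h2 := abs_le.1 (h.st.lip x y)
    rw [ht]
    linarith [h2.2]
  · have h1 := F4_le h (Or.inr ⟨g, z, hg, rfl⟩ :
      |g z - z| / e.c + |x - z| ∈ F4S e α β a fam' φ x)
    have h2 : |x - z| ≤ |x - y| + |y - z| := abs_sub_le x y z
    rw [ht]
    linarith

theorem phN_le (h : StepH Γ ηM e α β a re X fam fam' φ V) (x : ℝ) :
    phN e α β a fam' φ x ≤ φ x := by
  exact F4_le h (mem_insert _ _)

theorem phN_nn (h : StepH Γ ηM e α β a re X fam fam' φ V) (x : ℝ) :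
    0 ≤ phN e α β a fam' φ x := by
  exact le_csInf (F4_ne e α β a fam' φ x) fun t ht => F4_nn h ht

theorem phN_cp (h : StepH Γ ηM e α β a re X fam fam' φ V) {g : ℝ ≃o ℝ} {y : ℝ}
    (hg : CP e α β a fam' φ g y) (x : ℝ) :
    phN e α β a fam' φ x ≤ |g y - y| / e.c + |x - y| := by
  exact F4_le h (Or.inr ⟨g, y, hg, rfl⟩)

theorem phN_lip (h : StepH Γ ηM e α β a re X fam fam' φ V) (x y : ℝ) :
    |phN e α β a fam' φ x - phN e α β a fam' φ y| ≤ |x - y| := by
  have h1 := F4_lip1 h x y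
  have h2 := F4_lip1 h y x
  rw [abs_sub_comm y x] at h2
  rw [abs_le]
  constructor <;> linarith

theorem phN_ex (h : StepH Γ ηM e α β a re X fam fam' φ V) {x s : ℝ}
    (hx : phN e α β a fam' φ x < φ x) (hs : phN e α β a fam' φ x < s) :
    ∃ g y, CP e α β a fam' φ g y ∧ |g y - y| / e.c + |x - y| < φ x ∧
      |g y - y| / e.c + |x - y| < s := by
  have h1 : phN e α β a fam' φ x < min (φ x) s := lt_min hx hs
  obtain ⟨t, ht, hlt⟩ := exists_lt_of_csInf_lt (F4_ne e α β a fam' φ x) h1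
  rcases ht with ht | ⟨g, y, hg, ht⟩
  · rw [ht] at hlt
    exact absurd (hlt.trans_le (min_le_left _ _)) (lt_irrefl _)
  · rw [ht] at hlt
    exact ⟨g, y, hg, hlt.trans_le (min_le_left _ _), hlt.trans_le (min_le_right _ _)⟩

theorem phN_near (hηM : 0 < ηM) (h : StepH Γ ηM e α β a re X fam fam' φ V) {x : ℝ}
    (hx : |x - a| ≤ 2 * ph0 α β a) : phN e α β a fam' φ x = φ x := by
  refine le_antisymm (phN_le h x) ?_
  refine le_csInf (F4_ne e α β a fam' φ x) ?_
  rintro t (ht | ⟨g, y, hg, ht⟩)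
  · exact ht.ge
  · have ha := a_mem h.geo h.st
    obtain ⟨⟨hgf, hg1, _⟩, hyJ, lo, hi, hlo, hhi, _, _, hcore⟩ := hg
    have hnot := not_LL_a hηM h hgf hg1
    have h1 : 11 / 2 * ph0 α β y < |a - y| := by
      by_contra hcon
      push Not at hcon
      exact hnot (hcore y hlo hhi hyJ a ha hcon)
    have h2 := abs_le.1 (ph0_lip α β a y)
    have h3 := abs_le.1 (ph0_lip α β x a)
    have h4 := ph0_nn α β a
    have h5 := h.st.le x
    have h6 : |a - y| ≤ |a - x| + |x - y| := abs_sub_le a x y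
    rw [abs_sub_comm a x] at h6
    have h7 := div_nonneg (abs_nonneg (g y - y)) h.cst.c0.le
    rw [ht]
    have h8 := h2.2
    have h9 := h3.2
    linarith

theorem JJ_phN (h : StepH Γ ηM e α β a re X fam fam' φ V) :
    JJ (phN e α β a fam' φ) a ⊆ JJ φ a := by
  intro x hx y hy
  exact (hx y hy).trans_le (phN_le h y)

end Pool.Agent.H52.GS
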