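import Mathlib
import Pool.Agent.H52.GS.F4

/-!
# GS-F5: the structure of the new graph at a lowered point

Notation `φ0 = ph0 α β`, `φ' = phN e α β a fam' φ`, `J = JJ φ a`, `u z = g z - z`, `c = e.c`.

PROOF of `u_lip`.  `y` is a core point of `g` (so `LL g z (φ z) η1` for all `z ∈ J`,
`|z - y| ≤ (11/2) φ0 y`).  `p, q ∈ J` within `(11/2) φ0 y` of `y`; every `z ∈ uIcc p q` is in `J`
(`JJ_conn`) and within `(11/2) φ0 y` of `y`, so `Cst.der` at `(z, φ z)` (`StepH.rel`, `JJ_pos`) gives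
differentiability and `|g' z - 1| ≤ c/4`; mean value theorem for `u` on `uIcc p q`.

PROOF of `F5`.  `0 < φ' x < φ x` (`x ∈ JJ φ' a`).  `phN_ex` with `s = (101/100) φ' x` gives `g`,
`y`, a core point, with `|u y|/c + |x - y| < φ x` and `< 1.01 φ' x`.  Let `lo, hi` be its core.
Distances: `|x - y| < φ x ≤ φ0 x`, so `φ0 y ≥ (1 - 1/10000) φ0 x`, and all points within
`4.4 φ0 x` of `x` are within `(11/2) φ0 y` of `y`.
(A) `LL g x (φ x) η1`, and more generally for `x' ∈ J` with `|x' - x| ≤ 4 φ0 x`: by `Core`.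
(B) `LL g x (φ' x) (2c)`: let `|t - x| ≤ φ' x/8`.  `t ∈ J` (`JJ_near`: `φ' x/8 < φ x`).
`|u t| ≤ |u y| + (c/4)|t - y| ≤ c (|u y|/c + |x - y|) + (c/4)(φ' x/8) ≤ 1.05 c φ' x` (`u_lip`).
`t' = g⁻¹ t` satisfies `|t' - t| ≤ η1 φ t ≤ φ t/2` (`LL g t (φ t) η1` as in (A)), so `t' ∈ J` and
`|t' - t| = |u t'| ≤ |u t| + (c/4)|t' - t|`, so `|t' - t| ≤ 1.06 c φ' x ≤ 2 c φ' x`.
(C) If `lo ≤ x ≤ hi` then `x` is a core point of `g`, `φ' x ≤ |u x|/c` (`phN_cp` with `y = x`) and
`|u x|/c ≤ (|u y| + (c/4)|x - y|)/c ≤ 1.01 φ' x`.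
(D) Otherwise, say `hi < x` (the case `x < lo` is symmetric): `y ≤ hi < x`, so
`hi ∈ uIcc y x ⊆ J` and `OKe g hi`.  `κ φ0 hi/2 ≤ |u hi| ≤ |u y| + (c/4)|hi - y| ≤
c (|u y|/c + |x - y|) ≤ 1.01 c φ' x`, so `φ' x ≥ κ φ0 hi/(2.02 c) ≥ κ φ0 x` (`c ≤ 10^(-6)`,
`φ0 hi ≥ 0.99 φ0 x`).  `|x - hi| ≤ |x - y| ≤ φ x ≤ φ0 x`.
-/

set_option autoImplicit false
open Set Filter Topology MeasureTheory Metric

namespace Pool.Agent.H52.GS

variable {Γ : Subgroup (ℝ ≃o ℝ)} {ηM : ℝ} {e : Env} {α β a re : ℝ} {X : Set ℝ}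
  {fam fam' : Set (ℝ ≃o ℝ)} {φ : ℝ → ℝ} {V : Set (ℝ ≃o ℝ)}

theorem u_lip (h : StepH Γ ηM e α β a re X fam fam' φ V) {g : ℝ ≃o ℝ} {y : ℝ}
    (hg : CP e α β a fam' φ g y) {p q : ℝ} (hp : p ∈ JJ φ a) (hq : q ∈ JJ φ a)
    (hpy : |p - y| ≤ 11 / 2 * ph0 α β y) (hqy : |q - y| ≤ 11 / 2 * ph0 α β y) :
    |(g p - p) - (g q - q)| ≤ e.c / 4 * |p - q| := by
  obtain ⟨hV, hy, lo, hi, hlo, hhi, hC⟩ := hg
  have key : ∀ z ∈ uIcc q p, DifferentiableAt ℝ (g : ℝ → ℝ) z ∧
      |deriv (g : ℝ → ℝ) z - 1| ≤ e.c / 4 := by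
    intro z hz
    have hzJ : z ∈ JJ φ a := JJ_conn hq hp hz
    have hzy : |z - y| ≤ 11 / 2 * ph0 α β y := by
      rw [mem_uIcc] at hz
      rw [abs_le] at hpy hqy ⊢
      rcases hz with hz | hz <;> constructor <;> linarith [hz.1, hz.2, hpy.1, hpy.2, hqy.1, hqy.2]
    have hL := hC.2.2 y hlo hhi hy z hzJ hzy
    exact h.cst.der g z (φ z) (JJ_pos hzJ) (h.rel g hV.1 z hzJ) hL z
      (by have := JJ_pos hzJ; simp; positivity)
  have hm := Convex.norm_image_sub_le_of_norm_deriv_le (𝕜 := ℝ) (f := fun z : ℝ => g z - z)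
    (C := e.c / 4) (s := uIcc q p) (x := q) (y := p)
    (fun z hz => (key z hz).1.sub differentiableAt_id)
    (fun z hz => by
      have h1 : deriv (fun z : ℝ => g z - z) z = deriv (g : ℝ → ℝ) z - 1 := by
        have h2 := ((key z hz).1.hasDerivAt).sub (hasDerivAt_id z)
        exact h2.deriv
      rw [h1, Real.norm_eq_abs]
      exact (key z hz).2)
    (convex_uIcc q p) left_mem_uIcc right_mem_uIcc
  simpa [Real.norm_eq_abs] using hm

theorem F5 (h : StepH Γ ηM e α β a re X fam fam' φ V) {x : ℝ}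
    (hx : x ∈ JJ (phN e α β a fam' φ) a) (hlt : phN e α β a fam' φ x < φ x) :
    ∃ g ∈ VS e a fam' φ, LL g x (phN e α β a fam' φ x) (2 * e.c) ∧
      (∀ x' ∈ JJ φ a, |x' - x| ≤ 4 * ph0 α β x → LL g x' (φ x') e.η1) ∧
      ((∃ lo hi, lo ≤ x ∧ x ≤ hi ∧ Core e α β a φ g lo hi ∧
          phN e α β a fam' φ x * e.c ≤ |g x - x| ∧
          |g x - x| ≤ 101 / 100 * e.c * phN e α β a fam' φ x) ∨
        (e.κ * ph0 α β x ≤ phN e α β a fam' φ x ∧
          ∃ p ∈ JJ φ a, OKe e α β a φ g p ∧ |x - p| ≤ ph0 α β x)) := by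
  have hx0 : 0 < phN e α β a fam' φ x := JJ_pos hx
  have hxJ : x ∈ JJ φ a := JJ_phN h hx
  obtain ⟨g, y, hg, h1, h2⟩ := phN_ex h (s := 101 / 100 * phN e α β a fam' φ x) hlt (by linarith)
  have hg' := hg
  obtain ⟨hV, hyJ, lo, hi, hlo, hhi, hC⟩ := hg'
  have hcp := phN_cp h (g := g) (y := x)
  set Φ := phN e α β a fam' φ x with hΦ
  have hc0 := h.cst.c0
  have hc1 := h.cst.c1
  have hκ0 := h.cst.κ0
  have h1c := h.cst.h1c
  have hle := h.st.le x
  set P := ph0 α β x with hP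
  set U := |g y - y| with hU
  have hU0 : 0 ≤ U := abs_nonneg _
  set d := |x - y| with hd
  have hd0 : 0 ≤ d := abs_nonneg _
  have hUc : U / e.c * e.c = U := div_mul_cancel₀ _ hc0.ne'
  have hUc0 : 0 ≤ U / e.c := div_nonneg hU0 hc0.le
  -- the sizes
  have hs : U + e.c * d ≤ 101 / 100 * (e.c * Φ) := by
    have := mul_le_mul_of_nonneg_right h2.le hc0.le
    calc U + e.c * d = (U / e.c + d) * e.c := by rw [add_mul, hUc]; ring
      _ ≤ 101 / 100 * Φ * e.c := this
      _ = 101 / 100 * (e.c * Φ) := by ring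
  have hdP : d ≤ P := by linarith
  have hlip0 := ph0_lip α β x y
  rw [← hd] at hlip0
  have hPy := abs_le.1 hlip0
  rw [← hP] at hPy
  have hnear : ∀ z, |z - x| ≤ 44 / 10 * P → |z - y| ≤ 11 / 2 * ph0 α β y := by
    intro z hz
    have h3 : |z - y| ≤ |z - x| + d := abs_sub_le z x y
    linarith [hPy.1, hPy.2]
  have hP0 : 0 < P := by linarith
  have hA : ∀ x' ∈ JJ φ a, |x' - x| ≤ 4 * P → LL g x' (φ x') e.η1 := by
    intro x' hx' hxx
    exact hC.2.2 y hlo hhi hyJ x' hx' (hnear x' (by linarith))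
  have hyx : |y - x| ≤ P := by rw [abs_sub_comm]; exact hdP
  have hxx0 : |x - x| ≤ 44 / 10 * P := by simp; positivity
  refine ⟨g, hV, ?_, hA, ?_⟩
  · intro t ht
    have htJ : t ∈ JJ φ a := JJ_near h.st.lip hxJ (by linarith)
    have htx : |t - x| ≤ 44 / 10 * P := by linarith
    have hyy : |y - y| ≤ 11 / 2 * ph0 α β y := by
      simp; linarith [hPy.1, hPy.2]
    have hl := u_lip h hg htJ hyJ (hnear t htx) hyy
    have hty : |t - y| ≤ Φ / 8 + d := (abs_sub_le t x y).trans (by linarith)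
    have hut : |g t - t| ≤ 105 / 100 * (e.c * Φ) := by
      have h3 : |g t - t| ≤ |(g t - t) - (g y - y)| + U := by
        have := abs_add_le ((g t - t) - (g y - y)) (g y - y)
        rw [sub_add_cancel] at this
        exact this
      have h4 : e.c / 4 * |t - y| ≤ e.c / 4 * (Φ / 8 + d) :=
        mul_le_mul_of_nonneg_left hty (by positivity)
      have h40 : e.c / 4 * (Φ / 8 + d) = e.c * Φ / 32 + e.c * d / 4 := by ring
      have h41 : 0 ≤ e.c * d := mul_nonneg hc0.le hd0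
      have h42 : 0 < e.c * Φ := mul_pos hc0 hx0
      linarith
    have hφt : φ t ≤ 9 / 8 * P := by
      have := abs_le.1 (h.st.lip t x)
      linarith [this.2]
    have hφt0 : 0 < φ t := JJ_pos htJ
    have hLt := hA t htJ (by linarith)
    have hMt := (hLt t (by simp; positivity)).2
    have hcc : e.c ^ 2 ≤ 1 / 1000 := by nlinarith
    have hη : e.η1 * φ t ≤ 1 / 1000 * φ t := mul_le_mul_of_nonneg_right (h1c.trans hcc) hφt0.le
    set t' := (g⁻¹ : ℝ ≃o ℝ) t with ht'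
    have ht'J : t' ∈ JJ φ a := JJ_near h.st.lip htJ (by linarith)
    have ht'x : |t' - x| ≤ 44 / 10 * P := (abs_sub_le t' t x).trans (by linarith)
    have hl2 := u_lip h hg ht'J htJ (hnear t' ht'x) (hnear t htx)
    have hgt' : g t' = t := RelIso.apply_inv_self g t
    rw [hgt'] at hl2
    have h5 : |t - t'| ≤ |(t - t') - (g t - t)| + |g t - t| := by
      have := abs_add_le ((t - t') - (g t - t)) (g t - t)
      rw [sub_add_cancel] at this
      exact this
    have h6 : |t - t'| = |t' - t| := abs_sub_comm _ _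
    have h7 : e.c / 4 * |t' - t| ≤ 1 / 4 * |t' - t| :=
      mul_le_mul_of_nonneg_right (by linarith) (abs_nonneg _)
    have h8 : 2 * e.c * Φ = 2 * (e.c * Φ) := by ring
    have h9 : 0 < e.c * Φ := mul_pos hc0 hx0
    rw [Mv, h8]
    refine ⟨by linarith, ?_⟩
    rw [h6] at h5
    rw [← ht']
    linarith
  · have hyy : |y - y| ≤ 11 / 2 * ph0 α β y := by
      simp; linarith [hPy.1, hPy.2]
    by_cases hin : lo ≤ x ∧ x ≤ hi
    · left
      refine ⟨lo, hi, hin.1, hin.2, hC, ?_, ?_⟩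
      · have := hcp ⟨hV, hxJ, lo, hi, hin.1, hin.2, hC⟩ x
        rw [← hΦ, sub_self, abs_zero, add_zero, le_div_iff₀ hc0] at this
        exact this
      · have hl := u_lip h hg hxJ hyJ (hnear x hxx0) hyy
        rw [← hd] at hl
        have h3 : |g x - x| ≤ |(g x - x) - (g y - y)| + U := by
          have := abs_add_le ((g x - x) - (g y - y)) (g y - y)
          rw [sub_add_cancel] at this
          exact this
        have h40 : e.c / 4 * d = e.c * d / 4 := by ring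
        have h41 : 0 ≤ e.c * d := mul_nonneg hc0.le hd0
        have h42 : 101 / 100 * e.c * Φ = 101 / 100 * (e.c * Φ) := by ring
        rw [h42]
        linarith
    · right
      have key : ∀ p, p ∈ uIcc y x → OKe e α β a φ g p →
          e.κ * P ≤ Φ ∧ ∃ p ∈ JJ φ a, OKe e α β a φ g p ∧ |x - p| ≤ P := by
        intro p hp hok
        have hpJ : p ∈ JJ φ a := JJ_conn hyJ hxJ hp
        have hpx : |x - p| ≤ d ∧ |p - y| ≤ d := by
          rw [hd]
          rw [mem_uIcc] at hp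
          rcases hp with ⟨ha, hb⟩ | ⟨ha, hb⟩
          · rw [abs_of_nonneg (by linarith : 0 ≤ x - p), abs_of_nonneg (by linarith : 0 ≤ p - y),
              abs_of_nonneg (by linarith : 0 ≤ x - y)]
            constructor <;> linarith
          · rw [abs_of_nonpos (by linarith : x - p ≤ 0), abs_of_nonpos (by linarith : p - y ≤ 0),
              abs_of_nonpos (by linarith : x - y ≤ 0)]
            constructor <;> linarith
        have hpn : |p - x| ≤ 44 / 10 * P := by
          rw [abs_sub_comm]; linarith [hpx.1]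
        have hl := u_lip h hg hpJ hyJ (hnear p hpn) hyy
        have h3 : |g p - p| ≤ |(g p - p) - (g y - y)| + U := by
          have := abs_add_le ((g p - p) - (g y - y)) (g y - y)
          rw [sub_add_cancel] at this
          exact this
        have h4 : e.c / 4 * |p - y| ≤ e.c / 4 * d :=
          mul_le_mul_of_nonneg_left hpx.2 (by positivity)
        have h5 : |g p - p| ≤ 101 / 100 * (e.c * Φ) := by
          have h40 : e.c / 4 * d = e.c * d / 4 := by ring
          have h41 : 0 ≤ e.c * d := mul_nonneg hc0.le hd0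
          linarith
        have hlipp := abs_le.1 (ph0_lip α β x p)
        rw [← hP] at hlipp
        have h6 : 99 / 100 * P ≤ ph0 α β p := by linarith [hlipp.2, hpx.1]
        have h7 : e.κ * (99 / 100 * P) ≤ e.κ * ph0 α β p :=
          mul_le_mul_of_nonneg_left h6 hκ0.le
        have h8 : e.c * Φ ≤ 1 / 1000000 * Φ := mul_le_mul_of_nonneg_right hc1 hx0.le
        have h9 := hok.1
        refine ⟨?_, p, hpJ, hok, by linarith [hpx.1]⟩
        have h10 : e.κ * (99 / 100 * P) = 99 / 100 * (e.κ * P) := by ring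
        have h11 : 0 < e.κ * P := mul_pos hκ0 hP0
        linarith
      rw [not_and_or, not_le, not_le] at hin
      rcases hin with hin | hin
      · have hm : lo ∈ uIcc y x := by rw [mem_uIcc]; right; exact ⟨hin.le, hlo⟩
        exact key lo hm (hC.1 (JJ_conn hyJ hxJ hm))
      · have hm : hi ∈ uIcc y x := by rw [mem_uIcc]; left; exact ⟨hhi, hin.le⟩
        exact key hi hm (hC.2.1 (JJ_conn hyJ hxJ hm))

end Pool.Agent.H52.GS
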