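import Mathlib
import Pool.Agent.H52.GS.F5
import Pool.Agent.H52.GS.F3
import Pool.Agent.H52.GS.C2
import Pool.Agent.H52.GS.F1

/-!
# GS-F6: no small elements over the new graph (properties (c), (d), (e))

Notation `φ0 = ph0 α β`, `φ' = phN e α β a fam' φ`, `J = JJ φ a`, `J' = JJ φ' a ⊆ J` (`JJ_phN`).

PROOF of `F6e`.  If `φ' x = φ x` use `Stage.e` for `φ` at `x` (if `φ' x' = φ0 x'` then
`φ x' = φ0 x'`, as `φ' ≤ φ ≤ φ0`).  If `φ' x < φ x`: `F5` gives `g ∈ VS`, `LL g x (φ' x) (2c)` and for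
`x' ∈ J' ⊆ J`, `|x' - x| ≤ 4 φ0 x`, `φ' x' = φ0 x'`: `φ x' = φ0 x'` and `LL g x' (φ x') η1`.

PROOF of `cp_small` (Case 1 and the end of case 2).  If `x ∈ J'`, `f ∈ VS`, `LL f x (φ x) ηd` and
`LL f x (φ' x) η2` then `False`: by `core_exists` `x` is a core point of `f`, so
`φ' x ≤ |f x - x|/c ≤ η2 φ' x/c < φ' x` (`phN_cp`; `η2 < c` by `num2`; `φ' x > 0`).

PROOF of `F6cd`.  Let `f ∈ fam'`, `f ≠ 1`, `x ∈ J'`, `LL f x (φ' x) η2`, and (`f ∈ V`, or `f ∈ VS`, or
`LL f x (φ' x) η3`).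
CASE 1: `φ' x = φ x`.  `f ∈ V` contradicts `Stage.d`.  If `LL f x (φ x) η3` then `f ∈ VS`.  So
`f ∈ VS`; `LL f x (φ x) ηd` (`η2 ≤ ηd`), and `cp_small` applies.
CASE 2: `φ' x < φ x`.  Let `g` be as in `F5`.  Both `f, g` are relative at `(x, φ' x)`
(`Rel.mono` from `StepH.rel`), `LL g x (φ' x) (2c)`, `LL f x (φ' x) (2c)` (`η2 ≤ 2c`), `φ' x ≤ 1`: so
`f^2 g^2 = g^2 f^2` (`Cst.com`).  `dich gp (f := g^2) (g := f^2) N2`: `Le ((f^2)^N2) (g^2)` or
`Le (g^2) ((f^2)^(4 N2+1))`, hence `Le g (f^(8 N2+2))`.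
(2a) `Le g (f^(8 N2+2))`: with `Q = (8 N2+2) η2 ≤ c κ/100 ≤ 1/16`: `mv_pow` on radius `φ' x/8` gives
`Mv (f^(8N2+2)) t (Q φ' x)` for `|t - x| ≤ φ' x/16`, so `Mv g t (Q φ' x)` (`Le.mv`).
First alternative of `F5`: `φ' x c ≤ |g x - x| ≤ Q φ' x < c φ' x`, contradiction.
Second alternative: `κ φ0 x ≤ φ' x ≤ φ0 x`, so `Mv g t (Q φ0 x)` for `|t - x| ≤ κ φ0 x/16`.
`Along Γ g φ0 x p`: every `z ∈ uIcc x p` is within `φ0 x ≤ 2 φ0 p` of `p`, so `z ∈ J`, `φ z = φ0 z` by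
`OKe` (`along`).  `Cst.x2`: `Mv g p (κ φ0 p/3)`, against `κ φ0 p/2 ≤ |g p - p|` and `φ0 p > 0`.
(2b) `Le ((f^2)^N2) (g^2)`: `g ∈ VS` has `x1 ∈ J` with `LL g x1 (φ x1) η3`; so `LL f x1 (φ x1) η3`
(`Cst.gl`) and `f ∈ VS`.  `LL g x (φ x) η1` (`F5` with `x' = x`), so `Cst.sg3` gives `LL f x (φ x) ηd`, and
`cp_small` applies.
-/

set_option autoImplicit false
open Set Filter Topology MeasureTheory Metric

namespace Pool.Agent.H52.GS

variable {Γ : Subgroup (ℝ ≃o ℝ)} {ηM : ℝ} {e : Env} {α β a re : ℝ} {X : Set ℝ}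
  {fam fam' : Set (ℝ ≃o ℝ)} {φ : ℝ → ℝ} {V : Set (ℝ ≃o ℝ)}

private theorem f6_pos {ψ : ℝ → ℝ} {a x : ℝ} (hx : x ∈ JJ ψ a) : 0 < ψ x :=
  hx x right_mem_uIcc

private theorem f6_num {Γ : Subgroup (ℝ ≃o ℝ)} {ηM : ℝ} {e : Env} (hc : Cst Γ ηM e) :
    0 < e.η2 ∧ (8 * (e.N2 : ℝ) + 2) * e.η2 < e.c ∧ (8 * (e.N2 : ℝ) + 2) * e.η2 ≤ 1 / 16 ∧
      e.η2 ≤ (8 * (e.N2 : ℝ) + 2) * e.η2 ∧ 0 ≤ (8 * (e.N2 : ℝ) + 2) * e.η2 := by
  have h0 : 0 < e.η2 := lt_of_lt_of_le hc.η0 hc.h32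
  have h1 := hc.num2
  have hN : (0 : ℝ) ≤ (e.N2 : ℝ) := Nat.cast_nonneg _
  have h2 : e.c * e.κ / 100 < e.c := by
    have := hc.c0
    have := hc.c1
    have := hc.κ0
    have := hc.κ1
    nlinarith
  have h3 : e.η2 ≤ (8 * (e.N2 : ℝ) + 2) * e.η2 := by nlinarith
  have h4 := hc.c1
  refine ⟨h0, by linarith, by linarith, h3, by linarith⟩

theorem F6e (h : StepH Γ ηM e α β a re X fam fam' φ V) {x : ℝ}
    (hx : x ∈ JJ (phN e α β a fam' φ) a) (hlow : phN e α β a fam' φ x < ph0 α β x) :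
    ∃ f ∈ V ∪ VS e a fam' φ, LL f x (phN e α β a fam' φ x) (2 * e.c) ∧
      ∀ x' ∈ JJ (phN e α β a fam' φ) a, |x' - x| ≤ 4 * ph0 α β x →
        phN e α β a fam' φ x' = ph0 α β x' → LL f x' (ph0 α β x') e.η1 := by
  have hxJ := JJ_phN h hx
  have hle := phN_le h x
  have hkey : ∀ x', phN e α β a fam' φ x' = ph0 α β x' → φ x' = ph0 α β x' := by
    intro x' hx'
    have h1 := phN_le h x'
    have h2 := h.st.le x'
    linarith
  rcases hle.eq_or_lt with heq | hlt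
  · have hlow' : φ x < ph0 α β x := by rw [← heq]; exact hlow
    obtain ⟨f, hf, hL, hL'⟩ := h.st.e x hxJ hlow'
    refine ⟨f, Or.inl hf, by rw [heq]; exact hL, ?_⟩
    intro x' hx' hd hx'0
    exact hL' x' (JJ_phN h hx') hd (hkey x' hx'0)
  · obtain ⟨g, hg, hL, hL', -⟩ := F5 h hx hlt
    refine ⟨g, Or.inr hg, hL, ?_⟩
    intro x' hx' hd hx'0
    have := hL' x' (JJ_phN h hx') hd
    rwa [hkey x' hx'0] at this

theorem cp_small (h : StepH Γ ηM e α β a re X fam fam' φ V) {f : ℝ ≃o ℝ}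
    (hf : f ∈ VS e a fam' φ) {x : ℝ} (hx : x ∈ JJ (phN e α β a fam' φ) a)
    (hd : LL f x (φ x) e.ηd) (h2 : LL f x (phN e α β a fam' φ x) e.η2) : False := by
  have hP := f6_pos hx
  have hxJ := JJ_phN h hx
  have hcp := core_exists h hf hxJ hd
  have h3 := phN_cp h hcp x
  rw [sub_self, abs_zero, add_zero] at h3
  have h4 := (h2 x (by rw [sub_self, abs_zero]; linarith)).1
  have hc := h.cst.c0
  obtain ⟨-, hn1, -, hn2, -⟩ := f6_num h.cst
  rw [le_div_iff₀ hc] at h3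
  nlinarith

theorem F6cd (h : StepH Γ ηM e α β a re X fam fam' φ V) {f : ℝ ≃o ℝ} (hf : f ∈ fam')
    (hf1 : f ≠ 1) {x : ℝ} (hx : x ∈ JJ (phN e α β a fam' φ) a)
    (h2 : LL f x (phN e α β a fam' φ x) e.η2)
    (h3 : f ∈ V ∨ f ∈ VS e a fam' φ ∨ LL f x (phN e α β a fam' φ x) e.η3) : False := by
  have hP := f6_pos hx
  have hxJ := JJ_phN h hx
  have hφ := f6_pos hxJ
  have hle := phN_le h x
  have hle0 := h.st.le x
  obtain ⟨hη2, hn1, hn16, hn2, hn0⟩ := f6_num h.cst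
  have hc := h.cst.c0
  have hκ := h.cst.κ0
  rcases hle.eq_or_lt with heq | hlt
  · have h2' : LL f x (φ x) e.η2 := by rw [← heq]; exact h2
    have hfd : LL f x (φ x) e.ηd := h2'.mono hφ.le h.cst.h2d
    rcases h3 with h3 | h3 | h3
    · exact h.st.d f h3 x hxJ h2'
    · exact cp_small h h3 hx hfd h2
    · refine cp_small h ⟨hf, hf1, x, hxJ, ?_⟩ hx hfd h2
      rw [← heq]
      exact h3
  · obtain ⟨g, hg, hgL, hg1, hor⟩ := F5 h hx hlt
    obtain ⟨hgf, hgne, x1, hx1, hgx1⟩ := hg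
    have hrel : ∀ k ∈ fam', Rel Γ k x (phN e α β a fam' φ x) := by
      intro k hk
      refine (h.rel k hk x hxJ).mono ?_
      rw [sub_self, abs_zero]
      linarith
    have hP1 : phN e α β a fam' φ x ≤ 1 := by
      have := h.geo.ph1 x
      linarith
    have hcom : f ^ 2 * g ^ 2 = g ^ 2 * f ^ 2 := by
      refine h.cst.com f g x _ hP hP1 (hrel f hf) (hrel g hgf) ?_ hgL
      refine h2.mono hP.le ?_
      linarith
    rcases dich h.gp (Γ.pow_mem (h.gam hgf) 2) (Γ.pow_mem (h.gam hf) 2) hcom.symm (F1_sq hgne)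
      e.N2 with hA | hB
    · -- `Le ((f ^ 2) ^ N2) (g ^ 2)`
      have hfVS : f ∈ VS e a fam' φ := ⟨hf, hf1, x1, hx1,
        h.cst.gl f g x1 (φ x1) (f6_pos hx1) (h.rel f hf x1 hx1) (h.rel g hgf x1 hx1) hgx1 hA⟩
      have hgx : LL g x (φ x) e.η1 := by
        refine hg1 x hxJ ?_
        rw [sub_self, abs_zero]
        linarith
      have hfd : LL f x (φ x) e.ηd := h.cst.sg3 f g x (φ x) hφ (h.rel f hf x hxJ) hgx hA
      exact cp_small h hfVS hx hfd h2
    · -- `Le g (f ^ (8 N2 + 2))`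
      rw [← pow_mul] at hB
      have hB' := Le.pow_le (N := 2) (by norm_num) hB
      set P := phN e α β a fam' φ x with hPdef
      have hMv : ∀ t, |t - x| ≤ P / 16 → Mv g t ((8 * (e.N2 : ℝ) + 2) * e.η2 * P) := by
        intro t ht
        have h5 := mv_pow (f := f) (x := x) (r := P / 8) (d := e.η2 * P) (by positivity)
          h2 (2 * (4 * e.N2 + 1)) (y := t) (by
            push_cast
            have : (8 * (e.N2 : ℝ) + 2) * (e.η2 * P) ≤ 1 / 16 * P := by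
              rw [← mul_assoc]
              exact mul_le_mul_of_nonneg_right hn16 hP.le
            linarith)
        have h6 := hB'.mv h5
        refine h6.mono (le_of_eq ?_)
        push_cast
        ring
      rcases hor with ⟨lo, hi, -, -, -, hlow, -⟩ | ⟨hκP, p, hp, hok, hxp⟩
      · have h7 := (hMv x (by rw [sub_self, abs_zero]; linarith)).1
        nlinarith
      · have hp0 : 0 < ph0 α β p := lt_of_lt_of_le (f6_pos hp) (h.st.le p)
        have hx0 : 0 < ph0 α β x := lt_of_lt_of_le hφ (h.st.le x)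
        have hlip := ph0_lip α β x p
        have h2p : ph0 α β x ≤ 2 * ph0 α β p := by
          have := (abs_le.1 hlip).2
          have h8 : |x - p| / 10000 ≤ ph0 α β x / 10000 := by linarith
          linarith
        have hal : Along Γ g (ph0 α β) x p := by
          refine along h hgf hxJ hp ?_
          intro z hz
          refine (hok.2 z ?_).2
          have h9 : |z - p| ≤ |x - p| := by
            rcases le_total x p with hh | hh
            · rw [uIcc_of_le hh] at hz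
              rw [abs_of_nonpos (by linarith [hz.2]), abs_of_nonpos (by linarith)]
              linarith [hz.1]
            · rw [uIcc_of_ge hh] at hz
              rw [abs_of_nonneg (by linarith [hz.1]), abs_of_nonneg (by linarith)]
              linarith [hz.2]
          linarith
        have hx2 := h.cst.x2 g (ph0 α β) x p hal (by linarith) (by
          intro y hy
          have h10 := hMv y (by
            have : e.κ * ph0 α β x / 16 ≤ P / 16 := by linarith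
            linarith)
          refine h10.mono ?_
          exact mul_le_mul_of_nonneg_left (by linarith) hn0)
        have h11 := hok.1
        have h12 := hx2.1
        have h13 : 0 < e.κ * ph0 α β p := mul_pos hκ hp0
        linarith

end Pool.Agent.H52.GS
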