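import Mathlib
import Pool.Agent.H52.GS.F5
import Pool.Agent.H52.GS.A15

/-!
# GS-F7: property (b) for the new graph

Notation `φ0 = ph0 α β`, `φ' = phN e α β a fam' φ`, `J = JJ φ a`, `J' = JJ φ' a ⊆ J`,
`u z = g z - z`, `c = e.c`, `κ = e.κ`.

PROOF of `SS_X`.  If `x ∈ Ioo α β`, `0 < r ≤ φ0 x` and `c κ φ0 x ≤ 2 c r` then `SS Γ X c re a x r`:
take `g = 1` (`Uni 1 x (r/2)`: the identity) and `y ∈ X` from `Geo.near`, `y ≤ x` if `a < x`,
`x ≤ y` otherwise; `deriv id = 1`, `1 * r ≤ φ0 x ≤ re` (`Geo.phre`).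

PROOF of `F7`.  `r = φ' x > 0`.
CASE I: `κ φ0 x/2 ≤ r`: `SS_X`.
CASE II: `r = φ x`: `Stage.b`.
CASE III: `r < φ x` and `r < κ φ0 x/2`.  `F5` gives `g`; its second alternative is impossible
(`κ φ0 x ≤ r`), so there are `lo ≤ x ≤ hi`, `Core g lo hi`, `c r ≤ |u x| ≤ 1.01 c r`; and
`LL g x (φ x) η1`.  Put `R = φ x`; `Cst.swp`: `NI g x (R/128) (c R/10^6)`.
There are `g0 ∈ Γ`, `y0` with `Side a x y0`, `|y0 - x| ≤ 2 c R`, `Uni g0 x (R/2)`, `g0 y0 ∈ X`,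
`deriv g0 y0 * R ≤ re`, and moreover `|y0 - x| ≤ 2 c κ φ0 x`: if `R < κ φ0 x` take them from
`Stage.b` at `x`; if `κ φ0 x ≤ R` take `g0 = 1` and `y0 ∈ X` from `Geo.near` on the `a`-side
(`|y0 - x| ≤ c κ φ0 x ≤ c R`).
CLAIM: `g z ≠ z` for all `z ∈ uIcc x y0`.  Suppose `g z = z`.  `|z - x| ≤ 2 c R < φ x`, so
`z ∈ J` (`JJ_near`).
`z ∈ uIcc a x`: since `φ' x < φ x` we have `|x - a| > 2 φ0 a` (`phN_near`), and
`φ0 x ≤ φ0 a + |x - a|/10000 ≤ |x - a|`, so `|z - x| ≤ 2 c κ φ0 x < |x - a|`; and `z` is on the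
`a`-side of `x` (`Side a x y0`).  Hence `φ' z > 0` as `x ∈ J'`.
If `lo ≤ z ≤ hi` then `z` is a core point of `g` and `φ' z ≤ |u z|/c + 0 = 0` (`phN_cp`), a
contradiction.  Otherwise say `z < lo` (`z > hi` is symmetric): `z < lo ≤ x`, so
`lo ∈ uIcc z x ⊆ J` and `OKe g lo`: `κ φ0 lo/2 ≤ |u lo| = |u lo - u z| ≤ (c/4)|lo - z|
≤ (c/4) 2 c κ φ0 x` (`u_lip` with `y = x`), impossible since `φ0 x ≤ 2 φ0 lo` and `c` is small.
`sweep` (A15) with `f = g`, `y = y0`: `g1 ∈ Γ`, `y' ∈ uIcc x y0`, `|y' - x| ≤ 2 c r`,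
`Uni g1 x (r/2)`, `g1 y' ∈ X`, `deriv g1 y' * r ≤ re`.  `Side a x y'` follows from `Side a x y0`.
-/

set_option autoImplicit false
open Set Filter Topology MeasureTheory Metric

namespace Pool.Agent.H52.GS

variable {Γ : Subgroup (ℝ ≃o ℝ)} {ηM : ℝ} {e : Env} {α β a re : ℝ} {X : Set ℝ}
  {fam fam' : Set (ℝ ≃o ℝ)} {φ : ℝ → ℝ} {V : Set (ℝ ≃o ℝ)}

theorem f7_uni_one (x r : ℝ) : Uni ((1 : ℝ ≃o ℝ) : ℝ → ℝ) x r :=
  ⟨id, ⟨differentiableOn_id, fun _ _ => rfl⟩, Function.injective_id.injOn⟩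

theorem f7_deriv_one (y : ℝ) : deriv ((1 : ℝ ≃o ℝ) : ℝ → ℝ) y = 1 := by
  have h5 : ((1 : ℝ ≃o ℝ) : ℝ → ℝ) = id := rfl
  rw [h5, deriv_id]

theorem f7_near (hg : Geo Γ ηM e α β a re X) {x : ℝ} (hx : x ∈ Ioo α β) :
    ∃ y ∈ X, Side a x y ∧ |y - x| ≤ e.c * (e.κ * ph0 α β x) := by
  obtain ⟨⟨y1, hy1, h1, h2⟩, ⟨y2, hy2, h3, h4⟩⟩ := hg.near x hx
  by_cases hax : a < x
  · refine ⟨y2, hy2, ⟨fun _ => h3, fun h => absurd hax (not_lt.2 h.le)⟩, ?_⟩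
    rw [abs_of_nonpos (by linarith)]
    linarith
  · refine ⟨y1, hy1, ⟨fun h => absurd h hax, fun _ => h1⟩, ?_⟩
    rw [abs_of_nonneg (by linarith)]
    linarith

theorem SS_X (hc : 0 < e.c) (hg : Geo Γ ηM e α β a re X) {x r : ℝ} (hx : x ∈ Ioo α β)
    (hr : 0 < r) (hr1 : r ≤ ph0 α β x) (hr2 : e.κ * ph0 α β x ≤ 2 * r) :
    SS Γ X e.c re a x r := by
  obtain ⟨y, hy, hside, hyx⟩ := f7_near hg hx
  refine ⟨1, Γ.one_mem, y, hside, ?_, f7_uni_one _ _, hy, ?_⟩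
  · have h1 := mul_le_mul_of_nonneg_left hr2 hc.le
    linarith
  · rw [f7_deriv_one, one_mul]
    exact hr1.trans (hg.phre x)

theorem f7_end (h : StepH Γ ηM e α β a re X fam fam' φ V) {g : ℝ ≃o ℝ} {x z p : ℝ}
    (hcp : CP e α β a fam' φ g x) (hz : z ∈ JJ φ a) (hgz : g z = z)
    (hzx : |z - x| ≤ 2 * e.c * (e.κ * ph0 α β x)) (hp : p ∈ uIcc x z)
    (hok : p ∈ JJ φ a → OKe e α β a φ g p) : False := by
  have hc0 := h.cst.c0
  have hc1 := h.cst.c1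
  have hκ0 := h.cst.κ0
  have hκ1 := h.cst.κ1
  have hxJ := hcp.2.1
  have hpJ : p ∈ JJ φ a := JJ_conn hxJ hz hp
  have hph : 0 < ph0 α β x := ph0_pos.2 (JJ_sub h.st hxJ)
  have hκφ : 0 < e.κ * ph0 α β x := mul_pos hκ0 hph
  have hκφ1 : e.κ * ph0 α β x ≤ 1 / 1000000 * ph0 α β x :=
    mul_le_mul_of_nonneg_right (hκ1.trans hc1) hph.le
  have hcκ : e.c * (e.κ * ph0 α β x) ≤ 1 / 1000000 * (e.κ * ph0 α β x) :=
    mul_le_mul_of_nonneg_right hc1 hκφ.le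
  have hcκ0 : 0 < e.c * (e.κ * ph0 α β x) := mul_pos hc0 hκφ
  have hccκ : e.c * (e.c * (e.κ * ph0 α β x)) ≤ 1 / 1000000 * (e.c * (e.κ * ph0 α β x)) :=
    mul_le_mul_of_nonneg_right hc1 hcκ0.le
  have hpx : |p - x| ≤ |z - x| := abs_sub_left_of_mem_uIcc hp
  have hpz : |z - p| ≤ |z - x| := abs_sub_right_of_mem_uIcc hp
  have hu := u_lip h hcp hpJ hz (by linarith) (by linarith)
  rw [hgz, sub_self, sub_zero, abs_sub_comm p z] at hu
  have hok' := (hok hpJ).1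
  have hlip := (abs_le.1 (ph0_lip α β x p)).2
  rw [abs_sub_comm x p] at hlip
  have h1 : e.κ * (ph0 α β x / 2) ≤ e.κ * ph0 α β p :=
    mul_le_mul_of_nonneg_left (by linarith) hκ0.le
  have h2 : e.c / 4 * |z - p| ≤ e.c / 4 * (2 * e.c * (e.κ * ph0 α β x)) :=
    mul_le_mul_of_nonneg_left (hpz.trans hzx) (by positivity)
  linarith

theorem F7 (hηM : 0 < ηM) (h : StepH Γ ηM e α β a re X fam fam' φ V) {x : ℝ}
    (hx : x ∈ JJ (phN e α β a fam' φ) a) :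
    SS Γ X e.c re a x (phN e α β a fam' φ x) := by
  have hc0 := h.cst.c0
  have hc1 := h.cst.c1
  have hκ0 := h.cst.κ0
  have hκ1 := h.cst.κ1
  have hxJ : x ∈ JJ φ a := JJ_phN h hx
  have hxI : x ∈ Ioo α β := JJ_sub h.st hxJ
  have hr0 : 0 < phN e α β a fam' φ x := JJ_pos hx
  have hle := phN_le h x
  have hφ := h.st.le x
  have hph : 0 < ph0 α β x := ph0_pos.2 hxI
  by_cases hI : e.κ * ph0 α β x / 2 ≤ phN e α β a fam' φ x
  · exact SS_X hc0 h.geo hxI hr0 (hle.trans hφ) (by linarith)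
  push Not at hI
  rcases hle.eq_or_lt with hII | hlt
  · rw [hII]
    exact h.st.b x hxJ
  have hκφ : 0 < e.κ * ph0 α β x := mul_pos hκ0 hph
  obtain ⟨g, hg, -, hA, hcase⟩ := F5 h hx hlt
  obtain ⟨lo, hi, hlo, hhi, hcore, hu1, hu2⟩ : ∃ lo hi, lo ≤ x ∧ x ≤ hi ∧
      Core e α β a φ g lo hi ∧ phN e α β a fam' φ x * e.c ≤ |g x - x| ∧
      |g x - x| ≤ 101 / 100 * e.c * phN e α β a fam' φ x := by
    rcases hcase with hc | hc
    · exact hc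
    · exfalso
      linarith [hc.1]
  have hcpx : CP e α β a fam' φ g x := ⟨hg, hxJ, lo, hi, hlo, hhi, hcore⟩
  have hR : 0 < φ x := JJ_pos hxJ
  have hLL : LL g x (φ x) e.η1 := hA x hxJ (by rw [sub_self, abs_zero]; positivity)
  have hNI := h.cst.swp g x (φ x) hR (h.rel g hg.1 x hxJ) hLL
  have hcφ : e.c * φ x ≤ 1 / 1000000 * φ x := mul_le_mul_of_nonneg_right hc1 hR.le
  have hcφ0 : 0 < e.c * φ x := mul_pos hc0 hR
  have hκφ1 : e.κ * ph0 α β x ≤ 1 / 1000000 * ph0 α β x :=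
    mul_le_mul_of_nonneg_right (hκ1.trans hc1) hph.le
  have hcκ : e.c * (e.κ * ph0 α β x) ≤ 1 / 1000000 * (e.κ * ph0 α β x) :=
    mul_le_mul_of_nonneg_right hc1 hκφ.le
  have hcκ0 : 0 < e.c * (e.κ * ph0 α β x) := mul_pos hc0 hκφ
  obtain ⟨g0, hg0, y0, hside, hy0R, hy0κ, hU, hX, hd⟩ : ∃ g0 ∈ Γ, ∃ y0 : ℝ, Side a x y0 ∧
      |y0 - x| ≤ 2 * e.c * φ x ∧ |y0 - x| ≤ 2 * e.c * (e.κ * ph0 α β x) ∧
      Uni g0 x (φ x / 2) ∧ g0 y0 ∈ X ∧ deriv (g0 : ℝ → ℝ) y0 * φ x ≤ re := by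
    by_cases hR2 : φ x < e.κ * ph0 α β x
    · obtain ⟨g0, hg0, y0, h1, h2, h3, h4, h5⟩ := h.st.b x hxJ
      refine ⟨g0, hg0, y0, h1, h2, h2.trans ?_, h3, h4, h5⟩
      exact mul_le_mul_of_nonneg_left hR2.le (by positivity)
    · push Not at hR2
      obtain ⟨y, hy, hside, hyx⟩ := f7_near h.geo hxI
      have h1 := mul_le_mul_of_nonneg_left hR2 hc0.le
      refine ⟨1, Γ.one_mem, y, hside, by linarith, by linarith, f7_uni_one _ _, hy, ?_⟩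
      rw [f7_deriv_one, one_mul]
      exact hφ.trans (h.geo.phre x)
  have hne : ∀ z ∈ uIcc x y0, g z ≠ z := by
    intro z hz hgz
    have hzx : |z - x| ≤ |y0 - x| := abs_sub_left_of_mem_uIcc hz
    have hz1 : |z - x| ≤ 2 * e.c * φ x := hzx.trans hy0R
    have hz2 : |z - x| ≤ 2 * e.c * (e.κ * ph0 α β x) := hzx.trans hy0κ
    have hzJ : z ∈ JJ φ a := JJ_near h.st.lip hxJ (by linarith)
    have hxa : 2 * ph0 α β a < |x - a| := by
      by_contra hcon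
      push Not at hcon
      have h1 := phN_near hηM h hcon
      linarith
    have hphx : ph0 α β x ≤ |x - a| := by
      have h1 := (abs_le.1 (ph0_lip α β x a)).2
      have h2 := ph0_nn α β a
      linarith
    have hzxa : |z - x| < |x - a| := by linarith
    have hzax : z ∈ uIcc a x := by
      rcases lt_trichotomy a x with hax | hax | hax
      · have hy := hside.1 hax
        rw [uIcc_of_ge hy] at hz
        rw [uIcc_of_le hax.le]
        rw [abs_of_nonpos (by linarith [hz.2]), abs_of_pos (by linarith)] at hzxa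
        exact ⟨by linarith, hz.2⟩
      · exfalso
        rw [← hax, sub_self, abs_zero] at hxa
        have h2 := ph0_nn α β a
        linarith
      · have hy := hside.2 hax
        rw [uIcc_of_le hy] at hz
        rw [uIcc_of_ge hax.le]
        rw [abs_of_nonneg (by linarith [hz.1]), abs_of_neg (by linarith)] at hzxa
        exact ⟨hz.1, by linarith⟩
    have hφz : 0 < phN e α β a fam' φ z := hx z hzax
    by_cases hzlo : lo ≤ z
    · by_cases hzhi : z ≤ hi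
      · have hcp : CP e α β a fam' φ g z := ⟨hg, hzJ, lo, hi, hzlo, hzhi, hcore⟩
        have h1 := phN_cp h hcp z
        rw [hgz, sub_self, abs_zero, zero_div, add_zero] at h1
        linarith
      · push Not at hzhi
        refine f7_end h hcpx hzJ hgz hz2 (p := hi) ?_ hcore.2.1
        rw [uIcc_of_le (hhi.trans hzhi.le)]
        exact ⟨hhi, hzhi.le⟩
    · push Not at hzlo
      refine f7_end h hcpx hzJ hgz hz2 (p := lo) ?_ hcore.1
      rw [uIcc_of_ge (hzlo.le.trans hlo)]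
      exact ⟨hzlo.le, hlo⟩
  obtain ⟨g1, hg1, y', hy', h1, h2, h3, h4⟩ := sweep (h.gam hg.1) hg0 hc0 hc1 hR hr0 hNI
    (by linarith) hu2 hy0R hne hU hX hd
  refine ⟨g1, hg1, y', ⟨fun hax => ?_, fun hax => ?_⟩, h1, h2, h3, h4⟩
  · have hy := hside.1 hax
    rw [uIcc_of_ge hy] at hy'
    exact hy'.2
  · have hy := hside.2 hax
    rw [uIcc_of_le hy] at hy'
    exact hy'.1

end Pool.Agent.H52.GS
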