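import Mathlib
import Pool.Agent.H52.GS.F6
import Pool.Agent.H52.GS.F7
import Pool.Agent.H52.GS.B7

/-!
# GS-F8: the step, stage 0 and all stages

PROOF of `step`.  `φ' = phN e α β a fam' φ`, `V' = V ∪ VS e a fam' φ`.  `lip`, `nn`, `le`
(`phN_le`, `Stage.le`), `nr` (`phN_near`, `Stage.nr`), `sub` (`V ⊆ fam ⊆ fam'`, `VS ⊆ fam'`), `b`
(`F7`), `cc` (`F6cd`, third alternative; `LL` with `η3` implies `LL` with `η2`, `LL.mono`), `d` (`F6cd`:
`f ∈ V'` is in `fam'`, and `f ≠ 1` because `LL 1 a (φ a) η2` would contradict `Stage.d` for `f ∈ V`,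
resp. by definition for `f ∈ VS`), `e` (`F6e`).

PROOF of `stage0`.  `φ = ph0 α β`, `V = ∅`, family `FF S 0`.  `lip` from `ph0_lip`; `b`: `SS_X` with
`r = ph0 x` (`κ ≤ 2`; `x ∈ Ioo α β`); `cc`: `f = (TT^k)⁻¹ TT^l = TT^j`, `j ≠ 0`,
`|f x - x| = |j| 2 pi > 1 ≥ η3 ph0 x`.  `d`, `e` are vacuous.

PROOF of `stages`.  Induction on `m`.  Given a stage `(φ, V)` for `FF S m`: `claimA` (with its
`ε0`; `η3` of the environment; `X = XX Γ ε re`) gives `Uni w x (φ x/2)` for `w ∈ BB S (m+1)`,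
`x ∈ JJ φ a`; so every `f = W⁻¹ w ∈ FF S (m+1)` has `Rel Γ f x (φ x)`.  `FF_mono`, `FF_sub`; `step`.
-/

set_option autoImplicit false
open Set Filter Topology MeasureTheory Metric

namespace Pool.Agent.H52.GS

variable {Γ : Subgroup (ℝ ≃o ℝ)} {ηM : ℝ} {e : Env} {α β a re : ℝ} {X : Set ℝ}
  {fam fam' : Set (ℝ ≃o ℝ)} {φ : ℝ → ℝ} {V : Set (ℝ ≃o ℝ)}

theorem step (hηM : 0 < ηM) (h : StepH Γ ηM e α β a re X fam fam' φ V) :
    ∃ φ' V', Stage Γ e α β a re X fam' φ' V' := by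
  refine ⟨phN e α β a fam' φ, V ∪ VS e a fam' φ, ?_⟩
  have hsub : V ∪ VS e a fam' φ ⊆ fam' := by
    rintro f (hf | hf)
    · exact h.sub' (h.st.sub hf)
    · exact hf.1
  have hmono : ∀ {f : ℝ ≃o ℝ} {x : ℝ}, x ∈ JJ (phN e α β a fam' φ) a →
      LL f x (phN e α β a fam' φ x) e.η3 → LL f x (phN e α β a fam' φ x) e.η2 :=
    fun hx hL => hL.mono (phN_nn h _) h.cst.h32
  refine
    { lip := phN_lip h
      nn := phN_nn h
      le := fun x => (phN_le h x).trans (h.st.le x)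
      nr := fun x hx => (phN_near hηM h hx).trans (h.st.nr x hx)
      sub := hsub
      b := fun x hx => F7 hηM h hx
      cc := fun f hf hf1 x hx hL => F6cd h hf hf1 hx (hmono hx hL) (Or.inr (Or.inr hL))
      d := ?_
      e := fun x hx hlow => F6e h hx hlow }
  intro f hf x hx hL
  rcases hf with hf | hf
  · refine F6cd h (h.sub' (h.st.sub hf)) ?_ hx hL (Or.inl hf)
    rintro rfl
    have ha := a_mem h.geo h.st
    refine h.st.d 1 hf a ha ?_
    intro y _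
    have h0 : 0 ≤ e.η2 * φ a :=
      mul_nonneg (lt_of_lt_of_le h.cst.η0 h.cst.h32).le (h.st.nn a)
    constructor
    · simpa using h0
    · simpa using h0
  · exact F6cd h hf.1 hf.2.1 hx hL (Or.inr (Or.inl hf))

theorem stage0 (hgp : Gp Γ) (hc : Cst Γ ηM e) (hg : Geo Γ ηM e α β a re X)
    (S : Set (ℝ ≃o ℝ)) : Stage Γ e α β a re X (FF S 0) (ph0 α β) ∅ := by
  have hη1 : e.η3 ≤ 1 := by
    have h1 : e.η3 ≤ e.c ^ 2 :=
      hc.h32.trans (hc.h2d.trans (hc.hdp.trans (hc.hp1.trans hc.h1c)))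
    have := hc.c0
    have := hc.c1
    nlinarith
  refine
    { lip := fun x y => (ph0_lip α β x y).trans (by
        have := abs_nonneg (x - y)
        linarith)
      nn := ph0_nn α β
      le := fun x => le_rfl
      nr := fun x _ => rfl
      sub := empty_subset _
      b := ?_
      cc := ?_
      d := fun f hf => absurd hf (notMem_empty f)
      e := fun x _ hlow => absurd hlow (lt_irrefl _) }
  · intro x hx
    have hx0 : 0 < ph0 α β x := hx x right_mem_uIcc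
    refine SS_X hc.c0 hg (ph0_pos.1 hx0) hx0 le_rfl ?_
    have h1 : e.κ ≤ 2 := by
      have := hc.κ1
      have := hc.c1
      linarith
    exact mul_le_mul_of_nonneg_right h1 hx0.le
  · rintro f ⟨w, ⟨k, rfl⟩, W, ⟨l, rfl⟩, rfl⟩ hf1 x hx hL
    have hx0 : 0 < ph0 α β x := hx x right_mem_uIcc
    have e1 : (TT ^ l)⁻¹ * TT ^ k = TT ^ (k - l) := by
      rw [← zpow_neg, ← zpow_add]
      congr 1
      ring
    rw [e1] at hf1 hL
    have hj : k - l ≠ 0 := by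
      intro h0
      exact hf1 (by rw [h0, zpow_zero])
    have h2 := (hL x (by rw [sub_self, abs_zero]; linarith)).1
    rw [TT_zpow, add_sub_cancel_left, abs_mul, abs_of_pos (by positivity : 0 < 2 * Real.pi)] at h2
    have h3 : (1 : ℝ) ≤ |((k - l : ℤ) : ℝ)| := by
      rw [← Int.cast_abs]
      exact_mod_cast Int.one_le_abs hj
    have h4 := hg.ph1 x
    have h5 := Real.pi_gt_three
    have h6 : e.η3 * ph0 α β x ≤ 1 := by
      have := hc.η0
      nlinarith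
    nlinarith

theorem stages (hηM : 0 < ηM) (hgp : Gp Γ) (hc : Cst Γ ηM e) {S : Set (ℝ ≃o ℝ)}
    (hSf : S.Finite) (hSΓ : S ⊆ Γ) (h1 : (1 : ℝ ≃o ℝ) ∈ S) :
    ∃ ε0 : ℝ, 0 < ε0 ∧ ∀ ε re α β a : ℝ, 0 < ε → ε ≤ ε0 →
      Geo Γ ηM e α β a re (XX Γ ε re) → ∀ m : ℕ,
      (∃ φ V, Stage Γ e α β a re (XX Γ ε re) (FF S m) φ V) ∧
      ∃ φ : ℝ → ℝ, (∀ x, |x - a| ≤ 2 * ph0 α β a → φ x = ph0 α β x) ∧
        ∀ w ∈ BB S (m + 1), ∀ x ∈ JJ φ a, Uni w x (φ x / 2) ∧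
          deriv (w : ℝ → ℝ) x * φ x ≤ 20 * ε := by
  have hη3 : e.η3 ≤ 1 / 100 := by
    have h2 : e.η3 ≤ e.c ^ 2 :=
      hc.h32.trans (hc.h2d.trans (hc.hdp.trans (hc.hp1.trans hc.h1c)))
    have := hc.c0
    have := hc.c1
    nlinarith
  have hc3 : e.c ≤ 1 / 1000 := by
    have := hc.c1
    linarith
  obtain ⟨ε0, hε0, hA⟩ := claimA hgp hSf hSΓ h1 hc.η0 hη3
  refine ⟨ε0, hε0, ?_⟩
  intro ε re α β a hε hε1 hg
  have key : ∀ (m : ℕ) (φ : ℝ → ℝ) (V : Set (ℝ ≃o ℝ)),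
      Stage Γ e α β a re (XX Γ ε re) (FF S m) φ V →
      ∀ w ∈ BB S (m + 1), ∀ x ∈ JJ φ a, Uni w x (φ x / 2) ∧
          deriv (w : ℝ → ℝ) x * φ x ≤ 20 * ε := by
    intro m φ V hst
    exact hA ε re e.c hε hε1 hc.c0 hc3 φ a m hst.lip hst.b hst.cc
  intro m
  have hst : ∃ φ V, Stage Γ e α β a re (XX Γ ε re) (FF S m) φ V := by
    induction m with
    | zero => exact ⟨_, _, stage0 hgp hc hg S⟩
    | succ m ih =>
      obtain ⟨φ, V, hst⟩ := ih
      have hk := key m φ V hst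
      refine step hηM (fam := FF S m) (φ := φ) (V := V)
        { gp := hgp
          cst := hc
          geo := hg
          st := hst
          sub' := FF_mono h1 (Nat.le_succ m)
          gam := FF_sub hgp hSΓ (m + 1)
          rel := ?_ }
      rintro f ⟨w, hw, W, hW, rfl⟩ x hx
      exact ⟨w, BB_sub hgp hSΓ _ hw, W, BB_sub hgp hSΓ _ hW, rfl, (hk w hw x hx).1,
        (hk W hW x hx).1⟩
  refine ⟨hst, ?_⟩
  obtain ⟨φ, V, hst⟩ := hst
  exact ⟨φ, hst.nr, key m φ V hst⟩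

end Pool.Agent.H52.GS
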