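import Mathlib

/-!
# GS-A4: two constants theorem for a disc and its real diameter

PROOF.  WLOG `Im z ≥ 0` (otherwise apply the result to `z ↦ conj (v (conj z))`, which is holomorphic
on the same disc with the same bounds).  Put `R' = 19 R / 20` and, for `ω` with
`0 ≤ Re ω ≤ pi/2`, `ζ = exp (i ω)`, whose argument is `Re ω ∈ [0, pi/2]`; so `Re ζ ≥ 0`,
`Im ζ ≥ 0`, `ζ ≠ -1`, `m = (ζ - 1)/(ζ + 1)` has `‖m‖ ≤ 1`; `f ω = v (x + R' m)` is holomorphic on
the open strip and continuous on the closed strip (`DiffContOnCl`), bounded by `A`.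
If `Re ω = 0`, `ζ > 0` is real, `m` is real with `|m| < 1`, so `‖f ω‖ ≤ B`.
By the three lines theorem (`Complex.HadamardThreeLines.norm_le_interp_of_mem_verticalClosedStrip'`
with `l = 0`, `u = pi/2`) `‖f ω‖ ≤ B^(1-t) A^t` with `t = Re ω / (pi/2)`.
Let `‖z - x‖ ≤ R/4`, `Im z ≥ 0`, `m = (z - x)/R'`, `‖m‖ ≤ 5/19`, `ζ = (1 + m)/(1 - m)`
`= ((1 - ‖m‖^2) + 2 i Im m)/‖1 - m‖^2`, so `Re ζ > 0`, `0 ≤ Im ζ` and
`Im ζ / Re ζ = 2 Im m/(1 - ‖m‖^2) ≤ (10/19)/(1 - 25/361) = 190/336 < 1/√3 = tan (pi/6)`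
(since `(190/336)^2 < 1/3`).  So `arg ζ ∈ [0, pi/6]` (`Complex.arg` of a point with positive real
part is `arctan (im/re)`).  With `ω = - i log ζ` (`exp (i ω) = ζ`, `Re ω = arg ζ`) we have
`v z = f ω`, `t = arg ζ/(pi/2) ≤ 1/3`.  As `0 < B ≤ A`,
`‖v z‖ ≤ B^(1-t) A^t = A (B/A)^(1-t) ≤ A (B/A)^(2/3)`.
-/

set_option autoImplicit false
open Set Filter Topology MeasureTheory Metric

namespace Pool.Agent.H52.GS

theorem a4_ere (w : ℂ) : (Complex.exp (Complex.I * w)).re =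
    Real.exp (-w.im) * Real.cos w.re := by
  have h1 : (Complex.I * w).re = -w.im := by simp
  have h2 : (Complex.I * w).im = w.re := by simp
  rw [Complex.exp_re, h1, h2]

theorem a4_eim (w : ℂ) : (Complex.exp (Complex.I * w)).im =
    Real.exp (-w.im) * Real.sin w.re := by
  have h1 : (Complex.I * w).re = -w.im := by simp
  have h2 : (Complex.I * w).im = w.re := by simp
  rw [Complex.exp_im, h1, h2]

theorem a4_moeb {ζ : ℂ} (h : 0 ≤ ζ.re) : ζ + 1 ≠ 0 ∧ ‖(ζ - 1) / (ζ + 1)‖ ≤ 1 := by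
  have h1 : ζ + 1 ≠ 0 := by
    intro h2
    have h3 := congrArg Complex.re h2
    simp at h3
    linarith
  refine ⟨h1, ?_⟩
  rw [norm_div, div_le_one (norm_pos_iff.2 h1)]
  apply le_of_sq_le_sq _ (norm_nonneg _)
  rw [Complex.sq_norm, Complex.sq_norm, Complex.normSq_apply, Complex.normSq_apply]
  simp
  nlinarith

theorem a4_real {w : ℂ} (h : w.re = 0) : ∃ y : ℝ, |y| < 1 ∧
    (Complex.exp (Complex.I * w) - 1) / (Complex.exp (Complex.I * w) + 1) = (y : ℂ) := by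
  have hp := Real.exp_pos (-w.im)
  refine ⟨(Real.exp (-w.im) - 1) / (Real.exp (-w.im) + 1), ?_, ?_⟩
  · rw [abs_div, abs_of_pos (show (0 : ℝ) < Real.exp (-w.im) + 1 by linarith),
      div_lt_one (by linarith), abs_lt]
    constructor <;> linarith
  · have h1 : Complex.exp (Complex.I * w) = ((Real.exp (-w.im) : ℝ) : ℂ) := by
      apply Complex.ext
      · rw [a4_ere, h, Real.cos_zero, mul_one, Complex.ofReal_re]
      · rw [a4_eim, h, Real.sin_zero, mul_zero, Complex.ofReal_im]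
    rw [h1]
    push_cast
    rfl

theorem a4_arg {ζ : ℂ} (h0 : 0 < ζ.re) (h1 : 0 ≤ ζ.im) (h2 : 3 * ζ.im ^ 2 ≤ ζ.re ^ 2) :
    0 ≤ Complex.arg ζ ∧ Complex.arg ζ ≤ Real.pi / 6 := by
  refine ⟨Complex.arg_nonneg_iff.2 h1, ?_⟩
  rw [Complex.arg_of_re_nonneg h0.le]
  have h3 : Real.arcsin (1 / 2) = Real.pi / 6 := by
    rw [← Real.sin_pi_div_six]
    apply Real.arcsin_sin <;> linarith [Real.pi_pos]
  rw [← h3]
  apply Real.arcsin_le_arcsin
  have h4 : ζ ≠ 0 := by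
    intro h5
    rw [h5] at h0
    simp at h0
  rw [div_le_iff₀ (norm_pos_iff.2 h4)]
  have h5 : 2 * ζ.im ≤ ‖ζ‖ := by
    apply le_of_sq_le_sq _ (norm_nonneg _)
    rw [Complex.sq_norm, Complex.normSq_apply]
    nlinarith
  linarith

theorem a4_strip {v : ℂ → ℂ} {x R A B : ℝ} (hR : 0 < R)
    (hv : DifferentiableOn ℂ v (ball (x : ℂ) R)) (hA : ∀ z ∈ ball (x : ℂ) R, ‖v z‖ ≤ A)
    (hv' : ∀ y : ℝ, |y - x| < R → ‖v (y : ℂ)‖ ≤ B) {w : ℂ} (h0 : 0 ≤ w.re)
    (h1 : w.re ≤ Real.pi / 2) :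
    ‖v (x + (19 * R / 20 : ℝ) * ((Complex.exp (Complex.I * w) - 1) /
      (Complex.exp (Complex.I * w) + 1)))‖ ≤
      B ^ (1 - (w.re - 0) / (Real.pi / 2 - 0)) * A ^ ((w.re - 0) / (Real.pi / 2 - 0)) := by
  have hre : ∀ w : ℂ, 0 ≤ w.re → w.re ≤ Real.pi / 2 → 0 ≤ (Complex.exp (Complex.I * w)).re := by
    intro w g0 g1
    rw [a4_ere]
    exact mul_nonneg (Real.exp_pos _).le (Real.cos_nonneg_of_neg_pi_div_two_le_of_le
      (by linarith [Real.pi_pos]) g1)
  have hmem : ∀ w : ℂ, 0 ≤ w.re → w.re ≤ Real.pi / 2 →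
      (x : ℂ) + (19 * R / 20 : ℝ) * ((Complex.exp (Complex.I * w) - 1) /
      (Complex.exp (Complex.I * w) + 1)) ∈ ball (x : ℂ) R := by
    intro w g0 g1
    rw [mem_ball, dist_eq_norm, add_sub_cancel_left, norm_mul, Complex.norm_real,
      Real.norm_of_nonneg (by positivity)]
    have g2 := (a4_moeb (hre w g0 g1)).2
    have g3 : 19 * R / 20 * ‖(Complex.exp (Complex.I * w) - 1) /
      (Complex.exp (Complex.I * w) + 1)‖ ≤ 19 * R / 20 * 1 :=
      mul_le_mul_of_nonneg_left g2 (by positivity)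
    linarith
  have hpi : (0 : ℝ) < Real.pi / 2 := by positivity
  refine Complex.HadamardThreeLines.norm_le_interp_of_mem_verticalClosedStrip'
    (f := fun w => v (x + (19 * R / 20 : ℝ) * ((Complex.exp (Complex.I * w) - 1) /
      (Complex.exp (Complex.I * w) + 1)))) hpi ⟨h0, h1⟩ ?_ ?_ ?_ ?_
  · apply DifferentiableOn.diffContOnCl
    intro w hw
    have hw' : w ∈ Complex.re ⁻¹' Icc 0 (Real.pi / 2) := by
      refine closure_minimal ?_ (isClosed_Icc.preimage Complex.continuous_re) hw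
      exact preimage_mono Ioo_subset_Icc_self
    have g1 := hmem w hw'.1 hw'.2
    have g2 := (a4_moeb (hre w hw'.1 hw'.2)).1
    have g3 : DifferentiableAt ℂ v _ := (hv _ g1).differentiableAt (isOpen_ball.mem_nhds g1)
    refine DifferentiableAt.differentiableWithinAt ?_
    refine DifferentiableAt.comp (g := v) (f := fun w : ℂ => (x : ℂ) + (19 * R / 20 : ℝ) *
      ((Complex.exp (Complex.I * w) - 1) / (Complex.exp (Complex.I * w) + 1))) w g3 ?_
    refine (differentiableAt_const _).add ((differentiableAt_const _).mul ?_)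
    have g4 : DifferentiableAt ℂ (fun w : ℂ => Complex.exp (Complex.I * w)) w := by fun_prop
    exact (g4.sub_const 1).div (g4.add_const 1) g2
  · refine ⟨A, ?_⟩
    rintro _ ⟨w, hw, rfl⟩
    exact hA _ (hmem w hw.1 hw.2)
  · intro w hw
    have hw0 : w.re = 0 := hw
    obtain ⟨y, g1, g2⟩ := a4_real hw0
    show ‖v _‖ ≤ B
    rw [g2]
    have g3 := hv' (x + 19 * R / 20 * y) (by
      rw [add_sub_cancel_left, abs_mul, abs_of_pos (by positivity)]
      have g4 : 19 * R / 20 * |y| ≤ 19 * R / 20 * 1 :=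
        mul_le_mul_of_nonneg_left g1.le (by positivity)
      linarith)
    push_cast at g3 ⊢
    exact g3
  · intro w hw
    have hw0 : w.re = Real.pi / 2 := hw
    exact hA _ (hmem w (by rw [hw0]; exact hpi.le) hw0.le)

theorem a4_half {v : ℂ → ℂ} {x R A B : ℝ} (hR : 0 < R) (hB : 0 < B) (hBA : B ≤ A)
    (hv : DifferentiableOn ℂ v (ball (x : ℂ) R)) (hA : ∀ z ∈ ball (x : ℂ) R, ‖v z‖ ≤ A)
    (hv' : ∀ y : ℝ, |y - x| < R → ‖v (y : ℂ)‖ ≤ B) {z : ℂ} (hz : ‖z - x‖ ≤ R / 4)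
    (hi : 0 ≤ z.im) : ‖v z‖ ≤ A * (B / A) ^ (2 / 3 : ℝ) := by
  have hA0 : 0 < A := hB.trans_le hBA
  have hR' : (0 : ℝ) < 19 * R / 20 := by positivity
  obtain ⟨m, hm⟩ : ∃ m : ℂ, m = (z - x) / (19 * R / 20 : ℝ) := ⟨_, rfl⟩
  have hzm : z = x + (19 * R / 20 : ℝ) * m := by
    have h1 : ((19 * R / 20 : ℝ) : ℂ) ≠ 0 := by exact_mod_cast hR'.ne'
    rw [hm, mul_div_cancel₀ _ h1]
    ring
  have hmi : 0 ≤ m.im := by
    have h1 : z.im = 19 * R / 20 * m.im := by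
      conv_lhs => rw [hzm]
      simp only [Complex.add_im, Complex.ofReal_im, Complex.im_ofReal_mul, zero_add]
    rw [h1] at hi
    exact nonneg_of_mul_nonneg_right hi hR'
  have hmn : ‖m‖ ≤ 5 / 19 := by
    rw [hm, norm_div, Complex.norm_real, Real.norm_of_nonneg hR'.le, div_le_iff₀ hR']
    linarith
  have hmsq : m.re ^ 2 + m.im ^ 2 ≤ 25 / 361 := by
    have h1 : ‖m‖ ^ 2 ≤ (5 / 19) ^ 2 := by
      apply pow_le_pow_left₀ (norm_nonneg _) hmn
    rw [Complex.sq_norm, Complex.normSq_apply] at h1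
    nlinarith
  have hre1 : m.re ≤ 5 / 19 := (Complex.re_le_norm m).trans hmn
  have h1m : (1 : ℂ) - m ≠ 0 := by
    intro h1
    have h2 := congrArg Complex.re h1
    simp at h2
    linarith
  obtain ⟨ζ, hζ⟩ : ∃ ζ : ℂ, ζ = (1 + m) / (1 - m) := ⟨_, rfl⟩
  have hns : 0 < Complex.normSq (1 - m) := Complex.normSq_pos.2 h1m
  have hζre : ζ.re = (1 - (m.re ^ 2 + m.im ^ 2)) / Complex.normSq (1 - m) := by
    rw [hζ, Complex.div_re]
    simp
    ring
  have hζim : ζ.im = 2 * m.im / Complex.normSq (1 - m) := by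
    rw [hζ, Complex.div_im]
    simp
    ring
  have hζ0 : 0 < ζ.re := by
    rw [hζre]
    apply div_pos _ hns
    linarith
  have hζi : 0 ≤ ζ.im := by
    rw [hζim]
    positivity
  have hζ3 : 3 * ζ.im ^ 2 ≤ ζ.re ^ 2 := by
    rw [hζre, hζim, div_pow, div_pow, ← mul_div_assoc]
    apply div_le_div_of_nonneg_right _ (by positivity)
    have h1 : m.im ^ 2 ≤ m.re ^ 2 + m.im ^ 2 := by nlinarith [sq_nonneg m.re]
    have h2 : 0 ≤ m.re ^ 2 + m.im ^ 2 := by positivity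
    nlinarith
  obtain ⟨ha0, ha1⟩ := a4_arg hζ0 hζi hζ3
  have hζne : ζ ≠ 0 := by
    intro h5
    rw [h5] at hζ0
    simp at hζ0
  obtain ⟨w, hw⟩ : ∃ w : ℂ, w = -Complex.I * Complex.log ζ := ⟨_, rfl⟩
  have hwre : w.re = Complex.arg ζ := by
    rw [hw]
    simp [Complex.log_im]
  have hexp : Complex.exp (Complex.I * w) = ζ := by
    rw [hw, ← mul_assoc, mul_neg, Complex.I_mul_I, neg_neg, one_mul, Complex.exp_log hζne]
  have hfrac : (ζ - 1) / (ζ + 1) = m := by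
    have h1 : ζ - 1 = 2 * m / (1 - m) := by
      rw [hζ]
      field_simp
      ring
    have h2 : ζ + 1 = 2 / (1 - m) := by
      rw [hζ]
      field_simp
      ring
    rw [h1, h2]
    field_simp
  have key := a4_strip hR hv hA hv' (w := w) (by rw [hwre]; exact ha0)
    (by rw [hwre]; linarith [Real.pi_pos])
  rw [hexp, hfrac, ← hzm, hwre] at key
  refine key.trans ?_
  obtain ⟨t, ht⟩ : ∃ t : ℝ, t = (Complex.arg ζ - 0) / (Real.pi / 2 - 0) := ⟨_, rfl⟩
  have ht1 : t ≤ 1 / 3 := by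
    rw [ht, sub_zero, sub_zero, div_le_iff₀ (by positivity)]
    linarith
  rw [← ht]
  have h3 : B ^ (1 - t) * A ^ t = A * (B / A) ^ (1 - t) := by
    rw [Real.div_rpow hB.le hA0.le, Real.rpow_sub hA0, Real.rpow_one]
    have h4 : (0 : ℝ) < A ^ t := Real.rpow_pos_of_pos hA0 t
    field_simp
  rw [h3]
  apply mul_le_mul_of_nonneg_left _ hA0.le
  apply Real.rpow_le_rpow_of_exponent_ge (by positivity)
  · rw [div_le_one hA0]
    exact hBA
  · linarith

theorem two_const {v : ℂ → ℂ} {x R A B : ℝ} (hR : 0 < R) (hB : 0 < B) (hBA : B ≤ A)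
    (hv : DifferentiableOn ℂ v (ball (x : ℂ) R)) (hA : ∀ z ∈ ball (x : ℂ) R, ‖v z‖ ≤ A)
    (hv' : ∀ y : ℝ, |y - x| < R → ‖v (y : ℂ)‖ ≤ B) {z : ℂ} (hz : ‖z - x‖ ≤ R / 4) :
    ‖v z‖ ≤ A * (B / A) ^ (2 / 3 : ℝ) := by
  rcases le_total 0 z.im with hi | hi
  · exact a4_half hR hB hBA hv hA hv' hz hi
  · have hnc : ∀ w : ℂ, ‖(starRingEnd ℂ) w - x‖ = ‖w - x‖ := by
      intro w
      have h1 : (starRingEnd ℂ) w - x = (starRingEnd ℂ) (w - x) := by
        rw [map_sub, Complex.conj_ofReal]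
      rw [h1, Complex.norm_conj]
    have hmem : ∀ w : ℂ, w ∈ ball (x : ℂ) R → (starRingEnd ℂ) w ∈ ball (x : ℂ) R := by
      intro w hw
      rw [mem_ball, dist_eq_norm] at hw ⊢
      rw [hnc]
      exact hw
    have h2 := a4_half (v := (starRingEnd ℂ) ∘ v ∘ (starRingEnd ℂ)) hR hB hBA ?_ ?_ ?_
      (z := (starRingEnd ℂ) z) (by rw [hnc]; exact hz) (by
        rw [Complex.conj_im]
        linarith)
    · have h3 : ((starRingEnd ℂ) ∘ v ∘ (starRingEnd ℂ)) ((starRingEnd ℂ) z) =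
          (starRingEnd ℂ) (v z) := by
        show (starRingEnd ℂ) (v ((starRingEnd ℂ) ((starRingEnd ℂ) z))) = _
        rw [Complex.conj_conj]
      rw [h3, Complex.norm_conj] at h2
      exact h2
    · intro w hw
      refine DifferentiableAt.differentiableWithinAt ?_
      refine differentiableAt_conj_conj_iff.2 ?_
      exact (hv _ (hmem w hw)).differentiableAt (isOpen_ball.mem_nhds (hmem w hw))
    · intro w hw
      show ‖(starRingEnd ℂ) (v ((starRingEnd ℂ) w))‖ ≤ A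
      rw [Complex.norm_conj]
      exact hA _ (hmem w hw)
    · intro y hy
      show ‖(starRingEnd ℂ) (v ((starRingEnd ℂ) y))‖ ≤ B
      rw [Complex.norm_conj, Complex.conj_ofReal]
      exact hv' y hy

end Pool.Agent.H52.GS
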