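import Mathlib

/-!
# GS-A5: Hadamard three circles (scale invariant form)

PROOF.  `ρ' = (1 + ρ)/2`, `lam = log (ρ'/ρ) / log (ρ'/κ) ∈ (0, 1)`.
Let `‖z - z0‖ ≤ ρ R`.  If `‖z - z0‖ ≤ κ R` then `‖v z‖ ≤ B = A (B/A) ≤ A (B/A)^lam`.
Otherwise consider `f ω = v (z0 + R exp ω)` on the strip `log κ ≤ Re ω ≤ log ρ'`: it is entire-type
holomorphic there (all points `z0 + R exp ω` have distance `≤ ρ' R < R` from `z0`), bounded by `A`,
`‖f‖ ≤ B` for `Re ω = log κ`.  Three lines
(`Complex.HadamardThreeLines.norm_le_interp_of_mem_verticalClosedStrip'`, `l = log κ`,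
`u = log ρ'`): `‖f ω‖ ≤ B^(1-t) A^t`, `t = (Re ω - l)/(u - l)`.  Write `z = z0 + R exp ω`
(`z ≠ z0`), `Re ω = log (‖z - z0‖/R) ≤ log ρ`, so `1 - t ≥ (u - log ρ)/(u - l) = lam`, and
`‖v z‖ ≤ A (B/A)^(1-t) ≤ A (B/A)^lam`.
-/

set_option autoImplicit false
open Set Filter Topology MeasureTheory Metric

namespace Pool.Agent.H52.GS

theorem three_circ {κ ρ : ℝ} (hκ : 0 < κ) (hκρ : κ < ρ) (hρ : ρ < 1) :
    ∃ lam : ℝ, 0 < lam ∧ lam ≤ 1 ∧ ∀ (v : ℂ → ℂ) (z0 : ℂ) (R A B : ℝ), 0 < R → 0 < B → B ≤ A →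
      DifferentiableOn ℂ v (ball z0 R) → (∀ z ∈ ball z0 R, ‖v z‖ ≤ A) →
      (∀ z, ‖z - z0‖ ≤ κ * R → ‖v z‖ ≤ B) →
      ∀ z, ‖z - z0‖ ≤ ρ * R → ‖v z‖ ≤ A * (B / A) ^ lam := by
  have hρ0 : 0 < ρ := hκ.trans hκρ
  set ρ' : ℝ := (1 + ρ) / 2 with hρ'
  have h1 : ρ < ρ' := by rw [hρ']; linarith
  have h2 : ρ' < 1 := by rw [hρ']; linarith
  set l : ℝ := Real.log κ with hl
  set u : ℝ := Real.log ρ' with hu
  have hlρ : l < Real.log ρ := Real.log_lt_log hκ hκρ
  have hρu : Real.log ρ < u := Real.log_lt_log hρ0 h1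
  have hlu : l < u := hlρ.trans hρu
  have hu0 : u < 0 := Real.log_neg (hρ0.trans h1) h2
  have hul : 0 < u - l := sub_pos.2 hlu
  refine ⟨(u - Real.log ρ) / (u - l), div_pos (sub_pos.2 hρu) hul, ?_, ?_⟩
  · rw [div_le_one hul]; linarith
  intro v z0 R A B hR hB hBA hv hvA hvB z hz
  set lam : ℝ := (u - Real.log ρ) / (u - l) with hlam
  have hlam1 : lam ≤ 1 := by rw [hlam, div_le_one hul]; linarith
  have hA : 0 < A := hB.trans_le hBA
  have hBA0 : 0 < B / A := div_pos hB hA
  have hBA1 : B / A ≤ 1 := (div_le_one hA).2 hBA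
  rcases le_or_gt ‖z - z0‖ (κ * R) with hz1 | hz1
  · have h3 : B = A * (B / A) ^ (1 : ℝ) := by
      rw [Real.rpow_one]; field_simp
    calc ‖v z‖ ≤ B := hvB z hz1
      _ = A * (B / A) ^ (1 : ℝ) := h3
      _ ≤ A * (B / A) ^ lam :=
        mul_le_mul_of_nonneg_left (Real.rpow_le_rpow_of_exponent_ge hBA0 hBA1 hlam1) hA.le
  · -- the point in logarithmic coordinates
    have hRc : (R : ℂ) ≠ 0 := Complex.ofReal_ne_zero.2 hR.ne'
    have hzpos : 0 < ‖z - z0‖ := (mul_pos hκ hR).trans hz1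
    have hw0 : (z - z0) / (R : ℂ) ≠ 0 := by
      apply div_ne_zero _ hRc
      intro h
      rw [h, norm_zero] at hzpos
      exact lt_irrefl _ hzpos
    set ω : ℂ := Complex.log ((z - z0) / (R : ℂ)) with hω
    have hexp : Complex.exp ω = (z - z0) / (R : ℂ) := Complex.exp_log hw0
    have hzω : z0 + R * Complex.exp ω = z := by
      rw [hexp]; field_simp; ring
    have hre : ω.re = Real.log (‖z - z0‖ / R) := by
      rw [hω, Complex.log_re, norm_div, Complex.norm_of_nonneg hR.le]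
    have hre1 : l ≤ ω.re := by
      rw [hre, hl]
      apply Real.log_le_log hκ
      rw [le_div_iff₀ hR]; exact hz1.le
    have hre2 : ω.re ≤ Real.log ρ := by
      rw [hre]
      apply Real.log_le_log (div_pos hzpos hR)
      rw [div_le_iff₀ hR]; exact hz
    set f : ℂ → ℂ := fun w => v (z0 + R * Complex.exp w) with hf
    have hball : ∀ w : ℂ, w.re < 0 → z0 + R * Complex.exp w ∈ ball z0 R := by
      intro w hw
      rw [mem_ball, dist_eq_norm, add_sub_cancel_left, norm_mul, Complex.norm_of_nonneg hR.le,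
        Complex.norm_exp]
      have : Real.exp w.re < 1 := by rw [Real.exp_lt_one_iff]; exact hw
      nlinarith
    have hcl : closure (Complex.HadamardThreeLines.verticalStrip l u) ⊆
        Complex.HadamardThreeLines.verticalClosedStrip l u := by
      apply closure_minimal
      · intro w hw
        exact ⟨hw.1.le, hw.2.le⟩
      · exact isClosed_Icc.preimage Complex.continuous_re
    have hd : DiffContOnCl ℂ f (Complex.HadamardThreeLines.verticalStrip l u) := by
      apply DifferentiableOn.diffContOnCl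
      intro w hw
      have hw2 : w.re < 0 := (hcl hw).2.trans_lt hu0
      have hvd : DifferentiableAt ℂ v (z0 + R * Complex.exp w) :=
        (hv _ (hball w hw2)).differentiableAt (isOpen_ball.mem_nhds (hball w hw2))
      have hg : DifferentiableAt ℂ (fun w : ℂ => z0 + (R : ℂ) * Complex.exp w) w := by fun_prop
      exact (hvd.comp w hg).differentiableWithinAt
    have hbd : ∀ w ∈ Complex.HadamardThreeLines.verticalClosedStrip l u, ‖f w‖ ≤ A := by
      intro w hw
      exact hvA _ (hball w (hw.2.trans_lt hu0))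
    have key := Complex.HadamardThreeLines.norm_le_interp_of_mem_verticalClosedStrip'
      (f := f) (z := ω) (a := B) (b := A) hlu ⟨hre1, hre2.trans hρu.le⟩ hd
      ⟨A, by
        rintro _ ⟨w, hw, rfl⟩
        exact hbd w hw⟩
      (by
        intro w hw
        have hw' : w.re = l := hw
        apply hvB
        rw [add_sub_cancel_left, norm_mul, Complex.norm_of_nonneg hR.le, Complex.norm_exp, hw', hl,
          Real.exp_log hκ, mul_comm])
      (by
        intro w hw
        have hw' : w.re = u := hw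
        exact hbd w ⟨by rw [hw']; exact hlu.le, by rw [hw']⟩)
    have hfz : f ω = v z := by rw [hf]; simp only [hzω]
    rw [hfz] at key
    set t : ℝ := (ω.re - l) / (u - l) with ht
    have ht1 : lam ≤ 1 - t := by
      have h4 : 1 - t = (u - ω.re) / (u - l) := by
        rw [ht]; field_simp; ring
      rw [h4, hlam]
      apply div_le_div_of_nonneg_right _ hul.le
      linarith
    have h5 : B ^ (1 - t) * A ^ t = A * (B / A) ^ (1 - t) := by
      rw [Real.div_rpow hB.le hA.le]
      have h6 : A ^ t = A / A ^ (1 - t) := by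
        rw [eq_div_iff (Real.rpow_pos_of_pos hA _).ne', ← Real.rpow_add hA]
        rw [add_sub_cancel, Real.rpow_one]
      rw [h6]; ring
    calc ‖v z‖ ≤ B ^ (1 - t) * A ^ t := key
      _ = A * (B / A) ^ (1 - t) := h5
      _ ≤ A * (B / A) ^ lam :=
        mul_le_mul_of_nonneg_left (Real.rpow_le_rpow_of_exponent_ge hBA0 hBA1 ht1) hA.le

end Pool.Agent.H52.GS
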