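import Mathlib
import Pool.Agent.H52.GS.A6

/-!
# GS-A7: comparison of `f = W⁻¹ w` with the difference `w - W`

Setting: `Uni w x (r/2)`, `Uni W x (r/2)`, `f = W⁻¹ * w`, so `W (f y) = w y`.
PROOFS (`Uni.real_le`, `Uni.le_real` with `R = r/2`; `(3/8)^4 ≥ 0.0197`, `(3/8)^(-4) ≤ 51`).
* `cmp_R1`: `y` and `f y` are within `5 r/16 = (5/8) (r/2)` of `x`, so
  `|w y - W y| = |W (f y) - W y| ≤ 51 W'(x) |f y - y|`.
* `cmp_R2`: suppose `f y > y + s`, `s = 60 δ r ≤ r/16` (the case `f y < y - s` is symmetric).  Then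
  `W (f y) - W y ≥ W (y + s) - W y ≥ 0.0197 W'(x) s > δ W'(x) r`, contradiction.
* `cmp_R3`: put `b = κ r/8` and `p = x - b`, `q = x + b`.
  `w q - w p = W (f q) - W (f p) ≤ W (q + η r) - W (p - η r) ≤ (1 - 27/100)^(-4) W'(x) 2 (b + η r)`
  (`b + η r ≤ 1.08 b ≤ 0.135 r = (27/100)(r/2)`) and `w q - w p ≥ (3/4)^4 w'(x) 2 b`
  (`b ≤ r/8 = (1/4)(r/2)`).  So `w'(x) ≤ (1.08 * 3.53/0.316) W'(x) ≤ 13 W'(x)`.  The other inequality
  by exchanging `w` and `W` (`f⁻¹ = w⁻¹ * W`; `Mv` bounds `f⁻¹` too).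
* `cmp_R4`: `F`, `G` extensions of `w`, `W`; `v = F - G`.  For `‖z - x‖ ≤ 7 r/16 = (7/8)(r/2)`:
  `‖F z - w x‖ ≤ 8^4 w'(x) (7 r/16)`, `‖G z - W x‖ ≤ 8^4 W'(x) (7 r/16)` (`uni_growth`),
  `|w x - W x| ≤ 60 W'(x) η r` (`cmp_R1` at `y = x`), `w'(x) ≤ 13 W'(x)`:
  total `≤ (14 * 4096 * 7/16 + 60/100) W'(x) r ≤ 100000 W'(x) r`.
-/

set_option autoImplicit false
open Set Filter Topology MeasureTheory Metric

namespace Pool.Agent.H52.GS

private theorem a7_comp (w W : ℝ ≃o ℝ) (y : ℝ) : W ((W⁻¹ * w) y) = w y := by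
  change W (W.symm (w y)) = w y
  exact W.apply_symm_apply (w y)

private theorem a7_pos {w : ℝ ≃o ℝ} {x r : ℝ} (hr : 0 < r) (hw : Uni w x (r / 2)) :
    0 < deriv (w : ℝ → ℝ) x :=
  (hw.diff (y := x) (by rw [sub_self, abs_zero]; exact half_pos hr)).2

theorem cmp_R1 {w W : ℝ ≃o ℝ} {x r y s : ℝ} (hr : 0 < r) (hw : Uni w x (r / 2))
    (hW : Uni W x (r / 2)) (hy : |y - x| ≤ r / 4) (hs : s ≤ r / 16)
    (h : |(W⁻¹ * w) y - y| ≤ s) : |w y - W y| ≤ 60 * deriv (W : ℝ → ℝ) x * s := by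
  have hs0 : 0 ≤ s := (abs_nonneg _).trans h
  have hW0 := a7_pos hr hW
  have hyl : |y - x| ≤ 5 / 8 * (r / 2) := by linarith
  have hfy : |(W⁻¹ * w) y - x| ≤ 5 / 8 * (r / 2) := by
    have h1 := abs_add_le ((W⁻¹ * w) y - y) (y - x)
    have h2 : (W⁻¹ * w) y - y + (y - x) = (W⁻¹ * w) y - x := by ring
    rw [h2] at h1
    linarith
  have h3 := hW.real_le (half_pos hr) (by norm_num : (0 : ℝ) ≤ 5 / 8) (by norm_num) hfy hyl
  rw [a7_comp] at h3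
  have h4 : deriv (W : ℝ → ℝ) x * |(W⁻¹ * w) y - y| ≤ deriv (W : ℝ → ℝ) x * s :=
    mul_le_mul_of_nonneg_left h hW0.le
  have h5 : 0 ≤ deriv (W : ℝ → ℝ) x * s := mul_nonneg hW0.le hs0
  have h6 : ((1 : ℝ) - 5 / 8) ^ 4 = 81 / 4096 := by norm_num
  rw [h6] at h3
  linarith

theorem cmp_R2 {w W : ℝ ≃o ℝ} {x r y δ : ℝ} (hr : 0 < r) (hw : Uni w x (r / 2))
    (hW : Uni W x (r / 2)) (hy : |y - x| ≤ r / 4) (hδ : 60 * δ ≤ 1 / 16)
    (h : |w y - W y| ≤ δ * deriv (W : ℝ → ℝ) x * r) : |(W⁻¹ * w) y - y| ≤ 60 * δ * r := by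
  have hW0 := a7_pos hr hW
  have hWr : 0 < deriv (W : ℝ → ℝ) x * r := mul_pos hW0 hr
  have hδ0 : 0 ≤ δ := by
    have h1 : 0 ≤ δ * (deriv (W : ℝ → ℝ) x * r) := by
      have h2 := (abs_nonneg _).trans h
      linarith
    exact nonneg_of_mul_nonneg_left h1 hWr
  have hs0 : 0 ≤ 60 * δ * r := by positivity
  have hs1 : 60 * δ * r ≤ r / 16 := by
    have h1 := mul_le_mul_of_nonneg_right hδ hr.le
    linarith
  have hδW : 0 ≤ δ * deriv (W : ℝ → ℝ) x * r := by positivity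
  have hyl : |y - x| ≤ 5 / 8 * (r / 2) := by linarith
  have h6 : ((1 : ℝ) - 5 / 8) ^ 4 = 81 / 4096 := by norm_num
  have hy2 := abs_le.1 hy
  have h2 := abs_le.1 h
  rw [abs_le]
  constructor
  · by_contra hlt
    push Not at hlt
    have h1 : (W⁻¹ * w) y < y - 60 * δ * r := by linarith
    have h3 : W ((W⁻¹ * w) y) < W (y - 60 * δ * r) := W.strictMono h1
    rw [a7_comp] at h3
    have hp : |y - 60 * δ * r - x| ≤ 5 / 8 * (r / 2) := by
      rw [abs_le]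
      constructor <;> linarith
    have h4 := hW.le_real (half_pos hr) (by norm_num : (0 : ℝ) ≤ 5 / 8) (by norm_num) hyl hp
    have h5 : y - (y - 60 * δ * r) = 60 * δ * r := by ring
    have h7 : W (y - 60 * δ * r) ≤ W y := W.monotone (by linarith)
    rw [h5, abs_of_nonneg hs0, abs_of_nonneg (sub_nonneg.2 h7), h6] at h4
    linarith
  · by_contra hlt
    push Not at hlt
    have h1 : y + 60 * δ * r < (W⁻¹ * w) y := by linarith
    have h3 : W (y + 60 * δ * r) < W ((W⁻¹ * w) y) := W.strictMono h1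
    rw [a7_comp] at h3
    have hp : |y + 60 * δ * r - x| ≤ 5 / 8 * (r / 2) := by
      rw [abs_le]
      constructor <;> linarith
    have h4 := hW.le_real (half_pos hr) (by norm_num : (0 : ℝ) ≤ 5 / 8) (by norm_num) hp hyl
    have h5 : y + 60 * δ * r - y = 60 * δ * r := by ring
    have h7 : W y ≤ W (y + 60 * δ * r) := W.monotone (by linarith)
    rw [h5, abs_of_nonneg hs0, abs_of_nonneg (sub_nonneg.2 h7), h6] at h4
    linarith

private theorem a7_half {w W : ℝ ≃o ℝ} {x r κ η : ℝ} (hr : 0 < r) (hκ : 0 < κ) (hκ1 : κ ≤ 1)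
    (hη0 : 0 ≤ η) (hη : η ≤ κ / 100) (hw : Uni w x (r / 2)) (hW : Uni W x (r / 2))
    (h : ∀ y, |y - x| ≤ κ * r / 8 → |(W⁻¹ * w) y - y| ≤ η * r) :
    deriv (w : ℝ → ℝ) x ≤ 13 * deriv (W : ℝ → ℝ) x := by
  have hW0 := a7_pos hr hW
  have hw0 := a7_pos hr hw
  obtain ⟨b, hb⟩ : ∃ b : ℝ, b = κ * r / 8 := ⟨_, rfl⟩
  have hκr : 0 < κ * r := mul_pos hκ hr
  have hκr1 : κ * r ≤ r := by
    have h1 := mul_le_mul_of_nonneg_right hκ1 hr.le
    linarith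
  have hηr0 : 0 ≤ η * r := mul_nonneg hη0 hr.le
  have hηr : η * r ≤ κ * r / 100 := by
    have h1 := mul_le_mul_of_nonneg_right hη hr.le
    linarith
  have hb0 : 0 < b := by
    rw [hb]
    positivity
  have hq := abs_le.1 (h (x + b) (by rw [add_sub_cancel_left, abs_of_pos hb0, hb]))
  have hp := abs_le.1 (h (x - b) (by rw [sub_sub_cancel_left, abs_neg, abs_of_pos hb0, hb]))
  have h1 : W ((W⁻¹ * w) (x + b)) ≤ W (x + b + η * r) := W.monotone (by linarith)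
  have h2 : W (x - b - η * r) ≤ W ((W⁻¹ * w) (x - b)) := W.monotone (by linarith)
  rw [a7_comp] at h1 h2
  have h3 := hW.real_le (half_pos hr) (by norm_num : (0 : ℝ) ≤ 27 / 100) (by norm_num)
    (p := x + b + η * r) (q := x - b - η * r) (by
      rw [abs_le]
      constructor <;> linarith) (by
      rw [abs_le]
      constructor <;> linarith)
  have h4 := hw.le_real (half_pos hr) (by norm_num : (0 : ℝ) ≤ 1 / 4) (by norm_num)
    (p := x + b) (q := x - b) (by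
      rw [abs_le]
      constructor <;> linarith) (by
      rw [abs_le]
      constructor <;> linarith)
  have h5 : w (x - b) ≤ w (x + b) := w.monotone (by linarith)
  have h6 : W (x - b - η * r) ≤ W (x + b + η * r) := W.monotone (by linarith)
  have e1 : x + b + η * r - (x - b - η * r) = 2 * (b + η * r) := by ring
  have e2 : x + b - (x - b) = 2 * b := by ring
  rw [e1, abs_of_nonneg (sub_nonneg.2 h6), abs_of_nonneg (by positivity)] at h3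
  rw [e2, abs_of_nonneg (sub_nonneg.2 h5), abs_of_nonneg (by positivity)] at h4
  have h7 : deriv (W : ℝ → ℝ) x * (2 * (b + η * r)) ≤
      deriv (W : ℝ → ℝ) x * (2 * (b * (108 / 100))) := by
    refine mul_le_mul_of_nonneg_left ?_ hW0.le
    linarith
  have h8 : ((1 : ℝ) - 27 / 100) ^ 4 = 28398241 / 100000000 := by norm_num
  have h9 : ((1 : ℝ) - 1 / 4) ^ 4 = 81 / 256 := by norm_num
  rw [h8] at h3
  rw [h9] at h4
  have h10 : deriv (w : ℝ → ℝ) x * b ≤ (13 * deriv (W : ℝ → ℝ) x) * b := by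
    have h11 : 0 < deriv (W : ℝ → ℝ) x * b := mul_pos hW0 hb0
    linarith
  exact le_of_mul_le_mul_right h10 hb0

theorem cmp_R3 {w W : ℝ ≃o ℝ} {x r κ η : ℝ} (hr : 0 < r) (hκ : 0 < κ) (hκ1 : κ ≤ 1)
    (hη0 : 0 ≤ η) (hη : η ≤ κ / 100) (hw : Uni w x (r / 2)) (hW : Uni W x (r / 2))
    (h : ∀ y, |y - x| ≤ κ * r / 8 → Mv (W⁻¹ * w) y (η * r)) :
    deriv (w : ℝ → ℝ) x ≤ 13 * deriv (W : ℝ → ℝ) x ∧
      deriv (W : ℝ → ℝ) x ≤ 13 * deriv (w : ℝ → ℝ) x := by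
  refine ⟨a7_half hr hκ hκ1 hη0 hη hw hW fun y hy => (h y hy).1,
    a7_half hr hκ hκ1 hη0 hη hW hw fun y hy => ?_⟩
  have h1 : (W⁻¹ * w)⁻¹ = w⁻¹ * W := by rw [mul_inv_rev, inv_inv]
  have h2 := (h y hy).2
  rw [h1] at h2
  exact h2

theorem cmp_R4 {w W : ℝ ≃o ℝ} {F G : ℂ → ℂ} {x r κ η : ℝ} (hr : 0 < r) (hκ : 0 < κ)
    (hκ1 : κ ≤ 1) (hη0 : 0 ≤ η) (hη : η ≤ κ / 100)
    (hF : Ext w F x (r / 2)) (hFi : InjOn F (ball (x : ℂ) (r / 2)))
    (hG : Ext W G x (r / 2)) (hGi : InjOn G (ball (x : ℂ) (r / 2)))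
    (h : ∀ y, |y - x| ≤ κ * r / 8 → Mv (W⁻¹ * w) y (η * r)) {z : ℂ} (hz : ‖z - x‖ ≤ 7 * r / 16) :
    ‖F z - G z‖ ≤ 100000 * deriv (W : ℝ → ℝ) x * r := by
  have hw : Uni w x (r / 2) := ⟨F, hF, hFi⟩
  have hW : Uni W x (r / 2) := ⟨G, hG, hGi⟩
  have hW0 := a7_pos hr hW
  have hc := (cmp_R3 hr hκ hκ1 hη0 hη hw hW h).1
  have hz' : ‖z - x‖ ≤ 7 / 8 * (r / 2) := by linarith
  have h1 := uni_growth (half_pos hr) (by norm_num : (0 : ℝ) ≤ 7 / 8) (by norm_num) hF hFi hz'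
  have h2 := uni_growth (half_pos hr) (by norm_num : (0 : ℝ) ≤ 7 / 8) (by norm_num) hG hGi hz'
  have hκr : 0 < κ * r := mul_pos hκ hr
  have hη1 : η * r ≤ r / 100 := by
    have h3 := mul_le_mul_of_nonneg_right (hη.trans (by linarith : κ / 100 ≤ 1 / 100)) hr.le
    linarith
  have h3 := cmp_R1 (y := x) (s := η * r) hr hw hW (by rw [sub_self, abs_zero]; positivity)
    (by linarith) (h x (by rw [sub_self, abs_zero]; positivity)).1
  have h4 : ‖((w x : ℝ) : ℂ) - ((W x : ℝ) : ℂ)‖ = |w x - W x| := by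
    rw [← Complex.ofReal_sub, Complex.norm_real, Real.norm_eq_abs]
  have h5 : F z - G z = (F z - ((w x : ℝ) : ℂ)) + (((w x : ℝ) : ℂ) - ((W x : ℝ) : ℂ)) -
      (G z - ((W x : ℝ) : ℂ)) := by ring
  have h6 : ‖F z - G z‖ ≤ ‖F z - ((w x : ℝ) : ℂ)‖ + |w x - W x| + ‖G z - ((W x : ℝ) : ℂ)‖ := by
    rw [h5]
    refine (norm_sub_le _ _).trans ?_
    refine add_le_add ((norm_add_le _ _).trans ?_) le_rfl
    rw [h4]
  have h7 : ((1 : ℝ) - 7 / 8) ^ 4 = 1 / 4096 := by norm_num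
  rw [h7] at h1 h2
  have h8 : deriv (w : ℝ → ℝ) x * (7 / 8 * (r / 2)) ≤
      13 * deriv (W : ℝ → ℝ) x * (7 / 8 * (r / 2)) :=
    mul_le_mul_of_nonneg_right hc (by positivity)
  have h9 : 60 * deriv (W : ℝ → ℝ) x * (η * r) ≤ 60 * deriv (W : ℝ → ℝ) x * (r / 100) :=
    mul_le_mul_of_nonneg_left hη1 (by positivity)
  have h10 : 0 < deriv (W : ℝ → ℝ) x * r := mul_pos hW0 hr
  linarith

end Pool.Agent.H52.GS
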