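import Mathlib
import Pool.Agent.H52.GS.A7
import Pool.Agent.H52.GS.A4
import Pool.Agent.H52.GS.A5

/-!
# GS-A8: propagation of smallness

PROOF of `prop_one` (one direction).  Let `lam` be the exponent of `three_circ` for
`κ' = κ/14`, `ρ' = 6/7`; `θ = 2 lam/3`, `C = 6 * 10^6` (`≥ 1`), and `η0 ≤ κ/100` with
`60 * 100000 * η0^θ ≤ 1/16`.
Let `f = W⁻¹ w`, `F`, `G` the extensions of `w`, `W`, `v = F - G`, `A = 100000 W'(x) r`,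
`B = 60 η W'(x) r ≤ A`.
(1) `‖v‖ ≤ A` on `ball x (7r/16)` (`cmp_R4`).
(2) For real `y`, `|y - x| ≤ κ r/8`: `|v y| = |w y - W y| ≤ 60 W'(x) η r = B` (`cmp_R1`; `η ≤ 1/16`).
(3) `two_const` with `R = κ r/8`: `‖v z‖ ≤ B1 = A (B/A)^(2/3)` for `‖z - x‖ ≤ κ r/32`.
(4) `three_circ` with `R = 7r/16` (`κ' R = κ r/32`, `ρ' R = 3r/8`): `‖v z‖ ≤ A (B1/A)^lam
    = A (B/A)^(2 lam/3) = A (B/A)^θ ≤ A η^θ` for `‖z - x‖ ≤ 3r/8` (`B/A = 6 * 10^(-4) η ≤ η`).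
(5) For real `y`, `|y - x| ≤ r/4`: `|w y - W y| ≤ 100000 η^θ W'(x) r`, so `cmp_R2` with
    `δ = 100000 η^θ` gives `|f y - y| ≤ 60 * 100000 η^θ r = C η^θ r`.
PROOF of `prop22`.  Apply `prop_one` to `f = W⁻¹ w` and to `f⁻¹ = w⁻¹ W` (`Mv.inv`), `3r/16 ≤ r/4`.
-/

set_option autoImplicit false
open Set Filter Topology MeasureTheory Metric

namespace Pool.Agent.H52.GS

theorem prop_one {κ : ℝ} (hκ : 0 < κ) (hκ1 : κ ≤ 1) :
    ∃ C : ℝ, 1 ≤ C ∧ ∃ θ : ℝ, 0 < θ ∧ θ ≤ 1 ∧ ∃ η0 : ℝ, 0 < η0 ∧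
      ∀ (w W : ℝ ≃o ℝ) (x r η : ℝ), 0 < r → 0 < η → η ≤ η0 → Uni w x (r / 2) →
        Uni W x (r / 2) → (∀ y, |y - x| ≤ κ * r / 8 → Mv (W⁻¹ * w) y (η * r)) →
        ∀ y, |y - x| ≤ r / 4 → |(W⁻¹ * w) y - y| ≤ C * η ^ θ * r := by
  have hκ14 : 0 < κ / 14 := by positivity
  obtain ⟨lam, hl0, hl1, hlam⟩ := three_circ (κ := κ / 14) (ρ := 6 / 7) hκ14 (by linarith)
    (by norm_num)
  have hθ0 : 0 < 2 / 3 * lam := by positivity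
  have hθ1 : 2 / 3 * lam ≤ 1 := by linarith
  obtain ⟨θ, hθ⟩ : ∃ θ : ℝ, θ = 2 / 3 * lam := ⟨_, rfl⟩
  rw [← hθ] at hθ0 hθ1
  have hc0 : (0 : ℝ) < 1 / 96000000 := by norm_num
  refine ⟨6000000, by norm_num, θ, hθ0, hθ1, min (κ / 100) ((1 / 96000000 : ℝ) ^ (1 / θ)),
    lt_min (by positivity) (Real.rpow_pos_of_pos hc0 _), ?_⟩
  intro w W x r η hr hη hη0 hw hW h y hy
  have hη1 : η ≤ κ / 100 := hη0.trans (min_le_left _ _)
  have hη2 : η ≤ 1 / 100 := by linarith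
  have hηθ : η ^ θ ≤ 1 / 96000000 := by
    have h1 : η ^ θ ≤ ((1 / 96000000 : ℝ) ^ (1 / θ)) ^ θ :=
      Real.rpow_le_rpow hη.le (hη0.trans (min_le_right _ _)) hθ0.le
    rw [← Real.rpow_mul hc0.le, one_div_mul_cancel hθ0.ne', Real.rpow_one] at h1
    exact h1
  have hw' := hw
  have hW' := hW
  obtain ⟨F, hF, hFi⟩ := hw'
  obtain ⟨G, hG, hGi⟩ := hW'
  have hW0 : 0 < deriv (W : ℝ → ℝ) x :=
    (hW.diff (y := x) (by rw [sub_self, abs_zero]; exact half_pos hr)).2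
  have hηr : 0 < η * r := mul_pos hη hr
  have hηr1 : η * r ≤ r / 16 := by
    have h1 := mul_le_mul_of_nonneg_right hη2 hr.le
    linarith
  have hκr : 0 < κ * r := mul_pos hκ hr
  have hκr1 : κ * r ≤ r := by
    have h1 := mul_le_mul_of_nonneg_right hκ1 hr.le
    linarith
  obtain ⟨A, hA⟩ : ∃ A : ℝ, A = 100000 * deriv (W : ℝ → ℝ) x * r := ⟨_, rfl⟩
  obtain ⟨B, hB⟩ : ∃ B : ℝ, B = 60 * deriv (W : ℝ → ℝ) x * (η * r) := ⟨_, rfl⟩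
  have hA0 : 0 < A := by
    rw [hA]
    positivity
  have hB0 : 0 < B := by
    rw [hB]
    positivity
  have hWr : 0 < deriv (W : ℝ → ℝ) x * r := mul_pos hW0 hr
  have hBA : B / A ≤ η := by
    rw [div_le_iff₀ hA0, hA, hB]
    have h1 : 0 < η * (deriv (W : ℝ → ℝ) x * r) := mul_pos hη hWr
    linarith
  have hBA1 : B / A ≤ 1 := by linarith
  have hBle : B ≤ A := (div_le_one hA0).1 hBA1
  have hBA0 : 0 < B / A := div_pos hB0 hA0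
  have hvA : ∀ z ∈ ball (x : ℂ) (7 * r / 16), ‖F z - G z‖ ≤ A := by
    intro z hz
    rw [mem_ball, dist_eq_norm] at hz
    rw [hA]
    exact cmp_R4 hr hκ hκ1 hη.le hη1 hF hFi hG hGi h hz.le
  have hreal : ∀ y : ℝ, |y - x| < r / 2 → ‖F (y : ℂ) - G (y : ℂ)‖ = |w y - W y| := by
    intro y hy
    rw [hF.2 y hy, hG.2 y hy, ← Complex.ofReal_sub, Complex.norm_real, Real.norm_eq_abs]
  have hvB : ∀ y : ℝ, |y - x| < κ * r / 8 → ‖F (y : ℂ) - G (y : ℂ)‖ ≤ B := by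
    intro y hy
    rw [hreal y (by linarith), hB]
    exact cmp_R1 hr hw hW (by linarith) hηr1 (h y hy.le).1
  have hdiff : DifferentiableOn ℂ (fun z => F z - G z) (ball (x : ℂ) (r / 2)) :=
    hF.1.sub hG.1
  have hB1 : ∀ z : ℂ, ‖z - x‖ ≤ κ / 14 * (7 * r / 16) →
      ‖F z - G z‖ ≤ A * (B / A) ^ (2 / 3 : ℝ) := by
    intro z hz
    have h1 : 0 < κ * r / 8 := by positivity
    refine two_const (v := fun z => F z - G z) (x := x) (R := κ * r / 8) h1 hB0 hBle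
      (hdiff.mono (ball_subset_ball (by linarith))) ?_ hvB (by linarith)
    intro z' hz'
    exact hvA z' (ball_subset_ball (by linarith) hz')
  obtain ⟨B1, hB1e⟩ : ∃ B1 : ℝ, B1 = A * (B / A) ^ (2 / 3 : ℝ) := ⟨_, rfl⟩
  have hB10 : 0 < B1 := by
    rw [hB1e]
    exact mul_pos hA0 (Real.rpow_pos_of_pos hBA0 _)
  have hB1A : B1 ≤ A := by
    rw [hB1e]
    have h1 : (B / A) ^ (2 / 3 : ℝ) ≤ 1 := Real.rpow_le_one hBA0.le hBA1 (by norm_num)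
    have h2 := mul_le_mul_of_nonneg_left h1 hA0.le
    linarith
  rw [← hB1e] at hB1
  have h4 : ‖F (y : ℂ) - G (y : ℂ)‖ ≤ A * (B1 / A) ^ lam := by
    refine hlam (fun z => F z - G z) (x : ℂ) (7 * r / 16) A B1 (by positivity) hB10 hB1A
      (hdiff.mono (ball_subset_ball (by linarith))) hvA hB1 (y : ℂ) ?_
    rw [← Complex.ofReal_sub, Complex.norm_real, Real.norm_eq_abs]
    linarith
  have h5 : B1 / A = (B / A) ^ (2 / 3 : ℝ) := by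
    rw [hB1e, mul_div_cancel_left₀ _ hA0.ne']
  have h6 : (B1 / A) ^ lam ≤ η ^ θ := by
    rw [h5, ← Real.rpow_mul hBA0.le, hθ]
    exact Real.rpow_le_rpow hBA0.le hBA (by positivity)
  have h7 : |w y - W y| ≤ 100000 * η ^ θ * deriv (W : ℝ → ℝ) x * r := by
    rw [← hreal y (by linarith)]
    refine h4.trans ((mul_le_mul_of_nonneg_left h6 hA0.le).trans (le_of_eq ?_))
    rw [hA]
    ring
  have h8 := cmp_R2 (δ := 100000 * η ^ θ) hr hw hW hy (by linarith) h7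
  refine h8.trans (le_of_eq ?_)
  ring

theorem prop22 {κ : ℝ} (hκ : 0 < κ) (hκ1 : κ ≤ 1) :
    ∃ C : ℝ, 1 ≤ C ∧ ∃ θ : ℝ, 0 < θ ∧ θ ≤ 1 ∧ ∃ η0 : ℝ, 0 < η0 ∧
      ∀ (Γ : Subgroup (ℝ ≃o ℝ)) (f : ℝ ≃o ℝ) (x r η : ℝ), 0 < r → 0 < η → η ≤ η0 →
        Rel Γ f x r → (∀ y, |y - x| ≤ κ * r / 8 → Mv f y (η * r)) →
        ∀ y, |y - x| ≤ r / 4 → Mv f y (C * η ^ θ * r) := by
  obtain ⟨C, hC, θ, hθ, hθ1, η0, hη0, hmain⟩ := prop_one hκ hκ1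
  refine ⟨C, hC, θ, hθ, hθ1, η0, hη0, ?_⟩
  rintro Γ f x r η hr hη hηη ⟨w, -, W, -, rfl, hw, hW⟩ h y hy
  have h1 : (W⁻¹ * w)⁻¹ = w⁻¹ * W := by rw [mul_inv_rev, inv_inv]
  refine ⟨hmain w W x r η hr hη hηη hw hW h y hy, ?_⟩
  rw [h1]
  refine hmain W w x r η hr hη hηη hW hw (fun y' hy' => ?_) y hy
  have h2 := h y' hy'
  refine ⟨?_, ?_⟩
  · have h3 := h2.2
    rw [h1] at h3
    exact h3
  · rw [← h1, inv_inv]
    exact h2.1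

end Pool.Agent.H52.GS
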