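import Mathlib
import Pool.Agent.H52.GS.A8

/-!
# GS-A12: the chain rule: propagation of smallness along a stretch

PROOF.  Prove by induction on `n ≤ 4040`: `P n`: there are `C ≥ 1`, `θ ∈ (0,1]`, `η0 > 0` such that
the conclusion holds whenever `|x - x'| ≤ (n/40) ψ x`.  (`n = 0`: `x = x'`, `C = θ = 1`, `η0 = 1`.)
Step `n → n+1`.  Let `C1, θ1, η1` be the constants of `prop22` for `κ = 1`, and let `|x - x'| ≤
((n+1)/40) ψ x`.  Let `x1` be the point between `x` and `x'` with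
`|x1 - x| = min |x' - x| (ψ x/33)`.  `prop22` at `(x, ψ x)`: `Mv f y (C1 η^θ1 ψ x)` for
`|y - x| ≤ ψ x/4`.  As `ψ x1 ≤ ψ x + |x1 - x|/10000 ≤ 1.001 ψ x`, every `y` with
`|y - x1| ≤ ψ x1/8` has `|y - x| ≤ ψ x/33 + 1.001 ψ x/8 ≤ ψ x/4`, and `ψ x ≤ 2 ψ x1`, so
`LL f x1 (ψ x1) (2 C1 η^θ1)`.  If `x1 = x'` finish (increase `C`; `LL.mono`).  Otherwise
`|x1 - x'| ≤ ((n+1)/40 - 1/33) ψ x` and `ψ x ≤ ψ x1/(1 - 1/330000)`; for `n ≤ 4040` this is
`≤ (n/40) ψ x1` (because `1/33 - 1/40 > 0.005 ≥ (n/40) * 2/330000`).  Apply `P n` from `x1` to `x'`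
(the hypotheses on `uIcc x1 x' ⊆ uIcc x x'`) with `η := 2 C1 η^θ1` (choose `η0` so that
`2 C1 η0^θ1 ≤ η0'`): `LL f x' (ψ x') (C' (2 C1 η^θ1)^θ')`, so `C = C' (2 C1)^θ'`, `θ = θ1 θ'`.
Finally `101 = 4040/40`.
-/

set_option autoImplicit false
open Set Filter Topology MeasureTheory Metric

namespace Pool.Agent.H52.GS

theorem a12_mv_mono {f : ℝ ≃o ℝ} {y d e : ℝ} (h : Mv f y d) (hde : d ≤ e) : Mv f y e :=
  ⟨h.1.trans hde, h.2.trans hde⟩

theorem a12_LL_mono {f : ℝ ≃o ℝ} {x r a b : ℝ} (hr : 0 ≤ r) (hab : a ≤ b) (h : LL f x r a) :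
    LL f x r b :=
  fun y hy => a12_mv_mono (h y hy) (mul_le_mul_of_nonneg_right hab hr)

/-- one step of length at most `r / 33` -/
theorem a12_step {f : ℝ ≃o ℝ} {x x1 r r1 a : ℝ} (hr : 0 < r) (ha : 0 ≤ a)
    (h1 : |x1 - x| ≤ r / 33) (h2 : |r - r1| ≤ |x1 - x| / 10000)
    (h : ∀ y, |y - x| ≤ r / 4 → Mv f y (a * r)) : LL f x1 r1 (2 * a) := by
  have h3 := abs_le.1 h2
  intro y hy
  have h4 : |y - x| ≤ r / 4 := by
    have h5 : |y - x| ≤ |y - x1| + |x1 - x| := by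
      have := abs_add_le (y - x1) (x1 - x)
      simpa using this
    linarith [h3.1, h3.2]
  refine a12_mv_mono (h y h4) ?_
  have h6 : r ≤ 2 * r1 := by linarith [h3.1, h3.2]
  calc a * r ≤ a * (2 * r1) := mul_le_mul_of_nonneg_left h6 ha
    _ = 2 * a * r1 := by ring

theorem a12_P {C1 θ1 η1 : ℝ} (hC1 : 1 ≤ C1) (hθ1 : 0 < θ1) (hθ1' : θ1 ≤ 1) (hη1 : 0 < η1)
    (H : ∀ (Γ : Subgroup (ℝ ≃o ℝ)) (f : ℝ ≃o ℝ) (x r η : ℝ), 0 < r → 0 < η → η ≤ η1 →
        Rel Γ f x r → (∀ y, |y - x| ≤ 1 * r / 8 → Mv f y (η * r)) →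
        ∀ y, |y - x| ≤ r / 4 → Mv f y (C1 * η ^ θ1 * r)) (n : ℕ) (hn : n ≤ 4040) :
    ∃ C : ℝ, 1 ≤ C ∧ ∃ θ : ℝ, 0 < θ ∧ θ ≤ 1 ∧ ∃ η0 : ℝ, 0 < η0 ∧
    ∀ (Γ : Subgroup (ℝ ≃o ℝ)) (f : ℝ ≃o ℝ) (ψ : ℝ → ℝ) (x x' η : ℝ),
      (∀ p ∈ uIcc x x', ∀ q ∈ uIcc x x', |ψ p - ψ q| ≤ |p - q| / 10000) →
      (∀ z ∈ uIcc x x', 0 < ψ z ∧ Rel Γ f z (ψ z)) → |x - x'| ≤ n / 40 * ψ x →
      0 < η → η ≤ η0 → LL f x (ψ x) η → LL f x' (ψ x') (C * η ^ θ) := by
  induction n with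
  | zero =>
    refine ⟨1, le_rfl, 1, one_pos, le_rfl, 1, one_pos, ?_⟩
    intro Γ f ψ x x' η _ _ h3 _ _ h6
    have h7 : x = x' := by
      have h8 : |x - x'| ≤ 0 := by simpa using h3
      have h9 := abs_nonpos_iff.1 h8
      linarith
    subst h7
    rwa [Real.rpow_one, one_mul]
  | succ n ih =>
    obtain ⟨C', hC', θ', hθ', hθ'1, η0', hη0', IH⟩ := ih (by omega)
    have hC1pos : 0 < C1 := by linarith
    have h2C : 1 ≤ 2 * C1 := by linarith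
    have hq : 0 < η0' / (2 * C1) := by positivity
    refine ⟨C' * (2 * C1), ?_, θ1 * θ', by positivity, ?_,
      min (min η1 1) ((η0' / (2 * C1)) ^ (1 / θ1)), ?_, ?_⟩
    · nlinarith
    · nlinarith
    · exact lt_min (lt_min hη1 one_pos) (Real.rpow_pos_of_pos hq _)
    intro Γ f ψ x x' η h1 h2 h3 h4 h5 h6
    have h51 : η ≤ η1 := h5.trans ((min_le_left _ _).trans (min_le_left _ _))
    have h52 : η ≤ 1 := h5.trans ((min_le_left _ _).trans (min_le_right _ _))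
    have h53 : η ≤ (η0' / (2 * C1)) ^ (1 / θ1) := h5.trans (min_le_right _ _)
    have h54 : η ^ θ1 ≤ η0' / (2 * C1) := by
      calc η ^ θ1 ≤ ((η0' / (2 * C1)) ^ (1 / θ1)) ^ θ1 :=
            Real.rpow_le_rpow h4.le h53 hθ1.le
        _ = η0' / (2 * C1) := by
            rw [← Real.rpow_mul hq.le, one_div_mul_cancel hθ1.ne', Real.rpow_one]
    have hx : x ∈ uIcc x x' := left_mem_uIcc
    have hx' : x' ∈ uIcc x x' := right_mem_uIcc
    obtain ⟨hr, hrel⟩ := h2 x hx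
    have ha : 0 < C1 * η ^ θ1 := mul_pos hC1pos (Real.rpow_pos_of_pos h4 _)
    have hstep := H Γ f x (ψ x) η hr h4 h51 hrel (fun y hy => h6 y (by linarith))
    rcases le_or_gt |x' - x| (ψ x / 33) with hs | hs
    · -- final step
      have h7 : |ψ x - ψ x'| ≤ |x' - x| / 10000 := by
        rw [abs_sub_comm x' x]
        exact h1 x hx x' hx'
      refine a12_LL_mono (h2 x' hx').1.le ?_ (a12_step hr ha.le hs h7 hstep)
      have h8 : η ^ θ1 ≤ η ^ (θ1 * θ') :=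
        Real.rpow_le_rpow_of_exponent_ge h4 h52 (by nlinarith)
      have h9 : 0 < η ^ (θ1 * θ') := Real.rpow_pos_of_pos h4 _
      calc 2 * (C1 * η ^ θ1) = 1 * (2 * C1) * η ^ θ1 := by ring
        _ ≤ C' * (2 * C1) * η ^ θ1 := by
            refine mul_le_mul_of_nonneg_right ?_ (Real.rpow_pos_of_pos h4 _).le
            exact mul_le_mul_of_nonneg_right hC' (by linarith)
        _ ≤ C' * (2 * C1) * η ^ (θ1 * θ') :=
            mul_le_mul_of_nonneg_left h8 (by positivity)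
    · -- the intermediate point
      obtain ⟨x1, hx1, hd1, hd2⟩ : ∃ x1, x1 ∈ uIcc x x' ∧ |x1 - x| = ψ x / 33 ∧
          |x1 - x'| = |x - x'| - ψ x / 33 := by
        rcases le_total x x' with hxx | hxx
        · rw [abs_of_nonneg (by linarith : (0 : ℝ) ≤ x' - x)] at hs
          refine ⟨x + ψ x / 33, ?_, ?_, ?_⟩
          · rw [uIcc_of_le hxx]
            exact ⟨by linarith, by linarith⟩
          · rw [abs_of_nonneg (by linarith)]
            ring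
          · rw [abs_of_nonpos (by linarith : x + ψ x / 33 - x' ≤ 0),
              abs_of_nonpos (by linarith : x - x' ≤ 0)]
            ring
        · rw [abs_of_nonpos (by linarith : x' - x ≤ 0)] at hs
          refine ⟨x - ψ x / 33, ?_, ?_, ?_⟩
          · rw [uIcc_of_ge hxx]
            exact ⟨by linarith, by linarith⟩
          · rw [abs_of_nonpos (by linarith)]
            ring
          · rw [abs_of_nonneg (by linarith : 0 ≤ x - ψ x / 33 - x'),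
              abs_of_nonneg (by linarith : 0 ≤ x - x')]
            ring
      have hsub : uIcc x1 x' ⊆ uIcc x x' := uIcc_subset_uIcc_right hx1
      have h7 : |ψ x - ψ x1| ≤ |x1 - x| / 10000 := by
        rw [abs_sub_comm x1 x]
        exact h1 x hx x1 hx1
      have hL := a12_step hr ha.le hd1.le h7 hstep
      rw [hd1] at h7
      have h8 := abs_le.1 h7
      have h9 : |x1 - x'| ≤ n / 40 * ψ x1 := by
        rw [hd2]
        have hn' : (n : ℝ) ≤ 4040 := by exact_mod_cast (by omega : n ≤ 4040)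
        have hn0 : (0 : ℝ) ≤ n := Nat.cast_nonneg n
        push_cast at h3
        have h10 : ψ x * (1 - 1 / 330000) ≤ ψ x1 := by linarith [h8.2]
        have h11 : (n : ℝ) / 40 * (ψ x * (1 - 1 / 330000)) ≤ n / 40 * ψ x1 :=
          mul_le_mul_of_nonneg_left h10 (by positivity)
        have h12 : (n : ℝ) * ψ x ≤ 4040 * ψ x := mul_le_mul_of_nonneg_right hn' hr.le
        linarith
      have hηp : 0 < 2 * (C1 * η ^ θ1) := by positivity
      have hηle : 2 * (C1 * η ^ θ1) ≤ η0' := by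
        have := (le_div_iff₀ (by positivity : (0 : ℝ) < 2 * C1)).1 h54
        linarith
      have key := IH Γ f ψ x1 x' (2 * (C1 * η ^ θ1))
        (fun p hp q hq => h1 p (hsub hp) q (hsub hq)) (fun z hz => h2 z (hsub hz)) h9 hηp hηle hL
      refine a12_LL_mono (h2 x' hx').1.le ?_ key
      have h13 : (2 * (C1 * η ^ θ1)) ^ θ' = (2 * C1) ^ θ' * η ^ (θ1 * θ') := by
        rw [show 2 * (C1 * η ^ θ1) = (2 * C1) * η ^ θ1 by ring,
          Real.mul_rpow (by positivity) (Real.rpow_pos_of_pos h4 _).le, ← Real.rpow_mul h4.le]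
      have h14 : (2 * C1) ^ θ' ≤ 2 * C1 := by
        calc (2 * C1) ^ θ' ≤ (2 * C1) ^ (1 : ℝ) :=
              Real.rpow_le_rpow_of_exponent_le h2C hθ'1
          _ = 2 * C1 := Real.rpow_one _
      rw [h13]
      have h15 : 0 < η ^ (θ1 * θ') := Real.rpow_pos_of_pos h4 _
      calc C' * ((2 * C1) ^ θ' * η ^ (θ1 * θ')) = C' * (2 * C1) ^ θ' * η ^ (θ1 * θ') := by ring
        _ ≤ C' * (2 * C1) * η ^ (θ1 * θ') := by
            refine mul_le_mul_of_nonneg_right ?_ h15.le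
            exact mul_le_mul_of_nonneg_left h14 (by linarith)

theorem chain : ∃ C : ℝ, 1 ≤ C ∧ ∃ θ : ℝ, 0 < θ ∧ θ ≤ 1 ∧ ∃ η0 : ℝ, 0 < η0 ∧
    ∀ (Γ : Subgroup (ℝ ≃o ℝ)) (f : ℝ ≃o ℝ) (ψ : ℝ → ℝ) (x x' η : ℝ),
      (∀ p ∈ uIcc x x', ∀ q ∈ uIcc x x', |ψ p - ψ q| ≤ |p - q| / 10000) →
      (∀ z ∈ uIcc x x', 0 < ψ z ∧ Rel Γ f z (ψ z)) → |x - x'| ≤ 101 * ψ x →
      0 < η → η ≤ η0 → LL f x (ψ x) η → LL f x' (ψ x') (C * η ^ θ) := by
  obtain ⟨C1, hC1, θ1, hθ1, hθ1', η1, hη1, H⟩ := prop22 (κ := 1) one_pos le_rfl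
  obtain ⟨C, hC, θ, hθ, hθ', η0, hη0, h⟩ := a12_P hC1 hθ1 hθ1' hη1 H 4040 le_rfl
  refine ⟨C, hC, θ, hθ, hθ', η0, hη0, fun Γ f ψ x x' η h1 h2 h3 => h Γ f ψ x x' η h1 h2 ?_⟩
  have : ((4040 : ℕ) : ℝ) / 40 * ψ x = 101 * ψ x := by
    push_cast
    ring
  rw [this]
  exact h3

end Pool.Agent.H52.GS
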