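import Mathlib
import Pool.Agent.H52.GS.A7
import Pool.Agent.H52.GS.A4
import Pool.Agent.H52.GS.A3
import Pool.Agent.H52.GS.A2

/-!
# GS-A9: small relative elements are near the identity in the complex domain

PROOF of `ni_one` (extension of `f = W⁻¹ w` itself).  `F`, `G` extensions of `w`, `W` on
`ball x (r/2)`, `v = F - G`, `A = 100000 W'(x) r`, `B = 60 η W'(x) r`.
`‖v‖ ≤ A` on `ball x (7r/16)` (`cmp_R4`, `κ = 1`), `|v y| ≤ B` for real `|y - x| ≤ r/8` (`cmp_R1`),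
so `two_const` with `R = r/8` gives on `‖z - x‖ ≤ r/32`:
`‖v z‖ ≤ A (B/A)^(2/3) = 100000 (6/10000)^(2/3) η^(2/3) W'(x) r ≤ 1000 √η W'(x) r`
(`(6/10000)^(2/3) ≤ 1/100`, `η^(2/3) ≤ η^(1/2)`); put `δ = 1000 √η`.
Let `‖z - x‖ ≤ r/64`.  `‖G' z‖ ≥ (31/32)^4 W'(x) ≥ 0.88 W'(x)` (`uni_dist`).  `G` is univalent on
`ball z (5 δ r) ⊆ ball x (r/2)` (`δ` small), so by `koebe_quarter` `G '' ball z (5 δ r)` contains
the ball of centre `G z` and radius `‖G' z‖ 5 δ r/4 ≥ 1.1 δ W'(x) r`, which contains `F z`.  So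
there is `ζ` with `‖ζ - z‖ < 5 δ r` and `G ζ = F z`.
Put `H = invFunOn G (ball x (r/2)) ∘ F`.  By `inv_holo` `H z = ζ` (uniqueness), `H` is
differentiable at every point of `ball x (r/64)` (`HasDerivAt` of the inverse at `F z = G ζ`), and
`‖H z - z‖ ≤ 5 δ r = 5000 √η r`.  At real points `y`, `|y - x| < r/64`: `|f y - y| ≤ η r`, so
`f y ∈ ball x (r/2)`, and `G (f y) = W (f y) = w y = F y`, so `H y = f y`.
PROOF of `rel_ni`.  `f⁻¹ = w⁻¹ W` is treated in the same way, so `NI f x (r/64) (5000 √η r)`.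
For the derivative at `y0`, `|y0 - x| ≤ r/16`: `Rel Γ f y0 (r/2)` (`Rel.mono`: `r/16 + r/4 ≤ r/2`) and
`LL f y0 (r/2) (2 η)` (`|y - y0| ≤ r/16` implies `|y - x| ≤ r/8`), so
`NI f y0 (r/128) (5000 √(2η) (r/2))`; the Cauchy estimate for `H z - z` on a circle of radius
`r/256` around `y0` gives `‖H' y0 - 1‖ ≤ 256 * 5000 √(2η)/2 ≤ 10^6 √η`, and `f` is differentiable at
`y0` with `f' y0 = H' y0` (restriction of `H` to the real axis).  So `C = 10^6` works.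
-/

set_option autoImplicit false
open Set Filter Topology MeasureTheory Metric

namespace Pool.Agent.H52.GS

/-- numerical constant in `ni_one` -/
theorem a9_const {η : ℝ} (h0 : 0 < η) (h1 : η ≤ 1) :
    100000 * (60 * η / 100000) ^ (2 / 3 : ℝ) ≤ 1000 * √η := by
  have e1 : 60 * η / 100000 = (6 / 10000) * η := by ring
  rw [e1, Real.mul_rpow (by norm_num) h0.le]
  have e2 : ((6 / 10000 : ℝ)) ^ (2 / 3 : ℝ) ≤ 1 / 100 := by
    have h3 : ((6 / 10000 : ℝ)) ^ (2 / 3 : ℝ) ≤ (1 / 1000 : ℝ) ^ (2 / 3 : ℝ) :=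
      Real.rpow_le_rpow (by norm_num) (by norm_num) (by norm_num)
    have h4 : (1 / 1000 : ℝ) ^ (2 / 3 : ℝ) = 1 / 100 := by
      have h5 : (1 / 1000 : ℝ) = (1 / 10 : ℝ) ^ (3 : ℝ) := by
        rw [show (3 : ℝ) = ((3 : ℕ) : ℝ) by norm_num, Real.rpow_natCast]
        norm_num
      rw [h5, ← Real.rpow_mul (by norm_num)]
      rw [show (3 : ℝ) * (2 / 3) = ((2 : ℕ) : ℝ) by norm_num, Real.rpow_natCast]
      norm_num
    exact h3.trans h4.le
  have e3 : η ^ (2 / 3 : ℝ) ≤ √η := by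
    rw [Real.sqrt_eq_rpow]
    exact Real.rpow_le_rpow_of_exponent_ge h0 h1 (by norm_num)
  have h6 : 0 ≤ η ^ (2 / 3 : ℝ) := Real.rpow_nonneg h0.le _
  have h7 : ((6 / 10000 : ℝ)) ^ (2 / 3 : ℝ) * η ^ (2 / 3 : ℝ) ≤ 1 / 100 * √η :=
    mul_le_mul e2 e3 h6 (by norm_num)
  linarith

theorem a9_sqrt {η : ℝ} (h1 : η ≤ 1 / 10 ^ 10) : √η ≤ 1 / 10 ^ 5 := by
  rw [Real.sqrt_le_left (by positivity)]
  refine h1.trans ?_
  norm_num

/-- the main step: the solution `ζ` of `G ζ = F z` -/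
theorem a9_solve {w W : ℝ ≃o ℝ} {F G : ℂ → ℂ} {x r η : ℝ} (hr : 0 < r) (h0 : 0 < η)
    (hη : η ≤ 1 / 10 ^ 10)
    (hF : Ext w F x (r / 2)) (hFi : InjOn F (ball (x : ℂ) (r / 2)))
    (hG : Ext W G x (r / 2)) (hGi : InjOn G (ball (x : ℂ) (r / 2)))
    (hL : LL (W⁻¹ * w) x r η) {z : ℂ} (hz : z ∈ ball (x : ℂ) (r / 64)) :
    ∃ ζ ∈ ball (x : ℂ) (r / 2), ‖ζ - z‖ ≤ 5000 * √η * r ∧ G ζ = F z := by
  have hr2 : 0 < r / 2 := by linarith
  have hs := a9_sqrt hη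
  have hs0 : 0 < √η := Real.sqrt_pos.2 h0
  have hη1 : η ≤ 1 := hη.trans (by norm_num)
  have hη2 : η ≤ 1 / 100 := hη.trans (by norm_num)
  have hx0 : |x - x| < r / 2 := by rw [sub_self, abs_zero]; exact hr2
  have hD : 0 < deriv (W : ℝ → ℝ) x := (uni_deriv hG hGi hx0).2.1
  set D : ℝ := deriv (W : ℝ → ℝ) x with hDdef
  rw [mem_ball_iff_norm] at hz
  -- two constants
  have hv : ‖F z - G z‖ ≤ 100000 * D * r * ((60 * D * (η * r)) / (100000 * D * r)) ^ (2 / 3 : ℝ) := by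
    refine two_const (v := fun z => F z - G z) (x := x) (R := r / 8) (by linarith)
      (by positivity) ?_ ?_ ?_ ?_ ?_
    · have : D * (η * r) ≤ D * (1 * r) := by gcongr
      nlinarith [mul_pos hD hr]
    · exact (hF.1.mono (ball_subset_ball (by linarith))).sub
        (hG.1.mono (ball_subset_ball (by linarith)))
    · intro y hy
      rw [mem_ball_iff_norm] at hy
      refine cmp_R4 (κ := 1) hr one_pos le_rfl h0.le hη2 hF hFi hG hGi ?_ (by linarith)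
      intro y hy
      rw [one_mul] at hy
      exact hL y hy
    · intro y hy
      have h1 : |y - x| < r / 2 := by linarith
      rw [hF.2 y h1, hG.2 y h1, ← Complex.ofReal_sub, Complex.norm_real, Real.norm_eq_abs]
      exact cmp_R1 hr ⟨F, hF, hFi⟩ ⟨G, hG, hGi⟩ (by linarith) (by nlinarith) (hL y hy.le).1
    · linarith
  have hv2 : ‖F z - G z‖ ≤ 1000 * √η * D * r := by
    have e1 : (60 * D * (η * r)) / (100000 * D * r) = 60 * η / 100000 := by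
      field_simp
    rw [e1] at hv
    have e2 := a9_const h0 hη1
    have e3 : 0 < D * r := mul_pos hD hr
    calc ‖F z - G z‖ ≤ 100000 * D * r * (60 * η / 100000) ^ (2 / 3 : ℝ) := hv
      _ = (D * r) * (100000 * (60 * η / 100000) ^ (2 / 3 : ℝ)) := by ring
      _ ≤ (D * r) * (1000 * √η) := mul_le_mul_of_nonneg_left e2 e3.le
      _ = 1000 * √η * D * r := by ring
  -- distortion
  have hd : 22 / 25 * D ≤ ‖deriv G z‖ := by
    have h1 := (uni_dist (ρ := 1 / 32) hr2 (by norm_num) (by norm_num) hG hGi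
      (z := z) (by linarith)).1
    have h2 : (22 / 25 : ℝ) ≤ (1 - 1 / 32) ^ 4 := by norm_num
    exact (mul_le_mul_of_nonneg_right h2 hD.le).trans h1
  -- Koebe
  have hsub : ball z (5 * (1000 * √η) * r) ⊆ ball (x : ℂ) (r / 2) := by
    apply ball_subset_ball'
    rw [dist_eq_norm]
    nlinarith [mul_le_mul_of_nonneg_right hs hr.le]
  have hpos : 0 < 5 * (1000 * √η) * r := by positivity
  have hK := koebe_quarter hpos (hG.1.mono hsub) (hGi.mono hsub)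
  have hmem : F z ∈ ball (G z) (‖deriv G z‖ * (5 * (1000 * √η) * r) / 4) := by
    rw [mem_ball_iff_norm]
    refine lt_of_le_of_lt hv2 ?_
    have h1 : 0 < √η * r := mul_pos hs0 hr
    have h2 : 22 / 25 * D * (√η * r) ≤ ‖deriv G z‖ * (√η * r) :=
      mul_le_mul_of_nonneg_right hd h1.le
    have h3 : 0 < D * (√η * r) := mul_pos hD h1
    nlinarith
  obtain ⟨ζ, hζ, hζe⟩ := hK hmem
  refine ⟨ζ, hsub hζ, ?_, hζe⟩
  rw [mem_ball_iff_norm] at hζ
  refine hζ.le.trans (le_of_eq (by ring))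

theorem a9_main (w W : ℝ ≃o ℝ) (x r η : ℝ) (hr : 0 < r) (h0 : 0 < η)
    (hη : η ≤ 1 / 10 ^ 10) (hw : Uni w x (r / 2)) (hW : Uni W x (r / 2))
    (hL : LL (W⁻¹ * w) x r η) :
    ∃ H : ℂ → ℂ, Ext ((W⁻¹ * w : ℝ ≃o ℝ) : ℝ → ℝ) H x (r / 64) ∧
      ∀ z ∈ ball (x : ℂ) (r / 64), ‖H z - z‖ ≤ 5000 * √η * r := by
  obtain ⟨F, hF, hFi⟩ := hw
  obtain ⟨G, hG, hGi⟩ := hW
  obtain ⟨hinv, hder⟩ := inv_holo isOpen_ball hG.1 hGi
  refine ⟨fun z => Function.invFunOn G (ball (x : ℂ) (r / 2)) (F z), ⟨?_, ?_⟩, ?_⟩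
  · intro z hz
    obtain ⟨ζ, hζ, hζ1, hζe⟩ := a9_solve hr h0 hη hF hFi hG hGi hL hz
    have h1 := hder ζ hζ
    rw [hζe] at h1
    have hz2 : z ∈ ball (x : ℂ) (r / 2) := ball_subset_ball (by linarith) hz
    have h2 : DifferentiableAt ℂ F z := hF.1.differentiableAt (isOpen_ball.mem_nhds hz2)
    exact (h1.differentiableAt.comp z h2).differentiableWithinAt
  · intro y hy
    have hy2 : |y - x| < r / 2 := by linarith
    have hm := (hL y (by linarith)).1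
    have hη2 : η * r ≤ 1 / 100 * r :=
      mul_le_mul_of_nonneg_right (hη.trans (by norm_num)) hr.le
    have hfy : |(W⁻¹ * w : ℝ ≃o ℝ) y - x| < r / 2 := by
      rw [abs_lt] at hy ⊢
      rw [abs_le] at hm
      constructor <;> linarith [hm.1, hm.2, hy.1, hy.2]
    have hfb : (((W⁻¹ * w : ℝ ≃o ℝ) y : ℝ) : ℂ) ∈ ball (x : ℂ) (r / 2) := by
      rw [mem_ball_iff_norm, ← Complex.ofReal_sub, Complex.norm_real, Real.norm_eq_abs]
      exact hfy
    have h1 := hinv _ hfb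
    rw [hG.2 _ hfy] at h1
    change Function.invFunOn G (ball (x : ℂ) (r / 2)) (F y) = _
    rw [hF.2 y hy2]
    have h2 : W ((W⁻¹ * w : ℝ ≃o ℝ) y) = w y := by
      rw [RelIso.mul_apply, RelIso.apply_inv_self]
    rw [h2] at h1
    exact h1
  · intro z hz
    obtain ⟨ζ, hζ, hζ1, hζe⟩ := a9_solve hr h0 hη hF hFi hG hGi hL hz
    have h1 := hinv ζ hζ
    rw [hζe] at h1
    change ‖Function.invFunOn G (ball (x : ℂ) (r / 2)) (F z) - z‖ ≤ _
    rw [h1]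
    exact hζ1

theorem ni_one : ∃ η0 : ℝ, 0 < η0 ∧ η0 ≤ 1 ∧
    ∀ (w W : ℝ ≃o ℝ) (x r η : ℝ), 0 < r → 0 < η → η ≤ η0 → Uni w x (r / 2) →
      Uni W x (r / 2) → LL (W⁻¹ * w) x r η →
      ∃ H : ℂ → ℂ, Ext ((W⁻¹ * w : ℝ ≃o ℝ) : ℝ → ℝ) H x (r / 64) ∧
        ∀ z ∈ ball (x : ℂ) (r / 64), ‖H z - z‖ ≤ 5000 * √η * r :=
  ⟨1 / 10 ^ 10, by positivity, by norm_num,
    fun w W x r η hr h0 hη hw hW hL => a9_main w W x r η hr h0 hη hw hW hL⟩

/-- `f` is near the identity in the complex domain -/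
theorem a9_ni {Γ : Subgroup (ℝ ≃o ℝ)} {f : ℝ ≃o ℝ} {x r η : ℝ} (hr : 0 < r) (h0 : 0 < η)
    (hη : η ≤ 1 / 10 ^ 10) (hR : Rel Γ f x r) (hL : LL f x r η) :
    NI f x (r / 64) (5000 * √η * r) := by
  obtain ⟨w, -, W, -, hf, hw, hW⟩ := hR
  have hf' : f⁻¹ = w⁻¹ * W := by rw [hf, mul_inv_rev, inv_inv]
  obtain ⟨H, hH, hHb⟩ := a9_main w W x r η hr h0 hη hw hW (by rw [← hf]; exact hL)
  obtain ⟨K, hK, hKb⟩ := a9_main W w x r η hr h0 hη hW hw (by rw [← hf']; exact hL.inv)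
  refine ⟨H, K, by rw [hf]; exact hH, by rw [hf']; exact hK, fun z hz => ⟨hHb z hz, hKb z hz⟩⟩

/-- differentiability from a complex extension near the identity -/
theorem a9_deriv {f : ℝ ≃o ℝ} {H : ℂ → ℂ} {y ρ ε : ℝ} (hρ : 0 < ρ)
    (hH : Ext f H y ρ) (hb : ∀ z ∈ ball (y : ℂ) ρ, ‖H z - z‖ ≤ ε) :
    DifferentiableAt ℝ (f : ℝ → ℝ) y ∧ |deriv (f : ℝ → ℝ) y - 1| ≤ ε / (ρ / 2) := by
  have hy : (y : ℂ) ∈ ball (y : ℂ) ρ := mem_ball_self hρ
  have hd : HasDerivAt H (deriv H (y : ℂ)) (y : ℂ) :=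
    (hH.1.differentiableAt (isOpen_ball.mem_nhds hy)).hasDerivAt
  have h1 := hd.real_of_complex
  have h2 : (f : ℝ → ℝ) =ᶠ[𝓝 y] fun t : ℝ => (H (t : ℂ)).re := by
    filter_upwards [ball_mem_nhds y hρ] with t ht
    rw [mem_ball, Real.dist_eq] at ht
    rw [hH.2 t ht, Complex.ofReal_re]
  have h3 : HasDerivAt (f : ℝ → ℝ) (deriv H (y : ℂ)).re y := h1.congr_of_eventuallyEq h2
  refine ⟨h3.differentiableAt, ?_⟩
  rw [h3.deriv]
  have hsub : closedBall (y : ℂ) (ρ / 2) ⊆ ball (y : ℂ) ρ := closedBall_subset_ball (by linarith)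
  have hg : DifferentiableOn ℂ (fun z => H z - z) (ball (y : ℂ) ρ) := hH.1.sub differentiableOn_id
  have h4 : ‖deriv (fun z => H z - z) (y : ℂ)‖ ≤ ε / (ρ / 2) := by
    refine Complex.norm_deriv_le_of_forall_mem_sphere_norm_le (by linarith) ?_ ?_
    · exact (hg.mono hsub).diffContOnCl_ball le_rfl
    · intro z hz
      exact hb z (hsub (sphere_subset_closedBall hz))
  have h5 : deriv (fun z => H z - z) (y : ℂ) = deriv H (y : ℂ) - 1 :=
    (hd.sub (hasDerivAt_id (y : ℂ))).deriv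
  rw [h5] at h4
  have h6 := Complex.abs_re_le_norm (deriv H (y : ℂ) - 1)
  rw [Complex.sub_re, Complex.one_re] at h6
  exact h6.trans h4

theorem rel_ni : ∃ η0 : ℝ, 0 < η0 ∧ η0 ≤ 1 ∧
    ∀ (Γ : Subgroup (ℝ ≃o ℝ)) (f : ℝ ≃o ℝ) (x r η : ℝ), 0 < r → 0 < η → η ≤ η0 →
      Rel Γ f x r → LL f x r η →
      NI f x (r / 64) (5000 * √η * r) ∧
        ∀ y, |y - x| ≤ r / 16 → DifferentiableAt ℝ (f : ℝ → ℝ) y ∧
          |deriv (f : ℝ → ℝ) y - 1| ≤ 1000000 * √η := by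
  refine ⟨1 / 10 ^ 10 / 2, by positivity, by norm_num, ?_⟩
  intro Γ f x r η hr h0 hη hR hL
  have hη1 : η ≤ 1 / 10 ^ 10 := hη.trans (by norm_num)
  refine ⟨a9_ni hr h0 hη1 hR hL, ?_⟩
  intro y hy
  have hR' : Rel Γ f y (r / 2) := hR.mono (by linarith)
  have hL' : LL f y (r / 2) (2 * η) := by
    intro t ht
    have h1 : |t - x| ≤ r / 8 := by
      have := abs_sub_le t y x
      linarith
    have h2 := hL t h1
    refine h2.mono (le_of_eq (by ring))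
  obtain ⟨H, K, hH, -, hb⟩ := a9_ni (η := 2 * η) (by linarith) (by linarith) (by linarith) hR' hL'
  have h1 := a9_deriv (by linarith) hH (fun z hz => (hb z hz).1)
  refine ⟨h1.1, h1.2.trans ?_⟩
  rw [div_le_iff₀ (by linarith)]
  have h2 : √(2 * η) ≤ 3 / 2 * √η := by
    rw [Real.sqrt_mul (by norm_num)]
    refine mul_le_mul_of_nonneg_right ?_ (Real.sqrt_nonneg _)
    rw [Real.sqrt_le_left (by norm_num)]
    norm_num
  have h3 : 0 ≤ √η := Real.sqrt_nonneg _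
  have h4 := mul_le_mul_of_nonneg_right h2 hr.le
  nlinarith [mul_nonneg h3 hr.le]

end Pool.Agent.H52.GS
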