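import Mathlib
import Pool.Agent.H52.GS.A9
import Pool.Agent.H52.GS.M1

/-!
# GS-A13: the squares of small relative elements at the same place and scale commute

PROOF.  Let `ηM` be the constant given, `η0` that of `rel_ni`.  Choose `ηA ∈ (0, η0]` with
`5000 √ηA ≤ ηM/64`.  Then `rel_ni` gives `NI f x (r/64) (5000 √ηA r)`, and
`5000 √ηA r ≤ ηM (r/64)` (`NI.mono`), the same for `g`; `r/64 ≤ 1`; use `hcom` (`Rel.mem`).
-/

set_option autoImplicit false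
open Set Filter Topology MeasureTheory Metric

namespace Pool.Agent.H52.GS

theorem rel_comm {Γ : Subgroup (ℝ ≃o ℝ)} {ηM : ℝ} (hηM : 0 < ηM)
    (hcom : ∀ x R : ℝ, 0 < R → R ≤ 1 → ∀ f ∈ Γ, ∀ g ∈ Γ, NI f x R (ηM * R) →
        NI g x R (ηM * R) → f ^ 2 * g ^ 2 = g ^ 2 * f ^ 2) :
    ∃ ηA : ℝ, 0 < ηA ∧ ∀ (f g : ℝ ≃o ℝ) (x r : ℝ), 0 < r → r ≤ 1 → Rel Γ f x r →
      Rel Γ g x r → LL f x r ηA → LL g x r ηA → f ^ 2 * g ^ 2 = g ^ 2 * f ^ 2 := by
  obtain ⟨η0, hη0, _, hni⟩ := rel_ni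
  have hpos : 0 < (ηM / 320000) ^ 2 := by positivity
  have hA : 0 < min η0 ((ηM / 320000) ^ 2) := lt_min hη0 hpos
  refine ⟨min η0 ((ηM / 320000) ^ 2), hA, ?_⟩
  intro f g x r hr hr1 hf hg hLf hLg
  have hs : √(min η0 ((ηM / 320000) ^ 2)) ≤ ηM / 320000 := by
    have h1 : √(min η0 ((ηM / 320000) ^ 2)) ≤ √((ηM / 320000) ^ 2) :=
      Real.sqrt_le_sqrt (min_le_right _ _)
    rwa [Real.sqrt_sq (by positivity)] at h1
  have hb : 5000 * √(min η0 ((ηM / 320000) ^ 2)) * r ≤ ηM * (r / 64) := by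
    have h2 : 5000 * √(min η0 ((ηM / 320000) ^ 2)) ≤ ηM / 64 := by linarith
    calc 5000 * √(min η0 ((ηM / 320000) ^ 2)) * r ≤ ηM / 64 * r :=
          mul_le_mul_of_nonneg_right h2 hr.le
      _ = ηM * (r / 64) := by ring
  have hN : ∀ h : ℝ ≃o ℝ, Rel Γ h x r → LL h x r (min η0 ((ηM / 320000) ^ 2)) →
      NI h x (r / 64) (ηM * (r / 64)) := by
    intro h hh hL
    refine (hni Γ h x r _ hr hA (min_le_left _ _) hh hL).1.mono ?_ hb
    rw [sub_self, abs_zero, zero_add]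
  exact hcom x (r / 64) (by positivity) (by linarith) f hf.mem g hg.mem (hN f hf hLf)
    (hN g hg hLg)

end Pool.Agent.H52.GS
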