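import Mathlib
import Pool.Agent.H52.GS.O2
import Pool.Agent.H52.GS.A4
import Pool.Agent.H52.GS.M1

/-!
# GS-A10: one step of the SIG iteration

PROOF of `avg`.  If `f y = y` trivial.  Suppose `y < f y` (the case `f y < y` is symmetric, e.g.
apply the result to the conjugate by `t ↦ -t`, or repeat the argument).  The points
`y_i = (f^i) y`, `i ≤ N`, are increasing and `y ≤ y_i ≤ y_N ≤ y + m`.  Each difference
`y_(i+1) - y_i = f y_i - y_i ≥ (f y - y) - δ (y_i - y) ≥ (f y - y) - δ m`; summing over `i < N`: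
`N ((f y - y) - δ m) ≤ y_N - y ≤ m`.

PROOF of `sig_step`.  `H z = F z - z`, `‖H‖ ≤ A` on `ball y0 R`.  For real `p, q` within `3R/4` of
`y0`: `‖H'‖ ≤ 8A/R` on the segment (Cauchy estimate with radius `R/8`), so
`|(f p - p) - (f q - q)| ≤ (8A/R) |p - q|`.
Let `y` be real, `|y - y0| ≤ R/2`.  The points of `[y - m, y + m]` are within `3R/4` of `y0`
(`m ≤ R/4`), and `|(f^N) y - y| ≤ m` by `Le.mv` and `Mv g y m`.  `avg` with `δ = 8A/R` gives
`|f y - y| ≤ m/N + (8A/R) m ≤ B` (`N ≥ 1`).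
`two_const` for `H` on `ball y0 (R/2)`: `‖H z‖ ≤ A (B/A)^(2/3)` for `‖z - y0‖ ≤ R/8`.
-/

set_option autoImplicit false
open Set Filter Topology MeasureTheory Metric

namespace Pool.Agent.H52.GS

theorem A10_up {F : ℝ → ℝ} (hF : Monotone F) {y m δ : ℝ} {N : ℕ} (hδ : 0 ≤ δ)
    (hN : 1 ≤ N)
    (hlip : ∀ p q, |p - y| ≤ m → |q - y| ≤ m → |(F p - p) - (F q - q)| ≤ δ * |p - q|)
    (hy : y ≤ F y) (h : F^[N] y - y ≤ m) : F y - y ≤ m / N + δ * m := by
  have hmono : Monotone fun n : ℕ => F^[n] y := by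
    refine monotone_nat_of_le_succ fun n => ?_
    show F^[n] y ≤ F^[n + 1] y
    rw [Function.iterate_succ_apply]
    exact hF.iterate n hy
  have h0 : F^[0] y = y := rfl
  have hlow : ∀ n, y ≤ F^[n] y := fun n => by
    have := hmono (Nat.zero_le n)
    simpa using this
  have hup : ∀ n, n ≤ N → F^[n] y ≤ y + m := fun n hn => by
    have : F^[n] y ≤ F^[N] y := hmono hn
    linarith
  have hm : 0 ≤ m := by
    have := hlow N
    linarith
  have hstep : ∀ n, n < N → (F y - y) - δ * m ≤ F^[n + 1] y - F^[n] y := by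
    intro n hn
    rw [Function.iterate_succ_apply']
    have h1 : |F^[n] y - y| ≤ m := by
      rw [abs_le]
      have := hlow n
      have := hup n hn.le
      constructor <;> linarith
    have h2 : |y - y| ≤ m := by
      rw [sub_self, abs_zero]
      exact hm
    have h3 := hlip _ _ h1 h2
    have h4 : δ * |F^[n] y - y| ≤ δ * m := mul_le_mul_of_nonneg_left h1 hδ
    have h5 := (abs_le.1 (h3.trans h4)).1
    linarith
  have hsum : ∀ n, n ≤ N → n * ((F y - y) - δ * m) ≤ F^[n] y - y := by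
    intro n
    induction n with
    | zero =>
      intro _
      simp
    | succ n ih =>
      intro hn
      have h1 := ih (by omega)
      have h2 := hstep n (by omega)
      push_cast
      linarith
  have h6 := (hsum N le_rfl).trans h
  have hNpos : (0 : ℝ) < N := by
    exact_mod_cast hN
  have h7 : (F y - y) - δ * m ≤ m / N := by
    rw [le_div_iff₀ hNpos]
    linarith
  linarith

theorem A10_pow (f : ℝ ≃o ℝ) (n : ℕ) (y : ℝ) : (f ^ n) y = (f : ℝ → ℝ)^[n] y := by
  induction n generalizing y with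
  | zero => rfl
  | succ n ih =>
    rw [Function.iterate_succ_apply, ← ih, pow_succ]
    rfl

theorem A10_neg (F : ℝ → ℝ) (n : ℕ) (y : ℝ) :
    (fun x => -F (-x))^[n] (-y) = -(F^[n] y) := by
  induction n generalizing y with
  | zero => rfl
  | succ n ih =>
    rw [Function.iterate_succ_apply, Function.iterate_succ_apply, ← ih]
    simp only [neg_neg]

theorem avg {f : ℝ ≃o ℝ} {y m δ : ℝ} {N : ℕ} (hm : 0 ≤ m) (hδ : 0 ≤ δ) (hN : 1 ≤ N)
    (hlip : ∀ p q, |p - y| ≤ m → |q - y| ≤ m → |(f p - p) - (f q - q)| ≤ δ * |p - q|)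
    (h : |(f ^ N) y - y| ≤ m) : |f y - y| ≤ m / N + δ * m := by
  rw [A10_pow, abs_le] at h
  rcases le_total y (f y) with hy | hy
  · rw [abs_of_nonneg (by linarith)]
    exact A10_up f.monotone hδ hN hlip hy (by linarith)
  · rw [abs_of_nonpos (by linarith)]
    have key := A10_up (F := fun x => -f (-x)) (y := -y) (m := m) (δ := δ) (N := N) ?_ hδ hN ?_ ?_ ?_
    · simp only [neg_neg] at key
      linarith
    · intro a b hab
      exact neg_le_neg (f.monotone (neg_le_neg hab))
    · intro p q hp hq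
      have h1 := hlip (-p) (-q) ?_ ?_
      · have e1 : (-f (-p) - p) - (-f (-q) - q) = -((f (-p) - -p) - (f (-q) - -q)) := by ring
        have e2 : |p - q| = |(-p) - (-q)| := by
          rw [← abs_neg]
          congr 1
          ring
        rw [e1, abs_neg, e2]
        exact h1
      · rw [← abs_neg]
        have e3 : -(-p - y) = p - -y := by ring
        rw [e3]
        exact hp
      · rw [← abs_neg]
        have e3 : -(-q - y) = q - -y := by ring
        rw [e3]
        exact hq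
    · simp only [neg_neg]
      linarith
    · rw [A10_neg]
      linarith

theorem sig_step {f g : ℝ ≃o ℝ} {F : ℂ → ℂ} {y0 R m A B : ℝ} {N : ℕ} (hR : 0 < R) (hm : 0 ≤ m)
    (hmR : m ≤ R / 4) (hN : 1 ≤ N) (hF : Ext f F y0 R)
    (hA : ∀ z ∈ ball (y0 : ℂ) R, ‖F z - z‖ ≤ A) (hB0 : 0 < B) (hBA : B ≤ A)
    (hB : m / N + 8 * A / R * m ≤ B) (hg : ∀ y, |y - y0| ≤ R → Mv g y m)
    (hle : Le (f ^ N) g) {z : ℂ} (hz : ‖z - y0‖ ≤ R / 8) :
    ‖F z - z‖ ≤ A * (B / A) ^ (2 / 3 : ℝ) := by
  have hA0 : 0 < A := hB0.trans_le hBA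
  have hlipc : ∀ p q : ℝ, |p - y0| ≤ 3 * R / 4 → |q - y0| ≤ 3 * R / 4 →
      |(f p - p) - (f q - q)| ≤ 8 * A / R * |p - q| := by
    intro p q hp hq
    have hp' : (p : ℂ) ∈ ball (y0 : ℂ) (R - (R / 4) / 2) := M1_mem (by linarith)
    have hq' : (q : ℂ) ∈ ball (y0 : ℂ) (R - (R / 4) / 2) := M1_mem (by linarith)
    have h1 := M1_lip (ρ := R / 4) (by linarith) hF.1 hA hq' hp'
    rw [hF.2 p (by linarith), hF.2 q (by linarith)] at h1
    have e1 : (((f p : ℝ) : ℂ) - (p : ℂ)) - (((f q : ℝ) : ℂ) - (q : ℂ)) =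
        (((f p - p) - (f q - q) : ℝ) : ℂ) := by
      push_cast
      ring
    have e2 : (p : ℂ) - (q : ℂ) = ((p - q : ℝ) : ℂ) := by
      push_cast
      ring
    rw [e1, e2, Complex.norm_real, Complex.norm_real, Real.norm_eq_abs, Real.norm_eq_abs] at h1
    have e3 : A / (R / 4 / 2) = 8 * A / R := by
      field_simp
      ring
    rw [e3] at h1
    exact h1
  have hreal : ∀ y : ℝ, |y - y0| < R / 2 → |f y - y| ≤ B := by
    intro y hy
    have h1 : |(f ^ N) y - y| ≤ m := (Le.mv hle (hg y (by linarith))).1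
    have h2 : ∀ p, |p - y| ≤ m → |p - y0| ≤ 3 * R / 4 := by
      intro p hp
      have := abs_sub_le p y y0
      linarith
    have h3 := avg hm (by positivity : (0 : ℝ) ≤ 8 * A / R) hN
      (fun p q hp hq => hlipc p q (h2 p hp) (h2 q hq)) h1
    exact h3.trans hB
  have hsub : ball (y0 : ℂ) (R / 2) ⊆ ball (y0 : ℂ) R := ball_subset_ball (by linarith)
  refine two_const (v := fun z => F z - z) (x := y0) (R := R / 2) (by linarith) hB0 hBA
    ((hF.1.mono hsub).sub differentiableOn_id) (fun z hz => hA z (hsub hz)) ?_ ?_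
  · intro y hy
    show ‖F y - y‖ ≤ B
    rw [hF.2 y (by linarith), ← Complex.ofReal_sub, Complex.norm_real, Real.norm_eq_abs]
    exact hreal y hy
  · linarith

end Pool.Agent.H52.GS
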