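import Mathlib
import Pool.Agent.H52.GS.A8
import Pool.Agent.H52.GS.A9
import Pool.Agent.H52.GS.A10

/-!
# GS-A16: comparison with squares does not lose constants

`a16_lip`: a relative element `f` with `LL f x r η` (`η` small) has a displacement which is
`1/100`-Lipschitz on `[x - 5r/32, x + 5r/32]`.  `prop22` (`κ = 1`) gives `Mv f y (s r)` for
`|y - x| ≤ r/4`, `s = C η^θ`; `rel_ni` at the points `y0`, scale `r/2`, gives `|f' - 1| ≤ 1/100`.
`gain`: if moreover `g` is relative, `LL g x r η` and `Le ((f^2)^N) (g^2)`, `N ≥ 2`, then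
`LL f x r η`: `Mv (g^2) y (201/100 η r)`, and `avg` for `f^(2N)`.
-/

set_option autoImplicit false
open Set Filter Topology MeasureTheory Metric

namespace Pool.Agent.H52.GS

theorem a16_small {C θ s : ℝ} (hC : 1 ≤ C) (hθ : 0 < θ) (hs : 0 < s) :
    ∃ q : ℝ, 0 < q ∧ ∀ Q : ℝ, 0 < Q → Q ≤ q → C * Q ^ θ ≤ s := by
  have hC0 : 0 < C := by linarith
  have hbC : 0 < s / C := by positivity
  refine ⟨(s / C) ^ (1 / θ), by positivity, fun Q hQ hQq => ?_⟩
  have h1 : Q ^ θ ≤ ((s / C) ^ (1 / θ)) ^ θ := Real.rpow_le_rpow hQ.le hQq hθ.le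
  rw [← Real.rpow_mul hbC.le, one_div_mul_cancel hθ.ne', Real.rpow_one] at h1
  calc C * Q ^ θ ≤ C * (s / C) := mul_le_mul_of_nonneg_left h1 hC0.le
    _ = s := by field_simp

theorem a16_lip : ∃ η0 : ℝ, 0 < η0 ∧ η0 ≤ 1 / 100 ∧
    ∀ (Γ : Subgroup (ℝ ≃o ℝ)) (f : ℝ ≃o ℝ) (x r η : ℝ), 0 < r → 0 < η → η ≤ η0 →
      Rel Γ f x r → LL f x r η →
      ∀ p q : ℝ, |p - x| ≤ 5 * r / 32 → |q - x| ≤ 5 * r / 32 →
        |(f p - p) - (f q - q)| ≤ 1 / 100 * |p - q| := by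
  obtain ⟨C, hC, θ, hθ, hθ1, ηp, hηp, hprop⟩ := prop22 (κ := 1) one_pos le_rfl
  obtain ⟨η1, hη1, hη11, hrel⟩ := rel_ni
  have hs0 : 0 < min (η1 / 2) (1 / 10 ^ 17) := lt_min (by linarith) (by norm_num)
  obtain ⟨q0, hq0, hq⟩ := a16_small hC hθ hs0
  refine ⟨min (min q0 ηp) (1 / 100), lt_min (lt_min hq0 hηp) (by norm_num), min_le_right _ _, ?_⟩
  intro Γ f x r η hr hη hηle hR hL
  have l1 : η ≤ q0 := hηle.trans ((min_le_left _ _).trans (min_le_left _ _))
  have l2 : η ≤ ηp := hηle.trans ((min_le_left _ _).trans (min_le_right _ _))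
  have hsz := hq η hη l1
  have hs : C * η ^ θ ≤ η1 / 2 := hsz.trans (min_le_left _ _)
  have hs' : C * η ^ θ ≤ 1 / 10 ^ 17 := hsz.trans (min_le_right _ _)
  have hspos : 0 < C * η ^ θ := mul_pos (by linarith) (Real.rpow_pos_of_pos hη _)
  have h1 : ∀ y, |y - x| ≤ r / 4 → Mv f y (C * η ^ θ * r) :=
    hprop Γ f x r η hr hη l2 hR (fun y hy => hL y (by linarith))
  generalize C * η ^ θ = s at hs hs' hspos h1
  have hder : ∀ y, |y - x| ≤ 5 * r / 32 → DifferentiableAt ℝ (f : ℝ → ℝ) y ∧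
      |deriv (f : ℝ → ℝ) y - 1| ≤ 1 / 100 := by
    intro y hy
    have hR' : Rel Γ f y (r / 2) := hR.mono (by linarith)
    have hL' : LL f y (r / 2) (2 * s) := by
      intro t ht
      have h2 : |t - x| ≤ r / 4 := by
        have := abs_sub_le t y x
        linarith
      exact (h1 t h2).mono (le_of_eq (by ring))
    obtain ⟨-, h3⟩ := hrel Γ f y (r / 2) (2 * s) (by linarith) (by linarith) (by linarith) hR' hL'
    obtain ⟨h4, h5⟩ := h3 y (by rw [sub_self, abs_zero]; linarith)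
    refine ⟨h4, h5.trans ?_⟩
    have h6 : √(2 * s) ≤ 1 / 10 ^ 8 := by
      rw [Real.sqrt_le_left (by norm_num)]
      have : 2 * s ≤ 2 * (1 / 10 ^ 17) := by linarith
      refine this.trans ?_
      norm_num
    linarith
  intro p q hp hq'
  have hconv : Convex ℝ (closedBall x (5 * r / 32)) := convex_closedBall _ _
  have hmem : ∀ t : ℝ, |t - x| ≤ 5 * r / 32 → t ∈ closedBall x (5 * r / 32) := by
    intro t ht
    rw [mem_closedBall, Real.dist_eq]
    exact ht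
  have h7 := hconv.norm_image_sub_le_of_norm_deriv_le (f := fun t => f t - t) (C := 1 / 100)
    (fun t ht => ?_) (fun t ht => ?_) (hmem q hq') (hmem p hp)
  · rw [Real.norm_eq_abs, Real.norm_eq_abs] at h7
    exact h7
  · rw [mem_closedBall, Real.dist_eq] at ht
    exact (hder t ht).1.sub differentiableAt_id
  · rw [mem_closedBall, Real.dist_eq] at ht
    obtain ⟨h8, h9⟩ := hder t ht
    have h10 : deriv (fun t => f t - t) t = deriv (f : ℝ → ℝ) t - 1 :=
      (h8.hasDerivAt.sub (hasDerivAt_id t)).deriv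
    rw [h10, Real.norm_eq_abs]
    exact h9

/-- the displacement of the square -/
theorem a16_sq {g : ℝ ≃o ℝ} {x r η : ℝ} (hr : 0 < r) (hη : 0 < η) (hη1 : η ≤ 1 / 100)
    (hL : LL g x r η)
    (hlip : ∀ p q : ℝ, |p - x| ≤ 5 * r / 32 → |q - x| ≤ 5 * r / 32 →
      |(g p - p) - (g q - q)| ≤ 1 / 100 * |p - q|)
    {y : ℝ} (hy : |y - x| ≤ r / 8) : |(g ^ 2) y - y| ≤ 201 / 100 * (η * r) := by
  have hηr : η * r ≤ 1 / 100 * r := mul_le_mul_of_nonneg_right hη1 hr.le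
  have h1 := (hL y hy).1
  have h2 : |g y - x| ≤ 5 * r / 32 := by
    have := abs_sub_le (g y) y x
    linarith
  have h3 := hlip (g y) y h2 (by linarith)
  have e : (g ^ 2) y = g (g y) := by rw [pow_two, RelIso.mul_apply]
  rw [e]
  have h4 : |g (g y) - y| ≤ |(g (g y) - g y) - (g y - y)| + 2 * |g y - y| := by
    have e2 : g (g y) - y = ((g (g y) - g y) - (g y - y)) + 2 * (g y - y) := by ring
    rw [e2]
    refine (abs_add_le _ _).trans ?_
    rw [abs_mul, abs_two]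
  nlinarith [abs_nonneg (g y - y)]

theorem gain : ∃ η0 : ℝ, 0 < η0 ∧ η0 ≤ 1 ∧
    ∀ (Γ : Subgroup (ℝ ≃o ℝ)) (f g : ℝ ≃o ℝ) (x r η : ℝ) (N : ℕ), 0 < r → 0 < η → η ≤ η0 →
      2 ≤ N → Rel Γ f x r → Rel Γ g x r → LL g x r η → Le ((f ^ 2) ^ N) (g ^ 2) →
      LL f x r η := by
  obtain ⟨η0, hη0, hη01, hlip⟩ := a16_lip
  refine ⟨η0 / 3, by linarith, by linarith, ?_⟩
  intro Γ f g x r η N hr hη hηle hN hRf hRg hLg hle
  have hη1 : η ≤ 1 / 100 := by linarith
  have hηr : η * r ≤ 1 / 300 * r := mul_le_mul_of_nonneg_right (by linarith) hr.le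
  have hηr0 : 0 < η * r := mul_pos hη hr
  have hg2 : ∀ y, |y - x| ≤ r / 8 → Mv (g ^ 2) y (201 / 100 * (η * r)) := by
    intro y hy
    refine ⟨a16_sq hr hη hη1 hLg (hlip Γ g x r η hr hη (by linarith) hRg hLg) hy, ?_⟩
    rw [← inv_pow]
    exact a16_sq hr hη hη1 hLg.inv (hlip Γ g⁻¹ x r η hr hη (by linarith) hRg.inv hLg.inv) hy
  rw [← pow_mul] at hle
  have hf2 : ∀ y, |y - x| ≤ r / 8 → Mv (f ^ (2 * N)) y (201 / 100 * (η * r)) :=
    fun y hy => hle.mv (hg2 y hy)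
  have hfg : Le f (g ^ 2) := hle.pow_le (by omega)
  have hLf : LL f x r (201 / 100 * η) := fun y hy =>
    (hfg.mv (hg2 y hy)).mono (le_of_eq (by ring))
  have hN' : (4 : ℝ) ≤ ((2 * N : ℕ) : ℝ) := by
    exact_mod_cast (by omega : 4 ≤ 2 * N)
  have hm : 201 / 100 * (η * r) / ((2 * N : ℕ) : ℝ) ≤ 201 / 100 * (η * r) / 4 :=
    div_le_div_of_nonneg_left (by positivity) (by norm_num) hN'
  have key : ∀ k : ℝ ≃o ℝ, Rel Γ k x r → LL k x r (201 / 100 * η) → ∀ y, |y - x| ≤ r / 8 →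
      |(k ^ (2 * N)) y - y| ≤ 201 / 100 * (η * r) → |k y - y| ≤ η * r := by
    intro k hRk hLk y hy hk
    have hl := hlip Γ k x r (201 / 100 * η) hr (by positivity) (by linarith) hRk hLk
    have h1 := avg (f := k) (y := y) (m := 201 / 100 * (η * r)) (δ := 1 / 100) (N := 2 * N)
      (by positivity) (by norm_num) (by omega) (fun p q hp hq => hl p q ?_ ?_) hk
    · linarith
    · have := abs_sub_le p y x
      linarith
    · have := abs_sub_le q y x
      linarith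
  intro y hy
  refine ⟨key f hRf hLf y hy (hf2 y hy).1, key f⁻¹ hRf.inv hLf.inv y hy ?_⟩
  rw [inv_pow]
  exact (hf2 y hy).2

end Pool.Agent.H52.GS
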