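import Mathlib
import Pool.Agent.H52.GS.A10
import Pool.Agent.H52.GS.A9
import Pool.Agent.H52.GS.A8

/-!
# GS-A11: SIG: an element with `f^N ≼ g` and `g` small is much smaller

PROOF of `sig_point`.  Given `E` put `J = 2 E`, `τ = η^E`.  Choose `η0 ≤ 1` such that
`2048 * 8^J * η0 ≤ 1`, `(5000 * 8^J)^(2/3) * η0^(1/6) ≤ 1` and `5000 * 8^J * η0 ≤ 1`; given `η`
choose `N0 ≥ 1` with `1/N0 ≤ η^E`.
`R0 = r/512`, `R j = R0/8^j`.  Claim, by induction on `j ≤ J`: `‖F z - z‖ ≤ A j` on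
`ball y0 (R j)`, with `A j = max (η^(j/2)) τ * R0` (real exponent `j/2`).  `j = 0`: hypothesis.
Step: `m = η r = 512 η R0 ≤ R j/4`.  With `A = A j ≥ τ R0`, `1/N ≤ τ ≤ A/R0 ≤ A/(R j)`, so
`m/N + (8 A/R j) m ≤ 9 A m/R j = 4608 * 8^j η A ≤ B := 5000 * 8^j η A ≤ A`.  `sig_step` gives on `‖z - y0‖ ≤ R j/8`:
`‖F z - z‖ ≤ A (5000 * 8^j η)^(2/3) ≤ A η^(1/2) ≤ A (j+1)` (as `η^(2/3) = η^(1/2) η^(1/6)`, and
`η^(1/2) max (η^(j/2)) τ ≤ max (η^((j+1)/2)) τ`).
At `j = J`: `|f y0 - y0| ≤ max (η^E) τ R0 = η^E R0 ≤ η^E r`.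

PROOF of `sig`.  Let `C, θ, ηp` be the constants of `prop22` for `κ = 1/2`, `η1` that of `rel_ni`.
Given `E` put `E' = ⌈(E + 1)/θ⌉` and use `sig_point` for `E'`; take `η0` also `≤ 1/C`, `≤ ηp`, `≤ 1/2`,
`2 η0 ≤ η1`, `5000 √(2 η0)/2 ≤ 1/512` and `E' ≥ 1`.  Let `L = LL g x r η`, `Le (f^N) g`, so
`Mv f y (η r)` for `|y - x| ≤ r/8` (`Le.pow_le`, `Le.mv`), i.e. `LL f x r η`.
Let `|y0 - x| ≤ r/16`.  `Rel Γ f y0 (r/2)` and `LL f y0 (r/2) (2 η)`, so `rel_ni` gives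
`NI f y0 (r/128) (5000 √(2η) r/2)`, in particular an extension `F` of `f` on `ball y0 (r/512)` with
`‖F z - z‖ ≤ r/512`.  `sig_point` (for `f` and, with `Le.invl`, `inv_pow`, for `f⁻¹`) gives
`Mv f y0 (η^E' r)`.  So `Mv f y (η^E' r)` for all `|y - x| ≤ r/16 = (1/2) r/8`, and `prop22` gives
`Mv f y (C (η^E')^θ r)` for `|y - x| ≤ r/4`; `C η^(E' θ) ≤ C η^(E+1) ≤ η^E`.
-/

set_option autoImplicit false
open Set Filter Topology MeasureTheory Metric

namespace Pool.Agent.H52.GS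

theorem a11_rpow {x s : ℝ} (hx : 0 ≤ x) (hs : 0 ≤ s) (h : x ^ 2 ≤ s ^ 3) :
    x ^ (2 / 3 : ℝ) ≤ s := by
  have h1 : x ^ (2 / 3 : ℝ) = (x ^ 2) ^ (1 / 3 : ℝ) := by
    rw [← Real.rpow_natCast x 2, ← Real.rpow_mul hx]
    norm_num
  have h2 : (s ^ 3) ^ (1 / 3 : ℝ) = s := by
    rw [← Real.rpow_natCast s 3, ← Real.rpow_mul hs]
    norm_num
  rw [h1]
  calc (x ^ 2) ^ (1 / 3 : ℝ) ≤ (s ^ 3) ^ (1 / 3 : ℝ) :=
        Real.rpow_le_rpow (by positivity) h (by norm_num)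
    _ = s := h2

theorem a11_iter {E : ℕ} {K s τ : ℝ} {f g : ℝ ≃o ℝ} {F : ℂ → ℂ} {y0 R0 : ℝ} {N : ℕ}
    (hK : K = 5000 * 8 ^ (2 * E)) (hs : 0 < s) (hKs : K ^ 2 * s ≤ 1) (hτ : τ = s ^ (2 * E))
    (hN : 1 ≤ N) (hNτ : 1 / (N : ℝ) ≤ τ) (hR0 : 0 < R0)
    (hF : Ext f F y0 R0) (hb : ∀ z ∈ ball (y0 : ℂ) R0, ‖F z - z‖ ≤ R0)
    (hg : ∀ y, |y - y0| ≤ R0 → Mv g y (512 * s ^ 2 * R0)) (hle : Le (f ^ N) g) :
    ∀ j : ℕ, j ≤ 2 * E → ∀ z ∈ ball (y0 : ℂ) (R0 / 8 ^ j),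
      ‖F z - z‖ ≤ max (s ^ j) τ * R0 := by
  have hK1 : 5000 ≤ K := by
    rw [hK]
    have : (1 : ℝ) ≤ 8 ^ (2 * E) := one_le_pow₀ (by norm_num)
    linarith
  have hs1 : s ≤ 1 := by
    by_contra hcon
    push Not at hcon
    have : 1 < K ^ 2 * s := by nlinarith
    linarith
  have hτ0 : 0 < τ := by rw [hτ]; positivity
  intro j
  induction j with
  | zero =>
    intro _ z hz
    rw [pow_zero, div_one] at hz
    have h1 := hb z hz
    have h2 : (1 : ℝ) ≤ max (s ^ 0) τ := by rw [pow_zero]; exact le_max_left _ _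
    nlinarith
  | succ j ih =>
    intro hj z hz
    have ih' := ih (by omega)
    set A : ℝ := max (s ^ j) τ * R0 with hA
    have h8j : (0 : ℝ) < 8 ^ j := by positivity
    have h8j1 : (1 : ℝ) ≤ 8 ^ j := one_le_pow₀ (by norm_num)
    have h8J : (8 : ℝ) ^ j ≤ 8 ^ (2 * E) := pow_le_pow_right₀ (by norm_num) (by omega)
    have hKj : 5000 * 8 ^ j ≤ K := by rw [hK]; linarith
    have hA0 : 0 < A := by
      rw [hA]
      exact mul_pos (lt_of_lt_of_le hτ0 (le_max_right _ _)) hR0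
    have hτA : τ * R0 ≤ A := by
      rw [hA]
      exact mul_le_mul_of_nonneg_right (le_max_right _ _) hR0.le
    have hKs2 : K * s ^ 2 ≤ 1 := by
      have h1 : K * s ^ 2 = K * s * s := by ring
      have h2 : K * s ≤ 1 := by nlinarith
      have h3 : 0 ≤ K * s := by positivity
      nlinarith
    have hB1 : 5000 * 8 ^ j * s ^ 2 ≤ 1 := by
      have : 5000 * 8 ^ j * s ^ 2 ≤ K * s ^ 2 := mul_le_mul_of_nonneg_right hKj (by positivity)
      linarith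
    have hRj : 0 < R0 / 8 ^ j := by positivity
    have hRle : R0 / 8 ^ j ≤ R0 := div_le_self hR0.le h8j1
    have hF' : Ext f F y0 (R0 / 8 ^ j) := hF.mono (by rw [sub_self, abs_zero, zero_add]; exact hRle)
    have hN0 : (0 : ℝ) < N := by exact_mod_cast hN
    have hz8 : ‖z - y0‖ ≤ R0 / 8 ^ j / 8 := by
      rw [mem_ball, dist_eq_norm] at hz
      have : R0 / 8 ^ (j + 1) = R0 / 8 ^ j / 8 := by
        rw [pow_succ, div_div]
      rw [this] at hz
      exact hz.le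
    have hstep := sig_step (f := f) (g := g) (F := F) (y0 := y0) (R := R0 / 8 ^ j)
      (m := 512 * s ^ 2 * R0) (A := A) (B := 5000 * 8 ^ j * s ^ 2 * A) (N := N) hRj
      (by positivity) (by
        rw [div_div, le_div_iff₀ (by positivity)]
        have : 512 * s ^ 2 * R0 * (8 ^ j * 4) = (2048 * 8 ^ j * s ^ 2) * R0 := by ring
        rw [this]
        have h1 : 2048 * 8 ^ j * s ^ 2 ≤ 5000 * 8 ^ j * s ^ 2 := by
          have : 0 ≤ 8 ^ j * s ^ 2 := by positivity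
          nlinarith
        nlinarith) hN hF' ih' (by positivity) (by nlinarith) (by
        have e1 : 512 * s ^ 2 * R0 / N = (1 / N) * (512 * s ^ 2 * R0) := by ring
        have h1 : 512 * s ^ 2 * R0 / N ≤ 512 * s ^ 2 * A := by
          rw [e1]
          have h2 : (1 / (N : ℝ)) * (512 * s ^ 2 * R0) ≤ τ * (512 * s ^ 2 * R0) :=
            mul_le_mul_of_nonneg_right hNτ (by positivity)
          have h3 : τ * (512 * s ^ 2 * R0) = 512 * s ^ 2 * (τ * R0) := by ring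
          have h4 : 512 * s ^ 2 * (τ * R0) ≤ 512 * s ^ 2 * A :=
            mul_le_mul_of_nonneg_left hτA (by positivity)
          linarith
        have h5 : 8 * A / (R0 / 8 ^ j) * (512 * s ^ 2 * R0) = 4096 * 8 ^ j * s ^ 2 * A := by
          field_simp
          ring
        rw [h5]
        have h6 : 0 < s ^ 2 * A := by positivity
        nlinarith) (fun y hy => hg y (hy.trans hRle)) hle hz8
    refine hstep.trans ?_
    have e2 : 5000 * 8 ^ j * s ^ 2 * A / A = 5000 * 8 ^ j * s ^ 2 := by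
      field_simp
    rw [e2]
    have h7 : (5000 * 8 ^ j * s ^ 2) ^ (2 / 3 : ℝ) ≤ s := by
      refine a11_rpow (by positivity) hs.le ?_
      have h8 : (5000 * 8 ^ j * s ^ 2) ^ 2 = ((5000 * 8 ^ j) ^ 2 * s) * s ^ 3 := by ring
      have h9 : (5000 * 8 ^ j) ^ 2 ≤ K ^ 2 := pow_le_pow_left₀ (by positivity) hKj 2
      have h10 : (5000 * 8 ^ j) ^ 2 * s ≤ 1 := by nlinarith
      rw [h8]
      have h11 : 0 < s ^ 3 := by positivity
      nlinarith
    have h12 : A * (5000 * 8 ^ j * s ^ 2) ^ (2 / 3 : ℝ) ≤ A * s :=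
      mul_le_mul_of_nonneg_left h7 hA0.le
    refine h12.trans ?_
    have h13 : A * s = (max (s ^ j) τ * s) * R0 := by rw [hA]; ring
    rw [h13]
    refine mul_le_mul_of_nonneg_right ?_ hR0.le
    rcases le_total (s ^ j) τ with h14 | h14
    · rw [max_eq_right h14]
      refine le_trans ?_ (le_max_right _ _)
      nlinarith
    · rw [max_eq_left h14]
      refine le_trans (le_of_eq ?_) (le_max_left _ _)
      rw [pow_succ]

theorem sig_point (E : ℕ) : ∃ η0 : ℝ, 0 < η0 ∧ η0 ≤ 1 ∧ ∀ η : ℝ, 0 < η → η ≤ η0 →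
    ∃ N0 : ℕ, ∀ N : ℕ, N0 ≤ N → ∀ (f g : ℝ ≃o ℝ) (F : ℂ → ℂ) (y0 r : ℝ), 0 < r →
      Ext f F y0 (r / 512) → (∀ z ∈ ball (y0 : ℂ) (r / 512), ‖F z - z‖ ≤ r / 512) →
      (∀ y, |y - y0| ≤ r / 512 → Mv g y (η * r)) → Le (f ^ N) g →
      |f y0 - y0| ≤ η ^ E * r := by
  set K : ℝ := 5000 * 8 ^ (2 * E) with hK
  have hK1 : 1 ≤ K := by
    rw [hK]
    have : (1 : ℝ) ≤ 8 ^ (2 * E) := one_le_pow₀ (by norm_num)
    linarith
  have hK0 : 0 < K := by linarith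
  have hK4 : (1 : ℝ) ≤ K ^ 4 := one_le_pow₀ hK1
  refine ⟨1 / K ^ 4, by positivity, by
    rw [div_le_one (by positivity)]; exact hK4, ?_⟩
  intro η hη hη0
  have hs0 : 0 < √η := Real.sqrt_pos.2 hη
  have hss : √η ^ 2 = η := Real.sq_sqrt hη.le
  have hKs : K ^ 2 * √η ≤ 1 := by
    have h1 : √η ≤ 1 / K ^ 2 := by
      rw [Real.sqrt_le_left (by positivity)]
      refine hη0.trans (le_of_eq ?_)
      field_simp
    have h2 : K ^ 2 * √η ≤ K ^ 2 * (1 / K ^ 2) := mul_le_mul_of_nonneg_left h1 (by positivity)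
    have h3 : K ^ 2 * (1 / K ^ 2) = 1 := by field_simp
    linarith
  have hτ : η ^ E = √η ^ (2 * E) := by rw [pow_mul, hss]
  have hτ0 : 0 < η ^ E := by positivity
  obtain ⟨n, hn⟩ := exists_nat_gt (1 / η ^ E)
  refine ⟨max 1 n, ?_⟩
  intro N hN f g F y0 r hr hF hb hg hle
  have hN1 : 1 ≤ N := (le_max_left _ _).trans hN
  have hNn : n ≤ N := (le_max_right _ _).trans hN
  have hN0 : (0 : ℝ) < N := by exact_mod_cast hN1
  have hNτ : 1 / (N : ℝ) ≤ η ^ E := by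
    rw [div_le_iff₀ hN0]
    have h1 : 1 / η ^ E < (N : ℝ) := hn.trans_le (by exact_mod_cast hNn)
    rw [div_lt_iff₀ hτ0] at h1
    linarith
  have hmain := a11_iter (E := E) (K := K) (s := √η) (τ := η ^ E) (f := f) (g := g) (F := F)
    (y0 := y0) (R0 := r / 512) (N := N) hK hs0 hKs hτ hN1 hNτ (by positivity) hF hb
    (fun y hy => (hg y hy).mono (le_of_eq (by rw [hss]; ring))) hle (2 * E) le_rfl
    (y0 : ℂ) (mem_ball_self (by positivity))
  rw [← hτ, max_self] at hmain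
  have hFy : F (y0 : ℂ) = ((f y0 : ℝ) : ℂ) :=
    hF.2 y0 (by rw [sub_self, abs_zero]; positivity)
  rw [hFy, ← Complex.ofReal_sub, Complex.norm_real, Real.norm_eq_abs] at hmain
  refine hmain.trans ?_
  have : η ^ E * (r / 512) ≤ η ^ E * r := mul_le_mul_of_nonneg_left (by linarith) hτ0.le
  exact this

theorem sig (E : ℕ) : ∃ η0 : ℝ, 0 < η0 ∧ η0 ≤ 1 ∧ ∀ η : ℝ, 0 < η → η ≤ η0 →
    ∃ N0 : ℕ, 1 ≤ N0 ∧ ∀ N : ℕ, N0 ≤ N →
      ∀ (Γ : Subgroup (ℝ ≃o ℝ)) (f g : ℝ ≃o ℝ) (x r : ℝ), 0 < r →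
      Rel Γ f x r → LL g x r η → Le (f ^ N) g → LL f x r (η ^ E) := by
  obtain ⟨C, hC, θ, hθ, hθ1, ηp, hηp, hprop⟩ := prop22 (κ := 1 / 2) (by norm_num) (by norm_num)
  obtain ⟨η1, hη1, hη11, hrel⟩ := rel_ni
  set E' : ℕ := ⌈((E : ℝ) + 1) / θ⌉₊ with hE'
  have hE1 : ((E : ℝ) + 1) / θ ≤ E' := Nat.le_ceil _
  have hE'1 : 1 ≤ E' := by
    have h1 : (1 : ℝ) ≤ ((E : ℝ) + 1) / θ := by
      rw [le_div_iff₀ hθ]
      have : (0 : ℝ) ≤ E := Nat.cast_nonneg _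
      linarith
    have h2 : (1 : ℝ) ≤ E' := h1.trans hE1
    exact_mod_cast h2
  have hEθ : (E : ℝ) + 1 ≤ E' * θ := by
    rwa [div_le_iff₀ hθ] at hE1
  obtain ⟨ηs, hηs, hηs1, hpoint⟩ := sig_point E'
  have hC0 : 0 < C := by linarith
  refine ⟨min (min ηs (1 / C)) (min (min ηp (η1 / 2)) (1 / 10 ^ 13)), ?_, ?_, ?_⟩
  · have : 0 < 1 / C := by positivity
    have h2 : 0 < η1 / 2 := by positivity
    have h3 : (0 : ℝ) < 1 / 10 ^ 13 := by norm_num
    exact lt_min (lt_min hηs this) (lt_min (lt_min hηp h2) h3)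
  · exact (min_le_left _ _).trans ((min_le_left _ _).trans hηs1)
  intro η hη hηle
  have l1 : η ≤ ηs := hηle.trans ((min_le_left _ _).trans (min_le_left _ _))
  have l2 : η ≤ 1 / C := hηle.trans ((min_le_left _ _).trans (min_le_right _ _))
  have l3 : η ≤ ηp :=
    hηle.trans ((min_le_right _ _).trans ((min_le_left _ _).trans (min_le_left _ _)))
  have l4 : η ≤ η1 / 2 :=
    hηle.trans ((min_le_right _ _).trans ((min_le_left _ _).trans (min_le_right _ _)))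
  have l5 : η ≤ 1 / 10 ^ 13 := hηle.trans ((min_le_right _ _).trans (min_le_right _ _))
  have hη1' : η ≤ 1 := l1.trans hηs1
  obtain ⟨n, hn⟩ := hpoint η hη l1
  refine ⟨max 1 n, le_max_left _ _, ?_⟩
  intro N hN Γ f g x r hr hR hL hle
  have hN1 : 1 ≤ N := (le_max_left _ _).trans hN
  have hNn : n ≤ N := (le_max_right _ _).trans hN
  have hfg : Le f g := Le.pow_le hN1 hle
  have hLf : ∀ y, |y - x| ≤ r / 8 → Mv f y (η * r) := fun y hy => hfg.mv (hL y hy)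
  have hsq : 5000 * √(2 * η) * (r / 2) ≤ r / 512 := by
    have h1 : √(2 * η) ≤ 1 / (2 * 10 ^ 6) := by
      rw [Real.sqrt_le_left (by norm_num)]
      have : 2 * η ≤ 2 * (1 / 10 ^ 13) := by linarith
      refine this.trans ?_
      norm_num
    have h2 : 5000 * √(2 * η) ≤ 5000 * (1 / (2 * 10 ^ 6)) := by linarith
    have h3 : 5000 * √(2 * η) * (r / 2) ≤ 5000 * (1 / (2 * 10 ^ 6)) * (r / 2) :=
      mul_le_mul_of_nonneg_right h2 (by positivity)
    refine h3.trans ?_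
    nlinarith
  have key : ∀ y0, |y0 - x| ≤ r / 16 → Mv f y0 (η ^ E' * r) := by
    intro y0 hy0
    have hR' : Rel Γ f y0 (r / 2) := hR.mono (by linarith)
    have hL' : LL f y0 (r / 2) (2 * η) := by
      intro y hy
      have h1 : |y - x| ≤ r / 8 := by
        have := abs_sub_le y y0 x
        linarith
      exact (hLf y h1).mono (le_of_eq (by ring))
    obtain ⟨⟨F, F', hF, hF', hb⟩, -⟩ :=
      hrel Γ f y0 (r / 2) (2 * η) (by positivity) (by positivity) (by linarith) hR' hL'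
    have hsub : |y0 - y0| + r / 512 ≤ r / 2 / 64 := by
      rw [sub_self, abs_zero]; linarith
    have hbs : ∀ z ∈ ball (y0 : ℂ) (r / 512), ‖F z - z‖ ≤ r / 512 ∧ ‖F' z - z‖ ≤ r / 512 := by
      intro z hz
      obtain ⟨h1, h2⟩ := hb z (M1_sub hsub hz)
      exact ⟨h1.trans hsq, h2.trans hsq⟩
    have hg' : ∀ y, |y - y0| ≤ r / 512 → Mv g y (η * r) := by
      intro y hy
      refine hL y ?_
      have := abs_sub_le y y0 x
      linarith
    refine ⟨?_, ?_⟩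
    · exact hn N hNn f g F y0 r hr (hF.mono hsub) (fun z hz => (hbs z hz).1) hg' hle
    · refine hn N hNn f⁻¹ g F' y0 r hr (hF'.mono hsub) (fun z hz => (hbs z hz).2) hg' ?_
      rw [inv_pow]
      exact hle.invl
  intro y hy
  have hηE : η ^ E' ≤ η := by
    have := pow_le_pow_of_le_one hη.le hη1' hE'1
    rwa [pow_one] at this
  have hfin := hprop Γ f x r (η ^ E') hr (by positivity) (hηE.trans l3) hR
    (fun y hy => key y (by linarith)) y (by linarith)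
  refine hfin.mono (mul_le_mul_of_nonneg_right ?_ hr.le)
  have h1 : (η ^ E') ^ θ = η ^ ((E' : ℝ) * θ) := by
    rw [← Real.rpow_natCast, ← Real.rpow_mul hη.le]
  have h2 : η ^ ((E' : ℝ) * θ) ≤ η ^ ((E : ℝ) + 1) :=
    Real.rpow_le_rpow_of_exponent_ge hη hη1' hEθ
  have h3 : η ^ ((E : ℝ) + 1) = η ^ E * η := by
    rw [Real.rpow_add_one hη.ne', Real.rpow_natCast]
  rw [h1]
  have h4 : C * η ^ ((E' : ℝ) * θ) ≤ C * (η ^ E * η) := by
    rw [← h3]
    exact mul_le_mul_of_nonneg_left h2 hC0.le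
  have h5 : C * η ≤ 1 := by
    have := mul_le_mul_of_nonneg_left l2 hC0.le
    have h6 : C * (1 / C) = 1 := by field_simp
    linarith
  have h7 : 0 < η ^ E := by positivity
  have h8 : C * (η ^ E * η) = (C * η) * η ^ E := by ring
  nlinarith

end Pool.Agent.H52.GS
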