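import Mathlib
import Pool.Agent.H52.GS.A11

/-!
# GS-A17: the lemma `sig` for squares

`LL g x r η` gives `LL (g^2) x (r/2) (4 η)` (`mv_pow`), so `sig E'` gives `LL f x (r/2) ((4 η)^E')`
and `prop22` with `κ = 1/2` gives `Mv f y (C ((4 η)^E')^θ r)` for `|y - x| ≤ r/4`; with
`E' θ ≥ 2 E + 2`, `16 η ≤ 1`, `C η ≤ 1` this is at most `η^E r`.
-/

set_option autoImplicit false
open Set Filter Topology MeasureTheory Metric

namespace Pool.Agent.H52.GS

theorem sig2 (E : ℕ) : ∃ η0 : ℝ, 0 < η0 ∧ η0 ≤ 1 ∧ ∀ η : ℝ, 0 < η → η ≤ η0 →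
    ∃ N0 : ℕ, 1 ≤ N0 ∧ ∀ N : ℕ, N0 ≤ N →
      ∀ (Γ : Subgroup (ℝ ≃o ℝ)) (f g : ℝ ≃o ℝ) (x r : ℝ), 0 < r →
      Rel Γ f x r → LL g x r η → Le ((f ^ 2) ^ N) (g ^ 2) → LL f x r (η ^ E) := by
  obtain ⟨C, hC, θ, hθ, hθ1, ηp, hηp, hprop⟩ := prop22 (κ := 1 / 2) (by norm_num) (by norm_num)
  obtain ⟨E', hE'⟩ := exists_nat_ge (((2 * (E + 1) : ℕ) : ℝ) / θ)
  have hE1 : ((2 * (E + 1) : ℕ) : ℝ) ≤ E' * θ := (div_le_iff₀ hθ).1 hE'
  have hE2 : 1 ≤ E' := by
    have h1 : ((2 * (E + 1) : ℕ) : ℝ) ≤ E' :=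
      hE1.trans (mul_le_of_le_one_right (Nat.cast_nonneg E') hθ1)
    have h2 : 2 * (E + 1) ≤ E' := by exact_mod_cast h1
    omega
  obtain ⟨ηs, hηs, hηs1, hsig⟩ := sig E'
  have hC0 : 0 < C := by linarith
  refine ⟨min (min (ηs / 4) (1 / C)) (min (ηp / 4) (1 / 32)), ?_, ?_, ?_⟩
  · have h1 : 0 < 1 / C := by positivity
    exact lt_min (lt_min (by linarith) h1) (lt_min (by linarith) (by norm_num))
  · exact (min_le_right _ _).trans ((min_le_right _ _).trans (by norm_num))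
  intro η hη hηle
  have l1 : η ≤ ηs / 4 := hηle.trans ((min_le_left _ _).trans (min_le_left _ _))
  have l2 : η ≤ 1 / C := hηle.trans ((min_le_left _ _).trans (min_le_right _ _))
  have l3 : η ≤ ηp / 4 := hηle.trans ((min_le_right _ _).trans (min_le_left _ _))
  have l4 : η ≤ 1 / 32 := hηle.trans ((min_le_right _ _).trans (min_le_right _ _))
  obtain ⟨N0, hN0, hN⟩ := hsig (4 * η) (by linarith) (by linarith)
  refine ⟨N0, hN0, ?_⟩
  intro N hNN Γ f g x r hr hR hL hle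
  have hηr : η * r ≤ 1 / 32 * r := mul_le_mul_of_nonneg_right l4 hr.le
  have hηr0 : 0 < η * r := mul_pos hη hr
  have hL2 : LL (g ^ 2) x (r / 2) (4 * η) := by
    intro y hy
    refine (mv_pow (d := η * r) hηr0.le hL 2 (y := y) ?_).mono (le_of_eq ?_)
    · push_cast
      linarith
    · push_cast
      ring
  have hR2 : Rel Γ f x (r / 2) := hR.mono (by rw [sub_self, abs_zero]; linarith)
  rw [← pow_mul] at hle
  have h1 := hN (2 * N) (by omega) Γ f (g ^ 2) x (r / 2) (by linarith) hR2 hL2 hle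
  have h4 : (4 * η) ^ E' ≤ 4 * η := pow_le_of_le_one (by linarith) (by linarith) (by omega)
  have hpos : 0 < (4 * η) ^ E' := by positivity
  have h2 : ∀ y, |y - x| ≤ 1 / 2 * r / 8 → Mv f y ((4 * η) ^ E' * r) := by
    intro y hy
    refine (h1 y (by linarith)).mono ?_
    exact mul_le_mul_of_nonneg_left (by linarith) hpos.le
  have h3 := hprop Γ f x r ((4 * η) ^ E') hr hpos (by linarith) hR h2
  intro y hy
  refine (h3 y (by linarith)).mono (mul_le_mul_of_nonneg_right ?_ hr.le)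
  have h5 : ((4 * η) ^ E') ^ θ ≤ (4 * η) ^ (2 * (E + 1)) := by
    rw [← Real.rpow_natCast (4 * η) E', ← Real.rpow_mul (by linarith),
      ← Real.rpow_natCast (4 * η) (2 * (E + 1))]
    exact Real.rpow_le_rpow_of_exponent_ge (by linarith) (by linarith) hE1
  have h6 : (4 * η) ^ (2 * (E + 1)) ≤ η ^ (E + 1) := by
    rw [pow_mul]
    exact pow_le_pow_left₀ (by positivity) (by nlinarith) _
  have h7 : C * η ≤ 1 := by
    rw [le_div_iff₀ hC0] at l2
    linarith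
  calc C * ((4 * η) ^ E') ^ θ ≤ C * η ^ (E + 1) :=
        mul_le_mul_of_nonneg_left (h5.trans h6) hC0.le
    _ = (C * η) * η ^ E := by ring
    _ ≤ 1 * η ^ E := mul_le_mul_of_nonneg_right h7 (by positivity)
    _ = η ^ E := one_mul _

end Pool.Agent.H52.GS
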