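import Mathlib
import Pool.Agent.H52.GS.FDef
import Pool.Agent.H52.GS.A16
import Pool.Agent.H52.GS.A17
import Pool.Agent.H52.GS.A12
import Pool.Agent.H52.GS.A13

/-!
# GS-K1: existence of the constants

PROOF.  Everything is chosen in the following order.
(1) `C1, θ1, t1` from `prop22` with `κ = 1`; `C2, θ2, t2` from `chain`; `p : ℕ` with `p θ1 ≥ 4`,
`p ≥ 3`; `E : ℕ` with `3 E θ2 ≥ p + 1`, `E ≥ p + 1`.  `t3` and the function `N0` from `sig E`; `t4` from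
`rel_ni`; `t5 = ηA` from `rel_comm`; `t8` from `gain`.  (`sig` means `sig2`; `ηM` in (2) is the
thickness constant `ηT`.)
(2) `c > 0` small: `c ≤ 10^(-6)`; `C1 c ≤ 1/2`, `C2 c ≤ 1`, `2^E c ≤ 1`, `2 c ≤ t3`, `2 c ≤ t5`,
`c ≤ t1, t2, t4, 1`, `10^6 √(c^3) ≤ c/4`, `5000 √(c^3) ≤ ηM/4096`, `5000 √(c^3) ≤ c/10^6` (the last three
hold when `√c` is small, as `√(c^3) = c √c`, resp. `√(c^3) → 0`).
`η1 = c^3`, `ηp = c^p`, `ηd = c^(3E) = η1^E` (`≤ ηp ≤ η1`).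
`loc`: `prop22` with `η = ηp`: `C1 (c^p)^θ1 ≤ C1 c^4 ≤ c^3/2` (`|y - x| ≤ 3r/16 ≤ r/4`).
`ch1`: `chain` with `η = ηd`: `C2 (c^(3E))^θ2 ≤ C2 c^(p+1) ≤ c^p` (then `LL.mono`).
`com`: `rel_comm` (`LL.mono`, `2c ≤ ηA`).  `der, thk, swp`: `rel_ni` with `η = η1` and `NI.mono`
(`r/128 ≤ r/64`).
(3) `N1 ≥ N0(2c), N0(η1), 1`; `N2 ≥ N0(η1), 2`.  `sg1`: `LL f x r ((2c)^E)` and
`(2c)^E = 2^E c c^(E-1) ≤ c^p`.  `sg2, sg3`: `η1^E = ηd`.
(4) `κ > 0`: `κ ≤ c`, `2 κ ≤ t2`, `C2 (2κ)^θ2 ≤ ηp`.  `ch2`: `chain` with `η = 2κ`.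
(5) `η2 > 0`: `C3, θ3, t6` from `prop22` with `κ/2` (in place of `κ`).  `x2`: the hypothesis is
`Mv f y (Q ψ x)` for `|y - x| ≤ κ ψ x/16 = (κ/2) ψ x/8`, `Q = (8 N2+2) η2`.  So for `Q ≤ t6`:
`Mv f y (C3 Q^θ3 ψ x)` for `|y - x| ≤ ψ x/4`, i.e. `LL f x (ψ x) Q'`, `Q' = C3 Q^θ3`; `chain` (for
`Q' ≤ t2`): `LL f x' (ψ x') (C2 Q'^θ2)`, in particular (at `y = x'`) `Mv f x' (C2 Q'^θ2 ψ x')`,
and `C2 Q'^θ2 ≤ κ/3` for `η2` small (`Q → 0` as `η2 → 0`).  (`Q > 0`.)  Also `η2 ≤ ηd` and `num2`.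
(6) `η3 > 0`: `C4, θ4, t7` from `prop22` with `κ = 1/2`.  `x1`: `Q = (8 N1+2) η3 ≤ t7`,
`|y - x| ≤ r/16 = (1/2) r/8`; `C4 Q^θ4 ≤ η2`.  Also `η3 ≤ η2`, `η3 ≤ t8`, `num1`, `η3 ≤ 1/100`
(follows from `η3 ≤ η1 ≤ c^2`).
Limits like `Q^θ → 0` as `Q → 0+`: `Real.continuousAt_rpow_const`/`tendsto` or explicit choice
`Q = (b)^(1/θ)`.
-/

set_option autoImplicit false
open Set Filter Topology MeasureTheory Metric

namespace Pool.Agent.H52.GS

theorem K1_small (l : List ℝ) (h : ∀ a ∈ l, 0 < a) : ∃ c : ℝ, 0 < c ∧ ∀ a ∈ l, c ≤ a := by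
  induction l with
  | nil => exact ⟨1, one_pos, fun a ha => absurd ha List.not_mem_nil⟩
  | cons b l ih =>
    obtain ⟨c, hc, hl⟩ := ih fun a ha => h a (List.mem_cons_of_mem b ha)
    refine ⟨min b c, lt_min (h b List.mem_cons_self) hc, fun a ha => ?_⟩
    rcases List.mem_cons.1 ha with rfl | ha
    · exact min_le_left _ _
    · exact (min_le_right _ _).trans (hl a ha)

/-- `C Q^θ ≤ b` for small `Q` -/
theorem K1_q {C θ b : ℝ} (hC : 1 ≤ C) (hθ : 0 < θ) (hb : 0 < b) :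
    ∃ q : ℝ, 0 < q ∧ ∀ Q : ℝ, 0 < Q → Q ≤ q → C * Q ^ θ ≤ b := by
  have hC0 : 0 < C := by linarith
  have hbC : 0 < b / C := by positivity
  refine ⟨(b / C) ^ (1 / θ), by positivity, fun Q hQ hQq => ?_⟩
  have h1 : Q ^ θ ≤ ((b / C) ^ (1 / θ)) ^ θ := Real.rpow_le_rpow hQ.le hQq hθ.le
  rw [← Real.rpow_mul hbC.le, one_div_mul_cancel hθ.ne', Real.rpow_one] at h1
  calc C * Q ^ θ ≤ C * (b / C) := mul_le_mul_of_nonneg_left h1 hC0.le
    _ = b := by field_simp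

/-- `(c^m)^θ ≤ c^k` when `k ≤ m θ`, `c ≤ 1` -/
theorem K1_rp {c θ : ℝ} {m k : ℕ} (hc : 0 < c) (hc1 : c ≤ 1) (h : (k : ℝ) ≤ m * θ) :
    (c ^ m) ^ θ ≤ c ^ k := by
  rw [← Real.rpow_natCast c m, ← Real.rpow_mul hc.le, ← Real.rpow_natCast c k]
  exact Real.rpow_le_rpow_of_exponent_ge hc hc1 h

theorem K1_sqrt {c : ℝ} (hc : 0 < c) : √(c ^ 3) = c * √c := by
  have h : c ^ 3 = c ^ 2 * c := by ring
  rw [h, Real.sqrt_mul (by positivity), Real.sqrt_sq hc.le]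

theorem cst_exists {Γ : Subgroup (ℝ ≃o ℝ)} {ηM ηT : ℝ} (hηM : 0 < ηM) (hηT : 0 < ηT)
    (hcom : ∀ x R : ℝ, 0 < R → R ≤ 1 → ∀ f ∈ Γ, ∀ g ∈ Γ, NI f x R (ηM * R) →
        NI g x R (ηM * R) → f ^ 2 * g ^ 2 = g ^ 2 * f ^ 2) :
    ∃ e : Env, Cst Γ ηT e := by
  obtain ⟨C1, hC1, θ1, hθ1, hθ1', t1, ht1, P1⟩ := prop22 (κ := 1) one_pos le_rfl
  obtain ⟨C2, hC2, θ2, hθ2, hθ2', t2, ht2, Ch⟩ := chain
  obtain ⟨p, hp⟩ := exists_nat_ge (max (4 / θ1) 3)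
  have hp3 : 3 ≤ p := by
    have h1 : (3 : ℝ) ≤ p := (le_max_right _ _).trans hp
    exact_mod_cast h1
  have hp4 : ((4 : ℕ) : ℝ) ≤ p * θ1 := by
    have h1 : 4 / θ1 ≤ p := (le_max_left _ _).trans hp
    rw [div_le_iff₀ hθ1] at h1
    exact_mod_cast h1
  obtain ⟨E, hE⟩ := exists_nat_ge (((p + 1 : ℕ) : ℝ) / θ2)
  have hE1 : ((p + 1 : ℕ) : ℝ) ≤ E * θ2 := (div_le_iff₀ hθ2).1 hE
  have hEp : p + 1 ≤ E := by
    have h1 : ((p + 1 : ℕ) : ℝ) ≤ E := by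
      refine hE1.trans ?_
      exact mul_le_of_le_one_right (Nat.cast_nonneg E) hθ2'
    exact_mod_cast h1
  obtain ⟨t3, ht3, ht31, Sg⟩ := sig2 E
  obtain ⟨t4, ht4, ht41, Rn⟩ := rel_ni
  obtain ⟨t5, ht5, Rc⟩ := rel_comm hηM hcom
  obtain ⟨t8, ht8, ht81, Gn⟩ := gain
  -- the constant `c`
  obtain ⟨s, hs, hsl⟩ := K1_small [1 / 5000000000, ηT / 20480000] (by
    intro a ha
    simp only [List.mem_cons, List.not_mem_nil, or_false] at ha
    rcases ha with rfl | rfl <;> positivity)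
  simp only [List.mem_cons, List.not_mem_nil, or_false, forall_eq_or_imp, forall_eq] at hsl
  obtain ⟨hs1, hs2⟩ := hsl
  obtain ⟨c, hc, hcl⟩ := K1_small [1 / 1000000, 1 / (2 * C1), 1 / C2, 1 / 2 ^ E, t3 / 2, t5 / 2,
    t1, t2, t4, t3, s ^ 2] (by
      intro a ha
      simp only [List.mem_cons, List.not_mem_nil, or_false] at ha
      rcases ha with rfl | rfl | rfl | rfl | rfl | rfl | rfl | rfl | rfl | rfl | rfl <;> positivity)
  simp only [List.mem_cons, List.not_mem_nil, or_false, forall_eq_or_imp, forall_eq] at hcl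
  obtain ⟨k1, k2, k3, k4, k5, k6, k7, k8, k9, k10, k11⟩ := hcl
  have hc1 : c ≤ 1 := by linarith
  have kC1 : C1 * c ≤ 1 / 2 := by
    rw [le_div_iff₀ (by positivity)] at k2
    linarith
  have kC2 : C2 * c ≤ 1 := by
    rw [le_div_iff₀ (by positivity)] at k3
    linarith
  have kE : 2 ^ E * c ≤ 1 := by
    rw [le_div_iff₀ (by positivity)] at k4
    linarith
  have hsq : √c ≤ s := by
    rw [← Real.sqrt_sq hs.le]
    exact Real.sqrt_le_sqrt k11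
  have hsq0 : 0 ≤ √c := Real.sqrt_nonneg c
  have hsc : √(c ^ 3) = c * √c := K1_sqrt hc
  have q1 : 1000000 * √(c ^ 3) ≤ c / 4 := by
    rw [hsc]
    nlinarith
  have q2 : 5000 * √(c ^ 3) ≤ ηT / 4096 := by
    rw [hsc]
    have h1 : c * √c ≤ √c := mul_le_of_le_one_left hsq0 hc1
    linarith
  have q3 : 5000 * √(c ^ 3) ≤ c / 1000000 := by
    rw [hsc]
    nlinarith
  have hcp : ∀ m : ℕ, 1 ≤ m → c ^ m ≤ c := fun m hm => pow_le_of_le_one hc.le hc1 (by omega)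
  have hcpp : ∀ m : ℕ, 0 < c ^ m := fun m => pow_pos hc m
  have hanti : ∀ m n : ℕ, m ≤ n → c ^ n ≤ c ^ m := fun m n h => pow_le_pow_of_le_one hc.le hc1 h
  -- signs
  obtain ⟨N0a, hN0a, Sa⟩ := Sg (2 * c) (by positivity) (by linarith)
  obtain ⟨N0b, hN0b, Sb⟩ := Sg (c ^ 3) (hcpp 3) ((hcp 3 (by norm_num)).trans k10)
  obtain ⟨N1, hN1⟩ : ∃ N1, N1 = max N0a N0b := ⟨_, rfl⟩
  obtain ⟨N2, hN2⟩ : ∃ N2, N2 = max N0b 2 := ⟨_, rfl⟩
  have hN1a : N0a ≤ N1 := hN1 ▸ le_max_left _ _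
  have hN1b : N0b ≤ N1 := hN1 ▸ le_max_right _ _
  have hN2b : N0b ≤ N2 := hN2 ▸ le_max_left _ _
  have hN2c : 2 ≤ N2 := hN2 ▸ le_max_right _ _
  -- `κ`
  obtain ⟨qa, hqa, Qa⟩ := K1_q hC2 hθ2 (hcpp p)
  obtain ⟨κ, hκ, hκl⟩ := K1_small [c, t2 / 2, qa / 2] (by
      intro a ha
      simp only [List.mem_cons, List.not_mem_nil, or_false] at ha
      rcases ha with rfl | rfl | rfl <;> positivity)
  simp only [List.mem_cons, List.not_mem_nil, or_false, forall_eq_or_imp, forall_eq] at hκl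
  obtain ⟨l1, l2, l3⟩ := hκl
  -- `η2`
  obtain ⟨C3, hC3, θ3, hθ3, hθ3', t6, ht6, P3⟩ := prop22 (κ := κ / 2) (by positivity) (by linarith)
  obtain ⟨qb, hqb, Qb⟩ := K1_q hC2 hθ2 (b := κ / 3) (by positivity)
  obtain ⟨qc, hqc, Qc⟩ := K1_q hC3 hθ3 (b := min t2 qb) (lt_min ht2 hqb)
  have hN2p : (0 : ℝ) < 8 * (N2 : ℝ) + 2 := by positivity
  have hN1p : (0 : ℝ) < 8 * (N1 : ℝ) + 2 := by positivity
  obtain ⟨η2, hη2, hη2l⟩ := K1_small [c ^ (3 * E), t6 / (8 * (N2 : ℝ) + 2),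
      qc / (8 * (N2 : ℝ) + 2), (c * κ / 100) / (8 * (N2 : ℝ) + 2)] (by
      intro a ha
      simp only [List.mem_cons, List.not_mem_nil, or_false] at ha
      rcases ha with rfl | rfl | rfl | rfl <;> positivity)
  simp only [List.mem_cons, List.not_mem_nil, or_false, forall_eq_or_imp, forall_eq] at hη2l
  obtain ⟨m1, m2, m3, m4⟩ := hη2l
  rw [le_div_iff₀ hN2p, mul_comm] at m2 m3 m4
  -- `η3`
  obtain ⟨C4, hC4, θ4, hθ4, hθ4', t7, ht7, P4⟩ := prop22 (κ := 1 / 2) (by norm_num) (by norm_num)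
  obtain ⟨qd, hqd, Qd⟩ := K1_q hC4 hθ4 hη2
  obtain ⟨η3, hη3, hη3l⟩ := K1_small [η2, t7 / (8 * (N1 : ℝ) + 2),
      qd / (8 * (N1 : ℝ) + 2), (1 / 16) / (8 * (N1 : ℝ) + 2), t8] (by
      intro a ha
      simp only [List.mem_cons, List.not_mem_nil, or_false] at ha
      rcases ha with rfl | rfl | rfl | rfl | rfl <;> positivity)
  simp only [List.mem_cons, List.not_mem_nil, or_false, forall_eq_or_imp, forall_eq] at hη3l
  obtain ⟨n1, n2, n3, n4, n5⟩ := hη3l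
  rw [le_div_iff₀ hN1p, mul_comm] at n2 n3 n4
  refine ⟨⟨c, c ^ 3, c ^ p, c ^ (3 * E), κ, η2, η3, N1, N2⟩, ?_⟩
  refine
    { c0 := hc
      c1 := k1
      κ0 := hκ
      κ1 := l1
      η0 := hη3
      h32 := n1
      h2d := m1
      hdp := hanti _ _ (by omega)
      hp1 := hanti _ _ hp3
      h1c := hanti _ _ (by norm_num)
      num1 := n4
      num2 := m4
      num3 := ⟨hN0a.trans hN1a, hN0b.trans hN2b⟩
      com := ?_
      der := ?_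
      thk := ?_
      swp := ?_
      loc := ?_
      sg1 := ?_
      sg2 := ?_
      sg3 := ?_
      gl := ?_
      ch1 := ?_
      ch2 := ?_
      x1 := ?_
      x2 := ?_ }
  · intro f g x r hr hr1 hf hg hLf hLg
    exact Rc f g x r hr hr1 hf hg (hLf.mono hr.le (by linarith)) (hLg.mono hr.le (by linarith))
  · intro f x r hr hf hL y hy
    obtain ⟨-, h2⟩ := Rn Γ f x r (c ^ 3) hr (hcpp 3) ((hcp 3 (by norm_num)).trans k9) hf hL
    exact ⟨(h2 y hy).1, (h2 y hy).2.trans q1⟩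
  · intro f x r hr hf hL
    obtain ⟨h1, -⟩ := Rn Γ f x r (c ^ 3) hr (hcpp 3) ((hcp 3 (by norm_num)).trans k9) hf hL
    refine h1.mono ?_ ?_
    · rw [sub_self, abs_zero]
      linarith
    · have h2 := mul_le_mul_of_nonneg_right q2 hr.le
      linarith
  · intro f x r hr hf hL
    obtain ⟨h1, -⟩ := Rn Γ f x r (c ^ 3) hr (hcpp 3) ((hcp 3 (by norm_num)).trans k9) hf hL
    refine h1.mono ?_ ?_
    · rw [sub_self, abs_zero]
      linarith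
    · have h2 := mul_le_mul_of_nonneg_right q3 hr.le
      linarith
  · intro f x r hr hf hL y hy
    have h1 := P1 Γ f x r (c ^ p) hr (hcpp p) ((hcp p (by omega)).trans k7) hf
      (fun y hy => hL y (by linarith)) y (by linarith)
    refine h1.mono ?_
    have h2 : C1 * (c ^ p) ^ θ1 ≤ c ^ 3 / 2 := by
      have h3 : (c ^ p) ^ θ1 ≤ c ^ 4 := K1_rp hc hc1 hp4
      have h4 : C1 * c ^ 4 = (C1 * c) * c ^ 3 := by ring
      have h5 : C1 * (c ^ p) ^ θ1 ≤ C1 * c ^ 4 :=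
        mul_le_mul_of_nonneg_left h3 (by linarith)
      have h6 : (C1 * c) * c ^ 3 ≤ 1 / 2 * c ^ 3 := mul_le_mul_of_nonneg_right kC1 (hcpp 3).le
      linarith
    have h3 := mul_le_mul_of_nonneg_right h2 hr.le
    change C1 * (c ^ p) ^ θ1 * r ≤ c ^ 3 * r / 2
    linarith
  · intro f g x r hr hf hg hle
    refine (Sa N1 hN1a Γ f g x r hr hf hg hle).mono hr.le ?_
    have h1 : (2 * c) ^ E = 2 ^ E * c * c ^ (E - 1) := by
      rw [mul_pow, mul_assoc, ← pow_succ', Nat.sub_add_cancel (by omega)]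
    rw [h1]
    calc 2 ^ E * c * c ^ (E - 1) ≤ 1 * c ^ (E - 1) :=
          mul_le_mul_of_nonneg_right kE (hcpp _).le
      _ = c ^ (E - 1) := one_mul _
      _ ≤ c ^ p := hanti _ _ (by omega)
  · intro f g x r hr hf hg hle
    refine (Sb N1 hN1b Γ f g x r hr hf hg hle).mono hr.le ?_
    rw [← pow_mul]
  · intro f g x r hr hf hg hle
    refine (Sb N2 hN2b Γ f g x r hr hf hg hle).mono hr.le ?_
    rw [← pow_mul]
  · intro f g x r hr hf hg hLg hle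
    exact Gn Γ f g x r η3 N2 hr hη3 n5 hN2c hf hg hLg hle
  · intro f ψ x x' hA hx hL
    refine (Ch Γ f ψ x x' (c ^ (3 * E)) hA.1 hA.2 hx (hcpp _)
      ((hcp _ (by omega)).trans k8) hL).mono (hA.2 x' right_mem_uIcc).1.le ?_
    have h3 : (c ^ (3 * E)) ^ θ2 ≤ c ^ (p + 1) := by
      refine K1_rp hc hc1 (hE1.trans ?_)
      refine mul_le_mul_of_nonneg_right ?_ hθ2.le
      push_cast
      have : (0 : ℝ) ≤ E := Nat.cast_nonneg E
      linarith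
    have h5 : C2 * (c ^ (3 * E)) ^ θ2 ≤ C2 * c ^ (p + 1) :=
      mul_le_mul_of_nonneg_left h3 (by linarith)
    have h4 : C2 * c ^ (p + 1) = (C2 * c) * c ^ p := by ring
    have h6 : (C2 * c) * c ^ p ≤ 1 * c ^ p := mul_le_mul_of_nonneg_right kC2 (hcpp p).le
    linarith
  · intro f ψ x x' hA hx hL
    exact (Ch Γ f ψ x x' (2 * κ) hA.1 hA.2 hx (by positivity) (by linarith) hL).mono
      (hA.2 x' right_mem_uIcc).1.le (Qa (2 * κ) (by positivity) (by linarith))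
  · intro f x r hr hf h y hy
    have hQ : 0 < (8 * (N1 : ℝ) + 2) * η3 := by positivity
    have h1 := P4 Γ f x r ((8 * (N1 : ℝ) + 2) * η3) hr hQ n2 hf
      (fun y hy => h y (by linarith)) y (by linarith)
    refine h1.mono (mul_le_mul_of_nonneg_right ?_ hr.le)
    exact Qd _ hQ n3
  · intro f ψ x x' hA hx h
    have hQ : 0 < (8 * (N2 : ℝ) + 2) * η2 := by positivity
    have hxx := hA.2 x left_mem_uIcc
    have hC3Q : 0 < C3 * ((8 * (N2 : ℝ) + 2) * η2) ^ θ3 := by positivity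
    have hQc := Qc _ hQ m3
    have h1 : LL f x (ψ x) (C3 * ((8 * (N2 : ℝ) + 2) * η2) ^ θ3) := fun y hy =>
      P3 Γ f x (ψ x) ((8 * (N2 : ℝ) + 2) * η2) hxx.1 hQ m2 hxx.2
        (fun y hy => h y (by linarith)) y (by linarith [hxx.1])
    have h2 := Ch Γ f ψ x x' _ hA.1 hA.2 (hx.trans (by linarith [hxx.1])) hC3Q
      (hQc.trans (min_le_left _ _)) h1
    have hx' := (hA.2 x' right_mem_uIcc).1
    have h3 := h2 x' (by rw [sub_self, abs_zero]; positivity)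
    refine h3.mono ?_
    have h4 := Qb _ hC3Q (hQc.trans (min_le_right _ _))
    have h5 := mul_le_mul_of_nonneg_right h4 hx'.le
    change _ ≤ κ * ψ x' / 3
    linarith

end Pool.Agent.H52.GS
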