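import Mathlib
import Pool.Agent.H52.GS.F8
import Pool.Agent.H52.GS.K1
import Pool.Agent.H52.GS.E1
import Pool.Agent.H52.GS.E2

/-!
# GS-Main: the contradiction

Hypotheses of `main_core`: `hcom` (Margulis lemma: the squares of near-identity elements commute)
and `hthk` (thickness of almost all points).

PROOF.  `cst_exists`: `e`.  `stages`: `ε0`.  `c0` from `h.expd`.
`ε = min ε0 (c0/80)`, so `40 ε < c0`.  `choose_pt` with `ε` and `τ = c κ`: `re, α, β, a, ρ`; this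
gives `Geo Γ ηT e α β a re (XX Γ ε re)`.
For `w ∈ Γ` take `n` with `w ∈ BB S n ⊆ BB S (n+1)` (`hgen`, `BB_mono`) and the `φ` from `stages` with
`m = n`: for `|x - a| ≤ ph0 a` all points `z` between `a` and `x` satisfy `φ z = ph0 z > 0`
(`|z - a| ≤ ph0 α β a = min (a - α) (β - a)/10000`, so `z ∈ Ioo α β`), so `x ∈ JJ φ a` and
`Uni w x (ph0 x/2)`, `deriv w x * ph0 x ≤ 20 ε`.  `no_expand` finishes.
-/

set_option autoImplicit false
open Set Filter Topology MeasureTheory Metric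

namespace Pool.Agent.H52.GS

theorem main_core {Γ : Subgroup (ℝ ≃o ℝ)} (h : Gp Γ) {ηM ηT : ℝ} (hηM : 0 < ηM) (hηT : 0 < ηT)
    (hcom : ∀ x R : ℝ, 0 < R → R ≤ 1 → ∀ f ∈ Γ, ∀ g ∈ Γ, NI f x R (ηM * R) →
        NI g x R (ηM * R) → f ^ 2 * g ^ 2 = g ^ 2 * f ^ 2)
    (hthk : ∀ᵐ a : ℝ, ∀ ρ0 : ℝ, 0 < ρ0 →
      ∃ ρ : ℝ, 0 < ρ ∧ ρ ≤ ρ0 ∧ ∀ f ∈ Γ, f ≠ 1 → ¬ NI f a ρ (ηT * ρ / 2))
    {S : Set (ℝ ≃o ℝ)} (hSf : S.Finite)
    (hSΓ : S ⊆ Γ) (h1 : (1 : ℝ ≃o ℝ) ∈ S) (hgen : ∀ f ∈ Γ, ∃ n, f ∈ BB S n) : False := by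
  obtain ⟨e, he⟩ := cst_exists (Γ := Γ) hηM hηT hcom
  obtain ⟨ε0, hε0, hst⟩ := stages hηT h he hSf hSΓ h1
  obtain ⟨c0, hc0, hexp⟩ := h.expd
  have hε : 0 < min ε0 (c0 / 80) := lt_min hε0 (by positivity)
  have hε1 : min ε0 (c0 / 80) ≤ ε0 := min_le_left _ _
  have hε2 : min ε0 (c0 / 80) ≤ c0 / 80 := min_le_right _ _
  generalize min ε0 (c0 / 80) = ε at hε hε1 hε2
  have hc := he.c0
  have hc1 := he.c1
  have hκ := he.κ0
  have hκ1 := he.κ1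
  obtain ⟨re, α, β, a, ρ, hre, hα, hβ, hρ, hρ1, hρa, hρb, hαβ, hph, hthick, hnear⟩ :=
    choose_pt h hthk (ε := ε) (τ := e.c * e.κ) hε (by positivity) (by nlinarith)
  have hgeo : Geo Γ ηT e α β a re (XX Γ ε re) :=
    { hα := hα
      hβ := hβ
      ph1 := fun x => (hph x).2
      phre := fun x => (hph x).1
      thick := ⟨ρ, hρ, hρa, hρb, hthick⟩
      near := hnear }
  refine no_expand (Γ := Γ) (c0 := c0) (ε := ε) (α := α) (β := β) (a := a) hexp hε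
    (by linarith) hα hβ ?_
  intro w hw x hx
  obtain ⟨n, hn⟩ := hgen w hw
  obtain ⟨-, φ, hφ, hφw⟩ := hst ε re α β a hε hε1 hgeo n
  have ha0 : 0 < ph0 α β a := by linarith
  have hxJ : x ∈ JJ φ a := by
    intro y hy
    have hya : |y - a| ≤ |x - a| := abs_sub_left_of_mem_uIcc hy
    have h2 := (abs_le.1 (ph0_lip α β y a)).1
    rw [hφ y (by linarith)]
    have h3 : |y - a| / 10000 ≤ ph0 α β a / 10000 := by linarith
    linarith
  have h4 := hφw w (BB_mono h1 (Nat.le_succ n) hn) x hxJ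
  rwa [hφ x (by linarith)] at h4

end Pool.Agent.H52.GS
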