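import Mathlib
import Pool.Agent.H52.GS.Main
import Pool.Agent.H25.TS.U3
import Pool.Agent.H25.TS.U4

/-!
# GS-Full: the contradiction without any hypothesis on torsion

`A` is an invariant measurable set which is neither null nor conull in any interval.  `margulis_sq`
(the squares of near-identity elements commute) and `thick_ae` (almost every point is thick) are
the hypotheses of `main_core`.
-/

set_option autoImplicit false
open Set Filter Topology MeasureTheory Metric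

namespace Pool.Agent.H52.GS

theorem main_full {Γ : Subgroup (ℝ ≃o ℝ)} (h : Gp Γ) {A : Set ℝ} (hA : MeasurableSet A)
    (hinv : ∀ f ∈ Γ, ∀ x, f x ∈ A ↔ x ∈ A)
    (hpos : ∀ x y : ℝ, x < y → volume (A ∩ Ioo x y) ≠ 0 ∧ volume (Ioo x y \ A) ≠ 0)
    {S : Set (ℝ ≃o ℝ)} (hSf : S.Finite)
    (hSΓ : S ⊆ Γ) (h1 : (1 : ℝ ≃o ℝ) ∈ S) (hgen : ∀ f ∈ Γ, ∃ n, f ∈ BB S n) : False := by
  obtain ⟨ηM, hηM, hcom⟩ := H25.TS.margulis_sq h
  obtain ⟨ηT, hηT, hthk⟩ := H25.TS.thick_ae h hA hinv hpos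
  refine main_core h (ηT := 2 * ηT) hηM (by positivity) hcom ?_ hSf hSΓ h1 hgen
  refine hthk.mono fun a ha ρ0 hρ0 => ?_
  obtain ⟨ρ, hρ, hρ1, hN⟩ := ha ρ0 hρ0
  refine ⟨ρ, hρ, hρ1, fun f hf hf1 hNI => hN f hf hf1 ?_⟩
  have e : 2 * ηT * ρ / 2 = ηT * ρ := by ring
  rwa [e] at hNI

end Pool.Agent.H52.GS
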