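import Mathlib
import Pool.Agent.H52.GS.C7

/-!
# GS-C8: displacement of commuting elements at a generic point

PROOF.  Let `c` be as in `hyp_data` (for `g = f0`), `c z = z`, and let `σ, a'` be as in `stab_facts`
for `c` (so every `f ∈ Γ` fixing a point of `K = Fix c = Fix σ` is a power of `σ`).
`K` is closed, invariant under `TT^k` and nonempty, so there are
`zm = sSup {y ≤ a | c y = y}` and `zp = sInf {y ≥ a | c y = y}` in `K`, `zm < a < zp` (`c a ≠ a`
by `ha`, as `c ≠ 1`), and no point of `K` lies in `(zm, zp)`.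
`σ a ≠ a` (since `σ ≠ 1`: `ha`).  Put
`d = min (min (a - zm) (zp - a)) (min |σ a - a| |σ⁻¹ a - a|) > 0`.
Let `f ∈ Γ`, `f ≠ 1`, `f f0 = f0 f`, so `f c = c f` and `f K = K`.
Case 1: `f zp = zp`.  Then `f = σ^j`, `j ≠ 0` (as `f ≠ 1`).  If `a < σ a` (the other case is
symmetric) then by `zpow_lt` `(σ^j) a ≥ σ a` for `j ≥ 1` and `(σ^j) a ≤ σ⁻¹ a < a` for `j ≤ -1`; so
`|f a - a| ≥ min |σ a - a| |σ⁻¹ a - a| ≥ d`.
Case 2: `f zp > zp`.  Then `f zm ≥ zp`: `f zm ∈ K`, and if `f zm < zp` then `f zm ≤ zm`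
(no points of `K` in `(zm, zp)`), so `f⁻¹ zm ≥ zm`, and `f⁻¹ zp < zp` lies in `K`, so
`f⁻¹ zp ≤ zm ≤ f⁻¹ zm < f⁻¹ zp`, contradiction.  So `f a > f zm ≥ zp` and `f a - a ≥ zp - a ≥ d`.
Case 3: `f zp < zp`.  Then `f zp ∈ K`, `f zp ≤ zm`, so `f a < f zp ≤ zm` and
`a - f a ≥ a - zm ≥ d`.
-/

set_option autoImplicit false
open Set Filter Topology MeasureTheory Metric

namespace Pool.Agent.H52.GS

private theorem C8_pow {σ : ℝ ≃o ℝ} {a : ℝ} (hσ : σ a ≠ a) {j : ℤ} (hj : j ≠ 0) :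
    min |σ a - a| |(σ⁻¹ : ℝ ≃o ℝ) a - a| ≤ |(σ ^ j) a - a| := by
  have e1 : (σ ^ (1 : ℤ)) a = σ a := by rw [zpow_one]
  have e0 : (σ ^ (0 : ℤ)) a = a := by rw [zpow_zero]; rfl
  have em : (σ ^ (-1 : ℤ)) a = (σ⁻¹ : ℝ ≃o ℝ) a := by rw [zpow_neg_one]
  rcases lt_or_gt_of_ne hσ with h | h
  · have hm := zpow_gt h
    rcases lt_or_gt_of_ne hj with h1 | h1
    · have h2 : j ≤ -1 := by omega
      have h3 : (σ ^ (-1 : ℤ)) a ≤ (σ ^ j) a := hm.antitone h2
      have h4 : (σ ^ (0 : ℤ)) a < (σ ^ (-1 : ℤ)) a := hm (by norm_num)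
      rw [em] at h3 h4
      rw [e0] at h4
      refine (min_le_right _ _).trans ?_
      rw [abs_of_pos (by linarith), abs_of_pos (by linarith)]
      linarith
    · have h2 : 1 ≤ j := by omega
      have h3 : (σ ^ j) a ≤ (σ ^ (1 : ℤ)) a := hm.antitone h2
      rw [e1] at h3
      refine (min_le_left _ _).trans ?_
      rw [abs_of_neg (by linarith), abs_of_neg (by linarith)]
      linarith
  · have hm := zpow_lt h
    rcases lt_or_gt_of_ne hj with h1 | h1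
    · have h2 : j ≤ -1 := by omega
      have h3 : (σ ^ j) a ≤ (σ ^ (-1 : ℤ)) a := hm.monotone h2
      have h4 : (σ ^ (-1 : ℤ)) a < (σ ^ (0 : ℤ)) a := hm (by norm_num)
      rw [em] at h3 h4
      rw [e0] at h4
      refine (min_le_right _ _).trans ?_
      rw [abs_of_neg (by linarith), abs_of_neg (by linarith)]
      linarith
    · have h2 : 1 ≤ j := by omega
      have h3 : (σ ^ (1 : ℤ)) a ≤ (σ ^ j) a := hm.monotone h2
      rw [e1] at h3
      refine (min_le_left _ _).trans ?_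
      rw [abs_of_pos (by linarith), abs_of_pos (by linarith)]
      linarith

theorem cent_disp {Γ : Subgroup (ℝ ≃o ℝ)} (h : Gp Γ) {f0 : ℝ ≃o ℝ} (hf0 : f0 ∈ Γ)
    (hnt : ∀ q : ℕ, 0 < q → ∀ k : ℤ, f0 ^ q ≠ TT ^ k) {a : ℝ}
    (ha : ∀ f ∈ Γ, f a = a → f = 1) :
    ∃ d : ℝ, 0 < d ∧ ∀ f ∈ Γ, f ≠ 1 → f * f0 = f0 * f → d ≤ |f a - a| := by
  obtain ⟨c, hc, hc1, ⟨z, hz⟩, hcomm⟩ := hyp_data h hf0 hnt
  obtain ⟨σ, hσ, b, hb, hcσ, hfix, hst⟩ := stab_facts h hc hc1 hz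
  have hca : c a ≠ a := fun e => hc1 (ha c hc e)
  have hσa : σ a ≠ a := fun e => hca ((hfix a).1 e)
  have hσi : (σ⁻¹ : ℝ ≃o ℝ) a ≠ a := by
    intro e
    apply hσa
    have := congrArg σ e
    rw [RelIso.apply_inv_self] at this
    exact this.symm
  have hpi : 0 < 2 * Real.pi := by positivity
  -- the fixed set
  have hper : ∀ k : ℤ, c (z + k * (2 * Real.pi)) = z + k * (2 * Real.pi) := by
    intro k
    rw [per_int h hc, hz]
  have hcl : IsClosed {y : ℝ | c y = y} := isClosed_eq c.continuous continuous_id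
  have hclm : IsClosed {y : ℝ | c y = y ∧ y ≤ a} := hcl.inter isClosed_Iic
  have hclp : IsClosed {y : ℝ | c y = y ∧ a ≤ y} := hcl.inter isClosed_Ici
  have hnem : {y : ℝ | c y = y ∧ y ≤ a}.Nonempty := by
    obtain ⟨k, hk⟩ := exists_int_lt ((a - z) / (2 * Real.pi))
    refine ⟨z + k * (2 * Real.pi), hper k, ?_⟩
    rw [lt_div_iff₀ hpi] at hk
    linarith
  have hnep : {y : ℝ | c y = y ∧ a ≤ y}.Nonempty := by
    obtain ⟨k, hk⟩ := exists_int_gt ((a - z) / (2 * Real.pi))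
    refine ⟨z + k * (2 * Real.pi), hper k, ?_⟩
    rw [div_lt_iff₀ hpi] at hk
    linarith
  have hbm : BddAbove {y : ℝ | c y = y ∧ y ≤ a} := ⟨a, fun y hy => hy.2⟩
  have hbp : BddBelow {y : ℝ | c y = y ∧ a ≤ y} := ⟨a, fun y hy => hy.2⟩
  set zm := sSup {y : ℝ | c y = y ∧ y ≤ a} with hzm
  set zp := sInf {y : ℝ | c y = y ∧ a ≤ y} with hzp
  obtain ⟨czm, hm1⟩ : c zm = zm ∧ zm ≤ a := hclm.csSup_mem hnem hbm
  obtain ⟨czp, hp1⟩ : c zp = zp ∧ a ≤ zp := hclp.csInf_mem hnep hbp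
  have hm2 : zm < a := lt_of_le_of_ne hm1 (fun e => hca (by rw [← e]; exact czm))
  have hp2 : a < zp := lt_of_le_of_ne hp1 (fun e => hca (by rw [e]; exact czp))
  have gap : ∀ y, c y = y → y ≤ zm ∨ zp ≤ y := by
    intro y hy
    rcases le_total y a with h1 | h1
    · exact Or.inl (le_csSup hbm ⟨hy, h1⟩)
    · exact Or.inr (csInf_le hbp ⟨hy, h1⟩)
  refine ⟨min (min (a - zm) (zp - a)) (min |σ a - a| |(σ⁻¹ : ℝ ≃o ℝ) a - a|), ?_, ?_⟩
  · refine lt_min (lt_min (by linarith) (by linarith)) (lt_min ?_ ?_)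
    · exact abs_pos.2 (sub_ne_zero.2 hσa)
    · exact abs_pos.2 (sub_ne_zero.2 hσi)
  intro f hf hf1 hff
  have hfc := hcomm f hf hff
  have hK : ∀ y, c y = y → c (f y) = f y := by
    intro y hy
    have := congrArg (fun g : ℝ ≃o ℝ => g y) hfc
    simp only [RelIso.mul_apply] at this
    rw [← this, hy]
  have hKi : ∀ y, c y = y → c ((f⁻¹ : ℝ ≃o ℝ) y) = (f⁻¹ : ℝ ≃o ℝ) y := by
    intro y hy
    apply f.injective
    have := congrArg (fun g : ℝ ≃o ℝ => g ((f⁻¹ : ℝ ≃o ℝ) y)) hfc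
    simp only [RelIso.mul_apply, RelIso.apply_inv_self] at this
    rw [this, hy, RelIso.apply_inv_self]
  rcases lt_trichotomy (f zp) zp with hlt | heq | hgt
  · -- case 3
    have h1 : f zp ≤ zm := by
      rcases gap _ (hK zp czp) with h1 | h1
      · exact h1
      · exact absurd hlt (not_lt.2 h1)
    have h2 : f a < f zp := f.strictMono hp2
    refine (min_le_left _ _).trans ((min_le_left _ _).trans ?_)
    rw [abs_of_neg (by linarith)]
    linarith
  · -- case 1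
    obtain ⟨j, hj⟩ := hst zp czp f hf heq
    have hj0 : j ≠ 0 := by
      intro e
      apply hf1
      rw [hj, e, zpow_zero]
    refine (min_le_right _ _).trans ?_
    rw [hj]
    exact C8_pow hσa hj0
  · -- case 2
    have h1 : zp ≤ f zm := by
      rcases gap _ (hK zm czm) with h1 | h1
      · exfalso
        have i1 : zm ≤ (f⁻¹ : ℝ ≃o ℝ) zm := by
          have := (f⁻¹ : ℝ ≃o ℝ).monotone h1
          rwa [RelIso.inv_apply_self] at this
        have i2 : (f⁻¹ : ℝ ≃o ℝ) zp < zp := by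
          have := (f⁻¹ : ℝ ≃o ℝ).strictMono hgt
          rwa [RelIso.inv_apply_self] at this
        have i3 : (f⁻¹ : ℝ ≃o ℝ) zm < (f⁻¹ : ℝ ≃o ℝ) zp :=
          (f⁻¹ : ℝ ≃o ℝ).strictMono (hm2.trans hp2)
        rcases gap _ (hKi zp czp) with i4 | i4
        · linarith
        · linarith
      · exact h1
    have h2 : f zm < f a := f.strictMono hm2
    refine (min_le_left _ _).trans ((min_le_right _ _).trans ?_)
    rw [abs_of_pos (by linarith)]
    linarith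

end Pool.Agent.H52.GS
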