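import Mathlib
import Pool.Agent.H52.GS.M2
import Pool.Agent.H52.GS.C8

/-!
# GS-C9: thick scales at a generic point

PROOF.  `hnt`, `hcom` are the two properties of `ηM` from `margulis`.  Suppose the claim fails:
for every `ρ ∈ (0, ρ0]` there is `f ∈ Γ`, `f ≠ 1`, `NI f a ρ (ηM ρ/2)`.  Let
`ρ k = min ρ0 1 / 2^k` and choose such `f k` for `ρ k`.
`f k` has `NI (f k) a (ρ (k+1)) (ηM ρ (k+1))` (`NI.mono`; `ηM ρ k / 2 = ηM ρ (k+1)`), and `f (k+1)`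
has `NI (f (k+1)) a (ρ (k+1)) (ηM ρ (k+1))`.  So `f k` and `f (k+1)` commute (`hcom`), and every
`f k` is not a torsion element (`hnt`, with `NI.mono`).
By induction `f 0` commutes with `f k`: `f 0` and `f (k+1)` both commute with `f k`, use
`cent_comm`.
`cent_disp` for `f0 = f 0` gives `d > 0` with `d ≤ |f k a - a|` for all `k`.  But
`|f k a - a| ≤ ηM ρ k / 2 → 0` (`NI` at the centre).  Contradiction.
-/

set_option autoImplicit false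
open Set Filter Topology MeasureTheory Metric

namespace Pool.Agent.H52.GS

theorem c9_centre {f : ℝ ≃o ℝ} {a r e : ℝ} (hr : 0 < r) (h : NI f a r e) : |f a - a| ≤ e := by
  obtain ⟨F, F', hF, -, hb⟩ := h
  have h1 := (hb (a : ℂ) (mem_ball_self hr)).1
  have h2 : F (a : ℂ) = ((f a : ℝ) : ℂ) := hF.2 a (by rw [sub_self, abs_zero]; exact hr)
  rw [h2, ← Complex.ofReal_sub, Complex.norm_real, Real.norm_eq_abs] at h1
  exact h1

theorem thick {Γ : Subgroup (ℝ ≃o ℝ)} (h : Gp Γ) {ηM : ℝ} (hηM : 0 < ηM)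
    (hnt : ∀ x R : ℝ, 0 < R → R ≤ 1 → ∀ f ∈ Γ, NI f x R (ηM * R) → f ≠ 1 →
        ∀ q : ℕ, 0 < q → ∀ k : ℤ, f ^ q ≠ TT ^ k)
    (hcom : ∀ x R : ℝ, 0 < R → R ≤ 1 → ∀ f ∈ Γ, ∀ g ∈ Γ, NI f x R (ηM * R) →
        NI g x R (ηM * R) → f * g = g * f)
    {a : ℝ} (ha : ∀ f ∈ Γ, f a = a → f = 1) {ρ0 : ℝ} (hρ0 : 0 < ρ0) :
    ∃ ρ : ℝ, 0 < ρ ∧ ρ ≤ ρ0 ∧ ∀ f ∈ Γ, f ≠ 1 → ¬ NI f a ρ (ηM * ρ / 2) := by
  by_contra hcon
  have hcon' : ∀ ρ : ℝ, 0 < ρ → ρ ≤ ρ0 → ∃ f, f ∈ Γ ∧ f ≠ 1 ∧ NI f a ρ (ηM * ρ / 2) := by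
    intro ρ h1 h2
    by_contra h3
    refine hcon ⟨ρ, h1, h2, fun f hf hf1 hN => h3 ⟨f, hf, hf1, hN⟩⟩
  obtain ⟨r, hr⟩ : ∃ r : ℕ → ℝ, ∀ k, r k = min ρ0 1 * (1 / 2) ^ k := ⟨_, fun k => rfl⟩
  have hm : 0 < min ρ0 1 := lt_min hρ0 one_pos
  have hr0 : ∀ k, 0 < r k := fun k => by
    rw [hr]
    positivity
  have hpow : ∀ k : ℕ, ((1 : ℝ) / 2) ^ k ≤ 1 := fun k => pow_le_one₀ (by norm_num) (by norm_num)
  have hrm : ∀ k, r k ≤ min ρ0 1 := fun k => by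
    rw [hr]
    exact mul_le_of_le_one_right hm.le (hpow k)
  have hr1 : ∀ k, r k ≤ 1 := fun k => (hrm k).trans (min_le_right _ _)
  have hrs : ∀ k, r (k + 1) = r k / 2 := fun k => by
    rw [hr, hr, pow_succ]
    ring
  choose f hf hf1 hfN using fun k => hcon' (r k) (hr0 k) ((hrm k).trans (min_le_left _ _))
  have hA : ∀ k, NI (f k) a (r k) (ηM * r k) := by
    intro k
    have h0 : 0 < ηM * r k := mul_pos hηM (hr0 k)
    refine (hfN k).mono ?_ ?_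
    · rw [sub_self, abs_zero, zero_add]
    · linarith
  have hB : ∀ k, NI (f k) a (r (k + 1)) (ηM * r (k + 1)) := by
    intro k
    have h0 := hr0 k
    refine (hfN k).mono ?_ ?_
    · rw [sub_self, abs_zero, zero_add, hrs]
      linarith
    · rw [hrs]
      exact le_of_eq (by ring)
  have hc : ∀ k, f k * f (k + 1) = f (k + 1) * f k := fun k =>
    hcom a (r (k + 1)) (hr0 _) (hr1 _) (f k) (hf k) (f (k + 1)) (hf (k + 1)) (hB k) (hA (k + 1))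
  have hn : ∀ k, ∀ q : ℕ, 0 < q → ∀ j : ℤ, f k ^ q ≠ TT ^ j := fun k =>
    hnt a (r k) (hr0 k) (hr1 k) (f k) (hf k) (hA k) (hf1 k)
  have h0 : ∀ k, f k * f 0 = f 0 * f k := by
    intro k
    induction k with
    | zero => rfl
    | succ k ih => exact cent_comm h (hf (k + 1)) (hf 0) (hf k) (hn k) (hc k).symm ih.symm
  obtain ⟨d, hd0, hd⟩ := cent_disp h (hf 0) (hn 0) ha
  obtain ⟨k, hk⟩ := exists_pow_lt_of_lt_one (div_pos hd0 hηM) (show (1 / 2 : ℝ) < 1 by norm_num)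
  have h1 := hd (f k) (hf k) (hf1 k) (h0 k)
  have h2 := c9_centre (hr0 k) (hfN k)
  have h3 : r k ≤ (1 / 2) ^ k := by
    rw [hr]
    exact mul_le_of_le_one_left (by positivity) (min_le_right _ _)
  have h4 : r k * ηM < d := (lt_div_iff₀ hηM).1 (lt_of_le_of_lt h3 hk)
  have h5 := mul_pos hηM (hr0 k)
  linarith

end Pool.Agent.H52.GS
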