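import Mathlib
import Pool.Agent.H52.GS.Main
import Pool.Agent.H52.GS.C9

/-!
# GS-Main1: the contradiction for groups with bounded torsion
-/

set_option autoImplicit false
open Set Filter Topology MeasureTheory Metric

namespace Pool.Agent.H52.GS

theorem main_false {Γ : Subgroup (ℝ ≃o ℝ)} (h : Gp Γ)
    (htor : ∃ Q : ℕ, 0 < Q ∧ ∀ f ∈ Γ, (∃ q : ℕ, 0 < q ∧ ∃ k : ℤ, f ^ q = TT ^ k) →
      ∃ k : ℤ, f ^ Q = TT ^ k)
    {S : Set (ℝ ≃o ℝ)} (hSf : S.Finite)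
    (hSΓ : S ⊆ Γ) (h1 : (1 : ℝ ≃o ℝ) ∈ S) (hgen : ∀ f ∈ Γ, ∃ n, f ∈ BB S n) : False := by
  obtain ⟨ηM, hηM, hnt, hcom⟩ := margulis h htor
  exact main_core h hηM hηM (fun x R hR hR1 f hf g hg h2 h3 =>
    ((show Commute f g from hcom x R hR hR1 f hf g hg h2 h3).pow_pow 2 2).eq)
    ((e1_fix h).mono fun a ha ρ0 hρ0 => thick h hηM hnt hcom ha hρ0) hSf hSΓ h1 hgen

end Pool.Agent.H52.GS
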